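import Mathlib.LinearAlgebra.FreeModule.PID
import Mathlib.Algebra.BigOperators.Field
import Mathlib.Topology.Sheaves.Presheaf
import Mathlib.Tactic.Monotonicity.Lemmas
import Mathlib.RingTheory.Flat.TorsionFree
import Mathlib.Data.Int.Star
import Mathlib.Algebra.Order.Ring.Star
import Mathlib.LinearAlgebra.Lagrange
import Mathlib.RingTheory.PicardGroup
import Mathlib.Algebra.Order.Star.Real
import Mathlib.Analysis.Normed.Module.Completion
import Mathlib.FieldTheory.SeparablyGenerated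
import Mathlib.RingTheory.Finiteness.ModuleFinitePresentation
import Mathlib.Analysis.Normed.Field.WithAbs
import Mathlib.Combinatorics.SimpleGraph.Basic
import Mathlib.Analysis.Normed.Field.Ultra
import Mathlib.Analysis.Normed.Unbundled.SpectralNorm
import Mathlib.Analysis.Normed.Field.Instances
import Mathlib.Analysis.Polynomial.CauchyBound
import Mathlib.FieldTheory.Relrank
import Mathlib.RingTheory.PiTensorProduct
import Mathlib.RingTheory.SimpleRing.Principal
import Mathlib.Order.CompletePartialOrder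
import Mathlib.RingTheory.TotallySplit
import Mathlib.RingTheory.Henselian
import Mathlib.RingTheory.RegularLocalRing.Defs
import Mathlib.Tactic.Polynomial.Basic

-- ======== part 0: formerly Pool.Agent.MP_19ffc6_ag.LU.Defs
section MrgPart0

/-! Definitions for PROJECT LU1: local uniformization in rational rank at least `n - 1`. -/

namespace Pool.Agent.MP_19ffc6_ag.LU

open Polynomial

/-- `k` is trivially valued in `Ω` and is the residue field of `Ω`. -/
class Ctx (k Ω : Type*) [Field k] [NontriviallyNormedField Ω] [Algebra k Ω] : Prop where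
  norm_alg : ∀ c : k, c ≠ 0 → ‖algebraMap k Ω c‖ = 1
  res : ∀ a : Ω, ‖a‖ ≤ 1 → ∃ c : k, ‖a - algebraMap k Ω c‖ < 1

/-- Polynomials in monomials and one more variable: the point `(α, j)` stands for `mon α * y ^ j`. -/
abbrev Pol (k : Type*) [Field k] := (ℝ × ℕ) →₀ k

/-- `B` is the level and `μ` the order of `Φ`. -/
def Lead {k : Type*} [Field k] (Φ : Pol k) (B : ℝ) (μ : ℕ) : Prop :=
  (∀ x ∈ Φ.support, B ≤ x.1) ∧ (B, μ) ∈ Φ.support ∧ ∀ j < μ, (B, j) ∉ Φ.support

/-- `α` lies in `p Λ`. -/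
def PMul (p : ℕ) (Λ : AddSubgroup ℝ) (α : ℝ) : Prop := ∃ β ∈ Λ, α = p * β

/-- The monomial `x` has negative level and is a `p`-th power. -/
def PW (p : ℕ) (Λ : AddSubgroup ℝ) (x : ℝ × ℕ) : Prop := x.1 < 0 ∧ PMul p Λ x.1 ∧ p ∣ x.2

section

variable {Ω : Type*} [NontriviallyNormedField Ω]

/-- The additive valuation. -/
noncomputable def nu (a : Ω) : ℝ := - Real.log ‖a‖

variable (Ω) in
/-- A stage: a finitely generated full group of values, a multiplicative section `mon`,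
and one more coordinate `y`. -/
structure Stage where
  Λ : AddSubgroup ℝ
  fg : Λ.FG
  full : ∀ a : Ω, a ≠ 0 → ∃ d : ℕ, 0 < d ∧ (d : ℝ) * nu a ∈ Λ
  mon : ℝ → Ω
  mon_add : ∀ α ∈ Λ, ∀ β ∈ Λ, mon (α + β) = mon α * mon β
  norm_mon : ∀ α ∈ Λ, ‖mon α‖ = Real.exp (-α)
  y : Ω
  norm_y : ‖y‖ < 1

/-- The same stage with another last coordinate. -/
def Stage.withY (s : Stage Ω) (y' : Ω) (h : ‖y'‖ < 1) : Stage Ω :=
  { s with y := y', norm_y := h }

/-- The generators of a stage. -/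
def Stage.gens (s : Stage Ω) : Set Ω := s.mon '' s.Λ ∪ {s.y}

/-- The unit attached to a lattice extension. -/
noncomputable def Stage.u (s : Stage Ω) (w : Ω) (d : ℕ) : Ω := w ^ d / s.mon (d * nu w)

/-- `s'` has the lattice `Λ + ℤ ν(w)` and monomials built from those of `s` and `w`. -/
structure IsExt (s : Stage Ω) (w : Ω) (d : ℕ) (σ : ℝ → ℤ) (s' : Stage Ω) : Prop where
  w_ne : w ≠ 0
  d_pos : 0 < d
  dvd_iff : ∀ j : ℤ, (j : ℝ) * nu w ∈ s.Λ ↔ (d : ℤ) ∣ j
  lat : s'.Λ = s.Λ ⊔ AddSubgroup.zmultiples (nu w)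
  σ_add : ∀ β ∈ s'.Λ, ∀ β' ∈ s'.Λ, σ (β + β') = σ β + σ β'
  σ_mem : ∀ β ∈ s'.Λ, β - σ β * nu w ∈ s.Λ
  mon_eq : ∀ β ∈ s'.Λ, s'.mon β = s.mon (β - σ β * nu w) * w ^ σ β

variable (k : Type*) [Field k] [Algebra k Ω]

/-- The rational function field of a stage. -/
def Stage.M (s : Stage Ω) : IntermediateField k Ω := IntermediateField.adjoin k s.gens

/-- The ring generated by the integral monomials and `y`. -/
def Stage.R0 (s : Stage Ω) : Subalgebra k Ω :=
  Algebra.adjoin k (s.mon '' {α | α ∈ s.Λ ∧ 0 ≤ α} ∪ {s.y})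

variable {k} in
/-- Localization of a subalgebra at its elements of norm one. -/
def loc (A : Subalgebra k Ω) : Subalgebra k Ω where
  carrier := {x | ∃ a ∈ A, ∃ b ∈ A, ‖b‖ = 1 ∧ x = a / b}
  mul_mem' := by
    rintro _ _ ⟨a, ha, b, hb, h, rfl⟩ ⟨a', ha', b', hb', h', rfl⟩
    exact ⟨a * a', A.mul_mem ha ha', b * b', A.mul_mem hb hb', by rw [norm_mul, h, h', one_mul],
      div_mul_div_comm _ _ _ _⟩
  add_mem' := by
    rintro _ _ ⟨a, ha, b, hb, h, rfl⟩ ⟨a', ha', b', hb', h', rfl⟩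
    have hb0 : b ≠ 0 := by rintro rfl; simp at h
    have hb0' : b' ≠ 0 := by rintro rfl; simp at h'
    exact ⟨a * b' + b * a', A.add_mem (A.mul_mem ha hb') (A.mul_mem hb ha'), b * b',
      A.mul_mem hb hb', by rw [norm_mul, h, h', one_mul], div_add_div _ _ hb0 hb0'⟩
  algebraMap_mem' c := ⟨_, A.algebraMap_mem c, 1, A.one_mem, norm_one, (div_one _).symm⟩

/-- The local ring of a stage. -/
def Stage.R (s : Stage Ω) : Subalgebra k Ω := loc (s.R0 k)

/-- A monomial times a unit of the local ring. -/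
def Stage.Good (s : Stage Ω) (b : Ω) : Prop :=
  ∃ α ∈ s.Λ, ∃ w ∈ s.R k, ‖w‖ = 1 ∧ b = s.mon α * w

/-- Evaluation of a polynomial at a stage. -/
noncomputable def Stage.ev (s : Stage Ω) : Pol k →ₗ[k] Ω :=
  Finsupp.linearCombination k fun x : ℝ × ℕ => s.mon x.1 * s.y ^ x.2

variable {k} in
/-- The polynomial only uses monomials of the lattice. -/
def Stage.Supp (s : Stage Ω) (Φ : Pol k) : Prop := ∀ x ∈ Φ.support, x.1 ∈ s.Λ

variable {k} in
/-- One transition: lattice extension by `y`, new coordinate `u - c`. -/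
structure IsStep (s : Stage Ω) (d : ℕ) (σ : ℝ → ℤ) (c : k) (s' : Stage Ω) : Prop
    extends IsExt s s.y d σ s' where
  c_ne : c ≠ 0
  y_eq : s'.y = s.u s.y d - algebraMap k Ω c
  triv : d = 1 → ∀ β, σ β = 0

/-- There is a transition from `s` to `s'`. -/
def Step (s s' : Stage Ω) : Prop := ∃ (d : ℕ) (σ : ℝ → ℤ) (c : k), IsStep s d σ c s'

/-- `s'` is reached from `s` by finitely many transitions. -/
def Le (s s' : Stage Ω) : Prop := Relation.ReflTransGen (Step k) s s'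

variable {k}

/-- Every element of `E` is separable over `M`. -/
def SepOver (M E : IntermediateField k Ω) : Prop := ∀ a ∈ E, IsSeparable M a

/-- The henselization: separable elements in the topological closure. -/
noncomputable def hens (M : IntermediateField k Ω) : IntermediateField k Ω :=
  (separableClosure M Ω).restrictScalars k ⊓
    (M.toSubfield.topologicalClosure.toIntermediateField fun c =>
      subset_closure (M.algebraMap_mem c))

/-- All automorphisms over `K` are isometries. -/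
def IsHens (K : IntermediateField k Ω) : Prop := ∀ (σ : Ω ≃ₐ[K] Ω) (a : Ω), ‖σ a‖ = ‖a‖

/-- A nonzero element with a power of exponent prime to `p` in `E`. -/
def Rad (p : ℕ) (E : IntermediateField k Ω) (a : Ω) : Prop :=
  a ≠ 0 ∧ ∃ n : ℕ, ¬ p ∣ n ∧ a ^ n ∈ E

/-- The stage is adapted to `E`. -/
def Adapted (p : ℕ) (E : IntermediateField k Ω) (s : Stage Ω) : Prop :=
  (∀ α ∈ s.Λ, Rad p E (s.mon α)) ∧ s.y ∈ E

/-- The value group of `E`. -/
def vg (E : IntermediateField k Ω) : AddSubgroup ℝ where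
  carrier := {γ | ∃ e ∈ E, e ≠ 0 ∧ nu e = γ}
  zero_mem' := ⟨1, E.one_mem, one_ne_zero, by simp [nu]⟩
  add_mem' := by
    rintro _ _ ⟨a, ha, ha0, rfl⟩ ⟨b, hb, hb0, rfl⟩
    refine ⟨a * b, E.mul_mem ha hb, mul_ne_zero ha0 hb0, ?_⟩
    simp only [nu, norm_mul]
    rw [Real.log_mul (norm_ne_zero_iff.2 ha0) (norm_ne_zero_iff.2 hb0)]; ring
  neg_mem' := by
    rintro _ ⟨a, ha, ha0, rfl⟩
    exact ⟨a⁻¹, E.inv_mem ha, inv_ne_zero ha0, by simp [nu]⟩

/-- The class of a real number modulo the value group of `E`. -/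
def cl (E : IntermediateField k Ω) (α : ℝ) : ℝ ⧸ vg E := QuotientAddGroup.mk α

/-- `a` lies in the line of class `c`. -/
def InLine (p : ℕ) (E : IntermediateField k Ω) (c : ℝ ⧸ vg E) (a : Ω) : Prop :=
  a = 0 ∨ (Rad p E a ∧ cl E (nu a) = c)

/-- `f` is a decomposition of `a` into lines. -/
def IsDec (p : ℕ) (E : IntermediateField k Ω) (a : Ω) (f : (ℝ ⧸ vg E) →₀ Ω) : Prop :=
  (∀ c, InLine p E c (f c)) ∧ a = ∑ c ∈ f.support, f c

/-- The ring generated by the valuation ring of `L` and the set `G`. -/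
def Aring (L : IntermediateField k Ω) (G : Set Ω) : Subalgebra k Ω :=
  Algebra.adjoin k ({a | a ∈ L ∧ ‖a‖ ≤ 1} ∪ G)

/-- `x` lies in the product of the maximal ideal of `L` with `A`. -/
def Small (L : IntermediateField k Ω) (A : Subalgebra k Ω) (x : Ω) : Prop :=
  ∃ m ∈ L, ‖m‖ < 1 ∧ ∃ a ∈ A, x = m * a

/-- `D` is a `k`-derivation on `K` with values in `Ω`. -/
structure IsDer (K : IntermediateField k Ω) (D : Ω → Ω) : Prop where
  add : ∀ a ∈ K, ∀ b ∈ K, D (a + b) = D a + D b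
  mul : ∀ a ∈ K, ∀ b ∈ K, D (a * b) = a * D b + b * D a
  const : ∀ c : k, D (algebraMap k Ω c) = 0

variable (k) in
/-- The terminal states of the engine. -/
def Term (p : ℕ) (flag : Prop) (s : Stage Ω) (Φ : Pol k) (B : ℝ) (μ : ℕ) : Prop :=
  B < 0 ∧ Lead Φ B μ ∧
    ((μ = 0 ∧ (flag → ¬ PMul p s.Λ B)) ∨ (flag ∧ s.y ≠ 0 ∧ 0 < μ ∧ μ < p ∧ PMul p s.Λ B))

/-- The data of an Artin-Schreier system in terminal form. -/
structure TermData (p : ℕ) (E Ep : IntermediateField k Ω) (s : Stage Ω) (ι : Type) where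
  z : ι → Ω
  nx : ι → ι
  Φ : ι → Pol k
  i0 : ι
  B : ℝ
  μ : ℕ
  nx_surj : Function.Surjective nx
  z_mem : ∀ i, z i ∈ Ep
  z_norm : ∀ i, ‖z i‖ ≤ Real.exp (-(B / p))
  z_not : z i0 ∉ s.M k
  supp : ∀ i, s.Supp (Φ i)
  eqn : ∀ i, z i ^ p = z (nx i) + s.ev k (Φ i)
  B_neg : B < 0
  lead : Lead (Φ i0) B μ
  other : ∀ i, i ≠ i0 → ∀ x ∈ (Φ i).support, B < x.1
  rad : Rad p E (z i0)
  line : ∀ β ∈ s.Λ, B = p * β → z i0 / s.mon β ∈ E

/-- What a terminal case delivers. -/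
def TermOut (p : ℕ) (E Ep : IntermediateField k Ω) (s : Stage Ω) {ι : Type} [Fintype ι]
    (z : ι → Ω) (s' : Stage Ω) : Prop :=
  Adapted p E s' ∧ s'.M k ≤ Ep ∧ SepOver (s'.M k) Ep ∧ (s.y = 0 → s'.y = 0) ∧
    ∃ W : IntermediateField k Ω, hens (s'.M k) ≤ W ∧ W ≤ Ep ∧ s.M k ≤ W ∧ (∀ i, z i ∈ W) ∧
      IntermediateField.relrank (hens (s'.M k)) W < (p : Cardinal) ^ Fintype.card ι

/-- The last coordinate of every stage with `Ω` algebraic over its field is transcendental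
over the monomials. -/
def NA (k Ω : Type*) [Field k] [NontriviallyNormedField Ω] [Algebra k Ω] : Prop :=
  ∀ s : Stage Ω, Algebra.IsAlgebraic (s.M k) Ω →
  Transcendental (IntermediateField.adjoin k (s.mon '' s.Λ)) s.y

/-- `A` is a smooth affine model of `F` inside the valuation ring containing `Z`. -/
def Model (F : IntermediateField k Ω) (Z : Finset Ω) (A : Subalgebra k Ω) : Prop :=
  A.FG ∧ A ≤ F.toSubalgebra ∧ (∀ a ∈ A, ‖a‖ ≤ 1) ∧ (∀ z ∈ Z, z ∈ A) ∧
    (∀ f ∈ F, ∃ a ∈ A, ∃ b ∈ A, b ≠ 0 ∧ f = a / b) ∧ Algebra.Smooth k A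

end

end Pool.Agent.MP_19ffc6_ag.LU

end MrgPart0

-- ======== part 1: formerly Pool.Agent.MP_19ffc6_ag.LU.Spec
section MrgPart1

/-! Module statements of PROJECT LU1.  Every module proves one `...Stmt`, under the standing
assumptions
`[Field k] [NontriviallyNormedField Ω] [IsUltrametricDist Ω] [Algebra k Ω] [IsAlgClosed k]
[IsAlgClosed Ω] [Ctx k Ω] [Fact p.Prime] [CharP k p] [CharP Ω p]`. -/

namespace Pool.Agent.MP_19ffc6_ag.LU

open Polynomial IntermediateField NNReal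

/-- Chain lemma: an infinite stationary chain of transitions is impossible. -/
def ChainStmt (p : ℕ) : Prop :=
  ∀ (Λ : AddSubgroup ℝ), Λ.FG → ∀ (S : ℕ → Finset (ℝ × ℕ)) (γ B : ℕ → ℝ) (h : ℕ), 0 < h →
    (∀ n, ∀ x ∈ S n, x.1 ∈ Λ) → (∀ n, γ n ∈ Λ) → (∀ n, 0 < γ n) → (∀ n, B n ∈ Λ) →
    (∀ n, B (n + 1) = B n + h * γ n) → (∀ n, B n < 0) → (∀ x ∈ S 0, B 0 ≤ x.1) →
    (∀ n, ∃ x ∈ S n, x.2 < h ∧ x.1 + x.2 * γ n = B n + h * γ n) →
    (∀ n, ∀ x' ∈ S (n + 1), ∃ x ∈ S n, ∃ t : ℕ,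
      (p : ℝ) ^ t * x'.1 = x.1 + x.2 * γ n ∧ p ^ t * x'.2 ≤ x.2) → False

/-- Perron lemma: finitely many nonnegative elements of a lattice are nonnegative combinations
of a positive basis. -/
def PerronStmt : Prop :=
  ∀ (Λ : AddSubgroup ℝ), Λ.FG → ∀ T : Finset ℝ, (∀ t ∈ T, t ∈ Λ ∧ 0 ≤ t) →
    ∃ (r : ℕ) (b : Fin r → ℝ), (∀ i, 0 < b i) ∧ LinearIndependent ℤ b ∧
      AddSubgroup.closure (Set.range b) = Λ ∧ ∀ t ∈ T, ∃ m : Fin r → ℕ, t = ∑ i, m i * b i

/-- Cleaning: removal of the `p`-th power monomials of negative level. -/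
def CleanStmt (k : Type*) [Field k] (p : ℕ) : Prop :=
  ∀ (Λ : AddSubgroup ℝ), Λ.FG → ∀ (P : Pol k → Prop),
    (∀ (Φ : Pol k) (β : ℝ) (j : ℕ) (c : k), P Φ → (∀ x ∈ Φ.support, x.1 ∈ Λ) → β ∈ Λ → β < 0 →
      ((p : ℝ) * β, p * j) ∈ Φ.support → c ^ p = Φ ((p : ℝ) * β, p * j) →
      P (Φ - Finsupp.single ((p : ℝ) * β, p * j) (c ^ p) + Finsupp.single (β, j) c)) →
    ∀ (Φ : Pol k) (B : ℝ), P Φ → (∀ x ∈ Φ.support, x.1 ∈ Λ) → (∀ x ∈ Φ.support, B ≤ x.1) →
      ∃ Φ' : Pol k, P Φ' ∧ (∀ x ∈ Φ'.support, x.1 ∈ Λ) ∧ (∀ x ∈ Φ'.support, ¬ PW p Λ x) ∧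
        (∀ x ∈ Φ'.support, B ≤ x.1) ∧ (∀ j, ¬ PW p Λ (B, j) → Φ' (B, j) = Φ (B, j)) ∧
        ∀ x' ∈ Φ'.support, ∃ x ∈ Φ.support, ∃ t : ℕ,
          (p : ℝ) ^ t * x'.1 = x.1 ∧ p ^ t * x'.2 = x.2

section

variable (k Ω : Type*) [Field k] [NontriviallyNormedField Ω] [Algebra k Ω] (p : ℕ)

/-- Elementary facts on henselian fields. -/
structure HB : Prop where
  fix : ∀ K : IntermediateField k Ω, Algebra.IsAlgebraic K Ω → ∀ a : Ω, IsSeparable K a →
    (∀ σ : Ω ≃ₐ[K] Ω, σ a = a) → a ∈ K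
  hens_le : ∀ K : IntermediateField k Ω, Algebra.IsAlgebraic K Ω → IsHens K →
    ∀ M : IntermediateField k Ω, M ≤ K → hens M ≤ K
  artin : ∀ K : IntermediateField k Ω, Algebra.IsAlgebraic K Ω → IsHens K →
    ∀ ε ∈ K, ‖ε‖ < 1 → ∃ δ ∈ K, δ ^ p - δ = ε
  rad : ∀ E : IntermediateField k Ω, Algebra.IsAlgebraic E Ω → IsHens E →
    ∀ u : Ω, Rad p E u → ‖u‖ = 1 → u ∈ E
  int : ∀ K : IntermediateField k Ω, Algebra.IsAlgebraic K Ω → IsHens K → ∀ a : Ω, ‖a‖ ≤ 1 →
    (∀ i, ‖((minpoly K a).coeff i : Ω)‖ ≤ 1) ∧ (‖a‖ = 1 → ‖((minpoly K a).coeff 0 : Ω)‖ = 1)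

/-- The henselization is henselian. -/
def HensStmt : Prop :=
  ∀ M : IntermediateField k Ω, Algebra.IsAlgebraic M Ω → IsHens (hens M)

/-- Finitely many integral elements of the henselization are rational in one henselian root. -/
def EtaStmt : Prop :=
  ∀ M : IntermediateField k Ω, ∀ Z : Finset Ω, (∀ z ∈ Z, z ∈ hens M ∧ ‖z‖ ≤ 1) →
    ∃ (η : Ω) (P : Polynomial Ω), η ∈ M ⊔ adjoin k (Z : Set Ω) ∧ ‖η‖ = 1 ∧ P.Monic ∧
      (∀ i, P.coeff i ∈ M ∧ ‖P.coeff i‖ ≤ 1) ∧ P.eval η = 0 ∧ ‖P.derivative.eval η‖ = 1 ∧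
      (∀ Q : Polynomial Ω, (∀ i, Q.coeff i ∈ M) → Q.eval η = 0 → Q.degree < P.degree → Q = 0) ∧
      ∀ z ∈ Z, ∃ (G : Polynomial Ω) (N : ℕ), (∀ i, G.coeff i ∈ M ∧ ‖G.coeff i‖ ≤ 1) ∧
        z * (η ^ N * P.derivative.eval η) = G.eval η

/-- Existence of lattice extensions. -/
def ExtStmt : Prop :=
  ∀ (s : Stage Ω) (w : Ω), w ≠ 0 → ∃ (d : ℕ) (σ : ℝ → ℤ) (s' : Stage Ω), IsExt s w d σ s' ∧
    s'.y = s.y ∧ (d = 1 → ∀ β, σ β = 0) ∧
    (¬ PMul p s'.Λ (nu w) → ∀ e : ℤ, 1 = σ (nu w) + d * e → ¬ (p : ℤ) ∣ e)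

/-- Properties of later stages. -/
structure LeStmt : Prop where
  step : ∀ s : Stage Ω, s.y ≠ 0 → ∃ s', Step k s s'
  M_eq : ∀ s s' : Stage Ω, Le k s s' → s'.M k = s.M k
  R_le : ∀ s s' : Stage Ω, Le k s s' → s.R k ≤ s'.R k
  good_mon : ∀ s s' : Stage Ω, Le k s s' → ∀ α ∈ s.Λ, s'.Good k (s.mon α)
  good : ∀ s s' : Stage Ω, Le k s s' → ∀ b, s.Good k b → s'.Good k b
  gen : ∀ s s' : Stage Ω, Le k s s' → ∀ B : Subalgebra k Ω,
    (∀ b ∈ B, s'.Good k b → b⁻¹ ∈ B) → s.gens ⊆ B → s'.gens ⊆ B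
  adapted : ∀ s s' : Stage Ω, Le k s s' → ∀ E : IntermediateField k Ω,
    Algebra.IsAlgebraic E Ω → IsHens E → Adapted p E s → Adapted p E s'
  y_zero : ∀ s s' : Stage Ω, Le k s s' → s.y = 0 → s' = s

/-- Rewriting a polynomial after one transition, with the order bounds. -/
def TransStmt : Prop :=
  ∀ (s s' : Stage Ω) (d : ℕ) (σ : ℝ → ℤ) (c : k), IsStep s d σ c s' →
    ∀ Φ : Pol k, s.Supp Φ → ∀ ε : ℝ, 0 < ε → ∃ (Φ' : Pol k) (w : Ω), s'.Supp Φ' ∧ w ∈ s'.R k ∧
      ‖w - 1‖ < ε ∧ s'.ev k Φ' = w * s.ev k Φ ∧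
      (∀ x' ∈ Φ'.support, ∃ x ∈ Φ.support,
        x'.1 = x.1 + x.2 * nu s.y ∧ (d = 1 → x'.2 ≤ x.2)) ∧
      ∀ (β : ℝ) (lo hi : ℕ), (∃ x ∈ Φ.support, x.1 + x.2 * nu s.y = β) →
        (∀ x ∈ Φ.support, x.1 + x.2 * nu s.y = β → lo ≤ x.2 ∧ x.2 ≤ hi) →
        (∃ i, (β, i) ∈ Φ'.support ∧ d * i + lo ≤ hi) ∧
        (PMul p s'.Λ β →
          (∀ x ∈ Φ.support, x.1 + x.2 * nu s.y = β → ¬ (PMul p s.Λ x.1 ∧ p ∣ x.2)) →
          ∃ i, (β, i + 1) ∈ Φ'.support ∧ ¬ p ∣ i + 1 ∧ d * i + lo ≤ hi)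

/-- The engine: any invariant stable under transitions and cleaning reaches a terminal state. -/
def EngineStmt : Prop :=
  ∀ (flag : Prop) (Inv : Stage Ω → Pol k → Prop),
    (∀ s Φ, Inv s Φ → s.Supp Φ → ∃ x ∈ Φ.support, x.1 < 0) →
    (∀ s Φ Φ', Inv s Φ → Φ'.support ⊆ Φ.support → s.ev k Φ' = s.ev k Φ → Inv s Φ') →
    (flag → ∀ (s : Stage Ω) (Φ : Pol k) (β : ℝ) (j : ℕ) (c : k), Inv s Φ → s.Supp Φ →
      β ∈ s.Λ → β < 0 →
      ((p : ℝ) * β, p * j) ∈ Φ.support → c ^ p = Φ ((p : ℝ) * β, p * j) →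
      Inv s (Φ - Finsupp.single ((p : ℝ) * β, p * j) (c ^ p) + Finsupp.single (β, j) c)) →
    (∀ s s' Φ, Inv s Φ → s.Supp Φ → Step k s s' → ∃ ε : ℝ, 0 < ε ∧
      ∀ (Φ' : Pol k) (w : Ω), w ∈ s'.R k → ‖w - 1‖ < ε → s'.ev k Φ' = w * s.ev k Φ →
        (∀ x' ∈ Φ'.support, ∃ x ∈ Φ.support, x'.1 = x.1 + x.2 * nu s.y) → Inv s' Φ') →
    ∀ s Φ, Inv s Φ → s.Supp Φ →
      ∃ s' Φ' B μ, Inv s' Φ' ∧ s'.Supp Φ' ∧ Term k p flag s' Φ' B μ

/-- Monomialization of finitely many elements of the field of a stage, and polynomial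
approximation of monomialized elements. -/
structure MonStmt : Prop where
  mon : ∀ (s : Stage Ω) (Z : Finset Ω), (∀ b ∈ Z, b ∈ s.M k ∧ b ≠ 0) →
    ∃ s', Le k s s' ∧ ∀ b ∈ Z, s'.Good k b
  approx : ∀ (s : Stage Ω) (b : Ω), s.Good k b → ∀ ε : ℝ, 0 < ε →
    ∃ Φ : Pol k, s.Supp Φ ∧ ‖b - s.ev k Φ‖ < ε

variable {k Ω} in
/-- The calculus of lines over a henselian field. -/
structure LineProps (E : IntermediateField k Ω) : Prop where
  add : ∀ c a b, InLine p E c a → InLine p E c b → InLine p E c (a + b)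
  smul : ∀ c a, ∀ e ∈ E, InLine p E c a → InLine p E c (e * a)
  mul : ∀ c c' a b, InLine p E c a → InLine p E c' b → InLine p E (c + c') (a * b)
  div : ∀ c a b, InLine p E c a → InLine p E c b → a / b ∈ E
  inj : ∀ a b, Rad p E a → Rad p E b → p • cl E (nu a) = p • cl E (nu b) →
    cl E (nu a) = cl E (nu b)
  norm_le : ∀ a f, IsDec p E a f → ∀ c, ‖f c‖ ≤ ‖a‖
  uniq : ∀ a f g, IsDec p E a f → IsDec p E a g → f = g
  dec_add : ∀ a b f g, IsDec p E a f → IsDec p E b g → IsDec p E (a + b) (f + g)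
  dec_sub : ∀ a b f g, IsDec p E a f → IsDec p E b g → IsDec p E (a - b) (f - g)
  dec_single : ∀ c a, InLine p E c a → IsDec p E a (Finsupp.single c a)
  dec_hens : ∀ s : Stage Ω, Adapted p E s → Algebra.IsAlgebraic (s.M k) Ω →
    ∀ l ∈ hens (s.M k), ∃ f, IsDec p E l f ∧ ∀ c, f c ∈ hens (s.M k)
  dec_sup : ∀ s : Stage Ω, Adapted p E s → Algebra.IsAlgebraic (s.M k) Ω →
    ∀ a ∈ hens (s.M k) ⊔ E, ∃ f, IsDec p E a f ∧ ∀ c, f c ∈ hens (s.M k) ⊔ E

/-- Lines over every henselian field. -/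
def LineStmt : Prop :=
  ∀ E : IntermediateField k Ω, Algebra.IsAlgebraic E Ω → IsHens E → LineProps p E

/-- Descent of an adapted stage. -/
def DownStmt : Prop :=
  ∀ (E Ep : IntermediateField k Ω) (t : Stage Ω), Algebra.IsAlgebraic E Ω → IsHens E → E ≤ Ep →
    Adapted p E t → t.M k ≤ Ep → SepOver (t.M k) Ep →
    ∃ t0 : Stage Ω, t0.M k ≤ E ∧ SepOver (t0.M k) E ∧ t0.y = t.y ∧
      relrank (hens (t0.M k)) E ≤ relrank (hens (t.M k)) Ep

/-- Degree of an Artin-Schreier system. -/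
def DegStmt : Prop :=
  ∀ (K : IntermediateField k Ω), Algebra.IsAlgebraic K Ω →
    ∀ (ι : Type) [Fintype ι] (z : ι → Ω) (nx : ι → ι), Function.Surjective nx →
    (∀ i, z i ^ p - z (nx i) ∈ K) → (∀ i, IsSeparable K (z i)) →
    (∀ c : ι → k, ∑ i, c i • z i ∈ K → c = 0) →
    ∀ W : IntermediateField k Ω, K ≤ W → (∀ i, z i ∈ W) →
      (p : Cardinal) ^ Fintype.card ι ≤ relrank K W

/-- An Artin-Schreier element is brought to terminal form. -/
def WildStmt : Prop :=
  ∀ (E : IntermediateField k Ω) (s : Stage Ω) (a : Ω), Algebra.IsAlgebraic E Ω → IsHens E →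
    Adapted p E s → SepOver (s.M k) (hens (s.M k) ⊔ E) →
    a ∈ hens (s.M k) ⊔ E → a ∉ hens (s.M k) → a ^ p - a ∈ hens (s.M k) →
    ∃ (t : Stage Ω) (ι : Type) (_ : Fintype ι) (T : TermData p E (hens (s.M k) ⊔ E) t ι),
      Le k s t ∧ ((T.μ = 0 ∧ ¬ PMul p t.Λ T.B) ∨ (t.y ≠ 0 ∧ 0 < T.μ ∧ T.μ < p ∧ PMul p t.Λ T.B)) ∧
      ∀ W : IntermediateField k Ω, hens (s.M k) ≤ W → (∀ i, T.z i ∈ W) →
        (p : Cardinal) ^ Fintype.card ι ≤ relrank (hens (s.M k)) W

/-- Degree bound by Nakayama's lemma. -/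
structure DStmt : Prop where
  inv : ∀ (L : IntermediateField k Ω), Algebra.IsAlgebraic L Ω → IsHens L →
    ∀ G : Set Ω, (∀ g ∈ G, ‖g‖ ≤ 1) → ∀ u ∈ Aring L G, ‖u‖ = 1 → u⁻¹ ∈ Aring L G
  deg : ∀ (L : IntermediateField k Ω), Algebra.IsAlgebraic L Ω → IsHens L →
    ∀ (ι : Type) [Fintype ι] (g : ι → Ω) (n : ι → ℕ), (∀ i, ‖g i‖ ≤ 1) → (∀ i, 0 < n i) →
    (∀ i, ∃ o ∈ L, ‖o‖ ≤ 1 ∧ Small L (Aring L (Set.range g)) (g i ^ n i - o)) →
    relrank L (L ⊔ adjoin k (Set.range g)) ≤ ((∏ i, n i : ℕ) : Cardinal)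

/-- Separability criterion by derivations. -/
def SepStmt : Prop :=
  ∀ (K : IntermediateField k Ω), K.FG → ∀ S S' : Set Ω, S ⊆ K → S' ⊆ K →
    SepOver (adjoin k S) K →
    (∀ D : Ω → Ω, IsDer K D → (∀ a ∈ S', D a = 0) → ∀ a ∈ S, D a = 0) →
    SepOver (adjoin k S') K

/-- Terminal case A: the new monomial is a root of the system. -/
def TermAStmt : Prop :=
  ∀ (E Ep : IntermediateField k Ω) (s : Stage Ω) (ι : Type) [Fintype ι]
    (T : TermData p E Ep s ι), Algebra.IsAlgebraic E Ω → IsHens E → E ≤ Ep → Adapted p E s →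
    s.M k ≤ Ep → SepOver (s.M k) Ep → T.μ = 0 → ¬ PMul p s.Λ T.B →
    ∃ s', TermOut p E Ep s T.z s'

/-- Terminal case B: the new last coordinate is a root of the system. -/
def TermBStmt : Prop :=
  ∀ (E Ep : IntermediateField k Ω) (s : Stage Ω) (ι : Type) [Fintype ι]
    (T : TermData p E Ep s ι), Algebra.IsAlgebraic E Ω → IsHens E → E ≤ Ep → Adapted p E s →
    s.M k ≤ Ep → SepOver (s.M k) Ep → s.y ≠ 0 → 0 < T.μ → T.μ < p → PMul p s.Λ T.B →
    ∃ s', TermOut p E Ep s T.z s'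

/-- Ramification theory: after a tame base change there is an Artin-Schreier subextension. -/
def GalStmt : Prop :=
  ∀ (L E : IntermediateField k Ω), Algebra.IsAlgebraic L Ω → IsHens L → L ≤ E → SepOver L E →
    relrank L E < Cardinal.aleph0 →
    ∃ T : Finset Ω, (∀ b ∈ T, b ≠ 0) ∧ ∀ K : IntermediateField k Ω, L ≤ K →
      (∀ b ∈ T, ∃ t : ℕ, ∃ m ∈ K, ‖m‖ = ‖b‖ ^ p ^ t) → ¬ E ≤ K →
      ∃ a ∈ K ⊔ E, a ∉ K ∧ a ^ p - a ∈ K

/-- Descent of a stage from the henselization of `F` to `F`. -/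
def DescStmt : Prop :=
  ∀ (F : IntermediateField k Ω) (s : Stage Ω), Algebra.IsAlgebraic (s.M k) Ω →
    s.M k ≤ hens F → F ≤ hens (s.M k) →
    ∃ s' : Stage Ω, s'.M k ≤ F ∧ F ≤ hens (s'.M k) ∧ Algebra.IsAlgebraic (s'.M k) Ω ∧
      (s.y = 0 → s'.y = 0)

/-- Elements with independent values are algebraically independent. -/
def IndStmt : Prop :=
  ∀ (ι : Type) (x : ι → Ω), (∀ i, x i ≠ 0) → LinearIndependent ℤ (fun i => nu (x i)) →
    AlgebraicIndependent k x

/-- A standard etale algebra over a localized polynomial ring, realised inside `Ω`. -/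
def SmoothStmt : Prop :=
  ∀ (ι : Type) [Fintype ι] (x : ι → Ω), AlgebraicIndependent k x →
    ∀ c ∈ Algebra.adjoin k (Set.range x), c ≠ 0 → ∀ (η : Ω) (P : Polynomial Ω), P.Monic →
    (∀ i, P.coeff i ∈ Algebra.adjoin k (Set.range x ∪ {c⁻¹})) → P.eval η = 0 → η ≠ 0 →
    P.derivative.eval η ≠ 0 →
    (∀ Q : Polynomial Ω, (∀ i, Q.coeff i ∈ adjoin k (Set.range x)) → Q.eval η = 0 →
      Q.degree < P.degree → Q = 0) →
    Algebra.Smooth k
      (Algebra.adjoin k (Set.range x ∪ {c⁻¹, η, (η * P.derivative.eval η)⁻¹}))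

/-- Local uniformization of a field contained in the henselization of one of its stages. -/
def FinalStmt : Prop :=
  ∀ (F : IntermediateField k Ω) (s : Stage Ω) (Z : Finset Ω), F.FG →
    Algebra.IsAlgebraic (s.M k) Ω → s.M k ≤ F → F ≤ hens (s.M k) → (s.y = 0 ∨ NA k Ω) →
    (∀ z ∈ Z, z ∈ F ∧ ‖z‖ ≤ 1) → ∃ A, Model F Z A

/-- The first stage. -/
def InitStmt : Prop :=
  ∀ (F : IntermediateField k Ω), F.FG → Algebra.IsAlgebraic F Ω →
    ∀ (r : ℕ) (x : Fin r → Ω), (∀ i, x i ∈ F ∧ x i ≠ 0) →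
    LinearIndependent ℤ (fun i => nu (x i)) → Algebra.trdeg k F ≤ r + 1 →
    ∃ s : Stage Ω, s.M k ≤ F ∧ SepOver (s.M k) F ∧ (s.y = 0 ∨ NA k Ω)

/-- The theorem inside `Ω`. -/
def CoreStmt : Prop :=
  ∀ (F : IntermediateField k Ω), F.FG → Algebra.IsAlgebraic F Ω →
    ∀ (r : ℕ) (x : Fin r → Ω), (∀ i, x i ∈ F ∧ x i ≠ 0) →
    LinearIndependent ℤ (fun i => nu (x i)) → Algebra.trdeg k F ≤ r + 1 →
    ∀ Z : Finset Ω, (∀ z ∈ Z, z ∈ F ∧ ‖z‖ ≤ 1) → ∃ A, Model F Z A

end

/-- The theorem for an abstract function field. -/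
def ResultStmt (k F : Type*) [Field k] [Field F] [Algebra k F] : Prop :=
  (⊤ : IntermediateField k F).FG → ∀ v : Valuation F ℝ≥0,
    (∀ c : k, c ≠ 0 → v (algebraMap k F c) = 1) →
    (∀ a : F, v a ≤ 1 → ∃ c : k, v (a - algebraMap k F c) < 1) →
    ∀ (r : ℕ) (x : Fin r → F), (∀ i, x i ≠ 0) →
    (∀ m : Fin r → ℤ, ∏ i, v (x i) ^ m i = 1 → m = 0) → Algebra.trdeg k F ≤ r + 1 →
    ∀ Z : Finset F, (∀ z ∈ Z, v z ≤ 1) →
      ∃ A : Subalgebra k F, A.FG ∧ (∀ a ∈ A, v a ≤ 1) ∧ (∀ z ∈ Z, z ∈ A) ∧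
        IsFractionRing A F ∧ Algebra.Smooth k A

universe u v

/-- Reduction of the theorem to the normed algebraically closed setting. -/
def GlueStmt (k : Type u) (F : Type v) [Field k] [Field F] [Algebra k F] (p : ℕ) : Prop :=
  (∀ (Ω : Type v) [NontriviallyNormedField Ω] [IsUltrametricDist Ω] [Algebra k Ω]
    [IsAlgClosed Ω] [Ctx k Ω] [CharP Ω p], CoreStmt k Ω) → ResultStmt k F

end Pool.Agent.MP_19ffc6_ag.LU

end MrgPart1

-- ======== part 2: formerly Pool.Agent.MP_19ffc6_ag.LU.DescA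
section MrgPart2

/-! Module DS of PROJECT LU1, first part: adic approximation by elements of a subfield. -/

namespace Pool.Agent.MP_19ffc6_ag.LU.Desc

open Polynomial

variable {k Ω : Type*} [Field k] [NontriviallyNormedField Ω] [IsUltrametricDist Ω] [Algebra k Ω]

theorem norm_add_eq_left {a b : Ω} (h : ‖b‖ < ‖a‖) : ‖a + b‖ = ‖a‖ := by
  rw [IsUltrametricDist.norm_add_eq_max_of_norm_ne_norm h.ne', max_eq_left h.le]

theorem norm_add_le_of {a b : Ω} {m : ℝ} (ha : ‖a‖ ≤ m) (hb : ‖b‖ ≤ m) : ‖a + b‖ ≤ m :=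
  (IsUltrametricDist.norm_add_le_max a b).trans (max_le ha hb)

omit [IsUltrametricDist Ω] in
theorem exists_lift (S : Subalgebra k Ω) (P : Polynomial Ω) (hP : ∀ i, P.coeff i ∈ S) :
    ∃ Q : Polynomial S, Q.map (algebraMap S Ω) = P :=
  (Polynomial.mem_lifts P).1 ((Polynomial.lifts_iff_coeff_lifts P).2 fun i => ⟨⟨_, hP i⟩, rfl⟩)

omit [IsUltrametricDist Ω] in
theorem eval_lift (S : Subalgebra k Ω) (Q : Polynomial S) (x : S) :
    (Q.map (algebraMap S Ω)).eval (x : Ω) = ((Q.eval x : S) : Ω) := by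
  have := Polynomial.eval_map_algebraMap (R := S) (B := Ω) Q (algebraMap S Ω x)
  rw [Polynomial.aeval_algebraMap_apply] at this
  simpa using this

omit [IsUltrametricDist Ω] in
theorem eval_mem (S : Subalgebra k Ω) (P : Polynomial Ω) (hP : ∀ i, P.coeff i ∈ S) {x : Ω}
    (hx : x ∈ S) : P.eval x ∈ S := by
  obtain ⟨Q, rfl⟩ := exists_lift S P hP
  have := eval_lift S Q ⟨x, hx⟩
  simp only at this
  rw [this]
  exact (Q.eval ⟨x, hx⟩).2

omit [IsUltrametricDist Ω] in
theorem der_coeff (S : Subalgebra k Ω) (P : Polynomial Ω) (hP : ∀ i, P.coeff i ∈ S) (i : ℕ) :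
    P.derivative.coeff i ∈ S := by
  rw [Polynomial.coeff_derivative]
  exact S.mul_mem (hP _) (S.add_mem (natCast_mem S i) S.one_mem)

omit [IsUltrametricDist Ω] in
theorem taylor (S : Subalgebra k Ω) (P : Polynomial Ω) (hP : ∀ i, P.coeff i ∈ S) {x δ : Ω}
    (hx : x ∈ S) (hδ : δ ∈ S) :
    ∃ κ ∈ S, P.eval (x + δ) = P.eval x + P.derivative.eval x * δ + κ * δ ^ 2 := by
  obtain ⟨Q, rfl⟩ := exists_lift S P hP
  obtain ⟨κ, hκ⟩ := Q.binomExpansion ⟨x, hx⟩ ⟨δ, hδ⟩
  refine ⟨κ, κ.2, ?_⟩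
  have h1 := eval_lift S Q (⟨x, hx⟩ + ⟨δ, hδ⟩)
  have h2 := eval_lift S Q ⟨x, hx⟩
  have h3 := eval_lift S Q.derivative ⟨x, hx⟩
  rw [Polynomial.derivative_map]
  simp only [AddMemClass.mk_add_mk] at h1 h2 h3 hκ
  rw [h1, h2, h3, hκ]
  simp

/-- Elements with bounded denominators that are adic limits of elements of `F`. -/
def Appr (S : Subalgebra k Ω) (π : Ω) (hπ : π ∈ S) (F : IntermediateField k Ω) :
    Subalgebra k Ω where
  carrier := {a | (∃ K : ℕ, π ^ K * a ∈ S) ∧ ∀ N : ℕ, ∃ f ∈ F, ∃ s ∈ S, a - f = π ^ N * s}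
  mul_mem' := by
    rintro a b ⟨⟨K, hK⟩, ha⟩ ⟨⟨L, hL⟩, hb⟩
    refine ⟨⟨K + L, by convert S.mul_mem hK hL using 1; ring⟩, fun N => ?_⟩
    obtain ⟨f, hf, s, hs, h1⟩ := ha (N + L)
    obtain ⟨g, hg, t, ht, h2⟩ := hb (N + K)
    refine ⟨f * g, F.mul_mem hf hg, π ^ K * a * t + π ^ L * b * s - π ^ (N + K + L) * s * t,
      S.sub_mem (S.add_mem (S.mul_mem hK ht) (S.mul_mem hL hs))
        (S.mul_mem (S.mul_mem (S.pow_mem hπ _) hs) ht), ?_⟩
    have e1 : f = a - π ^ (N + L) * s := by rw [← h1]; ring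
    have e2 : g = b - π ^ (N + K) * t := by rw [← h2]; ring
    rw [e1, e2]; ring
  add_mem' := by
    rintro a b ⟨⟨K, hK⟩, ha⟩ ⟨⟨L, hL⟩, hb⟩
    refine ⟨⟨K + L, ?_⟩, fun N => ?_⟩
    · convert S.add_mem (S.mul_mem (S.pow_mem hπ L) hK) (S.mul_mem (S.pow_mem hπ K) hL) using 1
      ring
    · obtain ⟨f, hf, s, hs, h1⟩ := ha N
      obtain ⟨g, hg, t, ht, h2⟩ := hb N
      refine ⟨f + g, F.add_mem hf hg, s + t, S.add_mem hs ht, ?_⟩
      rw [mul_add, ← h1, ← h2]; ring
  algebraMap_mem' c := ⟨⟨0, by simp⟩, fun N =>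
    ⟨_, F.algebraMap_mem c, 0, S.zero_mem, by simp⟩⟩

omit [IsUltrametricDist Ω] in
theorem mem_Appr {S : Subalgebra k Ω} {π : Ω} {hπ : π ∈ S} {F : IntermediateField k Ω} {a : Ω} :
    a ∈ Appr S π hπ F ↔
      (∃ K : ℕ, π ^ K * a ∈ S) ∧ ∀ N : ℕ, ∃ f ∈ F, ∃ s ∈ S, a - f = π ^ N * s := Iff.rfl

omit [IsUltrametricDist Ω] in
theorem Appr_of_mem {S : Subalgebra k Ω} {π : Ω} {hπ : π ∈ S} {F : IntermediateField k Ω} {a : Ω}
    (h1 : a ∈ F) (h2 : a ∈ S) : a ∈ Appr S π hπ F :=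
  ⟨⟨0, by simpa using h2⟩, fun N => ⟨a, h1, 0, S.zero_mem, by simp⟩⟩

theorem norm_one_add {π s : Ω} (hπ : ‖π‖ < 1) (hs : ‖s‖ ≤ 1) : ‖1 + π * s‖ = 1 := by
  have : ‖π * s‖ < ‖(1 : Ω)‖ := by
    rw [norm_mul, norm_one]
    exact mul_lt_one_of_nonneg_of_lt_one_left (norm_nonneg _) hπ hs
  rw [norm_add_eq_left this, norm_one]

omit [IsUltrametricDist Ω] in
/-- A multiplicative approximation. -/
theorem Appr_rel {S : Subalgebra k Ω} {π : Ω} {hπ : π ∈ S} {F : IntermediateField k Ω}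
    {b : Ω} (hb : b ∈ Appr S π hπ F) (hb0 : b ≠ 0) (hK : ∃ K : ℕ, π ^ K * b⁻¹ ∈ S) (N : ℕ) :
    ∃ f ∈ F, ∃ s ∈ S, f = b * (1 + π ^ N * s) := by
  obtain ⟨K, hK⟩ := hK
  obtain ⟨f, hf, s, hs, h⟩ := hb.2 (N + K)
  refine ⟨f, hf, -(π ^ K * b⁻¹ * s), S.neg_mem (S.mul_mem hK hs), ?_⟩
  have e1 : f = b - π ^ (N + K) * s := by rw [← h]; ring
  rw [e1]; field_simp; ring

theorem Appr_inv {S : Subalgebra k Ω} {π : Ω} {hπ : π ∈ S} {F : IntermediateField k Ω}
    (h1 : ∀ s ∈ S, ‖s‖ ≤ 1) (h2 : ∀ s ∈ S, ‖s‖ = 1 → s⁻¹ ∈ S) (hπ1 : ‖π‖ < 1)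
    {b : Ω} (hb : b ∈ Appr S π hπ F) (hK : ∃ K : ℕ, π ^ K * b⁻¹ ∈ S) :
    b⁻¹ ∈ Appr S π hπ F := by
  rcases eq_or_ne b 0 with rfl | hb0
  · simp
  refine ⟨hK, fun N => ?_⟩
  obtain ⟨K, hK'⟩ := hK
  obtain ⟨f, hf, s, hs, h⟩ := Appr_rel hb hb0 ⟨K, hK'⟩ (N + K + 1)
  have hu : 1 + π ^ (N + K + 1) * s ∈ S := S.add_mem S.one_mem (S.mul_mem (S.pow_mem hπ _) hs)
  have hn : ‖1 + π ^ (N + K + 1) * s‖ = 1 := by
    have := norm_one_add hπ1 (h1 _ (S.mul_mem (S.pow_mem hπ (N + K)) hs))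
    rwa [← mul_assoc, ← pow_succ'] at this
  have hu0 : 1 + π ^ (N + K + 1) * s ≠ 0 := by
    intro h0; rw [h0] at hn; simp at hn
  refine ⟨f⁻¹, F.inv_mem hf, π ^ K * b⁻¹ * π * s * (1 + π ^ (N + K + 1) * s)⁻¹,
    S.mul_mem (S.mul_mem (S.mul_mem hK' hπ) hs) (h2 _ hu hn), ?_⟩
  rw [h]; field_simp; ring

omit [IsUltrametricDist Ω] in
/-- Newton iteration with a fixed slope. -/
theorem Appr_newton {S : Subalgebra k Ω} {π : Ω} {hπ : π ∈ S} {F : IntermediateField k Ω}
    (P : Polynomial Ω) (hPS : ∀ i, P.coeff i ∈ S) (hPF : ∀ i, P.coeff i ∈ F) {η : Ω}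
    (hη : η ∈ S) (h0 : P.eval η = 0) (c0 c1 : k) (hc1 : c1 ≠ 0)
    (e0 : ∃ s ∈ S, η - algebraMap k Ω c0 = π * s)
    (e1 : ∃ s ∈ S, P.derivative.eval η - algebraMap k Ω c1 = π * s) :
    η ∈ Appr S π hπ F := by
  have key : ∀ n : ℕ, ∃ x ∈ F, ∃ s ∈ S, η - x = π ^ (n + 1) * s := by
    intro n
    induction n with
    | zero =>
      obtain ⟨s, hs, h⟩ := e0
      exact ⟨_, F.algebraMap_mem c0, s, hs, by simpa using h⟩
    | succ n ih =>
      obtain ⟨x, hx, s, hs, h⟩ := ih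
      obtain ⟨t, ht, h'⟩ := e1
      have hδ : -(π ^ (n + 1) * s) ∈ S := S.neg_mem (S.mul_mem (S.pow_mem hπ _) hs)
      obtain ⟨κ, hκ, hT⟩ := taylor S P hPS hη hδ
      have ex : η + -(π ^ (n + 1) * s) = x := by rw [← h]; ring
      rw [ex, h0] at hT
      have hc : algebraMap k Ω c1 ≠ 0 := by simpa using hc1
      refine ⟨x - P.eval x * algebraMap k Ω c1⁻¹, F.sub_mem hx (F.mul_mem
        (eval_mem F.toSubalgebra P hPF hx) (F.algebraMap_mem _)),
        (κ * π ^ n * s ^ 2 - t * s) * algebraMap k Ω c1⁻¹,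
        S.mul_mem (S.sub_mem (S.mul_mem (S.mul_mem hκ (S.pow_mem hπ _)) (S.pow_mem hs _))
          (S.mul_mem ht hs)) (S.algebraMap_mem _), ?_⟩
      have e2 : P.derivative.eval η = algebraMap k Ω c1 + π * t := by rw [← h']; ring
      have e3 : x = η - π ^ (n + 1) * s := by rw [← h]; ring
      rw [hT, e2, map_inv₀]
      nth_rewrite 1 [e3]
      field_simp
      ring
  refine ⟨⟨0, by simpa using hη⟩, fun N => ?_⟩
  obtain ⟨x, hx, s, hs, h⟩ := key N
  exact ⟨x, hx, π * s, S.mul_mem hπ hs, by rw [h]; ring⟩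

/-! ### Derivations -/

section Der

variable {K : IntermediateField k Ω} {D : Ω → Ω}

omit [IsUltrametricDist Ω] in
theorem D_zero (hD : IsDer K D) : D 0 = 0 := by simpa using hD.const 0

omit [IsUltrametricDist Ω] in
theorem D_one (hD : IsDer K D) : D 1 = 0 := by simpa using hD.const 1

omit [IsUltrametricDist Ω] in
theorem D_inv (hD : IsDer K D) {a : Ω} (ha : a ∈ K) (h0 : a ≠ 0) : D a⁻¹ = -(a⁻¹ ^ 2 * D a) := by
  have := hD.mul a ha a⁻¹ (K.inv_mem ha)
  rw [mul_inv_cancel₀ h0, D_one hD] at this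
  field_simp at this ⊢
  linear_combination -this

omit [IsUltrametricDist Ω] in
theorem D_pow (hD : IsDer K D) {a : Ω} (ha : a ∈ K) (n : ℕ) :
    D (a ^ n) = n * a ^ (n - 1) * D a := by
  induction n with
  | zero => simpa using D_one hD
  | succ n ih =>
    rw [pow_succ, hD.mul _ (pow_mem ha n) _ ha, ih]
    rcases n with _ | n
    · simp
    · simp only [Nat.add_sub_cancel]; push_cast; ring

omit [IsUltrametricDist Ω] in
theorem D_sum (hD : IsDer K D) {ι : Type*} (t : Finset ι) (f : ι → Ω) (hf : ∀ i ∈ t, f i ∈ K) :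
    D (∑ i ∈ t, f i) = ∑ i ∈ t, D (f i) := by
  classical
  induction t using Finset.induction_on with
  | empty => simpa using D_zero hD
  | insert a t ha ih =>
    rw [Finset.sum_insert ha, Finset.sum_insert ha, hD.add _ (hf a (by simp)) _
      (K.sum_mem fun i hi => hf i (by simp [hi])), ih fun i hi => hf i (by simp [hi])]

/-- Integral elements on which the derivation is bounded by `m`. -/
def Bdd [Ctx k Ω] (hD : IsDer K D) (m : ℝ) (hm : 0 ≤ m) : Subalgebra k Ω where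
  carrier := {s | s ∈ K ∧ ‖s‖ ≤ 1 ∧ ‖D s‖ ≤ m}
  mul_mem' := by
    rintro a b ⟨ha, ha1, ha2⟩ ⟨hb, hb1, hb2⟩
    refine ⟨K.mul_mem ha hb, by rw [norm_mul]; exact mul_le_one₀ ha1 (norm_nonneg _) hb1, ?_⟩
    rw [hD.mul a ha b hb]
    refine norm_add_le_of ?_ ?_ <;> rw [norm_mul]
    · exact (mul_le_of_le_one_left (norm_nonneg _) ha1).trans hb2
    · exact (mul_le_of_le_one_left (norm_nonneg _) hb1).trans ha2
  add_mem' := by
    rintro a b ⟨ha, ha1, ha2⟩ ⟨hb, hb1, hb2⟩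
    refine ⟨K.add_mem ha hb, norm_add_le_of ha1 hb1, ?_⟩
    rw [hD.add a ha b hb]
    exact norm_add_le_of ha2 hb2
  algebraMap_mem' c := by
    refine ⟨K.algebraMap_mem c, ?_, by rw [hD.const, norm_zero]; exact hm⟩
    rcases eq_or_ne c 0 with rfl | h
    · simp
    · exact (Ctx.norm_alg c h).le

theorem Bdd_inv [Ctx k Ω] (hD : IsDer K D) {m : ℝ} {hm : 0 ≤ m} {a : Ω} (ha : a ∈ Bdd hD m hm)
    (h1 : ‖a‖ = 1) : a⁻¹ ∈ Bdd hD m hm := by
  have h0 : a ≠ 0 := by rintro rfl; simp at h1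
  refine ⟨K.inv_mem ha.1, by rw [norm_inv, h1, inv_one], ?_⟩
  rw [D_inv hD ha.1 h0, norm_neg, norm_mul, norm_pow, norm_inv, h1]
  simpa using ha.2.2

theorem Bdd_root [Ctx k Ω] (hD : IsDer K D) {m : ℝ} {hm : 0 ≤ m} (P : Polynomial Ω)
    (hP : ∀ i, P.coeff i ∈ Bdd hD m hm) {η : Ω} (hη : η ∈ K) (h1 : ‖η‖ ≤ 1)
    (h0 : P.eval η = 0) (hd : ‖P.derivative.eval η‖ = 1) : η ∈ Bdd hD m hm := by
  refine ⟨hη, h1, ?_⟩
  have e : D (P.eval η) = P.derivative.eval η * D η + ∑ i ∈ P.support, η ^ i * D (P.coeff i) := by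
    rw [Polynomial.eval_eq_sum, Polynomial.derivative_eval, Polynomial.sum, Polynomial.sum,
      D_sum hD _ _ fun i _ => K.mul_mem (hP i).1 (pow_mem hη i), Finset.sum_mul,
      ← Finset.sum_add_distrib]
    refine Finset.sum_congr rfl fun i _ => ?_
    rw [hD.mul _ (hP i).1 _ (pow_mem hη i), D_pow hD hη]
    ring
  rw [h0, D_zero hD] at e
  have e' : P.derivative.eval η * D η = -∑ i ∈ P.support, η ^ i * D (P.coeff i) := by
    linear_combination -e
  have := congrArg norm e'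
  rw [norm_mul, hd, one_mul, norm_neg] at this
  rw [this]
  refine IsUltrametricDist.norm_sum_le_of_forall_le_of_nonneg hm fun i _ => ?_
  rw [norm_mul, norm_pow]
  exact (mul_le_of_le_one_left (norm_nonneg _) (pow_le_one₀ (norm_nonneg _) h1)).trans (hP i).2.2

end Der

end Pool.Agent.MP_19ffc6_ag.LU.Desc

end MrgPart2

-- ======== part 3: formerly Pool.Agent.MP_19ffc6_ag.LU.Eta
section MrgPart3

/-! PROJECT LU1, module ET: finitely many integral elements of the henselization are rational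
functions of one henselian root. -/

namespace Pool.Agent.MP_19ffc6_ag.LU

open Polynomial IntermediateField

namespace Eta

section Integral

variable {Ω : Type*} [NontriviallyNormedField Ω] [IsUltrametricDist Ω]

/-- All coefficients have norm at most one. -/
def Intg (P : Polynomial Ω) : Prop := ∀ i, ‖P.coeff i‖ ≤ 1

theorem Intg.mul {P Q : Polynomial Ω} (hP : Intg P) (hQ : Intg Q) : Intg (P * Q) := by
  intro i
  rw [coeff_mul]
  refine IsUltrametricDist.norm_sum_le_of_forall_le_of_nonneg zero_le_one fun x _ => ?_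
  rw [norm_mul]
  exact mul_le_one₀ (hP _) (norm_nonneg _) (hQ _)

omit [IsUltrametricDist Ω] in
theorem intg_C {c : Ω} (h : ‖c‖ ≤ 1) : Intg (C c) := by
  intro i
  rw [coeff_C]
  split_ifs
  · exact h
  · simp

omit [IsUltrametricDist Ω] in
theorem intg_X_sub_C {c : Ω} (h : ‖c‖ ≤ 1) : Intg (X - C c) := by
  intro i
  rw [coeff_sub, coeff_X, coeff_C]
  split_ifs with h1 h2 h2
  · omega
  · simp
  · simpa using h
  · simp

theorem intg_sum {ι : Type*} (s : Finset ι) (f : ι → Polynomial Ω) (h : ∀ j ∈ s, Intg (f j)) :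
    Intg (∑ j ∈ s, f j) := by
  intro i
  rw [finsetSum_coeff]
  exact IsUltrametricDist.norm_sum_le_of_forall_le_of_nonneg zero_le_one fun j hj => h j hj i

theorem intg_nodal {ι : Type*} (s : Finset ι) (v : ι → Ω) (h : ∀ j, ‖v j‖ ≤ 1) :
    Intg (Lagrange.nodal s v) := by
  classical
  rw [Lagrange.nodal]
  induction s using Finset.induction_on with
  | empty => simpa using intg_C (c := (1 : Ω)) (by simp)
  | insert a s ha ih =>
    rw [Finset.prod_insert ha]
    exact (intg_X_sub_C (h a)).mul ih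

theorem norm_add_of_lt {a b : Ω} (h : ‖b‖ < ‖a‖) : ‖a + b‖ = ‖a‖ := by
  rw [IsUltrametricDist.norm_add_eq_max_of_norm_ne_norm h.ne', max_eq_left h.le]

end Integral

section Alg

variable {F K Ω : Type*} [Field F] [Field K] [Field Ω] [Algebra F K] [Algebra F Ω]
  [FiniteDimensional F K] [Algebra.IsSeparable F K] [IsAlgClosed Ω]

theorem prim_iff (α : K) : F⟮α⟯ = ⊤ ↔ Function.Injective fun φ : K →ₐ[F] Ω => φ α :=
  Field.primitive_element_iff_algHom_eq_of_eval' F Ω (fun _ => IsAlgClosed.splits _) α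

theorem degree_minpoly {α : K} (h : F⟮α⟯ = ⊤) :
    (minpoly F α).degree = (Finset.univ : Finset (K →ₐ[F] Ω)).card := by
  rw [degree_eq_natDegree (minpoly.ne_zero_of_finite F α),
    (Field.primitive_element_iff_minpoly_natDegree_eq F α).1 h, Finset.card_univ,
    AlgHom.card F K Ω]

omit [FiniteDimensional F K] [Algebra.IsSeparable F K] [IsAlgClosed Ω] in
theorem eval_map_alg (τ : K →ₐ[F] Ω) (α : K) (g : Polynomial F) :
    (g.map (algebraMap F Ω)).eval (τ α) = τ (aeval α g) := by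
  rw [eval_map_algebraMap, aeval_algHom_apply]

theorem map_minpoly {α : K} (h : F⟮α⟯ = ⊤) :
    (minpoly F α).map (algebraMap F Ω) =
      Lagrange.nodal Finset.univ fun τ : K →ₐ[F] Ω => τ α := by
  have hm : (minpoly F α).Monic := minpoly.monic (IsIntegral.of_finite F α)
  have hd : ((minpoly F α).map (algebraMap F Ω)).degree =
      (Finset.univ : Finset (K →ₐ[F] Ω)).card := by
    rw [degree_map, degree_minpoly (Ω := Ω) h]
  refine eq_of_degree_sub_lt_of_eval_index_eq Finset.univ ((prim_iff α).1 h).injOn ?_ ?_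
  · rw [← hd]
    refine degree_sub_lt_left (by rw [hd, Lagrange.degree_nodal]) (hm.map _).ne_zero ?_
    rw [(hm.map _).leadingCoeff, Lagrange.nodal_monic.leadingCoeff]
  · intro τ hτ
    rw [eval_map_alg, minpoly.aeval, map_zero]
    exact (Lagrange.eval_nodal_at_node (v := fun τ : K →ₐ[F] Ω => τ α) hτ).symm

omit [Algebra.IsSeparable F K] in
theorem exists_aeval {α : K} (h : F⟮α⟯ = ⊤) (c : K) :
    ∃ g : Polynomial F, g.degree < (minpoly F α).degree ∧ aeval α g = c := by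
  have hm : (minpoly F α).Monic := minpoly.monic (IsIntegral.of_finite F α)
  have hc : c ∈ (F⟮α⟯).toSubalgebra := by rw [h]; exact mem_top
  rw [adjoin_simple_toSubalgebra_of_isAlgebraic (IsAlgebraic.of_finite F α),
    Algebra.adjoin_singleton_eq_range_aeval] at hc
  obtain ⟨g, hg⟩ := hc
  exact ⟨g %ₘ minpoly F α, degree_modByMonic_lt _ hm,
    (aeval_modByMonic_eq_self_of_root (minpoly.aeval F α)).trans hg⟩

/-- Euler's description of the dual basis, in interpolation form. -/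
theorem interp [DecidableEq (K →ₐ[F] Ω)] {α : K} (h : F⟮α⟯ = ⊤) (c : K) :
    ∃ g : Polynomial F, aeval α g = c * aeval α (derivative (minpoly F α)) ∧
      g.map (algebraMap F Ω) = ∑ τ : K →ₐ[F] Ω,
        C (τ c) * Lagrange.nodal (Finset.univ.erase τ) fun σ : K →ₐ[F] Ω => σ α := by
  obtain ⟨g, hg, hc⟩ := exists_aeval h (c * aeval α (derivative (minpoly F α)))
  refine ⟨g, hc, ?_⟩
  refine eq_of_degrees_lt_of_eval_index_eq Finset.univ ((prim_iff α).1 h).injOn ?_ ?_ ?_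
  · rw [degree_map, ← degree_minpoly h]
    exact hg
  · refine (degree_sum_le _ _).trans_lt ((Finset.sup_lt_iff (WithBot.bot_lt_coe _)).2 ?_)
    intro τ hτ
    rw [← smul_eq_C_mul]
    refine (degree_smul_le _ _).trans_lt ?_
    rw [Lagrange.degree_nodal]
    exact_mod_cast Finset.card_erase_lt_of_mem hτ
  · intro τ hτ
    have h1 : τ (aeval α (derivative (minpoly F α))) =
        (Lagrange.nodal (Finset.univ.erase τ) fun σ : K →ₐ[F] Ω => σ α).eval (τ α) := by
      rw [← eval_map_alg, ← derivative_map, map_minpoly h]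
      exact Lagrange.eval_nodal_derivative_eval_node_eq (v := fun σ : K →ₐ[F] Ω => σ α) hτ
    rw [eval_map_alg, hc, map_mul, h1, eval_finsetSum, Finset.sum_eq_single τ, eval_mul, eval_C]
    · intro σ _ hσ
      rw [eval_mul, Lagrange.eval_nodal_at_node (v := fun σ : K →ₐ[F] Ω => σ α)
        (Finset.mem_erase.2 ⟨hσ.symm, hτ⟩), mul_zero]
    · intro h'
      exact absurd hτ h'

end Alg

section Choice

variable {F K Ω : Type*} [Field F] [Field K] [NontriviallyNormedField Ω] [IsUltrametricDist Ω]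
  [Algebra F K] [Algebra F Ω] [FiniteDimensional F K] [Algebra.IsSeparable F K] [IsAlgClosed Ω]

omit [Algebra.IsSeparable F K] [IsAlgClosed Ω] in
/-- An approximation of a primitive element closer than all the conjugates. -/
theorem exists_approx (ι : K →ₐ[F] Ω) {α : K}
    (hinj : Function.Injective fun φ : K →ₐ[F] Ω => φ α)
    (hcl : ∀ ε > 0, ∃ b : F, ‖ι α - algebraMap F Ω b‖ < ε) :
    ∃ b t : F, ι α ≠ algebraMap F Ω b ∧ ‖algebraMap F Ω t‖ = ‖ι α - algebraMap F Ω b‖ ∧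
      ∀ τ : K →ₐ[F] Ω, τ ≠ ι → ‖ι α - algebraMap F Ω b‖ < ‖τ α - ι α‖ := by
  by_cases hα : ∃ b : F, ι α = algebraMap F Ω b
  · obtain ⟨b, hb⟩ := hα
    have hα' : α = algebraMap F K b := ι.injective (hb.trans (ι.commutes b).symm)
    refine ⟨b - 1, 1, ?_, ?_, ?_⟩
    · rw [hb, map_sub, map_one]
      intro h
      exact one_ne_zero (sub_eq_self.1 h.symm)
    · rw [hb, map_sub, map_one, sub_sub_cancel]
    · intro τ hτ
      exact absurd (hinj (by simp only [hα', AlgHom.commutes])) hτ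
  · have hδ : ∃ δ > 0, ∀ τ : K →ₐ[F] Ω, τ ≠ ι → δ ≤ ‖τ α - ι α‖ := by
      have h1 : ∀ᶠ δ in nhdsWithin (0 : ℝ) (Set.Ioi 0),
          ∀ τ : K →ₐ[F] Ω, τ ≠ ι → δ ≤ ‖τ α - ι α‖ := by
        refine Filter.eventually_all.2 fun τ => ?_
        by_cases hτ : τ = ι
        · exact Filter.Eventually.of_forall fun _ h => absurd hτ h
        · have hpos : 0 < ‖τ α - ι α‖ := norm_pos_iff.2 (sub_ne_zero.2 fun h => hτ (hinj h))
          refine Filter.Eventually.filter_mono nhdsWithin_le_nhds ?_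
          exact (eventually_le_nhds hpos).mono fun _ h _ => h
      obtain ⟨δ, h2, h3⟩ := (h1.and self_mem_nhdsWithin).exists
      exact ⟨δ, h3, h2⟩
    obtain ⟨δ, hδ0, hδ⟩ := hδ
    obtain ⟨b, hb⟩ := hcl δ hδ0
    have hne : ι α ≠ algebraMap F Ω b := fun h => hα ⟨b, h⟩
    obtain ⟨b', hb'⟩ := hcl _ (norm_pos_iff.2 (sub_ne_zero.2 hne))
    refine ⟨b, b' - b, hne, ?_, fun τ hτ => hb.trans_le (hδ τ hτ)⟩
    have : algebraMap F Ω (b' - b) =
        (ι α - algebraMap F Ω b) + -(ι α - algebraMap F Ω b') := by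
      rw [map_sub]; ring
    rw [this, norm_add_of_lt (by rwa [norm_neg])]

/-- A primitive element which is a unit while its conjugates are small. -/
theorem exists_eta (ι : K →ₐ[F] Ω)
    (hcl : ∀ a : K, ∀ ε > 0, ∃ b : F, ‖ι a - algebraMap F Ω b‖ < ε) :
    ∃ η : K, F⟮η⟯ = ⊤ ∧ ‖ι η‖ = 1 ∧ ∀ τ : K →ₐ[F] Ω, τ ≠ ι → ‖τ η‖ < 1 := by
  obtain ⟨α, hα⟩ := Field.exists_primitive_element F K
  have hinj := (prim_iff (Ω := Ω) α).1 hα
  obtain ⟨b, t, hne, ht, hb⟩ := exists_approx ι hinj (hcl α)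
  have hpos : 0 < ‖ι α - algebraMap F Ω b‖ := norm_pos_iff.2 (sub_ne_zero.2 hne)
  have ht0 : algebraMap F Ω t ≠ 0 := norm_pos_iff.1 (ht ▸ hpos)
  have hev : ∀ τ : K →ₐ[F] Ω, τ (algebraMap F K t / (α - algebraMap F K b)) =
      algebraMap F Ω t / (τ α - algebraMap F Ω b) := fun τ => by
    rw [map_div₀, map_sub, AlgHom.commutes, AlgHom.commutes]
  refine ⟨algebraMap F K t / (α - algebraMap F K b), (prim_iff (Ω := Ω) _).2 ?_, ?_, ?_⟩
  · intro τ σ h
    simp only [hev] at h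
    rw [div_eq_mul_inv, div_eq_mul_inv, mul_right_inj' ht0, inv_inj, sub_left_inj] at h
    exact hinj h
  · rw [hev, norm_div, ht, div_self hpos.ne']
  · intro τ hτ
    have h1 : ‖τ α - algebraMap F Ω b‖ = ‖τ α - ι α‖ := by
      rw [← norm_add_of_lt (hb τ hτ), sub_add_sub_cancel]
    rw [hev, norm_div, ht, h1]
    exact (div_lt_one (hpos.trans (hb τ hτ))).2 (hb τ hτ)

omit [IsUltrametricDist Ω] [Algebra.IsSeparable F K] [IsAlgClosed Ω] in
theorem exists_pow (ι : K →ₐ[F] Ω) {η : K} (h1 : ‖ι η‖ = 1)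
    (h2 : ∀ τ : K →ₐ[F] Ω, τ ≠ ι → ‖τ η‖ < 1) {z : K} (hz : ‖ι z‖ ≤ 1) :
    ∃ N : ℕ, ∀ τ : K →ₐ[F] Ω, ‖τ (z * η ^ N)‖ ≤ 1 := by
  refine (Filter.eventually_all.2 fun τ => ?_ :
    ∀ᶠ N in Filter.atTop, ∀ τ : K →ₐ[F] Ω, ‖τ (z * η ^ N)‖ ≤ 1).exists
  simp only [map_mul, map_pow, norm_mul, norm_pow]
  by_cases hτ : τ = ι
  · subst hτ
    simp only [h1, one_pow, mul_one]
    exact Filter.Eventually.of_forall fun _ => hz
  · have h := (tendsto_pow_atTop_nhds_zero_of_lt_one (norm_nonneg (τ η)) (h2 τ hτ)).const_mul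
      ‖τ z‖
    rw [mul_zero] at h
    exact h.eventually (eventually_le_nhds one_pos)

/-- The statement for an abstract finite separable extension with a dense base. -/
theorem main (ι : K →ₐ[F] Ω)
    (hcl : ∀ a : K, ∀ ε > 0, ∃ b : F, ‖ι a - algebraMap F Ω b‖ < ε) :
    ∃ (η : K) (P : Polynomial F), ‖ι η‖ = 1 ∧ P.Monic ∧ Intg (P.map (algebraMap F Ω)) ∧
      aeval η P = 0 ∧ ‖ι (aeval η (derivative P))‖ = 1 ∧
      (∀ Q : Polynomial F, aeval η Q = 0 → Q.degree < P.degree → Q = 0) ∧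
      ∀ z : K, ‖ι z‖ ≤ 1 → ∃ (G : Polynomial F) (N : ℕ), Intg (G.map (algebraMap F Ω)) ∧
        z * (η ^ N * aeval η (derivative P)) = aeval η G := by
  classical
  obtain ⟨η, hη, h1, h2⟩ := exists_eta ι hcl
  have hle : ∀ τ : K →ₐ[F] Ω, ‖τ η‖ ≤ 1 := fun τ => by
    by_cases hτ : τ = ι
    · rw [hτ, h1]
    · exact (h2 τ hτ).le
  refine ⟨η, minpoly F η, h1, minpoly.monic (IsIntegral.of_finite F η), ?_, minpoly.aeval F η,
    ?_, ?_, ?_⟩
  · rw [map_minpoly hη]
    exact intg_nodal _ _ hle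
  · rw [← eval_map_alg, ← derivative_map, map_minpoly hη,
      Lagrange.eval_nodal_derivative_eval_node_eq (v := fun σ : K →ₐ[F] Ω => σ η)
        (Finset.mem_univ ι), Lagrange.eval_nodal, norm_prod]
    refine Finset.prod_eq_one fun τ hτ => ?_
    rw [sub_eq_add_neg, norm_add_of_lt, h1]
    rw [norm_neg, h1]
    exact h2 τ (Finset.ne_of_mem_erase hτ)
  · intro Q hQ hd
    by_contra h0
    exact absurd (minpoly.degree_le_of_ne_zero F η h0 hQ) hd.not_ge
  · intro z hz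
    obtain ⟨N, hN⟩ := exists_pow ι h1 h2 hz
    obtain ⟨g, hg, hm⟩ := interp (Ω := Ω) hη (z * η ^ N)
    refine ⟨g, N, ?_, by rw [hg, mul_assoc]⟩
    rw [hm]
    exact intg_sum _ _ fun τ _ => (intg_C (hN τ)).mul (intg_nodal _ _ hle)

end Choice

end Eta

variable {k Ω : Type*} [Field k] [NontriviallyNormedField Ω] [IsUltrametricDist Ω] [Algebra k Ω]
  [IsAlgClosed Ω]

theorem eta : EtaStmt k Ω := by
  intro M Z hZ
  have hsep : ∀ z ∈ (Z : Set Ω), IsSeparable M z := fun z hz =>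
    mem_separableClosure_iff.1 (hZ z hz).1.1
  have : FiniteDimensional M (adjoin M (Z : Set Ω)) :=
    finiteDimensional_adjoin fun z hz => (hsep z hz).isIntegral
  have : Algebra.IsSeparable M (adjoin M (Z : Set Ω)) :=
    (isSeparable_adjoin_iff_isSeparable _ _).2 hsep
  have hsup : ∀ a : adjoin M (Z : Set Ω), (a : Ω) ∈ M ⊔ adjoin k (Z : Set Ω) := fun a => by
    rw [← restrictScalars_adjoin_eq_sup]
    exact a.2
  have hM : M ≤ hens M := fun x hx =>
    ⟨(separableClosure M Ω).algebraMap_mem ⟨x, hx⟩, subset_closure hx⟩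
  have hle : M ⊔ adjoin k (Z : Set Ω) ≤ hens M :=
    sup_le hM (adjoin_le_iff.2 fun z hz => (hZ z hz).1)
  have hcl : ∀ a : adjoin M (Z : Set Ω), ∀ ε > 0, ∃ b : M,
      ‖(adjoin M (Z : Set Ω)).val a - algebraMap M Ω b‖ < ε := fun a ε hε => by
    have ha : (a : Ω) ∈ closure (M : Set Ω) := (hle (hsup a)).2
    obtain ⟨b, hb, hd⟩ := Metric.mem_closure_iff.1 ha ε hε
    exact ⟨⟨b, hb⟩, by rwa [dist_eq_norm] at hd⟩
  obtain ⟨η, P, h1, hP, hI, h0, hd, hmin, hz⟩ := Eta.main (adjoin M (Z : Set Ω)).val hcl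
  have hco : ∀ (G : Polynomial M) (i : ℕ), (G.map (algebraMap M Ω)).coeff i ∈ M := fun G i => by
    rw [coeff_map]
    exact (G.coeff i).2
  have hev : ∀ G : Polynomial M, (G.map (algebraMap M Ω)).eval (η : Ω) =
      (adjoin M (Z : Set Ω)).val (aeval η G) := fun G =>
    Eta.eval_map_alg (adjoin M (Z : Set Ω)).val η G
  refine ⟨η, P.map (algebraMap M Ω), hsup η, h1, hP.map _, fun i => ⟨hco P i, hI i⟩, ?_, ?_, ?_,
    ?_⟩
  · rw [hev, h0, map_zero]
  · rw [derivative_map, hev]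
    exact hd
  · intro Q hQ hQ0 hdeg
    have hl : Q ∈ lifts (algebraMap M Ω) :=
      (lifts_iff_coeff_lifts Q).2 fun n => ⟨⟨_, hQ n⟩, rfl⟩
    obtain ⟨q, rfl, -⟩ := exists_degree_eq_of_mem_lifts hl
    rw [degree_map, degree_map] at hdeg
    rw [hev, map_eq_zero] at hQ0
    rw [hmin q hQ0 hdeg, Polynomial.map_zero]
  · intro z hzZ
    obtain ⟨G, N, hG, hz'⟩ := hz ⟨z, subset_adjoin _ _ hzZ⟩ (hZ z hzZ).2
    refine ⟨G.map (algebraMap M Ω), N, fun i => ⟨hco G i, hG i⟩, ?_⟩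
    rw [derivative_map, hev, hev, ← hz', map_mul, map_mul, map_pow]
    rfl

end Pool.Agent.MP_19ffc6_ag.LU

end MrgPart3

-- ======== part 4: formerly Pool.Agent.MP_19ffc6_ag.LU.Glue
section MrgPart4

/-! Module GL of PROJECT LU1: from a real valuation to a normed algebraic closure. -/

namespace Pool.Agent.MP_19ffc6_ag.LU

open Polynomial NNReal

universe u v

namespace Glue

/-- A nontrivial nonarchimedean absolute value extends to the algebraic closure. -/
theorem exists_abs (F : Type*) [Field F] (f : AbsoluteValue F ℝ) (hf : IsNonarchimedean f)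
    (hn : ∃ a, 1 < f a) :
    ∃ g : AbsoluteValue (AlgebraicClosure F) ℝ, IsNonarchimedean g ∧
      ∀ a, g (algebraMap F (AlgebraicClosure F) a) = f a := by
  obtain ⟨a0, ha0⟩ := hn
  let Kc := UniformSpace.Completion (WithAbs f)
  let ι : F →+* Kc :=
    (UniformSpace.Completion.coeRingHom (α := WithAbs f)).comp (WithAbs.equiv f).symm.toRingHom
  have hι : ∀ a, ‖ι a‖ = f a := fun a => by
    change ‖((WithAbs.toAbs f a : WithAbs f) : Kc)‖ = f a
    rw [UniformSpace.Completion.norm_coe]; rfl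
  let : NontriviallyNormedField Kc :=
    { (inferInstance : NormedField Kc) with non_trivial := ⟨ι a0, by rw [hι]; exact ha0⟩ }
  have : IsUltrametricDist Kc := by
    refine IsUltrametricDist.isUltrametricDist_of_forall_norm_add_le_max_norm fun x y => ?_
    induction x, y using UniformSpace.Completion.induction_on₂ with
    | hp => apply isClosed_le <;> fun_prop
    | ih x y =>
      rw [← UniformSpace.Completion.coe_add, UniformSpace.Completion.norm_coe,
        UniformSpace.Completion.norm_coe, UniformSpace.Completion.norm_coe]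
      exact hf x.ofAbs y.ofAbs
  let L := AlgebraicClosure Kc
  let : Algebra F L := ((algebraMap Kc L).comp ι).toAlgebra
  let φ : AlgebraicClosure F →ₐ[F] L := IsAlgClosed.lift
  have hna : IsNonarchimedean (spectralNorm Kc L) := isNonarchimedean_spectralNorm
  refine ⟨{ toFun := fun x => spectralNorm Kc L (φ x)
            map_mul' := fun x y => ?_
            nonneg' := fun x => spectralNorm_nonneg _
            eq_zero' := fun x => ?_
            add_le' := fun x y => ?_ }, fun x y => ?_, fun a => ?_⟩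
  · rw [map_mul]; exact map_mul (spectralMulAlgNorm Kc L) _ _
  · constructor
    · intro h
      have := eq_zero_of_map_spectralNorm_eq_zero h (Algebra.IsAlgebraic.isAlgebraic _)
      exact (map_eq_zero φ).1 this
    · rintro rfl; rw [map_zero, spectralNorm_zero]
  · rw [map_add]; exact hna.add_le spectralNorm_nonneg
  · change spectralNorm Kc L (φ (x + y)) ≤ max (spectralNorm Kc L (φ x)) (spectralNorm Kc L (φ y))
    rw [map_add]; exact hna _ _
  · change spectralNorm Kc L (φ (algebraMap F _ a)) = f a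
    rw [φ.commutes]
    change spectralNorm Kc L (algebraMap Kc L (ι a)) = f a
    rw [spectralNorm_extends, hι]

section

variable {k Ω : Type*} [Field k] [NormedField Ω] [IsUltrametricDist Ω] [Algebra k Ω]

omit [Algebra k Ω] [Field k] in
theorem norm_sum_lt_one {ι : Type*} (s : Finset ι) (f : ι → Ω) (h : ∀ i ∈ s, ‖f i‖ < 1) :
    ‖∑ i ∈ s, f i‖ < 1 := by
  classical
  induction s using Finset.induction_on with
  | empty => simp
  | insert a s ha ih =>
    rw [Finset.sum_insert ha]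
    refine (IsUltrametricDist.norm_add_le_max _ _).trans_lt (max_lt ?_ ?_)
    · exact h a (Finset.mem_insert_self _ _)
    · exact ih fun i hi => h i (Finset.mem_insert_of_mem hi)

omit [IsUltrametricDist Ω] in
theorem near_root [IsAlgClosed k] (h1 : ∀ c : k, c ≠ 0 → ‖algebraMap k Ω c‖ = 1) (a : Ω)
    (q : Polynomial k) (hq : q ≠ 0) (hs : ‖aeval a q‖ < 1) :
    ∃ c : k, ‖a - algebraMap k Ω c‖ < 1 := by
  by_contra hc
  push Not at hc
  have hp : ∀ m : Multiset k, 1 ≤ ‖aeval a (m.map fun r => X - C r).prod‖ := by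
    intro m
    induction m using Multiset.induction_on with
    | empty => simp
    | cons r m ih =>
      rw [Multiset.map_cons, Multiset.prod_cons, map_mul, norm_mul]
      refine one_le_mul_of_one_le_of_one_le ?_ ih
      simpa using hc r
  rw [(IsAlgClosed.splits q).eq_prod_roots, map_mul, norm_mul, aeval_C,
    h1 _ (leadingCoeff_ne_zero.2 hq), one_mul] at hs
  exact absurd (hp q.roots) (not_le.2 hs)

/-- The residue field does not grow in an algebraic extension. -/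
theorem res_of_algebraic [IsAlgClosed k] {F : Type*} [Field F] [Algebra k F] [Algebra F Ω]
    [IsScalarTower k F Ω] [Algebra.IsAlgebraic F Ω]
    (h1 : ∀ c : k, c ≠ 0 → ‖algebraMap k Ω c‖ = 1)
    (h2 : ∀ b : F, ‖algebraMap F Ω b‖ ≤ 1 →
      ∃ c : k, ‖algebraMap F Ω b - algebraMap k Ω c‖ < 1)
    (a : Ω) (ha : ‖a‖ ≤ 1) : ∃ c : k, ‖a - algebraMap k Ω c‖ < 1 := by
  obtain ⟨P, hP, hPa⟩ := Algebra.IsAlgebraic.isAlgebraic (R := F) a
  obtain ⟨j, hj, hmax⟩ := P.support.exists_max_image (fun i => ‖algebraMap F Ω (P.coeff i)‖)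
    (support_nonempty.2 hP)
  have hj0 : P.coeff j ≠ 0 := mem_support_iff.1 hj
  have hj1 : algebraMap F Ω (P.coeff j) ≠ 0 := by simpa using hj0
  have hle : ∀ i, ‖algebraMap F Ω (P.coeff i / P.coeff j)‖ ≤ 1 := by
    intro i
    rw [map_div₀, norm_div, div_le_one (norm_pos_iff.2 hj1)]
    by_cases hi : i ∈ P.support
    · exact hmax i hi
    · rw [notMem_support_iff.1 hi]; simp
  choose c hc using fun i => h2 _ (hle i)
  have hcj : c j ≠ 0 := by
    intro h
    have := hc j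
    rw [h, div_self hj0] at this
    simp at this
  refine near_root h1 a (∑ i ∈ P.support, monomial i (c i)) ?_ ?_
  · intro h
    have := congrArg (fun q : Polynomial k => q.coeff j) h
    simp only [finsetSum_coeff, coeff_monomial, Finset.sum_ite_eq', hj, if_true,
      coeff_zero] at this
    exact hcj this
  · have h0 : ∑ i ∈ P.support, algebraMap F Ω (P.coeff i / P.coeff j) * a ^ i = 0 := by
      rw [aeval_def, eval₂_eq_sum, Polynomial.sum_def] at hPa
      simp only [map_div₀, div_mul_eq_mul_div]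
      rw [← Finset.sum_div, hPa, zero_div]
    have h3 : aeval a (∑ i ∈ P.support, monomial i (c i)) =
        -∑ i ∈ P.support,
          (algebraMap F Ω (P.coeff i / P.coeff j) - algebraMap k Ω (c i)) * a ^ i := by
      simp only [sub_mul, Finset.sum_sub_distrib, h0, map_sum, aeval_monomial]
      ring
    rw [h3, norm_neg]
    refine norm_sum_lt_one _ _ fun i _ => ?_
    rw [norm_mul, norm_pow]
    exact mul_lt_one_of_nonneg_of_lt_one_left (norm_nonneg _) (hc i)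
      (pow_le_one₀ (norm_nonneg _) ha)

end

/-- Transfer of the theorem from the image of `F` in `Ω` back to `F`. -/
theorem transfer {k : Type*} {F Ω : Type v} [Field k] [Field F] [Algebra k F]
    [NontriviallyNormedField Ω] [Algebra k Ω] [Algebra F Ω] [IsScalarTower k F Ω]
    [Algebra.IsAlgebraic F Ω] (core : CoreStmt k Ω) (hfg : (⊤ : IntermediateField k F).FG)
    (v : Valuation F ℝ≥0) (hv : ∀ a, ‖algebraMap F Ω a‖ = v a)
    (r : ℕ) (x : Fin r → F) (hx : ∀ i, x i ≠ 0)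
    (hind : ∀ m : Fin r → ℤ, ∏ i, v (x i) ^ m i = 1 → m = 0)
    (htr : Algebra.trdeg k F ≤ r + 1) (Z : Finset F) (hZ : ∀ z ∈ Z, v z ≤ 1) :
    ∃ A : Subalgebra k F, A.FG ∧ (∀ a ∈ A, v a ≤ 1) ∧ (∀ z ∈ Z, z ∈ A) ∧
      IsFractionRing A F ∧ Algebra.Smooth k A := by
  classical
  let φ : F →ₐ[k] Ω := IsScalarTower.toAlgHom k F Ω
  have hφ : ∀ a, φ a = algebraMap F Ω a := fun _ => rfl
  have hinj : Function.Injective φ := φ.injective
  let e : F ≃ₐ[k] φ.fieldRange := AlgEquiv.ofInjectiveField φ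
  have hFG : φ.fieldRange.FG := by
    obtain ⟨t, ht⟩ := hfg
    refine ⟨t.image φ, ?_⟩
    rw [Finset.coe_image, ← IntermediateField.adjoin_map, ht, AlgHom.fieldRange_eq_map]
  have halg : Algebra.IsAlgebraic φ.fieldRange Ω := by
    refine ⟨fun a => ?_⟩
    have ha := Algebra.IsAlgebraic.isAlgebraic (R := F) a
    exact ha.ringHom_of_comp_eq (e : F →+* φ.fieldRange) (RingHom.id Ω) e.injective
      (RingHom.ext fun _ => rfl)
  have hpos : ∀ i, (0 : ℝ) < v (x i) := fun i => by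
    rw [← hv]; exact norm_pos_iff.2 (by simpa using hx i)
  have hli : LinearIndependent ℤ (fun i => nu (φ (x i))) := by
    rw [Fintype.linearIndependent_iff]
    intro m hm i
    have h1 : Real.log (∏ i, (v (x i) : ℝ) ^ m i) = 0 := by
      rw [Real.log_prod (fun i _ => (zpow_pos (hpos i) _).ne')]
      simp only [nu, hφ, hv, zsmul_eq_mul, mul_neg, Finset.sum_neg_distrib, neg_eq_zero] at hm
      simpa only [Real.log_zpow] using hm
    have h2 : ∏ i, (v (x i) : ℝ) ^ m i = 1 :=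
      Real.eq_one_of_pos_of_log_eq_zero (Finset.prod_pos fun i _ => zpow_pos (hpos i) _) h1
    have h3 : ∏ i, v (x i) ^ m i = 1 := by
      apply NNReal.coe_injective
      simpa using h2
    exact congrFun (hind m h3) i
  obtain ⟨A, hA, hAF, hA1, hAZ, hAq, hAs⟩ := core φ.fieldRange hFG halg r (fun i => φ (x i))
    (fun i => ⟨⟨x i, rfl⟩, by simpa using hx i⟩) hli (by rw [← e.trdeg_eq]; exact htr)
    (Z.image φ) (by
      intro z hz
      obtain ⟨w, hw, rfl⟩ := Finset.mem_image.1 hz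
      refine ⟨⟨w, rfl⟩, ?_⟩
      rw [hφ, hv]; exact_mod_cast hZ w hw)
  have hmap : (A.comap φ).map φ = A := by
    rw [Subalgebra.map_comap_eq]
    exact inf_eq_left.2 hAF
  refine ⟨A.comap φ, Subalgebra.fg_of_fg_map _ φ hinj (by rwa [hmap]), fun a ha => ?_,
    fun z hz => hAZ _ (Finset.mem_image_of_mem _ hz), ?_, ?_⟩
  · have : ‖φ a‖ ≤ 1 := hA1 _ ha
    rw [hφ, hv] at this
    exact_mod_cast this
  · refine IsFractionRing.of_field _ _ fun z => ?_
    obtain ⟨a, ha, b, hb, -, h⟩ := hAq (φ z) ⟨z, rfl⟩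
    obtain ⟨a', rfl⟩ := hAF ha
    obtain ⟨b', rfl⟩ := hAF hb
    refine ⟨⟨a', ha⟩, ⟨b', hb⟩, hinj ?_⟩
    rw [map_div₀]
    exact h
  · exact Algebra.Smooth.of_equiv
      (((A.comap φ).equivMapOfInjective φ hinj).trans (Subalgebra.equivOfEq _ _ hmap)).symm

end Glue

/-- Reduction of the theorem to the normed algebraically closed setting. -/
theorem glue (k : Type u) (F : Type v) [Field k] [IsAlgClosed k] [Field F] [Algebra k F]
    (p : ℕ) [Fact p.Prime] [CharP k p] : GlueStmt k F p := by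
  intro core hfg v h1 h2 r x hx hind htr Z hZ
  by_cases hn : ∃ a, 1 < v a
  · let f : AbsoluteValue F ℝ :=
      { toFun := fun a => v a
        map_mul' := fun a b => by simp
        nonneg' := fun a => (v a).2
        eq_zero' := fun a => by simp
        add_le' := fun a b => by
          have := v.map_add a b
          have h : v (a + b) ≤ v a + v b :=
            this.trans (max_le (le_add_of_nonneg_right bot_le) (le_add_of_nonneg_left bot_le))
          exact_mod_cast h }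
    have hf : IsNonarchimedean f := fun a b => by
      change ((v (a + b) : ℝ≥0) : ℝ) ≤ max (v a : ℝ) (v b : ℝ)
      exact_mod_cast v.map_add a b
    obtain ⟨a0, ha0⟩ := hn
    have ha1 : 1 < f a0 := by
      change (1 : ℝ) < ((v a0 : ℝ≥0) : ℝ)
      exact_mod_cast ha0
    obtain ⟨g, hg, hgf⟩ := Glue.exists_abs F f hf ⟨a0, ha1⟩
    let : NontriviallyNormedField (AlgebraicClosure F) :=
      { g.toNormedField with
        non_trivial := ⟨algebraMap F _ a0, by
          change 1 < g _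
          rw [hgf]; exact ha1⟩ }
    have hv : ∀ a, ‖algebraMap F (AlgebraicClosure F) a‖ = v a := hgf
    have : IsUltrametricDist (AlgebraicClosure F) :=
      IsUltrametricDist.isUltrametricDist_of_forall_norm_add_le_max_norm hg
    have hk : ∀ c : k, c ≠ 0 → ‖algebraMap k (AlgebraicClosure F) c‖ = 1 := fun c hc => by
      rw [IsScalarTower.algebraMap_apply k F, hv, h1 c hc]; rfl
    have : Ctx k (AlgebraicClosure F) :=
      ⟨hk, Glue.res_of_algebraic (F := F) hk fun b hb => by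
        rw [hv] at hb
        obtain ⟨c, hc⟩ := h2 b (by exact_mod_cast hb)
        refine ⟨c, ?_⟩
        rw [IsScalarTower.algebraMap_apply k F, ← map_sub, hv]
        exact_mod_cast hc⟩
    have : CharP (AlgebraicClosure F) p :=
      charP_of_injective_algebraMap (algebraMap k (AlgebraicClosure F)).injective p
    exact Glue.transfer (core (AlgebraicClosure F)) hfg v hv r x hx hind htr Z hZ
  · push Not at hn
    have hall : ∀ a : F, a ∈ (⊥ : Subalgebra k F) := by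
      intro a
      obtain ⟨c, hc⟩ := h2 a (hn a)
      have h0 : a - algebraMap k F c = 0 := by
        by_contra h0
        have h3 := hn (a - algebraMap k F c)⁻¹
        rw [map_inv₀, inv_le_one₀ (pos_iff_ne_zero.2 ((Valuation.ne_zero_iff v).2 h0))] at h3
        exact absurd hc (not_lt.2 h3)
      rw [sub_eq_zero.1 h0]
      exact Subalgebra.algebraMap_mem _ c
    refine ⟨⊥, Subalgebra.fg_bot, fun a _ => hn a, fun z _ => hall z, ?_,
      Algebra.Smooth.of_equiv (Algebra.botEquiv k F).symm⟩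
    exact IsFractionRing.of_field _ _ fun z => ⟨⟨z, hall z⟩, 1, by simp⟩

end Pool.Agent.MP_19ffc6_ag.LU

end MrgPart4

-- ======== part 5: formerly Pool.Agent.MP_19ffc6_ag.LU.Hens
section MrgPart5

/-! The henselization is henselian. -/

namespace Pool.Agent.MP_19ffc6_ag.LU

open Polynomial

namespace Hens

/-- Two roots of an irreducible polynomial over a complete field have the same norm. -/
theorem norm_eq_of_roots {K W : Type*} [NontriviallyNormedField K] [IsUltrametricDist K]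
    [CompleteSpace K] [NormedField W] (j : K →+* W) (hj : ∀ x, ‖j x‖ = ‖x‖) {g : Polynomial K}
    (hg : Irreducible g) {x y : W} (hx : g.eval₂ j x = 0) (hy : g.eval₂ j y = 0) :
    ‖x‖ = ‖y‖ := by
  have : Fact (Irreducible g) := ⟨hg⟩
  have : Module.Finite K (AdjoinRoot g) := (AdjoinRoot.powerBasis hg.ne_zero).finite
  have key : ∀ z : W, g.eval₂ j z = 0 → ‖z‖ = spectralNorm K (AdjoinRoot g) (AdjoinRoot.root g) := by
    intro z hz
    let φ : AdjoinRoot g →+* W := AdjoinRoot.lift j z hz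
    let f : AbsoluteValue (AdjoinRoot g) ℝ :=
      (NormedField.toAbsoluteValue W).comp φ.injective
    have hf : ∀ w, f w = ‖φ w‖ := fun _ => rfl
    have h1 := spectralNorm_unique_field_norm_ext (K := K) (f := f) (fun c => by
      rw [hf, AdjoinRoot.algebraMap_eq, AdjoinRoot.lift_of, hj]) (AdjoinRoot.root g)
    rw [hf, AdjoinRoot.lift_root] at h1
    exact h1
  rw [key x hx, key y hy]

variable {k Ω : Type*} [Field k] [NontriviallyNormedField Ω] [Algebra k Ω]

theorem exists_one_lt (M : IntermediateField k Ω) (h : Algebra.IsAlgebraic M Ω) :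
    ∃ m ∈ M, 1 < ‖m‖ := by
  by_contra h0
  push Not at h0
  obtain ⟨x, hx⟩ := NormedField.exists_lt_norm Ω 2
  have hi : IsIntegral M x := (h.isAlgebraic x).isIntegral
  have hm : ((minpoly M x).map (algebraMap M Ω)).Monic := (minpoly.monic hi).map _
  have hr : ((minpoly M x).map (algebraMap M Ω)).IsRoot x := by
    rw [IsRoot.def, eval_map_algebraMap, minpoly.aeval]
  have h1 := hr.norm_lt_cauchyBound hm.ne_zero
  have h2 : cauchyBound ((minpoly M x).map (algebraMap M Ω)) ≤ 2 := by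
    rw [cauchyBound, hm.leadingCoeff, nnnorm_one, div_one, ← one_add_one_eq_two]
    refine add_le_add (Finset.sup_le fun i _ => ?_) le_rfl
    rw [coeff_map]
    exact_mod_cast h0 _ ((minpoly M x).coeff i).2
  have h3 : ‖x‖ < 2 := by exact_mod_cast h1.trans_le h2
  linarith

theorem norm_eq_of_sep [IsUltrametricDist Ω] [IsAlgClosed Ω] (M : IntermediateField k Ω)
    (h : Algebra.IsAlgebraic M Ω) (σ : Ω ≃ₐ[hens M] Ω) {a : Ω} (ha : IsSeparable M a) :
    ‖σ a‖ = ‖a‖ := by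
  let W := UniformSpace.Completion Ω
  let ι : Ω →+* W := UniformSpace.Completion.coeRingHom
  have hι : ∀ x, ‖ι x‖ = ‖x‖ := fun x => UniformSpace.Completion.norm_coe x
  have hind : Topology.IsInducing ι := (UniformSpace.Completion.isUniformInducing_coe Ω).isInducing
  let K : Subfield W := (M.toSubfield.map ι).topologicalClosure
  have hK : ∀ x : Ω, ι x ∈ K ↔ x ∈ closure (M : Set Ω) := fun x => by
    rw [hind.closure_eq_preimage_closure_image]
    rfl
  obtain ⟨m, hm, hm1⟩ := exists_one_lt M h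
  let : NontriviallyNormedField K :=
    { (inferInstance : NormedField K) with
      non_trivial := ⟨⟨ι m, (hK m).2 (subset_closure hm)⟩, by
        show 1 < ‖ι m‖
        rw [hι]; exact hm1⟩ }
  have : IsUltrametricDist K :=
    IsUltrametricDist.isUltrametricDist_of_forall_norm_natCast_le_one fun n => by
      show ‖((n : K) : W)‖ ≤ 1
      rw [SubringClass.coe_natCast, ← map_natCast ι, hι]
      exact IsUltrametricDist.norm_natCast_le_one Ω n
  have : CompleteSpace K := (Subfield.isClosed_topologicalClosure _).completeSpace_coe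
  let j : M →+* K := (ι.comp (algebraMap M Ω)).codRestrict K fun x =>
    (hK x).2 (subset_closure x.2)
  have hj : (algebraMap K W).comp j = ι.comp (algebraMap M Ω) := rfl
  have hi : IsIntegral M a := (h.isAlgebraic a).isIntegral
  have hroot : aeval (ι a) ((minpoly M a).map j) = 0 := by
    rw [aeval_def, eval₂_map, hj, ← hom_eval₂, ← aeval_def, minpoly.aeval, map_zero]
  have hi' : IsIntegral K (ι a) := ⟨_, (minpoly.monic hi).map j, hroot⟩
  set g := minpoly K (ι a) with hg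
  have hdvd : g.map (algebraMap K W) ∣ ((minpoly M a).map (algebraMap M Ω)).map ι := by
    have := Polynomial.map_dvd (algebraMap K W) (minpoly.dvd K (ι a) hroot)
    rwa [map_map, hj, ← map_map] at this
  have hmon : (((minpoly M a).map (algebraMap M Ω)).map ι).Monic :=
    ((minpoly.monic hi).map _).map _
  have hsp : ((minpoly M a).map (algebraMap M Ω)).Splits := IsAlgClosed.splits _
  have hgm : (g.map (algebraMap K W)).Monic := (minpoly.monic hi').map _
  let S := separableClosure M Ω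
  have hl : g.map (algebraMap K W) ∈ lifts (ι.comp (algebraMap S Ω)) := by
    refine ((hsp.map ι).of_dvd hmon.ne_zero hdvd).mem_lift_of_roots_mem_range hgm _ fun r hr => ?_
    have h1 := Multiset.mem_of_le (roots.le_of_dvd hmon.ne_zero hdvd) hr
    rw [hsp.roots_map] at h1
    obtain ⟨b, hb, rfl⟩ := Multiset.mem_map.1 h1
    have h2 : aeval b (minpoly M a) = 0 := by
      rw [← eval_map_algebraMap]; exact isRoot_of_mem_roots hb
    exact ⟨⟨b, mem_separableClosure_iff.2 (Separable.of_dvd ha (minpoly.dvd M b h2))⟩, rfl⟩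
  obtain ⟨G, hG⟩ := (mem_lifts _).1 hl
  have hc : ∀ n, (G.coeff n : Ω) ∈ hens M := fun n => by
    refine ⟨(G.coeff n).2, ?_⟩
    have h1 : ι (G.coeff n) = (g.coeff n : W) := by
      have := congrArg (fun q => q.coeff n) hG
      simp only [coeff_map] at this
      exact this
    exact (hK _).1 (h1 ▸ (g.coeff n).2)
  have hev : ∀ x : Ω, g.eval₂ (algebraMap K W) (ι x) = ι (G.eval₂ (algebraMap S Ω) x) := fun x => by
    rw [hom_eval₂, ← eval_map, ← hG, eval_map]
  have h0 : g.eval₂ (algebraMap K W) (ι a) = 0 := minpoly.aeval K (ι a)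
  have h1 : G.eval₂ (algebraMap S Ω) a = 0 := ι.injective (by rw [← hev, h0, map_zero])
  have h2 : G.eval₂ (algebraMap S Ω) (σ a) = σ (G.eval₂ (algebraMap S Ω) a) := by
    rw [eval₂_eq_sum_range, eval₂_eq_sum_range, map_sum]
    refine Finset.sum_congr rfl fun n _ => ?_
    rw [map_mul, map_pow]
    congr 1
    exact (σ.commutes ⟨_, hc n⟩).symm
  have h3 : g.eval₂ (algebraMap K W) (ι (σ a)) = 0 := by rw [hev, h2, h1, map_zero, map_zero]
  rw [← hι, ← hι a]
  exact norm_eq_of_roots (algebraMap K W) (fun _ => rfl) (minpoly.irreducible hi') h3 h0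

end Hens

variable {k Ω : Type*} [Field k] [NontriviallyNormedField Ω] [IsUltrametricDist Ω] [Algebra k Ω]
  [IsAlgClosed Ω]

theorem hens_isHens : HensStmt k Ω := by
  intro M h σ a
  obtain ⟨q, hq⟩ := ExpChar.exists (separableClosure M Ω)
  obtain ⟨n, b, hb⟩ := IsPurelyInseparable.pow_mem (separableClosure M Ω) q a
  have hs : IsSeparable M (a ^ q ^ n) := hb ▸ mem_separableClosure_iff.1 b.2
  have h1 := Hens.norm_eq_of_sep M h σ hs
  rw [map_pow, norm_pow, norm_pow] at h1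
  exact (pow_left_inj₀ (norm_nonneg _) (norm_nonneg _)
    (pow_ne_zero n (expChar_pos (separableClosure M Ω) q).ne')).1 h1

end Pool.Agent.MP_19ffc6_ag.LU

end MrgPart5

-- ======== part 6: formerly Pool.Agent.MP_19ffc6_ag.LU.Init
section MrgPart6

/-! Module IN of PROJECT LU1: independent values and the first stage. -/

namespace Pool.Agent.MP_19ffc6_ag.LU

open Polynomial IntermediateField

variable {k Ω : Type*} [Field k] [NontriviallyNormedField Ω] [IsUltrametricDist Ω] [Algebra k Ω]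
  [IsAlgClosed k] [IsAlgClosed Ω] [Ctx k Ω] {p : ℕ} [Fact p.Prime] [CharP k p] [CharP Ω p]

namespace Init

omit [IsAlgClosed Ω] in
/-- A finite sum of nonzero terms with pairwise distinct norms is nonzero. -/
theorem sum_ne_zero {ι : Type*} (s : Finset ι) (f : ι → Ω) (hs : s.Nonempty)
    (h0 : ∀ i ∈ s, f i ≠ 0) (h : Set.Pairwise s fun i j => ‖f i‖ ≠ ‖f j‖) :
    ∑ i ∈ s, f i ≠ 0 := by
  intro hz
  have h1 := IsUltrametricDist.norm_sum_eq_sup'_of_pairwise_ne hs h
  rw [hz, norm_zero] at h1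
  obtain ⟨i, hi⟩ := hs
  have h2 : ‖f i‖ ≤ s.sup' ⟨i, hi⟩ fun i => ‖f i‖ := Finset.le_sup' (fun i => ‖f i‖) hi
  rw [← h1] at h2
  exact h0 i hi (norm_le_zero_iff.1 h2)

omit [IsUltrametricDist Ω] [IsAlgClosed Ω] in
theorem nu_mul {a b : Ω} (ha : a ≠ 0) (hb : b ≠ 0) : nu (a * b) = nu a + nu b := by
  simp only [nu, norm_mul]
  rw [Real.log_mul (norm_ne_zero_iff.2 ha) (norm_ne_zero_iff.2 hb)]; ring

omit [IsUltrametricDist Ω] [IsAlgClosed Ω] in
theorem nu_zpow (a : Ω) (m : ℤ) : nu (a ^ m) = m * nu a := by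
  simp only [nu, norm_zpow, Real.log_zpow]; ring

omit [IsUltrametricDist Ω] [IsAlgClosed Ω] in
theorem nu_pow (a : Ω) (m : ℕ) : nu (a ^ m) = m * nu a := by
  simp only [nu, norm_pow, Real.log_pow]; ring

omit [IsUltrametricDist Ω] [IsAlgClosed Ω] in
theorem nu_prod {ι : Type*} (s : Finset ι) (f : ι → Ω) (h0 : ∀ i ∈ s, f i ≠ 0) :
    nu (∏ i ∈ s, f i) = ∑ i ∈ s, nu (f i) := by
  simp only [nu, norm_prod]
  rw [Real.log_prod (fun i hi => norm_ne_zero_iff.2 (h0 i hi)), Finset.sum_neg_distrib]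

omit [IsUltrametricDist Ω] [IsAlgClosed Ω] in
theorem norm_eq_exp {a : Ω} (ha : a ≠ 0) : ‖a‖ = Real.exp (-nu a) := by
  simp only [nu, neg_neg]
  rw [Real.exp_log (norm_pos_iff.2 ha)]

omit [IsAlgClosed Ω] in
theorem norm_one_add {y : Ω} (hy : ‖y‖ < 1) : ‖1 + y‖ = 1 := by
  have : ‖(1 : Ω)‖ ≠ ‖y‖ := by rw [norm_one]; exact hy.ne'
  rw [IsUltrametricDist.norm_add_eq_max_of_norm_ne_norm this, norm_one, max_eq_left hy.le]

omit [IsAlgClosed k] [IsAlgClosed Ω] [Ctx k Ω] in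
/-- A multiple of every value comes from `F`. -/
theorem exists_mul_nu {F : IntermediateField k Ω} (hF : Algebra.IsAlgebraic F Ω) {a : Ω}
    (ha : a ≠ 0) : ∃ d : ℕ, 0 < d ∧ ∃ e ∈ F, e ≠ 0 ∧ (d : ℝ) * nu a = nu e := by
  obtain ⟨P, hP, hPa⟩ := hF.isAlgebraic a
  rw [aeval_def, eval₂_eq_sum, Polynomial.sum] at hPa
  have hc : ∀ i ∈ P.support, algebraMap F Ω (P.coeff i) ≠ 0 := fun i hi =>
    (_root_.map_ne_zero _).2 (mem_support_iff.1 hi)
  have key : ∀ i ∈ P.support, ∀ j ∈ P.support, i < j →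
      ‖algebraMap F Ω (P.coeff i) * a ^ i‖ = ‖algebraMap F Ω (P.coeff j) * a ^ j‖ →
      ∃ d : ℕ, 0 < d ∧ ∃ e ∈ F, e ≠ 0 ∧ (d : ℝ) * nu a = nu e := by
    intro i hi j hj hij h
    have h1 : nu (algebraMap F Ω (P.coeff i) * a ^ i) =
        nu (algebraMap F Ω (P.coeff j) * a ^ j) := by simp only [nu, h]
    rw [nu_mul (hc i hi) (pow_ne_zero _ ha), nu_mul (hc j hj) (pow_ne_zero _ ha), nu_pow,
      nu_pow] at h1
    refine ⟨j - i, by omega, algebraMap F Ω (P.coeff i) * algebraMap F Ω (P.coeff j) ^ (-1 : ℤ),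
      F.mul_mem (P.coeff i).2 (zpow_mem (P.coeff j).2 _),
      mul_ne_zero (hc i hi) (zpow_ne_zero _ (hc j hj)), ?_⟩
    rw [nu_mul (hc i hi) (zpow_ne_zero _ (hc j hj)), nu_zpow, Nat.cast_sub hij.le]
    push_cast
    linarith
  by_contra hcon
  refine sum_ne_zero P.support _ (support_nonempty.2 hP)
    (fun i hi => mul_ne_zero (hc i hi) (pow_ne_zero _ ha)) ?_ hPa
  intro i hi j hj hij h
  rcases lt_or_gt_of_ne hij with hlt | hlt
  · exact hcon (key i hi j hj hlt h)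
  · exact hcon (key j hj i hi hlt h.symm)

omit [IsUltrametricDist Ω] [IsAlgClosed k] [IsAlgClosed Ω] [Ctx k Ω] in
theorem der_pow {F : IntermediateField k Ω} {D : Ω → Ω} (hD : IsDer F D) {a : Ω} (ha : a ∈ F)
    (n : ℕ) : D (a ^ (n + 1)) = (n + 1 : ℕ) * a ^ n * D a := by
  induction n with
  | zero => simp
  | succ n ih =>
    rw [pow_succ, hD.mul _ (pow_mem ha _) _ ha, ih]
    push_cast
    ring

omit [IsUltrametricDist Ω] [IsAlgClosed k] [IsAlgClosed Ω] [Ctx k Ω] [CharP k p] in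
theorem der_pow_char {F : IntermediateField k Ω} {D : Ω → Ω} (hD : IsDer F D) {a : Ω}
    (ha : a ∈ F) : D (a ^ p) = 0 := by
  obtain ⟨n, hn⟩ : ∃ n, p = n + 1 := ⟨p - 1, by have := (Fact.out : p.Prime).pos; omega⟩
  have h := der_pow hD ha n
  rw [← hn, CharP.cast_eq_zero] at h
  simpa using h

omit [IsUltrametricDist Ω] [IsAlgClosed k] [IsAlgClosed Ω] in
/-- Every element has a small companion which controls its derivatives. -/
theorem exists_small {F : IntermediateField k Ω} {a : Ω} (ha : a ∈ F) :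
    ∃ y ∈ F, ‖y‖ < 1 ∧ ∀ D, IsDer F D → D y = 0 → D a = 0 := by
  have key : ∀ b ∈ F, ‖b‖ ≤ 1 → ∃ y ∈ F, ‖y‖ < 1 ∧ ∀ D, IsDer F D → D y = 0 → D b = 0 := by
    intro b hb h
    obtain ⟨c, hc⟩ := Ctx.res (k := k) b h
    refine ⟨_, F.sub_mem hb (F.algebraMap_mem c), hc, fun D hD h0 => ?_⟩
    have := hD.add _ (F.sub_mem hb (F.algebraMap_mem c)) _ (F.algebraMap_mem c)
    rwa [sub_add_cancel, h0, hD.const, add_zero] at this
  by_cases h : ‖a‖ ≤ 1
  · exact key a ha h
  · have ha0 : a ≠ 0 := by rintro rfl; simp at h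
    obtain ⟨y, hy, hy1, hy2⟩ := key a⁻¹ (F.inv_mem ha)
      (by rw [norm_inv]; exact inv_le_one_of_one_le₀ (not_le.1 h).le)
    refine ⟨y, hy, hy1, fun D hD h0 => ?_⟩
    have h1 := hD.mul _ ha _ (F.inv_mem ha)
    have h2 := hD.const 1
    rw [map_one] at h2
    rw [mul_inv_cancel₀ ha0, h2, hy2 D hD h0, mul_zero, zero_add] at h1
    exact (mul_eq_zero.1 h1.symm).resolve_left (inv_ne_zero ha0)

omit [IsUltrametricDist Ω] [IsAlgClosed k] [IsAlgClosed Ω] [Ctx k Ω] in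
/-- Transport of separability from `F` to `Ω`. -/
theorem sepOver_of {F : IntermediateField k Ω} (S : Set F)
    (h : Algebra.IsSeparable (adjoin k S) F) : SepOver (adjoin k (((↑) : F → Ω) '' S)) F := by
  intro a ha
  have hmem : ∀ z : adjoin k S, ((F.val.toRingHom).comp (adjoin k S).val.toRingHom) z ∈
      adjoin k (((↑) : F → Ω) '' S) := by
    intro z
    have h1 := adjoin_map k S F.val
    have h2 : (((↑) : F → Ω) '' S) = F.val '' S := rfl
    rw [h2, ← h1]
    exact ⟨z, z.2, rfl⟩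
  let φ : adjoin k S →+* adjoin k (((↑) : F → Ω) '' S) :=
    ((F.val.toRingHom).comp (adjoin k S).val.toRingHom).codRestrict _ hmem
  have h1 : (minpoly (adjoin k S) (⟨a, ha⟩ : F)).Separable := h.isSeparable _ _
  refine (h1.map (f := φ)).of_dvd (minpoly.dvd _ _ ?_)
  have h2 := minpoly.aeval (adjoin k S) (⟨a, ha⟩ : F)
  have h3 := congrArg F.val.toRingHom h2
  rw [aeval_def, hom_eval₂, map_zero] at h3
  rw [aeval_def, eval₂_map]
  exact h3

omit [IsUltrametricDist Ω] [IsAlgClosed k] [IsAlgClosed Ω] [Ctx k Ω] in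
theorem alg_trans {N M : IntermediateField k Ω} (h : ∀ z ∈ M, IsAlgebraic N z)
    (hM : Algebra.IsAlgebraic M Ω) : Algebra.IsAlgebraic N Ω := by
  refine ⟨fun a => ?_⟩
  have hmem : ∀ z : M, M.val.toRingHom z ∈ algebraicClosure N Ω := fun z =>
    mem_algebraicClosure_iff.2 (h z z.2)
  let φ : M →+* algebraicClosure N Ω := M.val.toRingHom.codRestrict _ hmem
  have h1 : IsIntegral M a := (hM.isAlgebraic a).isIntegral
  have h2 : IsIntegral (algebraicClosure N Ω) a := by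
    refine ⟨(minpoly M a).map φ, (minpoly.monic h1).map φ, ?_⟩
    rw [eval₂_map]
    exact minpoly.aeval M a
  exact (isIntegral_trans (R := N) a h2).isAlgebraic

/-- A family of `m` elements of `F` with independent values. -/
def Fam (F : IntermediateField k Ω) (m : ℕ) : Prop :=
  ∃ x : Fin m → Ω, (∀ i, x i ∈ F ∧ x i ≠ 0) ∧ LinearIndependent ℤ fun i => nu (x i)

end Init

open Init

omit [IsAlgClosed k] [IsAlgClosed Ω] in
theorem ind : IndStmt k Ω := by
  intro ι x hx hli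
  rw [algebraicIndependent_iff]
  intro P hP
  by_contra h0
  rw [MvPolynomial.aeval_def, MvPolynomial.eval₂_eq] at hP
  have hc : ∀ d ∈ P.support, ‖algebraMap k Ω (P.coeff d)‖ = 1 := fun d hd =>
    Ctx.norm_alg _ (MvPolynomial.mem_support_iff.1 hd)
  have hc0 : ∀ d ∈ P.support, algebraMap k Ω (P.coeff d) ≠ 0 := fun d hd =>
    (_root_.map_ne_zero _).2 (MvPolynomial.mem_support_iff.1 hd)
  have hm : ∀ d : ι →₀ ℕ, ∏ i ∈ d.support, x i ^ d i ≠ 0 := fun d =>
    Finset.prod_ne_zero_iff.2 fun i _ => pow_ne_zero _ (hx i)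
  have hnu : ∀ d : ι →₀ ℕ, nu (∏ i ∈ d.support, x i ^ d i) =
      Finsupp.linearCombination ℤ (fun i => nu (x i)) (d.mapRange (↑) Nat.cast_zero) := by
    intro d
    rw [nu_prod _ _ fun i _ => pow_ne_zero _ (hx i), Finsupp.linearCombination_apply,
      Finsupp.sum_mapRange_index (by simp), Finsupp.sum]
    refine Finset.sum_congr rfl fun i _ => ?_
    rw [nu_pow]; simp
  refine sum_ne_zero P.support _ (MvPolynomial.support_nonempty.2 h0)
    (fun d hd => mul_ne_zero (hc0 d hd) (hm d)) ?_ hP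
  intro d hd d' hd' hne h
  rw [norm_mul, norm_mul, hc d hd, hc d' hd', one_mul, one_mul] at h
  have h1 : nu (∏ i ∈ d.support, x i ^ d i) = nu (∏ i ∈ d'.support, x i ^ d' i) := by
    simp only [nu, h]
  rw [hnu, hnu] at h1
  exact hne (Finsupp.mapRange_injective _ _ Nat.cast_injective (hli h1))

namespace Init

omit [IsAlgClosed k] [IsAlgClosed Ω] in
theorem Fam.le_trdeg {F : IntermediateField k Ω} {m : ℕ} (h : Fam F m) :
    (m : Cardinal) ≤ Algebra.trdeg k F := by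
  obtain ⟨x, hx, hli⟩ := h
  have h1 : AlgebraicIndependent k x := ind _ x (fun i => (hx i).2) hli
  have h2 : AlgebraicIndependent k fun i => (⟨x i, (hx i).1⟩ : F) :=
    AlgebraicIndependent.of_comp F.val h1
  simpa using h2.lift_cardinalMk_le_trdeg

omit [IsAlgClosed k] [IsAlgClosed Ω] [Ctx k Ω] in
/-- If the rational rank is smaller than the transcendence degree, the last coordinate of every
stage is transcendental over the monomials. -/
theorem na {F : IntermediateField k Ω} (hF : Algebra.IsAlgebraic F Ω) {r : ℕ}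
    (hmax : ∀ m, Fam F m → m ≤ r) (hr : (r : Cardinal) < Algebra.trdeg k F) : NA k Ω := by
  intro s hs hy
  have : Module.Finite ℤ s.Λ :=
    Module.Finite.iff_addGroup_fg.2 ((AddGroup.fg_iff_addSubgroup_fg _).2 s.fg)
  let b := Module.finBasis ℤ s.Λ
  have hne : ∀ α ∈ s.Λ, s.mon α ≠ 0 := fun α hα h => by
    have := s.norm_mon α hα
    rw [h, norm_zero] at this
    exact (Real.exp_pos _).ne this
  have hnu : ∀ α ∈ s.Λ, nu (s.mon α) = α := fun α hα => by
    simp [nu, s.norm_mon α hα]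
  have hb : LinearIndependent ℤ fun i => (b i : ℝ) :=
    b.linearIndependent.map' s.Λ.subtype.toIntLinearMap
      (LinearMap.ker_eq_bot.2 Subtype.val_injective)
  have hm : Module.finrank ℤ s.Λ ≤ r := by
    choose d hd e he he0 hde using fun i => exists_mul_nu hF (hne _ (b i).2)
    refine hmax _ ⟨e, fun i => ⟨he i, he0 i⟩, ?_⟩
    rw [Fintype.linearIndependent_iff] at hb ⊢
    intro g hg i
    have h1 := hb (fun i => g i * d i) (by
      rw [← hg]
      refine Finset.sum_congr rfl fun i _ => ?_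
      rw [← hde i, hnu _ (b i).2]
      simp [mul_assoc]) i
    exact (mul_eq_zero.1 h1).resolve_right (by exact_mod_cast (hd i).ne')
  let N : IntermediateField k Ω := adjoin k (Set.range fun i => s.mon (b i))
  have h0 : s.mon 0 = 1 := by
    have := s.mon_add 0 s.Λ.zero_mem 0 s.Λ.zero_mem
    rw [add_zero] at this
    exact (mul_eq_left₀ (hne 0 s.Λ.zero_mem)).1 this.symm
  have hN : ∀ α ∈ s.Λ, s.mon α ∈ N := by
    intro α hα
    have h1 : α ∈ AddSubgroup.closure (Set.range fun i => (b i : ℝ)) := by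
      have h2 := congrArg Subtype.val (b.sum_repr ⟨α, hα⟩)
      simp only [AddSubgroup.val_finsetSum, AddSubgroup.coe_zsmul] at h2
      rw [← h2]
      exact sum_mem fun i _ => zsmul_mem (AddSubgroup.subset_closure (Set.mem_range_self i)) _
    suffices h : α ∈ s.Λ ∧ s.mon α ∈ N from h.2
    clear hα
    induction h1 using AddSubgroup.closure_induction with
    | mem x hx =>
      obtain ⟨i, rfl⟩ := hx
      exact ⟨(b i).2, subset_adjoin _ _ ⟨i, rfl⟩⟩
    | zero => exact ⟨s.Λ.zero_mem, h0 ▸ N.one_mem⟩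
    | add x y _ _ hx hy =>
      exact ⟨s.Λ.add_mem hx.1 hy.1, s.mon_add x hx.1 y hy.1 ▸ N.mul_mem hx.2 hy.2⟩
    | neg x _ hx =>
      refine ⟨s.Λ.neg_mem hx.1, ?_⟩
      have h2 := s.mon_add x hx.1 (-x) (s.Λ.neg_mem hx.1)
      rw [add_neg_cancel, h0] at h2
      rw [eq_inv_of_mul_eq_one_right h2.symm]
      exact N.inv_mem hx.2
  have hNe : adjoin k (s.mon '' s.Λ) = N := by
    refine le_antisymm (adjoin_le_iff.2 ?_) (adjoin.mono _ _ _ ?_)
    · rintro _ ⟨α, hα, rfl⟩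
      exact hN α hα
    · rintro _ ⟨i, rfl⟩
      exact ⟨_, (b i).2, rfl⟩
  rw [hNe] at hy
  have hle : s.M k ≤ (algebraicClosure N Ω).restrictScalars k := by
    refine adjoin_le_iff.2 ?_
    rintro _ (⟨α, hα, rfl⟩ | rfl)
    · exact mem_algebraicClosure_iff.2 (isAlgebraic_algebraMap (⟨_, hN α hα⟩ : N))
    · exact mem_algebraicClosure_iff.2 hy
  have halg : Algebra.IsAlgebraic N Ω :=
    alg_trans (fun z hz => mem_algebraicClosure_iff.1 (hle hz)) hs
  have : Algebra.IsAlgebraic (Algebra.adjoin k (Set.range fun i => s.mon (b i))) Ω :=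
    isAlgebraic_adjoin_iff_top.1 halg
  have h1 := Algebra.IsAlgebraic.trdeg_le_cardinalMk k (Set.range fun i => s.mon (b i))
  have h2 : Cardinal.mk (Set.range fun i => s.mon (b i)) ≤ (r : Cardinal) := by
    have h3 := Cardinal.mk_range_le_lift (f := fun i => s.mon (b i))
    simp only [Cardinal.lift_uzero, Cardinal.mk_fin, Cardinal.lift_natCast] at h3
    exact h3.trans (by exact_mod_cast hm)
  have h4 : Algebra.trdeg k F ≤ Algebra.trdeg k Ω :=
    trdeg_le_of_injective F.val Subtype.val_injective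
  exact absurd (h4.trans (h1.trans h2)) (not_le.2 hr)

omit [IsUltrametricDist Ω] [IsAlgClosed Ω] in
/-- The stage attached to a family with independent values spanning a full lattice. -/
theorem exists_stage {r : ℕ} (x : Fin r → Ω) (hx : ∀ i, x i ≠ 0)
    (hli : LinearIndependent ℤ fun i => nu (x i))
    (hfull : ∀ a : Ω, a ≠ 0 → ∃ d : ℕ, 0 < d ∧
      (d : ℝ) * nu a ∈ Submodule.span ℤ (Set.range fun i => nu (x i)))
    (y : Ω) (hy : ‖y‖ < 1) :
    ∃ s : Stage Ω, s.y = y ∧ (∀ i, x i ∈ s.gens) ∧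
      ∀ α ∈ s.Λ, ∃ m : Fin r → ℤ, s.mon α = ∏ i, x i ^ m i := by
  classical
  let mon : ℝ → Ω := fun α =>
    if h : α ∈ Submodule.span ℤ (Set.range fun i => nu (x i)) then
      ∏ i, x i ^ hli.repr ⟨α, h⟩ i else 1
  have hmon : ∀ α (h : α ∈ Submodule.span ℤ (Set.range fun i => nu (x i))),
      mon α = ∏ i, x i ^ hli.repr ⟨α, h⟩ i := fun α h => dif_pos h
  refine ⟨⟨(Submodule.span ℤ (Set.range fun i => nu (x i))).toAddSubgroup,
    (Submodule.fg_iff_addSubgroup_fg _).1 (Submodule.fg_span (Set.finite_range _)), hfull, mon,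
    ?_, ?_, y, hy⟩, rfl, ?_, fun α hα => ⟨_, hmon α hα⟩⟩
  · intro α hα β hβ
    rw [hmon α hα, hmon β hβ, hmon (α + β) (Submodule.add_mem _ hα hβ), ← Finset.prod_mul_distrib]
    refine Finset.prod_congr rfl fun i _ => ?_
    rw [← zpow_add₀ (hx i), ← Finsupp.add_apply, ← map_add]
    rfl
  · intro α hα
    rw [hmon α hα, norm_eq_exp (Finset.prod_ne_zero_iff.2 fun i _ => zpow_ne_zero _ (hx i)),
      nu_prod _ _ fun i _ => zpow_ne_zero _ (hx i)]
    have h1 := hli.linearCombination_repr ⟨α, hα⟩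
    rw [Finsupp.linearCombination_apply, Finsupp.sum_fintype _ _ (by simp)] at h1
    congr 2
    refine Eq.trans (Finset.sum_congr rfl fun i _ => ?_) h1
    rw [nu_zpow]; simp
  · intro i
    have hi : nu (x i) ∈ Submodule.span ℤ (Set.range fun i => nu (x i)) :=
      Submodule.subset_span ⟨i, rfl⟩
    refine Or.inl ⟨nu (x i), hi, ?_⟩
    change mon _ = _
    rw [hmon _ hi, hli.repr_eq_single i ⟨_, hi⟩ rfl, Finset.prod_eq_single i]
    · simp
    · intro j _ hj
      simp [hj.symm]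
    · simp

end Init

omit [IsAlgClosed Ω] in
theorem init (p : ℕ) [Fact p.Prime] [CharP Ω p] (hs : SepStmt k Ω) : InitStmt k Ω := by
  classical
  intro F hfg hF r x0 hx0 hli0 htr
  have hp : 0 < p := (Fact.out : p.Prime).pos
  have : Algebra.EssFiniteType k F := essFiniteType_iff.2 hfg
  obtain ⟨T, hT, hsep⟩ := exists_isTranscendenceBasis_and_isSeparable_of_perfectField k F
  have hn : Algebra.trdeg k F = T.card := by
    rw [← hT.cardinalMk_eq_trdeg]; simp
  have hle : ∀ m, Fam F m → m ≤ T.card := fun m h => by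
    have := h.le_trdeg
    rw [hn] at this
    exact_mod_cast this
  have hFam : Fam F r := ⟨x0, hx0, hli0⟩
  obtain ⟨r', hr', hmax⟩ : ∃ r', Fam F r' ∧ ∀ m, Fam F m → m ≤ r' :=
    ⟨Nat.findGreatest (Fam F) T.card, Nat.findGreatest_spec (hle r hFam) hFam,
      fun m h => Nat.le_findGreatest (hle m h) h⟩
  have hnr : T.card ≤ r' + 1 := by
    rw [hn] at htr
    have h1 : T.card ≤ r + 1 := by exact_mod_cast htr
    have := hmax r hFam
    omega
  obtain ⟨x, hx, hli⟩ := hr'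
  obtain ⟨y, hyF, hy1, hy0, hyD⟩ : ∃ y : ℕ → Ω, (∀ l, y l ∈ F) ∧ (∀ l, ‖y l‖ < 1) ∧
      (∀ l, T.card ≤ l → y l = 0) ∧ ∀ a ∈ T, ∃ l < T.card, ∀ D, IsDer F D → D (y l) = 0 →
        D (a : Ω) = 0 := by
    choose z hzF hz1 hzD using fun i : Fin T.card => exists_small (T.equivFin.symm i).1.2
    refine ⟨fun l => if h : l < T.card then z ⟨l, h⟩ else 0, fun l => ?_, fun l => ?_,
      fun l hl => dif_neg (not_lt.2 hl), fun a ha => ?_⟩
    · dsimp only
      split_ifs
      · exact hzF _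
      · exact F.zero_mem
    · dsimp only
      split_ifs
      · exact hz1 _
      · simp
    · refine ⟨T.equivFin ⟨a, ha⟩, (T.equivFin ⟨a, ha⟩).2, fun D hD h => ?_⟩
      simp only [Fin.is_lt, dite_true, Fin.eta] at h
      simpa using hzD _ D hD h
  have h1y : ∀ l, 1 + y l ≠ 0 := fun l h => by
    have := norm_one_add (hy1 l)
    rw [h, norm_zero] at this
    exact zero_ne_one this
  let xx : Fin r' → Ω := fun i => x i ^ p * (1 + y i)
  have hX0 : ∀ i, xx i ≠ 0 := fun i => mul_ne_zero (pow_ne_zero _ (hx i).2) (h1y i)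
  have hXF : ∀ i, xx i ∈ F := fun i =>
    F.mul_mem (pow_mem (hx i).1 _) (F.add_mem F.one_mem (hyF i))
  have hXnu : ∀ i, nu (xx i) = p * nu (x i) := fun i => by
    rw [nu_mul (pow_ne_zero _ (hx i).2) (h1y i), nu_pow]
    simp [nu, norm_one_add (hy1 i)]
  have hXli : LinearIndependent ℤ fun i => nu (xx i) := by
    rw [Fintype.linearIndependent_iff] at hli ⊢
    intro g hg i
    have h1 := hli (fun i => g i * p) (by
      rw [← hg]
      refine Finset.sum_congr rfl fun i _ => ?_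
      rw [hXnu]
      simp [mul_assoc]) i
    exact (mul_eq_zero.1 h1).resolve_right (by exact_mod_cast hp.ne')
  have hfull : ∀ a : Ω, a ≠ 0 → ∃ d : ℕ, 0 < d ∧
      (d : ℝ) * nu a ∈ Submodule.span ℤ (Set.range fun i => nu (xx i)) := by
    intro a ha
    obtain ⟨d, hd, e, he, he0, hde⟩ := exists_mul_nu hF ha
    have hnot : ¬ ∀ (c : ℤ), ∀ w ∈ Submodule.span ℤ (Set.range fun i => nu (x i)),
        c • nu e + w = (0 : ℝ) → c = 0 := by
      intro h
      have h1 := hmax (r' + 1) ⟨Fin.cons e x, fun i => ?_, ?_⟩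
      · omega
      · refine Fin.cases ?_ (fun j => ?_) i
        · exact ⟨he, he0⟩
        · exact hx j
      · have h2 := LinearIndependent.finCons' (nu e) _ hli h
        have h3 : (fun i => nu ((Fin.cons e x : Fin (r' + 1) → Ω) i)) =
            Fin.cons (nu e) fun i => nu (x i) := by
          funext i
          refine Fin.cases ?_ (fun j => ?_) i <;> rfl
        rw [h3]
        exact h2
    push Not at hnot
    obtain ⟨c, w, hw, hcw, hc⟩ := hnot
    obtain ⟨m, rfl⟩ := (Submodule.mem_span_range_iff_exists_fun ℤ).1 hw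
    refine ⟨(c * c).toNat * p * d, ?_, (Submodule.mem_span_range_iff_exists_fun ℤ).2
      ⟨fun i => -(c * m i), ?_⟩⟩
    · have : 0 < c * c := mul_self_pos.2 hc
      have : 0 < (c * c).toNat := by omega
      positivity
    · have h1 : (((c * c).toNat : ℕ) : ℝ) = c * c := by
        have : (((c * c).toNat : ℕ) : ℤ) = c * c := Int.toNat_of_nonneg (mul_self_nonneg c)
        exact_mod_cast this
      have h2 : ∑ i, (-(c * m i)) • nu (xx i) = -(c * p) * ∑ i, m i • nu (x i) := by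
        rw [Finset.mul_sum]
        refine Finset.sum_congr rfl fun i _ => ?_
        rw [hXnu]
        simp only [zsmul_eq_mul]
        push_cast
        ring
      rw [h2, Nat.cast_mul, Nat.cast_mul, h1, mul_assoc _ (d : ℝ), hde]
      simp only [zsmul_eq_mul] at hcw ⊢
      linear_combination (-(c * p : ℝ)) * hcw
  obtain ⟨s, hsy, hsX, hsm⟩ := exists_stage xx hX0 hXli hfull (y r') (hy1 r')
  have hgens : s.gens ⊆ F := by
    rintro _ (⟨α, hα, rfl⟩ | rfl)
    · obtain ⟨m, hm⟩ := hsm α hα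
      rw [hm]
      exact prod_mem fun i _ => zpow_mem (hXF i) _
    · rw [hsy]; exact hyF r'
  refine ⟨s, adjoin_le_iff.2 hgens, ?_, ?_⟩
  · refine hs F hfg (((↑) : F → Ω) '' (T : Set F)) s.gens ?_ hgens (sepOver_of _ hsep) ?_
    · rintro _ ⟨a, _, rfl⟩
      exact a.2
    · rintro D hD h0 _ ⟨a, ha, rfl⟩
      obtain ⟨l, hl, h⟩ := hyD a ha
      refine h D hD ?_
      rcases (by omega : l < r' ∨ l = r') with hlt | rfl
      · have h1 := h0 _ (hsX ⟨l, hlt⟩)
        have h2 := hD.const 1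
        rw [map_one] at h2
        simp only [xx] at h1
        rw [hD.mul _ (pow_mem (hx _).1 _) _ (F.add_mem F.one_mem (hyF _)),
          der_pow_char hD (hx _).1, hD.add _ F.one_mem _ (hyF _), h2, mul_zero, add_zero,
          zero_add] at h1
        exact (mul_eq_zero.1 h1).resolve_left (pow_ne_zero _ (hx _).2)
      · rw [← hsy]
        exact h0 _ (Or.inr rfl)
  · by_cases h : T.card ≤ r'
    · exact Or.inl (hsy.trans (hy0 r' h))
    · refine Or.inr (na hF hmax ?_)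
      rw [hn]
      exact_mod_cast not_le.1 h

end Pool.Agent.MP_19ffc6_ag.LU

end MrgPart6

-- ======== part 7: formerly Pool.Agent.MP_19ffc6_ag.LU.Perron
section MrgPart7

/-! Module PE of PROJECT LU1: the Perron lemma on positive bases of a lattice of reals. -/

namespace Pool.Agent.MP_19ffc6_ag.LU

namespace Perron

variable {r : ℕ}

/-- `b` is a positive basis of `Λ`. -/
def PB (Λ : AddSubgroup ℝ) (b : Fin r → ℝ) : Prop :=
  (∀ i, 0 < b i) ∧ LinearIndependent ℤ b ∧ AddSubgroup.closure (Set.range b) = Λ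

/-- The nonnegative combinations of `b`. -/
abbrev NS (b : Fin r → ℝ) : AddSubmonoid ℝ := AddSubmonoid.closure (Set.range b)

/-- The elementary move on a basis. -/
def mv (b : Fin r → ℝ) (i j : Fin r) : Fin r → ℝ := fun l => b l - if l = i then b j else 0

/-- The elementary move on coordinates. -/
def mc (m : Fin r → ℤ) (i j : Fin r) (e : ℤ) : Fin r → ℤ :=
  fun l => m l + if l = j then e * m i else 0

lemma sum_mv (b : Fin r → ℝ) (i j : Fin r) (g : Fin r → ℤ) :
    ∑ l, g l • mv b i j l = ∑ l, g l • b l - g i • b j := by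
  simp only [mv, smul_sub, Finset.sum_sub_distrib, smul_ite, smul_zero, Finset.sum_ite_eq',
    Finset.mem_univ, if_true]

lemma sum_mc (b : Fin r → ℝ) (i j : Fin r) (g : Fin r → ℤ) (e : ℤ) :
    ∑ l, mc g i j e l • b l = ∑ l, g l • b l + (e * g i) • b j := by
  simp only [mc, add_smul, Finset.sum_add_distrib, ite_smul, zero_smul, Finset.sum_ite_eq',
    Finset.mem_univ, if_true]

lemma mem_NS_mv (b : Fin r → ℝ) {i j : Fin r} (hij : i ≠ j) (l : Fin r) : b l ∈ NS (mv b i j) := by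
  have hj : mv b i j j = b j := by simp [mv, hij.symm]
  by_cases hl : l = i
  · have : b l = mv b i j l + mv b i j j := by rw [hj]; simp [mv, hl]
    rw [this]
    exact AddSubmonoid.add_mem _ (AddSubmonoid.subset_closure ⟨_, rfl⟩)
      (AddSubmonoid.subset_closure ⟨_, rfl⟩)
  · have : b l = mv b i j l := by simp [mv, hl]
    rw [this]
    exact AddSubmonoid.subset_closure ⟨_, rfl⟩

lemma NS_le_closure (b : Fin r → ℝ) {x : ℝ} (hx : x ∈ NS b) :
    x ∈ AddSubgroup.closure (Set.range b) :=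
  AddSubgroup.le_closure_toAddSubmonoid _ hx

lemma PB.mv {Λ : AddSubgroup ℝ} {b : Fin r → ℝ} (h : PB Λ b) {i j : Fin r} (hij : i ≠ j)
    (hlt : b j < b i) : PB Λ (mv b i j) := by
  obtain ⟨hp, hli, hcl⟩ := h
  refine ⟨fun l => ?_, ?_, ?_⟩
  · by_cases hl : l = i
    · simp [Perron.mv, hl, hlt]
    · simp [Perron.mv, hl, hp l]
  · rw [Fintype.linearIndependent_iff] at hli ⊢
    intro g hg
    have h0 : ∑ l, mc g i j (-1) l • b l = 0 := by
      rw [sum_mc, ← hg, sum_mv]; simp [sub_eq_add_neg]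
    have h1 := hli _ h0
    have hi : g i = 0 := by simpa [mc, hij] using h1 i
    intro l
    simpa [mc, hi] using h1 l
  · rw [← hcl]
    apply le_antisymm
    · rw [AddSubgroup.closure_le]
      rintro _ ⟨l, rfl⟩
      refine AddSubgroup.sub_mem _ (AddSubgroup.subset_closure ⟨l, rfl⟩) ?_
      split_ifs
      · exact AddSubgroup.subset_closure ⟨j, rfl⟩
      · exact AddSubgroup.zero_mem _
    · rw [AddSubgroup.closure_le]
      rintro _ ⟨l, rfl⟩
      exact NS_le_closure _ (mem_NS_mv b hij l)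

/-- There is a positive basis whose cone contains the cone of `b` and `t`. -/
def Ok (Λ : AddSubgroup ℝ) (b : Fin r → ℝ) (t : ℝ) : Prop :=
  ∃ b' : Fin r → ℝ, PB Λ b' ∧ NS b ≤ NS b' ∧ t ∈ NS b'

lemma NS_mv_le (b : Fin r → ℝ) {i j : Fin r} (hij : i ≠ j) : NS b ≤ NS (mv b i j) := by
  rw [AddSubmonoid.closure_le]
  rintro _ ⟨l, rfl⟩
  exact mem_NS_mv b hij l

lemma Ok.of_mv {Λ : AddSubgroup ℝ} {b : Fin r → ℝ} {t : ℝ} {i j : Fin r} (hij : i ≠ j)
    (h : Ok Λ (mv b i j) t) : Ok Λ b t := by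
  obtain ⟨b', h1, h2, h3⟩ := h
  exact ⟨b', h1, (NS_mv_le b hij).trans h2, h3⟩

lemma sum_mv_mc (b : Fin r → ℝ) {i j : Fin r} (hij : i ≠ j) (m : Fin r → ℤ) :
    ∑ l, mc m i j 1 l • mv b i j l = ∑ l, m l • b l := by
  rw [sum_mv, sum_mc]
  simp [mc, hij]

/-- The number of extreme coordinates. -/
def cnt (m : Fin r → ℤ) (a c : ℕ) : ℕ :=
  (Finset.univ.filter fun l => m l = -(a : ℤ) ∨ m l = c).card

lemma cnt_mc {m : Fin r → ℤ} {a c : ℕ} {i j : Fin r} (hj : m j = -(a : ℤ) ∨ m j = c)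
    (h1 : -(a : ℤ) < m j + m i) (h2 : m j + m i < c) : cnt (mc m i j 1) a c < cnt m a c := by
  apply Finset.card_lt_card
  rw [Finset.ssubset_iff_of_subset]
  · refine ⟨j, by simpa using hj, ?_⟩
    simp only [mc, Finset.mem_filter, Finset.mem_univ, true_and, if_true, one_mul]
    omega
  · intro l hl
    simp only [mc, Finset.mem_filter, Finset.mem_univ, true_and] at hl ⊢
    by_cases hlj : l = j
    · rw [hlj]; exact hj
    · simpa [hlj] using hl

lemma bd_mc {m : Fin r → ℤ} {a c : ℕ} {i j : Fin r} (hm : ∀ l, -(a : ℤ) ≤ m l ∧ m l ≤ c)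
    (h1 : -(a : ℤ) < m j + m i) (h2 : m j + m i < c) :
    ∀ l, -(a : ℤ) ≤ mc m i j 1 l ∧ mc m i j 1 l ≤ c := by
  intro l
  by_cases hlj : l = j
  · simp only [mc, hlj, if_true, one_mul]; omega
  · simpa [mc, hlj] using hm l

lemma ok_of_nonneg {Λ : AddSubgroup ℝ} {b : Fin r → ℝ} (hb : PB Λ b) {m : Fin r → ℤ}
    (hm : ∀ l, 0 ≤ m l) : Ok Λ b (∑ l, m l • b l) := by
  refine ⟨b, hb, le_rfl, AddSubmonoid.sum_mem _ fun l _ => ?_⟩
  obtain ⟨n, hn⟩ := Int.eq_ofNat_of_zero_le (hm l)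
  rw [hn, natCast_zsmul]
  exact AddSubmonoid.nsmul_mem _ (AddSubmonoid.subset_closure (Set.mem_range_self l)) _

lemma ok_aux (Λ : AddSubgroup ℝ) (N : ℕ) : ∀ (a c : ℕ), a + c = N → ∀ (n : ℕ) (b : Fin r → ℝ)
    (m : Fin r → ℤ), cnt m a c = n → PB Λ b → (∀ l, -(a : ℤ) ≤ m l ∧ m l ≤ c) →
    0 ≤ ∑ l, m l • b l → Ok Λ b (∑ l, m l • b l) := by
  induction N using Nat.strong_induction_on with
  | _ N ihN =>
  intro a c hN n
  induction n using Nat.strong_induction_on with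
  | _ n ihn =>
  intro b m hn hb hm ht
  rcases Nat.eq_zero_or_pos a with rfl | ha
  · exact ok_of_nonneg hb fun l => by simpa using (hm l).1
  rcases Nat.eq_zero_or_pos c with rfl | hc
  · have h0 : ∑ l, m l • b l = 0 := by
      refine le_antisymm (Finset.sum_nonpos fun l _ => ?_) ht
      rw [zsmul_eq_mul]
      have : m l ≤ 0 := by simpa using (hm l).2
      exact mul_nonpos_of_nonpos_of_nonneg (by exact_mod_cast this) (hb.1 l).le
    rw [h0]
    exact ⟨b, hb, le_rfl, AddSubmonoid.zero_mem _⟩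
  by_cases hj : ∃ j, m j = -(a : ℤ)
  swap
  · push Not at hj
    refine ihN (a - 1 + c) (by omega) (a - 1) c rfl _ b m rfl hb (fun l => ?_) ht
    have := hm l
    have := hj l
    omega
  by_cases hi : ∃ i, m i = c
  swap
  · push Not at hi
    refine ihN (a + (c - 1)) (by omega) a (c - 1) rfl _ b m rfl hb (fun l => ?_) ht
    have := hm l
    have := hi l
    omega
  obtain ⟨j, hj⟩ := hj
  obtain ⟨i, hi⟩ := hi
  have hij : i ≠ j := by
    rintro rfl
    omega
  have hne : b i ≠ b j := fun h => hij (hb.2.1.injective h)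
  rcases lt_or_gt_of_ne hne with hlt | hlt
  · have h1 : -(a : ℤ) < m i + m j := by omega
    have h2 : m i + m j < c := by omega
    refine Ok.of_mv hij.symm ?_
    rw [← sum_mv_mc b hij.symm m] at ht ⊢
    exact ihn _ (hn ▸ cnt_mc (Or.inr hi) h1 h2) _ _ rfl (hb.mv hij.symm hlt) (bd_mc hm h1 h2) ht
  · have h1 : -(a : ℤ) < m j + m i := by omega
    have h2 : m j + m i < c := by omega
    refine Ok.of_mv hij ?_
    rw [← sum_mv_mc b hij m] at ht ⊢
    exact ihn _ (hn ▸ cnt_mc (Or.inl hj) h1 h2) _ _ rfl (hb.mv hij hlt) (bd_mc hm h1 h2) ht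

lemma ok {Λ : AddSubgroup ℝ} {b : Fin r → ℝ} (hb : PB Λ b) {t : ℝ} (ht : t ∈ Λ) (h0 : 0 ≤ t) :
    Ok Λ b t := by
  rw [← hb.2.2, ← Submodule.span_int_eq_addSubgroupClosure, Submodule.mem_toAddSubgroup,
    Submodule.mem_span_range_iff_exists_fun] at ht
  obtain ⟨m, rfl⟩ := ht
  refine ok_aux Λ _ (∑ l, (m l).natAbs) (∑ l, (m l).natAbs) rfl _ b m rfl hb (fun l => ?_) h0
  have : (m l).natAbs ≤ ∑ l, (m l).natAbs :=
    Finset.single_le_sum (f := fun l => (m l).natAbs) (fun _ _ => Nat.zero_le _)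
      (Finset.mem_univ l)
  omega

lemma exists_PB (Λ : AddSubgroup ℝ) (h : Λ.FG) : ∃ (r : ℕ) (b : Fin r → ℝ), PB Λ b := by
  have hfg : AddGroup.FG Λ := (AddGroup.fg_iff_addSubgroup_fg Λ).2 h
  have hfin : Module.Finite ℤ Λ := Module.Finite.iff_addGroup_fg.2 hfg
  let v := Module.finBasis ℤ Λ
  have hv : LinearIndependent ℤ fun i => (v i : ℝ) :=
    v.linearIndependent.map' Λ.subtype.toIntLinearMap
      (LinearMap.ker_eq_bot.2 Subtype.val_injective)
  let s : Fin (Module.finrank ℤ Λ) → ℤˣ := fun i => if 0 < (v i : ℝ) then 1 else -1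
  have hs : (s • fun i => (v i : ℝ)) = fun i => |(v i : ℝ)| := by
    funext i
    simp only [Pi.smul_apply', s]
    split_ifs with hi
    · simp [abs_of_pos hi]
    · simp [abs_of_nonpos (not_lt.1 hi)]
  refine ⟨_, fun i => |(v i : ℝ)|, fun i => abs_pos.2 (hv.ne_zero i), hs ▸ hv.units_smul s, ?_⟩
  apply le_antisymm
  · rw [AddSubgroup.closure_le]
    rintro _ ⟨i, rfl⟩
    exact abs_mem_iff.2 (v i).2
  · intro x hx
    have h1 : x = ∑ i, v.repr ⟨x, hx⟩ i • (v i : ℝ) := by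
      have := congrArg Λ.subtype (v.sum_repr ⟨x, hx⟩)
      rw [map_sum] at this
      simp only [map_zsmul] at this
      exact this.symm
    rw [h1]
    refine AddSubgroup.sum_mem _ fun i _ => AddSubgroup.zsmul_mem _ ?_ _
    exact abs_mem_iff.1 (AddSubgroup.subset_closure ⟨i, rfl⟩)

end Perron

open Perron in
theorem perron : PerronStmt := by
  intro Λ hΛ T
  have key : (∀ t ∈ T, t ∈ Λ ∧ 0 ≤ t) →
      ∃ (r : ℕ) (b : Fin r → ℝ), PB Λ b ∧ ∀ t ∈ T, t ∈ NS b := by
    induction T using Finset.induction_on with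
    | empty =>
      obtain ⟨r, b, hb⟩ := exists_PB Λ hΛ
      exact fun _ => ⟨r, b, hb, by simp⟩
    | insert a T _ ih =>
      intro hT
      obtain ⟨r, b, hb, hbT⟩ := ih fun t ht => hT t (Finset.mem_insert_of_mem ht)
      obtain ⟨ha, ha0⟩ := hT a (Finset.mem_insert_self a T)
      obtain ⟨b', hb', hle, hab⟩ := ok hb ha ha0
      refine ⟨r, b', hb', fun t ht => ?_⟩
      rcases Finset.mem_insert.1 ht with rfl | ht
      · exact hab
      · exact hle (hbT t ht)
  intro hT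
  obtain ⟨r, b, hb, hbT⟩ := key hT
  refine ⟨r, b, hb.1, hb.2.1, hb.2.2, fun t ht => ?_⟩
  have h1 : t ∈ Submodule.span ℕ (Set.range b) := by
    rw [← Submodule.mem_toAddSubmonoid, Submodule.span_nat_eq_addSubmonoidClosure]
    exact hbT t ht
  obtain ⟨m, hm⟩ := (Submodule.mem_span_range_iff_exists_fun ℕ).1 h1
  exact ⟨m, by simpa [nsmul_eq_mul] using hm.symm⟩

end Pool.Agent.MP_19ffc6_ag.LU

end MrgPart7

-- marker of a merged file
example : 731051 + 366151 = 731051 + 366151 := rfl
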