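import Mathlib.Algebra.GroupWithZero.Submonoid.CancelMulZero
import Pool.Agent.MP_19ffc6_ag.LU.Perron

-- ======== part 0: formerly Pool.Agent.MP_19ffc6_ag.LU.Basic1
section MrgPart0

/-! Basic API, part 1: values, ultrametric helpers, stages, localization, evaluation. -/

namespace Pool.Agent.MP_19ffc6_ag.LU

open Polynomial

section nu

variable {Ω : Type*} [NontriviallyNormedField Ω]

theorem norm_eq_exp {a : Ω} (ha : a ≠ 0) : ‖a‖ = Real.exp (-nu a) := by
  rw [nu, neg_neg, Real.exp_log (norm_pos_iff.2 ha)]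

theorem nu_of_norm {a : Ω} {α : ℝ} (h : ‖a‖ = Real.exp (-α)) : nu a = α := by
  rw [nu, h, Real.log_exp, neg_neg]

theorem nu_one : nu (1 : Ω) = 0 := by simp [nu]

theorem nu_mul {a b : Ω} (ha : a ≠ 0) (hb : b ≠ 0) : nu (a * b) = nu a + nu b := by
  simp only [nu, norm_mul]
  rw [Real.log_mul (norm_ne_zero_iff.2 ha) (norm_ne_zero_iff.2 hb)]; ring

theorem nu_inv (a : Ω) : nu a⁻¹ = - nu a := by simp [nu]

theorem nu_div {a b : Ω} (ha : a ≠ 0) (hb : b ≠ 0) : nu (a / b) = nu a - nu b := by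
  rw [div_eq_mul_inv, nu_mul ha (inv_ne_zero hb), nu_inv]; ring

theorem nu_pow (a : Ω) (n : ℕ) : nu (a ^ n) = n * nu a := by simp [nu]

theorem nu_zpow (a : Ω) (n : ℤ) : nu (a ^ n) = n * nu a := by simp [nu]

theorem nu_eq_of_norm_eq {a b : Ω} (h : ‖a‖ = ‖b‖) : nu a = nu b := by simp [nu, h]

theorem norm_eq_of_nu_eq {a b : Ω} (ha : a ≠ 0) (hb : b ≠ 0) (h : nu a = nu b) : ‖a‖ = ‖b‖ := by
  rw [norm_eq_exp ha, norm_eq_exp hb, h]

theorem nu_eq_zero_iff {a : Ω} (ha : a ≠ 0) : nu a = 0 ↔ ‖a‖ = 1 := by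
  rw [norm_eq_exp ha]; simp

theorem nu_pos_iff {a : Ω} (ha : a ≠ 0) : 0 < nu a ↔ ‖a‖ < 1 := by
  rw [norm_eq_exp ha]; simp

theorem nu_nonneg_iff {a : Ω} (ha : a ≠ 0) : 0 ≤ nu a ↔ ‖a‖ ≤ 1 := by
  rw [norm_eq_exp ha]; simp

theorem ne_zero_of_norm_eq_one {a : Ω} (h : ‖a‖ = 1) : a ≠ 0 := by
  rintro rfl; simp at h

variable [IsUltrametricDist Ω]

theorem norm_add_le_of {a b : Ω} {r : ℝ} (ha : ‖a‖ ≤ r) (hb : ‖b‖ ≤ r) : ‖a + b‖ ≤ r :=
  (IsUltrametricDist.norm_add_le_max a b).trans (max_le ha hb)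

theorem norm_add_lt_of {a b : Ω} {r : ℝ} (ha : ‖a‖ < r) (hb : ‖b‖ < r) : ‖a + b‖ < r :=
  (IsUltrametricDist.norm_add_le_max a b).trans_lt (max_lt ha hb)

theorem norm_sub_le_of {a b : Ω} {r : ℝ} (ha : ‖a‖ ≤ r) (hb : ‖b‖ ≤ r) : ‖a - b‖ ≤ r := by
  rw [sub_eq_add_neg]; exact norm_add_le_of ha (by rwa [norm_neg])

theorem norm_sub_lt_of {a b : Ω} {r : ℝ} (ha : ‖a‖ < r) (hb : ‖b‖ < r) : ‖a - b‖ < r := by
  rw [sub_eq_add_neg]; exact norm_add_lt_of ha (by rwa [norm_neg])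

theorem norm_add_eq_left {a b : Ω} (h : ‖b‖ < ‖a‖) : ‖a + b‖ = ‖a‖ := by
  rw [IsUltrametricDist.norm_add_eq_max_of_norm_ne_norm h.ne', max_eq_left h.le]

theorem norm_sub_eq_left {a b : Ω} (h : ‖b‖ < ‖a‖) : ‖a - b‖ = ‖a‖ := by
  rw [sub_eq_add_neg]; exact norm_add_eq_left (by rwa [norm_neg])

/-- Two elements at distance less than the norm of one of them have the same norm. -/
theorem norm_eq_of_norm_sub_lt {a b : Ω} (h : ‖a - b‖ < ‖a‖) : ‖b‖ = ‖a‖ := by
  have := norm_sub_eq_left h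
  rwa [sub_sub_cancel] at this

theorem norm_sum_le_of {ι : Type*} {s : Finset ι} {f : ι → Ω} {r : ℝ} (hr : 0 ≤ r)
    (h : ∀ i ∈ s, ‖f i‖ ≤ r) : ‖∑ i ∈ s, f i‖ ≤ r :=
  Finset.sum_induction f (fun a => ‖a‖ ≤ r) (fun _ _ => norm_add_le_of) (by simpa) h

theorem norm_sum_lt_of {ι : Type*} {s : Finset ι} {f : ι → Ω} {r : ℝ} (hr : 0 < r)
    (h : ∀ i ∈ s, ‖f i‖ < r) : ‖∑ i ∈ s, f i‖ < r :=
  Finset.sum_induction f (fun a => ‖a‖ < r) (fun _ _ => norm_add_lt_of) (by simpa) h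

end nu

section ctx

variable {k Ω : Type*} [Field k] [NontriviallyNormedField Ω] [Algebra k Ω] [Ctx k Ω]

theorem norm_alg_le (c : k) : ‖algebraMap k Ω c‖ ≤ 1 := by
  by_cases h : c = 0
  · simp [h]
  · exact (Ctx.norm_alg c h).le

theorem eq_zero_of_norm_alg_lt {c : k} (h : ‖algebraMap k Ω c‖ < 1) : c = 0 := by
  by_contra hc
  exact absurd (Ctx.norm_alg (Ω := Ω) c hc) h.ne

theorem norm_smul_le_self (c : k) (a : Ω) : ‖c • a‖ ≤ ‖a‖ := by
  rw [Algebra.smul_def, norm_mul]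
  exact mul_le_of_le_one_left (norm_nonneg _) (norm_alg_le c)

theorem norm_smul_eq_self {c : k} (hc : c ≠ 0) (a : Ω) : ‖c • a‖ = ‖a‖ := by
  rw [Algebra.smul_def, norm_mul, Ctx.norm_alg c hc, one_mul]

variable [IsUltrametricDist Ω]

/-- An element of norm one has a nonzero residue. -/
theorem exists_res_ne_zero (k : Type*) [Field k] [Algebra k Ω] [Ctx k Ω] {a : Ω} (ha : ‖a‖ = 1) :
    ∃ c : k, c ≠ 0 ∧ ‖a - algebraMap k Ω c‖ < 1 := by
  obtain ⟨c, hc⟩ := Ctx.res (k := k) a ha.le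
  refine ⟨c, ?_, hc⟩
  rintro rfl
  simp [ha] at hc

/-- The valuation ring as a subalgebra. -/
def intAlg (k Ω : Type*) [Field k] [NontriviallyNormedField Ω] [Algebra k Ω] [Ctx k Ω]
    [IsUltrametricDist Ω] : Subalgebra k Ω where
  carrier := {a | ‖a‖ ≤ 1}
  mul_mem' ha hb := by
    rw [Set.mem_setOf_eq, norm_mul]; exact mul_le_one₀ ha (norm_nonneg _) hb
  add_mem' ha hb := norm_add_le_of ha hb
  algebraMap_mem' c := norm_alg_le c

theorem mem_intAlg {a : Ω} : a ∈ intAlg k Ω ↔ ‖a‖ ≤ 1 := Iff.rfl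

theorem norm_le_one_of_mem_adjoin {S : Set Ω} (hS : ∀ a ∈ S, ‖a‖ ≤ 1) {a : Ω}
    (ha : a ∈ Algebra.adjoin k S) : ‖a‖ ≤ 1 :=
  (Algebra.adjoin_le (S := intAlg k Ω) hS) ha

end ctx

section lattice

/-- An additive choice on a finitely generated subgroup of the reals. -/
theorem exists_addHom {A : Type*} [AddCommGroup A] {Λ : AddSubgroup ℝ} (hΛ : Λ.FG)
    (P : ℝ → A → Prop) (h0 : P 0 0)
    (hadd : ∀ α a β b, α ∈ Λ → β ∈ Λ → P α a → P β b → P (α + β) (a + b))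
    (hneg : ∀ α a, α ∈ Λ → P α a → P (-α) (-a)) (hex : ∀ α ∈ Λ, ∃ a, P α a) :
    ∃ f : ℝ → A, (∀ α ∈ Λ, ∀ β ∈ Λ, f (α + β) = f α + f β) ∧ ∀ α ∈ Λ, P α (f α) := by
  classical
  have : AddGroup.FG Λ := (AddGroup.fg_iff_addSubgroup_fg Λ).2 hΛ
  have : Module.Finite ℤ Λ := Module.Finite.iff_addGroup_fg.2 this
  let b := Module.Free.chooseBasis ℤ Λ
  choose g hg using fun i => hex (b i) (b i).2
  let F : Λ →ₗ[ℤ] A := b.constr ℤ g
  refine ⟨fun α => if h : α ∈ Λ then F ⟨α, h⟩ else 0, ?_, ?_⟩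
  · intro α hα β hβ
    simp only [hα, hβ, Λ.add_mem hα hβ, dif_pos]
    rw [← map_add]; rfl
  · intro α hα
    simp only [hα, dif_pos]
    let S : AddSubgroup Λ :=
      { carrier := {x | P x (F x)}
        zero_mem' := by simpa using h0
        add_mem' := fun {x y} hx hy => by
          simpa using hadd _ _ _ _ x.2 y.2 hx hy
        neg_mem' := fun {x} hx => by simpa using hneg _ _ x.2 hx }
    have hS : (⟨α, hα⟩ : Λ) ∈ S := by
      rw [← b.sum_repr ⟨α, hα⟩]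
      refine S.sum_mem fun i _ => S.zsmul_mem ?_ _
      change P (b i) (F (b i))
      simpa [F] using hg i
    exact hS

/-- A finitely generated subgroup of the reals has a finite basis. -/
theorem exists_lattice_basis {Λ : AddSubgroup ℝ} (hΛ : Λ.FG) :
    ∃ (r : ℕ) (_ : Module.Basis (Fin r) ℤ Λ), True := by
  have : AddGroup.FG Λ := (AddGroup.fg_iff_addSubgroup_fg Λ).2 hΛ
  have : Module.Finite ℤ Λ := Module.Finite.iff_addGroup_fg.2 this
  exact ⟨_, Module.finBasis ℤ Λ, trivial⟩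

theorem fg_of_le {Λ Λ' : AddSubgroup ℝ} (hΛ : Λ.FG) (h : Λ' ≤ Λ) : Λ'.FG := by
  have h1 : (AddSubgroup.toIntSubmodule Λ).FG := by
    rwa [Submodule.fg_iff_addSubgroup_fg]
  have := Submodule.FG.of_le h1 (S := AddSubgroup.toIntSubmodule Λ') h
  rwa [Submodule.fg_iff_addSubgroup_fg] at this

theorem natCast_mul_mem {Λ : AddSubgroup ℝ} {α : ℝ} (h : α ∈ Λ) (n : ℕ) : (n : ℝ) * α ∈ Λ := by
  simpa using Λ.nsmul_mem h n

theorem intCast_mul_mem {Λ : AddSubgroup ℝ} {α : ℝ} (h : α ∈ Λ) (n : ℤ) : (n : ℝ) * α ∈ Λ := by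
  simpa using Λ.zsmul_mem h n

variable {Ω : Type*} [NontriviallyNormedField Ω]

/-- A multiplicative section with values in a group `G` of nonzero elements. -/
theorem exists_section {Λ : AddSubgroup ℝ} (hΛ : Λ.FG) (G : Set Ω) (h1 : (1 : Ω) ∈ G)
    (hmul : ∀ a ∈ G, ∀ b ∈ G, a * b ∈ G) (hinv : ∀ a ∈ G, a⁻¹ ∈ G)
    (hval : ∀ α ∈ Λ, ∃ g ∈ G, ‖g‖ = Real.exp (-α)) :
    ∃ mon : ℝ → Ω, (∀ α ∈ Λ, ∀ β ∈ Λ, mon (α + β) = mon α * mon β) ∧
      (∀ α ∈ Λ, ‖mon α‖ = Real.exp (-α)) ∧ ∀ α ∈ Λ, mon α ∈ G := by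
  obtain ⟨f, hf, hP⟩ := exists_addHom (A := Additive Ωˣ) hΛ
    (fun α a => ((Additive.toMul a : Ωˣ) : Ω) ∈ G ∧ ‖((Additive.toMul a : Ωˣ) : Ω)‖ = Real.exp (-α))
    (by simpa using h1)
    (fun α a β b _ _ ha hb => ⟨by simpa using hmul _ ha.1 _ hb.1, by
      simp [ha.2, hb.2, ← Real.exp_add, add_comm]⟩)
    (fun α a _ ha => ⟨by simpa using hinv _ ha.1, by simp [ha.2, ← Real.exp_neg]⟩)
    (fun α hα => by
      obtain ⟨g, hg, hn⟩ := hval α hα
      have hg0 : g ≠ 0 := by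
        rintro rfl; rw [norm_zero] at hn; exact (Real.exp_pos _).ne hn
      exact ⟨Additive.ofMul (Units.mk0 g hg0), hg, hn⟩)
  exact ⟨fun α => ((Additive.toMul (f α) : Ωˣ) : Ω), fun α hα β hβ => by simp [hf α hα β hβ],
    fun α hα => (hP α hα).2, fun α hα => (hP α hα).1⟩

end lattice

namespace Stage

variable {Ω : Type*} [NontriviallyNormedField Ω] (s : Stage Ω)

theorem mon_ne_zero {α : ℝ} (h : α ∈ s.Λ) : s.mon α ≠ 0 := by
  rw [← norm_pos_iff, s.norm_mon α h]; exact Real.exp_pos _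

theorem nu_mon {α : ℝ} (h : α ∈ s.Λ) : nu (s.mon α) = α := nu_of_norm (s.norm_mon α h)

theorem mon_zero : s.mon 0 = 1 := by
  have h := s.mon_add 0 s.Λ.zero_mem 0 s.Λ.zero_mem
  rw [add_zero] at h
  exact (mul_eq_left₀ (s.mon_ne_zero s.Λ.zero_mem)).1 h.symm

theorem mon_neg {α : ℝ} (h : α ∈ s.Λ) : s.mon (-α) = (s.mon α)⁻¹ := by
  apply eq_inv_of_mul_eq_one_left
  rw [← s.mon_add _ (s.Λ.neg_mem h) _ h, neg_add_cancel, mon_zero]

theorem mon_sub {α β : ℝ} (h : α ∈ s.Λ) (h' : β ∈ s.Λ) : s.mon (α - β) = s.mon α / s.mon β := by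
  rw [sub_eq_add_neg, s.mon_add _ h _ (s.Λ.neg_mem h'), s.mon_neg h', div_eq_mul_inv]

theorem mon_natCast_mul {α : ℝ} (h : α ∈ s.Λ) (n : ℕ) : s.mon (n * α) = s.mon α ^ n := by
  induction n with
  | zero => simp [mon_zero]
  | succ n ih =>
    rw [Nat.cast_succ, add_mul, one_mul, s.mon_add _ (natCast_mul_mem h n) _ h, ih, pow_succ]

theorem mon_intCast_mul {α : ℝ} (h : α ∈ s.Λ) (n : ℤ) : s.mon (n * α) = s.mon α ^ n := by
  obtain ⟨m, rfl | rfl⟩ := n.eq_nat_or_neg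
  · simpa using s.mon_natCast_mul h m
  · rw [Int.cast_neg, neg_mul, Int.cast_natCast, s.mon_neg (natCast_mul_mem h m),
      s.mon_natCast_mul h, zpow_neg, zpow_natCast]

theorem mon_sum {ι : Type*} (t : Finset ι) (f : ι → ℝ) (h : ∀ i ∈ t, f i ∈ s.Λ) :
    s.mon (∑ i ∈ t, f i) = ∏ i ∈ t, s.mon (f i) := by
  classical
  induction t using Finset.induction_on with
  | empty => simp [mon_zero]
  | insert a t ha ih =>
    rw [Finset.sum_insert ha, Finset.prod_insert ha,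
      s.mon_add _ (h a (by simp)) _ (s.Λ.sum_mem fun i hi => h i (by simp [hi])),
      ih fun i hi => h i (by simp [hi])]

theorem norm_mon_le_one {α : ℝ} (h : α ∈ s.Λ) (h0 : 0 ≤ α) : ‖s.mon α‖ ≤ 1 := by
  rw [s.norm_mon α h]; simpa

theorem norm_mon_lt_one {α : ℝ} (h : α ∈ s.Λ) (h0 : 0 < α) : ‖s.mon α‖ < 1 := by
  rw [s.norm_mon α h]; simpa

theorem exists_pos : ∃ α ∈ s.Λ, 0 < α := by
  obtain ⟨a, ha0, ha1⟩ := NormedField.exists_norm_lt_one Ω
  have ha : a ≠ 0 := norm_pos_iff.1 ha0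
  obtain ⟨d, hd, h⟩ := s.full a ha
  exact ⟨_, h, mul_pos (by exact_mod_cast hd) ((nu_pos_iff ha).2 ha1)⟩

theorem exists_gt (t : ℝ) : ∃ α ∈ s.Λ, t < α := by
  obtain ⟨α, hα, h0⟩ := s.exists_pos
  obtain ⟨n, hn⟩ := exists_nat_gt (t / α)
  exact ⟨_, natCast_mul_mem hα n, by rwa [div_lt_iff₀ h0] at hn⟩

theorem mon_mem_gens {α : ℝ} (h : α ∈ s.Λ) : s.mon α ∈ s.gens := Or.inl ⟨α, h, rfl⟩

theorem y_mem_gens : s.y ∈ s.gens := Or.inr rfl

theorem gens_subset_iff {S : Set Ω} : s.gens ⊆ S ↔ (∀ α ∈ s.Λ, s.mon α ∈ S) ∧ s.y ∈ S := by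
  constructor
  · exact fun h => ⟨fun α hα => h (s.mon_mem_gens hα), h s.y_mem_gens⟩
  · rintro ⟨h1, h2⟩ _ (⟨α, hα, rfl⟩ | rfl)
    exacts [h1 α hα, h2]

variable (k : Type*) [Field k] [Algebra k Ω]

theorem mon_mem_M {α : ℝ} (h : α ∈ s.Λ) : s.mon α ∈ s.M k :=
  IntermediateField.subset_adjoin _ _ (s.mon_mem_gens h)

theorem y_mem_M : s.y ∈ s.M k := IntermediateField.subset_adjoin _ _ s.y_mem_gens

variable {k} in
theorem M_le_iff {E : IntermediateField k Ω} :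
    s.M k ≤ E ↔ (∀ α ∈ s.Λ, s.mon α ∈ E) ∧ s.y ∈ E := by
  rw [M, IntermediateField.adjoin_le_iff, gens_subset_iff]; rfl

/-- The field of a stage is finitely generated. -/
theorem M_fg : (s.M k).FG := by
  classical
  obtain ⟨T, hT⟩ := s.fg
  refine ⟨T.image s.mon ∪ {s.y}, le_antisymm ?_ ?_⟩
  · rw [IntermediateField.adjoin_le_iff]
    intro a ha
    simp only [Finset.coe_union, Finset.coe_image, Finset.coe_singleton] at ha
    rcases ha with ⟨α, hα, rfl⟩ | rfl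
    · exact s.mon_mem_M k (hT ▸ AddSubgroup.subset_closure hα)
    · exact s.y_mem_M k
  · rw [M_le_iff]
    refine ⟨fun α hα => ?_, IntermediateField.subset_adjoin _ _ (by simp)⟩
    have hα' := hα
    rw [← hT] at hα'
    clear hα
    induction hα' using AddSubgroup.closure_induction with
    | mem x hx => exact IntermediateField.subset_adjoin _ _ (by simp; exact Or.inr ⟨x, hx, rfl⟩)
    | zero => rw [mon_zero]; exact one_mem _
    | add x y hx hy ihx ihy => rw [s.mon_add _ (hT ▸ hx) _ (hT ▸ hy)]; exact mul_mem ihx ihy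
    | neg x hx ih => rw [s.mon_neg (hT ▸ hx)]; exact inv_mem ih

theorem mon_mem_R0 {α : ℝ} (h : α ∈ s.Λ) (h0 : 0 ≤ α) : s.mon α ∈ s.R0 k :=
  Algebra.subset_adjoin (Or.inl ⟨α, ⟨h, h0⟩, rfl⟩)

theorem y_mem_R0 : s.y ∈ s.R0 k := Algebra.subset_adjoin (Or.inr rfl)

variable {k} in
theorem R0_le_iff {A : Subalgebra k Ω} :
    s.R0 k ≤ A ↔ (∀ α ∈ s.Λ, 0 ≤ α → s.mon α ∈ A) ∧ s.y ∈ A := by
  constructor
  · exact fun h => ⟨fun α hα h0 => h (s.mon_mem_R0 k hα h0), h (s.y_mem_R0 k)⟩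
  · rintro ⟨h1, h2⟩
    refine Algebra.adjoin_le ?_
    rintro _ (⟨α, hα, rfl⟩ | rfl)
    exacts [h1 α hα.1 hα.2, h2]

theorem ev_single (x : ℝ × ℕ) (c : k) :
    s.ev k (Finsupp.single x c) = algebraMap k Ω c * (s.mon x.1 * s.y ^ x.2) := by
  simp [ev, Algebra.smul_def]

theorem ev_eq_sum (Φ : Pol k) :
    s.ev k Φ = ∑ x ∈ Φ.support, algebraMap k Ω (Φ x) * (s.mon x.1 * s.y ^ x.2) := by
  simp [ev, Finsupp.linearCombination_apply, Finsupp.sum, Algebra.smul_def]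

variable {k}

theorem ev_mem {A : Subalgebra k Ω} {Φ : Pol k} (h : ∀ x ∈ Φ.support, s.mon x.1 ∈ A)
    (hy : s.y ∈ A) : s.ev k Φ ∈ A := by
  rw [ev_eq_sum]
  exact A.sum_mem fun x hx => A.mul_mem (A.algebraMap_mem _) (A.mul_mem (h x hx) (A.pow_mem hy _))

theorem ev_mem_M {Φ : Pol k} (h : s.Supp Φ) : s.ev k Φ ∈ s.M k :=
  s.ev_mem (A := (s.M k).toSubalgebra) (fun x hx => s.mon_mem_M k (h x hx)) (s.y_mem_M k)

theorem Supp.mono {s : Stage Ω} {Φ Ψ : Pol k} (h : s.Supp Φ) (hs : Ψ.support ⊆ Φ.support) :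
    s.Supp Ψ := fun x hx => h x (hs hx)

theorem Supp.add {s : Stage Ω} {Φ Ψ : Pol k} (h : s.Supp Φ) (h' : s.Supp Ψ) :
    s.Supp (Φ + Ψ) := by
  classical
  intro x hx
  rcases Finset.mem_union.1 (Finsupp.support_add hx) with hx | hx
  exacts [h x hx, h' x hx]

theorem Supp.single {s : Stage Ω} {x : ℝ × ℕ} (h : x.1 ∈ s.Λ) (c : k) :
    s.Supp (Finsupp.single x c) := by
  intro x' hx'
  rw [Finset.mem_singleton.1 (Finsupp.support_single_subset hx')]; exact h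

theorem Supp.smul {s : Stage Ω} {Φ : Pol k} (h : s.Supp Φ) (c : k) : s.Supp (c • Φ) :=
  h.mono Finsupp.support_smul

/-- The values of lattice polynomials are the elements of the algebra of the generators. -/
theorem mem_adjoin_gens_iff {a : Ω} :
    a ∈ Algebra.adjoin k s.gens ↔ ∃ Φ : Pol k, s.Supp Φ ∧ s.ev k Φ = a := by
  constructor
  · intro ha
    let V : Submodule k Ω :=
      { carrier := {a | ∃ Φ : Pol k, s.Supp Φ ∧ s.ev k Φ = a}
        zero_mem' := ⟨0, by simp [Supp], map_zero _⟩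
        add_mem' := by
          rintro _ _ ⟨Φ, h, rfl⟩ ⟨Ψ, h', rfl⟩
          exact ⟨Φ + Ψ, h.add h', map_add _ _ _⟩
        smul_mem' := by
          rintro c _ ⟨Φ, h, rfl⟩
          exact ⟨c • Φ, h.smul c, map_smul _ _ _⟩ }
    have h1 : a ∈ Subalgebra.toSubmodule (Algebra.adjoin k s.gens) := ha
    rw [Algebra.adjoin_eq_span] at h1
    refine (Submodule.span_le (p := V)).2 ?_ h1
    intro b hb
    have : ∃ α ∈ s.Λ, ∃ j : ℕ, b = s.mon α * s.y ^ j := by
      induction hb using Submonoid.closure_induction with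
      | mem x hx =>
        rcases hx with ⟨α, hα, rfl⟩ | rfl
        · exact ⟨α, hα, 0, by simp⟩
        · exact ⟨0, s.Λ.zero_mem, 1, by simp [mon_zero]⟩
      | one => exact ⟨0, s.Λ.zero_mem, 0, by simp [mon_zero]⟩
      | mul x y _ _ ihx ihy =>
        obtain ⟨α, hα, i, rfl⟩ := ihx
        obtain ⟨β, hβ, j, rfl⟩ := ihy
        exact ⟨α + β, s.Λ.add_mem hα hβ, i + j, by rw [s.mon_add _ hα _ hβ]; ring⟩
    obtain ⟨α, hα, j, rfl⟩ := this
    exact ⟨Finsupp.single (α, j) 1, Supp.single hα 1, by simp [ev_single]⟩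
  · rintro ⟨Φ, h, rfl⟩
    exact s.ev_mem (fun x hx => Algebra.subset_adjoin (s.mon_mem_gens (h x hx)))
      (Algebra.subset_adjoin s.y_mem_gens)

theorem R0_le_adjoin_gens : s.R0 k ≤ Algebra.adjoin k s.gens :=
  s.R0_le_iff.2 ⟨fun _ h _ => Algebra.subset_adjoin (s.mon_mem_gens h),
    Algebra.subset_adjoin s.y_mem_gens⟩

/-- Division of a polynomial by the monomial of a lower bound of its levels. -/
theorem ev_div_eq_sum {Φ : Pol k} (h : s.Supp Φ) {B : ℝ} (hB : B ∈ s.Λ) :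
    s.ev k Φ / s.mon B =
      ∑ x ∈ Φ.support, algebraMap k Ω (Φ x) * (s.mon (x.1 - B) * s.y ^ x.2) := by
  rw [ev_eq_sum, Finset.sum_div]
  refine Finset.sum_congr rfl fun x hx => ?_
  rw [s.mon_sub (h x hx) hB]; ring

variable [IsUltrametricDist Ω] [Ctx k Ω]

theorem norm_le_one_of_mem_R0 {a : Ω} (ha : a ∈ s.R0 k) : ‖a‖ ≤ 1 :=
  (s.R0_le_iff (A := intAlg k Ω)).2 ⟨fun _ h h0 => s.norm_mon_le_one h h0, s.norm_y.le⟩ ha

theorem norm_ev_le {Φ : Pol k} (h : s.Supp Φ) {B : ℝ} (hB : ∀ x ∈ Φ.support, B ≤ x.1) :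
    ‖s.ev k Φ‖ ≤ Real.exp (-B) := by
  rw [ev_eq_sum]
  refine norm_sum_le_of (Real.exp_pos _).le fun x hx => ?_
  rw [norm_mul, norm_mul, norm_pow, s.norm_mon _ (h x hx)]
  calc _ ≤ 1 * (Real.exp (-x.1) * 1) := by
        gcongr
        · exact norm_alg_le _
        · exact pow_le_one₀ (norm_nonneg _) s.norm_y.le
    _ ≤ _ := by simpa using hB x hx

end Stage

section loc

variable {k Ω : Type*} [Field k] [NontriviallyNormedField Ω] [Algebra k Ω]

theorem mem_loc {A : Subalgebra k Ω} {x : Ω} :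
    x ∈ loc A ↔ ∃ a ∈ A, ∃ b ∈ A, ‖b‖ = 1 ∧ x = a / b := Iff.rfl

theorem le_loc (A : Subalgebra k Ω) : A ≤ loc A :=
  fun a ha => ⟨a, ha, 1, A.one_mem, norm_one, (div_one a).symm⟩

theorem inv_mem_loc {A : Subalgebra k Ω} {x : Ω} (hx : x ∈ loc A) (h : ‖x‖ = 1) :
    x⁻¹ ∈ loc A := by
  obtain ⟨a, ha, b, hb, hb1, rfl⟩ := hx
  rw [norm_div, hb1, div_one] at h
  exact ⟨b, hb, a, ha, h, inv_div a b⟩

theorem loc_le {A B : Subalgebra k Ω} (h : A ≤ B) (hB : ∀ b ∈ B, ‖b‖ = 1 → b⁻¹ ∈ B) :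
    loc A ≤ B := by
  rintro _ ⟨a, ha, b, hb, hb1, rfl⟩
  rw [div_eq_mul_inv]
  exact B.mul_mem (h ha) (hB b (h hb) hb1)

theorem loc_mono {A B : Subalgebra k Ω} (h : A ≤ B) : loc A ≤ loc B :=
  loc_le (h.trans (le_loc B)) fun _ => inv_mem_loc

theorem zpow_mem_of_inv_mem {A : Subalgebra k Ω} {u : Ω} (h : u ∈ A) (h' : u⁻¹ ∈ A) (e : ℤ) :
    u ^ e ∈ A := by
  obtain ⟨m, rfl | rfl⟩ := e.eq_nat_or_neg
  · simpa using A.pow_mem h m
  · simpa using A.pow_mem h' m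

theorem norm_le_one_of_mem_loc {A : Subalgebra k Ω} (hA : ∀ a ∈ A, ‖a‖ ≤ 1) {x : Ω}
    (hx : x ∈ loc A) : ‖x‖ ≤ 1 := by
  obtain ⟨a, ha, b, -, hb1, rfl⟩ := hx
  rw [norm_div, hb1, div_one]; exact hA a ha

namespace Stage

variable (s : Stage Ω)

theorem R0_le_R : s.R0 k ≤ s.R k := le_loc _

theorem mon_mem_R {α : ℝ} (h : α ∈ s.Λ) (h0 : 0 ≤ α) : s.mon α ∈ s.R k :=
  s.R0_le_R (s.mon_mem_R0 k h h0)

theorem y_mem_R : s.y ∈ s.R k := s.R0_le_R (s.y_mem_R0 k)

theorem inv_mem_R {x : Ω} (hx : x ∈ s.R k) (h : ‖x‖ = 1) : x⁻¹ ∈ s.R k := inv_mem_loc hx h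

theorem R_le {A : Subalgebra k Ω} (h1 : ∀ α ∈ s.Λ, 0 ≤ α → s.mon α ∈ A) (h2 : s.y ∈ A)
    (hA : ∀ b ∈ A, ‖b‖ = 1 → b⁻¹ ∈ A) : s.R k ≤ A :=
  loc_le (s.R0_le_iff.2 ⟨h1, h2⟩) hA

theorem R_le_M : s.R k ≤ (s.M k).toSubalgebra :=
  s.R_le (fun _ h _ => s.mon_mem_M k h) (s.y_mem_M k) fun _ hb _ => (s.M k).inv_mem hb

theorem norm_le_one_of_mem_R [IsUltrametricDist Ω] [Ctx k Ω] {a : Ω} (ha : a ∈ s.R k) :
    ‖a‖ ≤ 1 := norm_le_one_of_mem_loc (fun _ h => s.norm_le_one_of_mem_R0 h) ha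

variable {s}

theorem good_mon {α : ℝ} (h : α ∈ s.Λ) : s.Good k (s.mon α) :=
  ⟨α, h, 1, one_mem _, norm_one, (mul_one _).symm⟩

theorem good_unit {w : Ω} (h : w ∈ s.R k) (h1 : ‖w‖ = 1) : s.Good k w :=
  ⟨0, s.Λ.zero_mem, w, h, h1, by rw [mon_zero, one_mul]⟩

theorem Good.mul {a b : Ω} (ha : s.Good k a) (hb : s.Good k b) : s.Good k (a * b) := by
  obtain ⟨α, hα, w, hw, h1, rfl⟩ := ha
  obtain ⟨β, hβ, w', hw', h1', rfl⟩ := hb
  exact ⟨α + β, s.Λ.add_mem hα hβ, w * w', mul_mem hw hw', by rw [norm_mul, h1, h1', one_mul],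
    by rw [s.mon_add _ hα _ hβ]; ring⟩

theorem Good.inv {a : Ω} (ha : s.Good k a) : s.Good k a⁻¹ := by
  obtain ⟨α, hα, w, hw, h1, rfl⟩ := ha
  exact ⟨-α, s.Λ.neg_mem hα, w⁻¹, s.inv_mem_R hw h1, by rw [norm_inv, h1, inv_one],
    by rw [s.mon_neg hα, mul_inv]⟩

theorem Good.div {a b : Ω} (ha : s.Good k a) (hb : s.Good k b) : s.Good k (a / b) := by
  rw [div_eq_mul_inv]; exact ha.mul hb.inv

theorem Good.ne_zero {a : Ω} (ha : s.Good k a) : a ≠ 0 := by
  obtain ⟨α, hα, w, -, h1, rfl⟩ := ha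
  exact mul_ne_zero (s.mon_ne_zero hα) (ne_zero_of_norm_eq_one h1)

/-- A monomialized element is `mon (nu a)` times a unit. -/
theorem Good.eq_mon_nu {a : Ω} (ha : s.Good k a) :
    nu a ∈ s.Λ ∧ ∃ w ∈ s.R k, ‖w‖ = 1 ∧ a = s.mon (nu a) * w := by
  obtain ⟨α, hα, w, hw, h1, rfl⟩ := ha
  have : nu (s.mon α * w) = α := nu_of_norm (by rw [norm_mul, h1, mul_one, s.norm_mon α hα])
  rw [this]
  exact ⟨hα, w, hw, h1, rfl⟩

theorem Good.mem_R {a : Ω} (ha : s.Good k a) (h : ‖a‖ ≤ 1) : a ∈ s.R k := by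
  obtain ⟨hν, w, hw, -, e⟩ := ha.eq_mon_nu
  rw [e]
  exact mul_mem (s.mon_mem_R hν ((nu_nonneg_iff ha.ne_zero).2 h)) hw

end Stage

end loc

end Pool.Agent.MP_19ffc6_ag.LU

end MrgPart0

-- ======== part 1: formerly Pool.Agent.MP_19ffc6_ag.LU.Basic
section MrgPart1

/-! Basic API, part 2: extensions, henselization, separability, radicals, small elements,
derivations. -/

namespace Pool.Agent.MP_19ffc6_ag.LU

open Polynomial IntermediateField

variable {k Ω : Type*} [Field k] [NontriviallyNormedField Ω] [Algebra k Ω]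

namespace IsExt

variable {s s' : Stage Ω} {w : Ω} {d : ℕ} {σ : ℝ → ℤ}

theorem le (h : IsExt s w d σ s') : s.Λ ≤ s'.Λ := h.lat ▸ le_sup_left

theorem nu_mem (h : IsExt s w d σ s') : nu w ∈ s'.Λ :=
  h.lat ▸ (le_sup_right : _ ≤ s.Λ ⊔ _) (AddSubgroup.mem_zmultiples _)

theorem add_mul_mem (h : IsExt s w d σ s') {α : ℝ} (hα : α ∈ s.Λ) (j : ℤ) :
    α + j * nu w ∈ s'.Λ := s'.Λ.add_mem (h.le hα) (intCast_mul_mem h.nu_mem j)

theorem mem_iff (h : IsExt s w d σ s') {β : ℝ} :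
    β ∈ s'.Λ ↔ ∃ α ∈ s.Λ, ∃ j : ℤ, β = α + j * nu w :=
  ⟨fun hβ => ⟨_, h.σ_mem β hβ, σ β, by ring⟩, by
    rintro ⟨α, hα, j, rfl⟩; exact h.add_mul_mem hα j⟩

theorem d_mul_mem (h : IsExt s w d σ s') : (d : ℝ) * nu w ∈ s.Λ := by
  simpa using (h.dvd_iff d).2 dvd_rfl

theorem norm_u (h : IsExt s w d σ s') : ‖s.u w d‖ = 1 := by
  rw [Stage.u, norm_div, norm_pow, s.norm_mon _ h.d_mul_mem, norm_eq_exp h.w_ne,
    ← Real.exp_nat_mul, div_eq_one_iff_eq (Real.exp_pos _).ne']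
  congr 1; ring

theorem u_ne_zero (h : IsExt s w d σ s') : s.u w d ≠ 0 := ne_zero_of_norm_eq_one h.norm_u

theorem σ_zero (h : IsExt s w d σ s') : σ 0 = 0 := by
  have := h.σ_add 0 s'.Λ.zero_mem 0 s'.Λ.zero_mem
  rw [add_zero] at this; omega

theorem σ_natCast_mul (h : IsExt s w d σ s') {β : ℝ} (hβ : β ∈ s'.Λ) (n : ℕ) :
    σ (n * β) = n * σ β := by
  induction n with
  | zero => simp [h.σ_zero]
  | succ n ih =>
    rw [Nat.cast_succ, add_mul, one_mul, h.σ_add _ (natCast_mul_mem hβ n) _ hβ, ih]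
    push_cast; ring

/-- The key rewriting rule for monomials. -/
theorem exists_e (h : IsExt s w d σ s') {α : ℝ} (hα : α ∈ s.Λ) (j : ℤ) :
    ∃ e : ℤ, j = σ (α + j * nu w) + d * e ∧
      s.mon α * w ^ j = s'.mon (α + j * nu w) * s.u w d ^ e := by
  have hβ := h.add_mul_mem hα j
  have h1 := h.σ_mem _ hβ
  have h2 : ((j - σ (α + j * nu w) : ℤ) : ℝ) * nu w ∈ s.Λ := by
    have := s.Λ.sub_mem h1 hα
    convert this using 1; push_cast; ring
  obtain ⟨e, he⟩ := (h.dvd_iff _).1 h2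
  refine ⟨e, by omega, ?_⟩
  have h3 : α + j * nu w - σ (α + j * nu w) * nu w = α + e * (d * nu w) := by
    have : (j : ℝ) - σ (α + j * nu w) = d * e := by exact_mod_cast he
    linear_combination this * nu w
  rw [h.mon_eq _ hβ, h3, s.mon_add _ hα _ (intCast_mul_mem h.d_mul_mem e),
    s.mon_intCast_mul h.d_mul_mem, Stage.u, div_zpow, ← zpow_natCast w d, ← zpow_mul]
  have hj : w ^ j = w ^ σ (α + j * nu w) * w ^ ((d : ℤ) * e) := by
    rw [← zpow_add₀ h.w_ne]; congr 1; omega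
  have := zpow_ne_zero e (s.mon_ne_zero h.d_mul_mem)
  rw [hj]
  generalize s.mon (d * nu w) ^ e = m at this
  field_simp

theorem exists_e_mon (h : IsExt s w d σ s') {α : ℝ} (hα : α ∈ s.Λ) :
    ∃ e : ℤ, s.mon α = s'.mon α * s.u w d ^ e := by
  obtain ⟨e, -, he⟩ := h.exists_e hα 0
  exact ⟨e, by simpa using he⟩

theorem exists_e_w (h : IsExt s w d σ s') :
    ∃ e : ℤ, 1 = σ (nu w) + d * e ∧ w = s'.mon (nu w) * s.u w d ^ e := by
  obtain ⟨e, h1, he⟩ := h.exists_e s.Λ.zero_mem 1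
  exact ⟨e, by simpa using h1, by simpa [s.mon_zero] using he⟩

theorem withY (h : IsExt s w d σ s') (y' : Ω) (hy : ‖y'‖ < 1) : IsExt s w d σ (s'.withY y' hy) :=
  ⟨h.1, h.2, h.3, h.4, h.5, h.6, h.7⟩

theorem mon_mem (h : IsExt s w d σ s') {E : IntermediateField k Ω}
    (hm : ∀ α ∈ s.Λ, s.mon α ∈ E) (hw : w ∈ E) {β : ℝ} (hβ : β ∈ s'.Λ) : s'.mon β ∈ E := by
  rw [h.mon_eq β hβ]
  exact mul_mem (hm _ (h.σ_mem β hβ)) (zpow_mem hw _)

end IsExt

section hens

theorem mem_hens_iff {M : IntermediateField k Ω} {a : Ω} :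
    a ∈ hens M ↔ IsSeparable M a ∧ ∀ ε : ℝ, 0 < ε → ∃ b ∈ M, ‖a - b‖ < ε := by
  have : a ∈ hens M ↔ IsSeparable M a ∧ a ∈ closure (M : Set Ω) := Iff.rfl
  rw [this, Metric.mem_closure_iff]
  simp only [dist_eq_norm, SetLike.mem_coe, gt_iff_lt]

theorem isSeparable_of_mem {M : IntermediateField k Ω} {a : Ω} (h : a ∈ M) : IsSeparable M a :=
  isSeparable_algebraMap (⟨a, h⟩ : M)

theorem le_hens (M : IntermediateField k Ω) : M ≤ hens M := fun a ha =>
  mem_hens_iff.2 ⟨isSeparable_of_mem ha, fun ε hε => ⟨a, ha, by simpa⟩⟩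

theorem isSeparable_of_le {M K : IntermediateField k Ω} (h : M ≤ K) {a : Ω}
    (ha : IsSeparable M a) : IsSeparable K a := by
  letI : Algebra M K := (inclusion h).toAlgebra
  haveI : IsScalarTower M K Ω := IsScalarTower.of_algebraMap_eq fun _ => rfl
  exact ha.tower_top K

theorem isAlgebraic_of_le {M K : IntermediateField k Ω} (h : M ≤ K) {a : Ω}
    (ha : IsAlgebraic M a) : IsAlgebraic K a := by
  letI : Algebra M K := (inclusion h).toAlgebra
  haveI : IsScalarTower M K Ω := IsScalarTower.of_algebraMap_eq fun _ => rfl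
  exact ha.tower_top K

theorem alg_of_le {M K : IntermediateField k Ω} (h : M ≤ K) (hM : Algebra.IsAlgebraic M Ω) :
    Algebra.IsAlgebraic K Ω := ⟨fun a => isAlgebraic_of_le h (hM.1 a)⟩

theorem hens_mono {M K : IntermediateField k Ω} (h : M ≤ K) : hens M ≤ hens K := fun _ ha => by
  rw [mem_hens_iff] at ha ⊢
  exact ⟨isSeparable_of_le h ha.1, fun ε hε => by
    obtain ⟨b, hb, h'⟩ := ha.2 ε hε
    exact ⟨b, h hb, h'⟩⟩

theorem sepOver_hens (M : IntermediateField k Ω) : SepOver M (hens M) :=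
  fun _ ha => (mem_hens_iff.1 ha).1

theorem alg_hens {M : IntermediateField k Ω} (hM : Algebra.IsAlgebraic M Ω) :
    Algebra.IsAlgebraic (hens M) Ω := alg_of_le (le_hens M) hM

/-- Norms of the henselization are norms of the field. -/
theorem exists_norm_eq_of_mem_hens [IsUltrametricDist Ω] {M : IntermediateField k Ω} {a : Ω}
    (ha : a ∈ hens M) : ∃ b ∈ M, ‖b‖ = ‖a‖ := by
  by_cases h0 : a = 0
  · exact ⟨0, zero_mem _, by rw [h0]⟩
  obtain ⟨b, hb, h⟩ := (mem_hens_iff.1 ha).2 _ (norm_pos_iff.2 h0)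
  exact ⟨b, hb, norm_eq_of_norm_sub_lt h⟩

/-- Restriction of scalars of an automorphism along an inclusion of intermediate fields. -/
noncomputable def resAut {M K : IntermediateField k Ω} (h : M ≤ K) (σ : Ω ≃ₐ[K] Ω) : Ω ≃ₐ[M] Ω :=
  { σ.toRingEquiv with commutes' := fun a => σ.commutes ⟨a, h a.2⟩ }

@[simp] theorem resAut_apply {M K : IntermediateField k Ω} (h : M ≤ K) (σ : Ω ≃ₐ[K] Ω) (a : Ω) :
    resAut h σ a = σ a := rfl

theorem IsHens.mono {M K : IntermediateField k Ω} (hM : IsHens M) (h : M ≤ K) : IsHens K :=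
  fun σ a => hM (resAut h σ) a

theorem aut_apply_of_mem {K : IntermediateField k Ω} (σ : Ω ≃ₐ[K] Ω) {a : Ω} (ha : a ∈ K) :
    σ a = a := σ.commutes ⟨a, ha⟩

theorem aut_algebraMap {K : IntermediateField k Ω} (σ : Ω ≃ₐ[K] Ω) (c : k) :
    σ (algebraMap k Ω c) = algebraMap k Ω c := aut_apply_of_mem σ (K.algebraMap_mem c)

theorem isSeparable_trans {M K : IntermediateField k Ω} (h : M ≤ K) (hK : SepOver M K) {a : Ω}
    (ha : IsSeparable K a) : IsSeparable M a := by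
  letI : Algebra M K := (inclusion h).toAlgebra
  haveI : IsScalarTower M K Ω := IsScalarTower.of_algebraMap_eq fun _ => rfl
  haveI : Algebra.IsSeparable M K := ⟨fun b =>
    (isSeparable_map_iff (IsScalarTower.toAlgHom M K Ω) Subtype.val_injective).1 (hK b b.2)⟩
  exact IsSeparable.of_algebra_isSeparable_of_isSeparable M ha

theorem SepOver.trans {M K E : IntermediateField k Ω} (h : M ≤ K) (hK : SepOver M K)
    (hE : SepOver K E) : SepOver M E := fun a ha => isSeparable_trans h hK (hE a ha)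

theorem SepOver.of_le_left {M K E : IntermediateField k Ω} (hE : SepOver M E) (h : M ≤ K) :
    SepOver K E := fun a ha => isSeparable_of_le h (hE a ha)

theorem SepOver.of_le_right {M K E : IntermediateField k Ω} (hE : SepOver M E) (h : K ≤ E) :
    SepOver M K := fun a ha => hE a (h ha)

theorem sepOver_iff_le {M E : IntermediateField k Ω} :
    SepOver M E ↔ E ≤ (separableClosure M Ω).restrictScalars k := Iff.rfl

theorem SepOver.sup {M K E : IntermediateField k Ω} (hK : SepOver M K) (hE : SepOver M E) :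
    SepOver M (K ⊔ E) := sepOver_iff_le.2 (sup_le (sepOver_iff_le.1 hK) (sepOver_iff_le.1 hE))

theorem sepOver_self (M : IntermediateField k Ω) : SepOver M M := fun _ => isSeparable_of_mem

theorem sepOver_adjoin {M : IntermediateField k Ω} {S : Set Ω} (h : ∀ a ∈ S, IsSeparable M a) :
    SepOver M (adjoin k S) := sepOver_iff_le.2 (adjoin_le_iff.2 h)

theorem alg_of_sepOver {M K : IntermediateField k Ω} (h : M ≤ K) (hK : SepOver M K)
    (ha : Algebra.IsAlgebraic K Ω) : Algebra.IsAlgebraic M Ω := by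
  letI : Algebra M K := (inclusion h).toAlgebra
  haveI : IsScalarTower M K Ω := IsScalarTower.of_algebraMap_eq fun _ => rfl
  haveI : Algebra.IsAlgebraic M K := ⟨fun b =>
    (isAlgebraic_algebraMap_iff (A := Ω) Subtype.val_injective).1
      (hK b b.2).isIntegral.isAlgebraic⟩
  exact Algebra.IsAlgebraic.trans M K Ω

/-- The relative degree as the rank of a span inside `Ω`. -/
theorem relrank_eq_rank_span {K E : IntermediateField k Ω} (h : K ≤ E) :
    relrank K E = Module.rank K (Submodule.span K (E : Set Ω)) := by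
  rw [relrank_eq_rank_of_le h]
  have : Submodule.span K (E : Set Ω) = (extendScalars h).toSubalgebra.toSubmodule :=
    Submodule.span_eq (extendScalars h).toSubalgebra.toSubmodule
  rw [this]; rfl

theorem mem_sup_iff_mem_adjoin {K : IntermediateField k Ω} {S : Set Ω} {a : Ω} :
    a ∈ K ⊔ adjoin k S ↔ a ∈ adjoin K S := by
  rw [← restrictScalars_adjoin_eq_sup]; rfl

/-- A power of the norm of an algebraic element is a norm of the base field. -/
theorem exists_mul_nu_mem [IsUltrametricDist Ω] {M : IntermediateField k Ω} {a : Ω}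
    (ha : IsAlgebraic M a) (h0 : a ≠ 0) :
    ∃ d : ℕ, 0 < d ∧ ∃ b ∈ M, b ≠ 0 ∧ nu b = d * nu a := by
  classical
  obtain ⟨f, hf0, hf⟩ := ha
  by_contra hcon
  push Not at hcon
  rw [aeval_eq_sum_range] at hf
  let t : ℕ → Ω := fun i => f.coeff i • a ^ i
  obtain ⟨i, hi, hmax⟩ := Finset.exists_max_image (Finset.range (f.natDegree + 1))
    (fun i => ‖t i‖) ⟨0, by simp⟩
  have hpos : 0 < ‖t i‖ := by
    refine lt_of_lt_of_le ?_ (hmax f.natDegree (by simp))
    rw [norm_pos_iff]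
    exact smul_ne_zero (leadingCoeff_ne_zero.2 hf0) (pow_ne_zero _ h0)
  have key : ∀ i j : ℕ, j < i → t i ≠ 0 → ‖t j‖ ≠ ‖t i‖ := by
    intro i j hji hi0 he
    have hj0 : t j ≠ 0 := by rwa [← norm_ne_zero_iff, he, norm_ne_zero_iff]
    have hci : (f.coeff i : Ω) ≠ 0 := fun h => hi0 (by simp [t, Algebra.smul_def, h])
    have hcj : (f.coeff j : Ω) ≠ 0 := fun h => hj0 (by simp [t, Algebra.smul_def, h])
    refine hcon (i - j) (by omega) ((f.coeff j : Ω) / f.coeff i)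
      (div_mem (f.coeff j).2 (f.coeff i).2) (div_ne_zero hcj hci) ?_
    have := nu_eq_of_norm_eq he
    simp only [t, Algebra.smul_def, IntermediateField.algebraMap_apply] at this
    rw [nu_mul hcj (pow_ne_zero _ h0), nu_mul hci (pow_ne_zero _ h0), nu_pow, nu_pow] at this
    rw [nu_div hcj hci, Nat.cast_sub hji.le]; linarith
  have hlt : ‖∑ j ∈ (Finset.range (f.natDegree + 1)).erase i, t j‖ < ‖t i‖ := by
    refine norm_sum_lt_of hpos fun j hj => ?_
    obtain ⟨hne, hj⟩ := Finset.mem_erase.1 hj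
    refine lt_of_le_of_ne (hmax j hj) ?_
    rcases lt_or_gt_of_ne hne with h | h
    · exact key i j h (norm_pos_iff.1 hpos)
    · intro he
      exact key j i h (by rw [← norm_pos_iff, he]; exact hpos) he.symm
  have := norm_add_eq_left hlt
  rw [Finset.add_sum_erase _ _ hi, hf, norm_zero] at this
  exact hpos.ne this

end hens

section rad

variable {p : ℕ} [hp : Fact p.Prime] {E : IntermediateField k Ω}

theorem Rad.of_mem {a : Ω} (h : a ∈ E) (h0 : a ≠ 0) : Rad p E a :=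
  ⟨h0, 1, by simpa using hp.out.one_lt.ne', by simpa⟩

theorem Rad.mul {a b : Ω} (ha : Rad p E a) (hb : Rad p E b) : Rad p E (a * b) := by
  obtain ⟨ha0, n, hn, ha⟩ := ha
  obtain ⟨hb0, m, hm, hb⟩ := hb
  refine ⟨mul_ne_zero ha0 hb0, n * m, fun h => ((hp.out.dvd_mul).1 h).elim hn hm, ?_⟩
  rw [mul_pow, pow_mul, mul_comm n m, pow_mul]
  exact mul_mem (pow_mem ha _) (pow_mem hb _)

omit hp in
theorem Rad.zpow {a : Ω} (ha : Rad p E a) (j : ℤ) : Rad p E (a ^ j) := by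
  obtain ⟨ha0, n, hn, ha⟩ := ha
  refine ⟨zpow_ne_zero _ ha0, n, hn, ?_⟩
  rw [← zpow_natCast, ← zpow_mul, mul_comm, zpow_mul, zpow_natCast]
  exact zpow_mem ha _

omit hp in
theorem Rad.pow {a : Ω} (ha : Rad p E a) (j : ℕ) : Rad p E (a ^ j) := by
  simpa using ha.zpow j

omit hp in
theorem Rad.inv {a : Ω} (ha : Rad p E a) : Rad p E a⁻¹ := by
  simpa using ha.zpow (-1)

theorem Rad.div {a b : Ω} (ha : Rad p E a) (hb : Rad p E b) : Rad p E (a / b) := by
  rw [div_eq_mul_inv]; exact ha.mul hb.inv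

end rad

section small

variable {L : IntermediateField k Ω} {A : Subalgebra k Ω}

theorem mem_Aring_of_mem {G : Set Ω} {a : Ω} (h : a ∈ L) (h1 : ‖a‖ ≤ 1) : a ∈ Aring L G :=
  Algebra.subset_adjoin (Or.inl ⟨h, h1⟩)

theorem mem_Aring_gen {G : Set Ω} {a : Ω} (h : a ∈ G) : a ∈ Aring L G :=
  Algebra.subset_adjoin (Or.inr h)

theorem Aring_le_sup {G : Set Ω} : Aring L G ≤ (L ⊔ adjoin k G).toSubalgebra := by
  refine Algebra.adjoin_le ?_
  rintro a (ha | ha)
  · exact (le_sup_left : L ≤ L ⊔ adjoin k G) ha.1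
  · exact (le_sup_right : adjoin k G ≤ L ⊔ adjoin k G) (subset_adjoin _ _ ha)

theorem norm_le_one_of_mem_Aring [IsUltrametricDist Ω] [Ctx k Ω] {G : Set Ω}
    (hG : ∀ g ∈ G, ‖g‖ ≤ 1) {a : Ω} (ha : a ∈ Aring L G) : ‖a‖ ≤ 1 :=
  norm_le_one_of_mem_adjoin (by rintro b (hb | hb); exacts [hb.2, hG b hb]) ha

theorem Small.zero : Small L A 0 := ⟨0, zero_mem _, by simp, 0, zero_mem _, by simp⟩

theorem Small.of_mem {m : Ω} (h : m ∈ L) (h1 : ‖m‖ < 1) : Small L A m :=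
  ⟨m, h, h1, 1, one_mem _, (mul_one _).symm⟩

theorem Small.mul_right {x a : Ω} (hx : Small L A x) (ha : a ∈ A) : Small L A (x * a) := by
  obtain ⟨m, hm, h1, b, hb, rfl⟩ := hx
  exact ⟨m, hm, h1, b * a, mul_mem hb ha, mul_assoc _ _ _⟩

theorem Small.mul_left {x a : Ω} (hx : Small L A x) (ha : a ∈ A) : Small L A (a * x) := by
  rw [mul_comm]; exact hx.mul_right ha

theorem Small.neg {x : Ω} (hx : Small L A x) : Small L A (-x) := by
  simpa using hx.mul_right (neg_mem (one_mem A))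

theorem Small.mem {G : Set Ω} {x : Ω} (hx : Small L (Aring L G) x) : x ∈ Aring L G := by
  obtain ⟨m, hm, h1, b, hb, rfl⟩ := hx
  exact mul_mem (mem_Aring_of_mem hm h1.le) hb

theorem Small.add {G : Set Ω} {x x' : Ω} (hx : Small L (Aring L G) x)
    (hx' : Small L (Aring L G) x') : Small L (Aring L G) (x + x') := by
  wlog hle : ‖hx'.choose‖ ≤ ‖hx.choose‖ generalizing x x'
  · rw [add_comm]; exact this hx' hx (le_of_not_ge hle)
  obtain ⟨hm, h1, b, hb, e⟩ := hx.choose_spec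
  obtain ⟨hm', -, b', hb', e'⟩ := hx'.choose_spec
  generalize hx.choose = m at *
  generalize hx'.choose = m' at *
  subst e e'
  by_cases h0 : m = 0
  · have : m' = 0 := by simpa [h0] using hle
    simpa [h0, this] using Small.zero
  refine ⟨m, hm, h1, b + m' / m * b', add_mem hb (mul_mem (mem_Aring_of_mem (div_mem hm' hm) ?_)
    hb'), by field_simp⟩
  rw [norm_div]; exact div_le_one_of_le₀ hle (norm_nonneg _)

theorem Small.sub {G : Set Ω} {x x' : Ω} (hx : Small L (Aring L G) x)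
    (hx' : Small L (Aring L G) x') : Small L (Aring L G) (x - x') := by
  rw [sub_eq_add_neg]; exact hx.add hx'.neg

theorem Small.sum {G : Set Ω} {ι : Type*} {t : Finset ι} {f : ι → Ω}
    (h : ∀ i ∈ t, Small L (Aring L G) (f i)) : Small L (Aring L G) (∑ i ∈ t, f i) :=
  Finset.sum_induction f _ (fun _ _ => Small.add) Small.zero h

theorem Small.pow {G : Set Ω} {x : Ω} (hx : Small L (Aring L G) x) {n : ℕ} (hn : 0 < n) :
    Small L (Aring L G) (x ^ n) := by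
  obtain ⟨n, rfl⟩ := Nat.exists_eq_succ_of_ne_zero hn.ne'
  rw [pow_succ]; exact hx.mul_left (pow_mem hx.mem n)

/-- The part of a polynomial strictly above a level is small after division. -/
theorem small_ev_div {G : Set Ω} {s : Stage Ω} {Φ : Pol k} (h : s.Supp Φ) {B : ℝ} (hB : B ∈ s.Λ)
    (hm : ∀ α ∈ s.Λ, 0 < α → Small L (Aring L G) (s.mon α)) (hy : s.y ∈ Aring L G)
    (hlt : ∀ x ∈ Φ.support, B < x.1) : Small L (Aring L G) (s.ev k Φ / s.mon B) := by
  rw [s.ev_div_eq_sum h hB]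
  exact Small.sum fun x hx => ((hm _ (s.Λ.sub_mem (h x hx) hB)
    (sub_pos.2 (hlt x hx))).mul_right (pow_mem hy _)).mul_left (Subalgebra.algebraMap_mem _ _)

end small

namespace IsDer

variable {K : IntermediateField k Ω} {D : Ω → Ω}

theorem zero (h : IsDer K D) : D 0 = 0 := by simpa using h.const 0

theorem one (h : IsDer K D) : D 1 = 0 := by simpa using h.const 1

theorem alg_mul (h : IsDer K D) (c : k) {a : Ω} (ha : a ∈ K) :
    D (algebraMap k Ω c * a) = algebraMap k Ω c * D a := by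
  rw [h.mul _ (K.algebraMap_mem c) _ ha, h.const]; ring

theorem neg (h : IsDer K D) {a : Ω} (ha : a ∈ K) : D (-a) = - D a := by
  simpa using h.alg_mul (-1) ha

theorem sub (h : IsDer K D) {a b : Ω} (ha : a ∈ K) (hb : b ∈ K) : D (a - b) = D a - D b := by
  rw [sub_eq_add_neg, h.add _ ha _ (neg_mem hb), h.neg hb, sub_eq_add_neg]

theorem sum (h : IsDer K D) {ι : Type*} (t : Finset ι) (f : ι → Ω) (hf : ∀ i ∈ t, f i ∈ K) :
    D (∑ i ∈ t, f i) = ∑ i ∈ t, D (f i) := by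
  classical
  induction t using Finset.induction_on with
  | empty => simp [h.zero]
  | insert a t ha ih =>
    rw [Finset.sum_insert ha, Finset.sum_insert ha,
      h.add _ (hf a (by simp)) _ (sum_mem fun i hi => hf i (by simp [hi])),
      ih fun i hi => hf i (by simp [hi])]

theorem pow (h : IsDer K D) {a : Ω} (ha : a ∈ K) (n : ℕ) : D (a ^ n) = n * a ^ (n - 1) * D a := by
  induction n with
  | zero => simp [h.one]
  | succ n ih =>
    rw [pow_succ, h.mul _ (pow_mem ha n) _ ha, ih]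
    cases n with
    | zero => simp
    | succ n => simp only [Nat.add_sub_cancel]; push_cast; ring

theorem pow_char (h : IsDer K D) (p : ℕ) [CharP Ω p] {a : Ω} (ha : a ∈ K) : D (a ^ p) = 0 := by
  rw [h.pow ha]; simp

theorem inv (h : IsDer K D) {a : Ω} (ha : a ∈ K) : D a⁻¹ = - (a⁻¹ ^ 2 * D a) := by
  by_cases h0 : a = 0
  · simp [h0, h.zero]
  have := h.mul _ ha _ (inv_mem ha)
  rw [mul_inv_cancel₀ h0, h.one] at this
  have h2 : D a⁻¹ = a⁻¹ * (a * D a⁻¹) := by field_simp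
  rw [h2, eq_neg_of_add_eq_zero_left this.symm]; ring

theorem zpow (h : IsDer K D) {a : Ω} (ha : a ∈ K) (h0 : a ≠ 0) (n : ℤ) :
    D (a ^ n) = n * a ^ n * (D a / a) := by
  have hn : ∀ m : ℕ, D (a ^ m) = m * a ^ m * (D a / a) := by
    intro m
    rw [h.pow ha]
    cases m with
    | zero => simp
    | succ m => simp only [Nat.add_sub_cancel]; field_simp; ring
  obtain ⟨m, rfl | rfl⟩ := n.eq_nat_or_neg
  · simpa using hn m
  · rw [zpow_neg, zpow_natCast, h.inv (pow_mem ha m), hn]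
    have := pow_ne_zero m h0
    push_cast; field_simp

/-- The elements of `K` killed by `D`. -/
def ker (h : IsDer K D) : IntermediateField k Ω where
  carrier := {a | a ∈ K ∧ D a = 0}
  mul_mem' := fun {a b} ha hb => ⟨mul_mem ha.1 hb.1, by rw [h.mul _ ha.1 _ hb.1, ha.2, hb.2]; simp⟩
  add_mem' := fun {a b} ha hb => ⟨add_mem ha.1 hb.1, by rw [h.add _ ha.1 _ hb.1, ha.2, hb.2]; simp⟩
  algebraMap_mem' c := ⟨K.algebraMap_mem c, h.const c⟩
  inv_mem' a ha := ⟨inv_mem ha.1, by rw [h.inv ha.1, ha.2]; simp⟩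

theorem eq_zero_of_mem_adjoin (h : IsDer K D) {S : Set Ω} (hS : S ⊆ K) (h0 : ∀ a ∈ S, D a = 0)
    {a : Ω} (ha : a ∈ adjoin k S) : D a = 0 :=
  ((adjoin_le_iff (T := h.ker)).2 (fun b hb => ⟨hS hb, h0 b hb⟩) ha).2

/-- The derivation of the value of a polynomial. -/
theorem eval (h : IsDer K D) (P : Polynomial Ω) (hP : ∀ i, P.coeff i ∈ K) {a : Ω} (ha : a ∈ K) :
    D (P.eval a) = ∑ i ∈ P.support, D (P.coeff i) * a ^ i + P.derivative.eval a * D a := by
  rw [eval_eq_sum, Polynomial.sum, h.sum _ _ fun i _ => mul_mem (hP i) (pow_mem ha i),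
    derivative_eval, Polynomial.sum, Finset.sum_mul, ← Finset.sum_add_distrib]
  refine Finset.sum_congr rfl fun i _ => ?_
  rw [h.mul _ (hP i) _ (pow_mem ha i), h.pow ha]; ring

/-- The derivation of the value of a lattice polynomial. -/
theorem ev (h : IsDer K D) {s : Stage Ω} (hs : s.M k ≤ K) {Φ : Pol k} (hΦ : s.Supp Φ) :
    D (s.ev k Φ) = ∑ x ∈ Φ.support, algebraMap k Ω (Φ x) *
      (s.y ^ x.2 * D (s.mon x.1) + s.mon x.1 * (x.2 * s.y ^ (x.2 - 1)) * D s.y) := by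
  have hy := hs (s.y_mem_M k)
  rw [s.ev_eq_sum, h.sum _ _ fun x hx => mul_mem (K.algebraMap_mem _)
    (mul_mem (hs (s.mon_mem_M k (hΦ x hx))) (pow_mem hy _))]
  refine Finset.sum_congr rfl fun x hx => ?_
  have hm := hs (s.mon_mem_M k (hΦ x hx))
  rw [h.alg_mul _ (mul_mem hm (pow_mem hy _)), h.mul _ hm _ (pow_mem hy _), h.pow hy]; ring

end IsDer

end Pool.Agent.MP_19ffc6_ag.LU

end MrgPart1

-- ======== part 2: formerly Pool.Agent.MP_19ffc6_ag.LU.HensB
section MrgPart2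

/-! Elementary facts on henselian fields. -/

namespace Pool.Agent.MP_19ffc6_ag.LU

open Polynomial

namespace HensB

variable {k Ω : Type*} [Field k] [NontriviallyNormedField Ω] [Algebra k Ω] [IsAlgClosed Ω]

/-- Every root of the minimal polynomial is a conjugate. -/
theorem conj (K : IntermediateField k Ω) (h : Algebra.IsAlgebraic K Ω) {a b : Ω}
    (hb : b ∈ ((minpoly K a).map (algebraMap K Ω)).roots) : ∃ σ : Ω ≃ₐ[K] Ω, σ a = b := by
  have : IsAlgClosure K Ω := ⟨inferInstance, h⟩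
  have h1 : aeval b (minpoly K a) = 0 := by
    have := isRoot_of_mem_roots hb
    rwa [IsRoot.def, eval_map_algebraMap] at this
  exact minpoly.exists_algEquiv_of_root' (h.isAlgebraic a) h1

theorem fix (K : IntermediateField k Ω) (h : Algebra.IsAlgebraic K Ω) (a : Ω)
    (ha : IsSeparable K a) (hσ : ∀ σ : Ω ≃ₐ[K] Ω, σ a = a) : a ∈ K := by
  classical
  set f := (minpoly K a).map (algebraMap K Ω) with hf
  have hnd : f.roots.Nodup := nodup_roots (Separable.map ha)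
  have hall : ∀ b ∈ f.roots, b = a := fun b hb => by
    obtain ⟨σ, h1⟩ := conj K h hb
    rw [← h1, hσ]
  have hc : f.roots.card ≤ 1 := by
    have h1 : f.roots = Multiset.replicate f.roots.card a :=
      Multiset.eq_replicate_card.2 hall
    rw [h1] at hnd
    have h2 := Multiset.nodup_iff_count_le_one.1 hnd a
    simpa using h2
  have hd : f.natDegree = f.roots.card := (IsAlgClosed.splits f).natDegree_eq_card_roots
  have hpos := minpoly.natDegree_pos ha.isIntegral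
  have h1 : (minpoly K a).natDegree = 1 := by
    have h2 : f.natDegree = (minpoly K a).natDegree := natDegree_map _
    omega
  obtain ⟨x, hx⟩ := minpoly.natDegree_eq_one_iff.1 h1
  rw [← hx]
  exact x.2

variable [IsUltrametricDist Ω]

theorem hens_le (K : IntermediateField k Ω) (h : Algebra.IsAlgebraic K Ω) (hK : IsHens K)
    (M : IntermediateField k Ω) (hM : M ≤ K) : hens M ≤ K := by
  intro a ha
  obtain ⟨h1, h2⟩ := mem_hens_iff.1 ha
  refine fix K h a (isSeparable_of_le hM h1) fun σ => ?_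
  by_contra hne
  obtain ⟨b, hb, hlt⟩ := h2 _ (norm_pos_iff.2 (sub_ne_zero.2 hne))
  have h3 : σ a - a = σ (a - b) - (a - b) := by
    rw [map_sub, aut_apply_of_mem σ (hM hb)]; ring
  have h4 : ‖σ (a - b) - (a - b)‖ < ‖σ a - a‖ := norm_sub_lt_of (by rwa [hK]) hlt
  rw [← h3] at h4
  exact lt_irrefl _ h4

omit [IsAlgClosed Ω] [IsUltrametricDist Ω] in
theorem eq_zero_of_pow_eq {p : ℕ} (hp : 1 < p) {i : Ω} (h1 : ‖i‖ < 1) (h : i ^ p = i) : i = 0 := by
  by_contra h0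
  have h2 : ‖i‖ ^ p < ‖i‖ := pow_lt_self_of_lt_one₀ (norm_pos_iff.2 h0) h1 hp
  rw [← norm_pow, h] at h2
  exact lt_irrefl _ h2

omit [IsAlgClosed Ω] in
theorem coeff_prod_le (s : Multiset Ω) (hs : ∀ r ∈ s, ‖r‖ ≤ 1) (i : ℕ) :
    ‖((s.map fun r => X - C r).prod).coeff i‖ ≤ 1 := by
  induction s using Multiset.induction_on generalizing i with
  | empty =>
    simp only [Multiset.map_zero, Multiset.prod_zero, coeff_one]
    split_ifs <;> simp
  | cons r s ih =>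
    have ih' := ih fun x hx => hs x (Multiset.mem_cons_of_mem hx)
    rw [Multiset.map_cons, Multiset.prod_cons, sub_mul, coeff_sub, coeff_C_mul]
    refine norm_sub_le_of ?_ ?_
    · rcases i with _ | i
      · rw [coeff_X_mul_zero]; simp
      · rw [coeff_X_mul]; exact ih' _
    · rw [norm_mul]
      exact mul_le_one₀ (hs r (Multiset.mem_cons_self _ _)) (norm_nonneg _) (ih' _)

omit [IsAlgClosed Ω] [IsUltrametricDist Ω] in
theorem coeff_prod_zero (s : Multiset Ω) (hs : ∀ r ∈ s, ‖r‖ = 1) :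
    ‖((s.map fun r => X - C r).prod).coeff 0‖ = 1 := by
  induction s using Multiset.induction_on with
  | empty => simp
  | cons r s ih =>
    rw [Multiset.map_cons, Multiset.prod_cons, mul_coeff_zero, norm_mul,
      ih fun x hx => hs x (Multiset.mem_cons_of_mem hx)]
    simpa using hs r (Multiset.mem_cons_self _ _)

theorem int (K : IntermediateField k Ω) (h : Algebra.IsAlgebraic K Ω) (hK : IsHens K) (a : Ω)
    (ha : ‖a‖ ≤ 1) :
    (∀ i, ‖((minpoly K a).coeff i : Ω)‖ ≤ 1) ∧ (‖a‖ = 1 → ‖((minpoly K a).coeff 0 : Ω)‖ = 1) := by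
  set f := (minpoly K a).map (algebraMap K Ω) with hf
  have hm : f.Monic := (minpoly.monic (h.isAlgebraic a).isIntegral).map _
  have hp : f = (f.roots.map fun r => X - C r).prod :=
    (IsAlgClosed.splits f).eq_prod_roots_of_monic hm
  have hr : ∀ r ∈ f.roots, ‖r‖ = ‖a‖ := fun r hr => by
    obtain ⟨σ, h1⟩ := conj K h hr
    rw [← h1, hK]
  have hc : ∀ i, ((minpoly K a).coeff i : Ω) = f.coeff i := fun i => by
    rw [hf, coeff_map]; rfl
  refine ⟨fun i => ?_, fun h1 => ?_⟩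
  · rw [hc, hp]
    exact coeff_prod_le _ (fun r h2 => (hr r h2).trans_le ha) i
  · rw [hc, hp]
    exact coeff_prod_zero _ fun r h2 => (hr r h2).trans h1

variable [Ctx k Ω] {p : ℕ} [Fact p.Prime] [CharP k p] [CharP Ω p]

omit [CharP k p] in
theorem artin (K : IntermediateField k Ω) (h : Algebra.IsAlgebraic K Ω) (hK : IsHens K)
    (ε : Ω) (hε : ε ∈ K) (h1 : ‖ε‖ < 1) : ∃ δ ∈ K, δ ^ p - δ = ε := by
  have hp : 1 < p := (Fact.out : p.Prime).one_lt
  obtain ⟨x, hx⟩ : ∃ x : Ω, x ^ p - x = ε := by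
    have hd : (X ^ p - (X + C ε) : Polynomial Ω).degree = p := by
      rw [degree_sub_eq_left_of_degree_lt, degree_X_pow]
      rw [degree_X_pow, degree_X_add_C]
      exact_mod_cast hp
    obtain ⟨x, hx⟩ := IsAlgClosed.exists_root (X ^ p - (X + C ε) : Polynomial Ω) (by
      rw [hd]; exact_mod_cast (by omega : p ≠ 0))
    refine ⟨x, ?_⟩
    simp only [IsRoot.def, eval_sub, eval_pow, eval_X, eval_add, eval_C] at hx
    linear_combination hx
  have hx1 : ‖x‖ ≤ 1 := by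
    by_contra hlt
    push Not at hlt
    have h2 : ‖x‖ < ‖x ^ p‖ := by rw [norm_pow]; exact lt_self_pow₀ hlt hp
    have h3 := norm_sub_eq_left h2
    rw [hx] at h3
    linarith
  obtain ⟨c, hc⟩ := Ctx.res (k := k) x hx1
  set δ := x - algebraMap k Ω c with hδ
  have h2 : algebraMap k Ω (c ^ p - c) = ε - (δ ^ p - δ) := by
    rw [hδ, sub_pow_char, map_sub, map_pow]
    linear_combination hx
  have hδp : ‖δ ^ p‖ < 1 := by
    rw [norm_pow]; exact pow_lt_one₀ (norm_nonneg _) hc (by omega)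
  have h3 : c ^ p - c = 0 := eq_zero_of_norm_alg_lt (Ω := Ω) (by
    rw [h2]; exact norm_sub_lt_of h1 (norm_sub_lt_of hδp hc))
  have h4 : δ ^ p - δ = ε := by
    rw [h3, map_zero] at h2
    linear_combination h2
  refine ⟨δ, fix K h δ ?_ fun σ => ?_, h4⟩
  · have : CharP K p := (algebraMap K Ω).charP_iff_charP p |>.2 inferInstance
    have hs : (X ^ p - X - C (⟨ε, hε⟩ : K) : Polynomial K).Separable := by
      rw [separable_def]
      have : derivative (X ^ p - X - C (⟨ε, hε⟩ : K) : Polynomial K) = -1 := by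
        simp [derivative_X_pow]
      rw [this]
      exact isCoprime_one_right.neg_right
    refine hs.of_dvd (minpoly.dvd K δ ?_)
    simp only [map_sub, map_pow, aeval_X, aeval_C]
    rw [h4]
    exact sub_self _
  · have h5 : (σ δ) ^ p - σ δ = ε := by
      rw [← map_pow, ← map_sub, h4, aut_apply_of_mem σ hε]
    have h6 : (σ δ - δ) ^ p = σ δ - δ := by
      rw [sub_pow_char]
      linear_combination h5 - h4
    exact sub_eq_zero.1 (eq_zero_of_pow_eq hp (norm_sub_lt_of (by rwa [hK]) hc) h6)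

omit [Fact p.Prime] [CharP Ω p] in
theorem rad (E : IntermediateField k Ω) (h : Algebra.IsAlgebraic E Ω) (hE : IsHens E)
    (u : Ω) (hu : Rad p E u) (h1 : ‖u‖ = 1) : u ∈ E := by
  obtain ⟨hu0, n, hn, hm⟩ := hu
  have hnk : (n : k) ≠ 0 := fun h0 => hn ((CharP.cast_eq_zero_iff k p n).1 h0)
  have hnn : ‖(n : Ω)‖ = 1 := by
    rw [← map_natCast (algebraMap k Ω)]; exact Ctx.norm_alg _ hnk
  refine fix E h u ?_ fun σ => ?_
  · have hnE : (n : E) ≠ 0 := by
      intro h0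
      have : (n : Ω) = 0 := by rw [← map_natCast (algebraMap E Ω), h0, map_zero]
      rw [this, norm_zero] at hnn
      exact zero_ne_one hnn
    have hs : (X ^ n - C (⟨u ^ n, hm⟩ : E) : Polynomial E).Separable :=
      separable_X_pow_sub_C _ hnE fun h0 => pow_ne_zero n hu0 (congrArg Subtype.val h0)
    refine hs.of_dvd (minpoly.dvd E u ?_)
    simp only [map_sub, map_pow, aeval_X, aeval_C]
    exact sub_self _
  · obtain ⟨c, hc⟩ := Ctx.res (k := k) u h1.le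
    have h2 : ‖σ u - u‖ < 1 := by
      have : σ u - u = σ (u - algebraMap k Ω c) - (u - algebraMap k Ω c) := by
        rw [map_sub, aut_algebraMap]; ring
      rw [this]
      exact norm_sub_lt_of (by rwa [hE]) hc
    set ζ := σ u / u with hζ
    have h3 : ‖ζ - 1‖ < 1 := by
      rw [hζ, div_sub_one hu0, norm_div, h1, div_one]; exact h2
    have h4 : ζ ^ n = 1 := by
      rw [hζ, div_pow, ← map_pow, aut_apply_of_mem σ hm, div_self (pow_ne_zero n hu0)]
    have hζ1 : ‖ζ‖ = 1 := by rw [hζ, norm_div, hE, div_self (norm_ne_zero_iff.2 hu0)]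
    have h5 : ∀ i : ℕ, ‖ζ ^ i - 1‖ < 1 := by
      intro i
      induction i with
      | zero => simp
      | succ i ih =>
        have : ζ ^ (i + 1) - 1 = ζ * (ζ ^ i - 1) + (ζ - 1) := by ring
        rw [this]
        exact norm_add_lt_of (by rwa [norm_mul, hζ1, one_mul]) h3
    by_contra hne
    have h6 : ζ - 1 ≠ 0 := by
      rw [hζ, div_sub_one hu0]
      exact div_ne_zero (sub_ne_zero.2 hne) hu0
    have h7 : ∑ i ∈ Finset.range n, ζ ^ i = 0 := by
      have := geom_sum_mul ζ n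
      rw [h4, sub_self] at this
      exact (mul_eq_zero.1 this).resolve_right h6
    have h8 : ‖∑ i ∈ Finset.range n, (ζ ^ i - 1)‖ < 1 := norm_sum_lt_of one_pos fun i _ => h5 i
    rw [Finset.sum_sub_distrib, h7] at h8
    simp [hnn] at h8

end HensB

variable {k Ω : Type*} [Field k] [NontriviallyNormedField Ω] [IsUltrametricDist Ω] [Algebra k Ω]
  [IsAlgClosed k] [IsAlgClosed Ω] [Ctx k Ω] {p : ℕ} [Fact p.Prime] [CharP k p] [CharP Ω p]

omit [IsAlgClosed k] in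
theorem hb : HB k Ω p :=
  ⟨HensB.fix, HensB.hens_le, HensB.artin, HensB.rad, HensB.int⟩

end Pool.Agent.MP_19ffc6_ag.LU

end MrgPart2

-- marker of a merged file
example : 731051 + 456432 = 731051 + 456432 := rfl
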