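import Mathlib.Algebra.Module.StablyFree.Basic
import Mathlib.Analysis.InnerProductSpace.Basic
import Pool.Agent.MP_19ffc6_ag.LU.HensB
import Pool.Agent.MP_19ffc6_ag.LU.Perron

-- ======== part 0: formerly Pool.Agent.MP_19ffc6_ag.LU.Main
section MrgPart0

/-! Assembly of PROJECT LU1. -/

namespace Pool.Agent.MP_19ffc6_ag.LU

open Polynomial IntermediateField

variable {k Ω : Type*} [Field k] [NontriviallyNormedField Ω] [Algebra k Ω]

namespace Main

theorem mem_range_of_pow_eq_one [IsAlgClosed k] {ζ : Ω} {n : ℕ} (hn : 0 < n) (h : ζ ^ n = 1) :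
    ∃ c : k, algebraMap k Ω c = ζ := by
  have hi : IsIntegral k ζ := IsIntegral.of_pow hn (h ▸ isIntegral_one)
  exact minpoly.mem_range_of_degree_eq_one k ζ
    (IsAlgClosed.degree_eq_one_of_irreducible k (minpoly.irreducible hi))

/-- Extraction of `n`-th roots of all monomials. -/
theorem up [IsAlgClosed k] [IsAlgClosed Ω] (s : Stage Ω) (n : ℕ) (hn : 0 < n) :
    ∃ s' : Stage Ω, (∀ α : ℝ, (n : ℝ) * α ∈ s.Λ → α ∈ s'.Λ) ∧ s'.y = s.y ∧ s.M k ≤ s'.M k ∧
      ∀ α ∈ s'.Λ, s'.mon α ^ n ∈ s.M k := by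
  have hn' : (n : ℝ) ≠ 0 := by exact_mod_cast hn.ne'
  let Λ' : AddSubgroup ℝ := s.Λ.map (AddMonoidHom.mulLeft (n : ℝ)⁻¹)
  have hmem : ∀ α : ℝ, α ∈ Λ' ↔ (n : ℝ) * α ∈ s.Λ := by
    intro α
    constructor
    · rintro ⟨β, hβ, rfl⟩
      simpa [← mul_assoc, mul_inv_cancel₀ hn'] using hβ
    · intro h
      exact ⟨_, h, by simp [← mul_assoc, inv_mul_cancel₀ hn']⟩
  have hfg : Λ'.FG := by
    classical
    obtain ⟨T, hT⟩ := s.fg
    exact ⟨T.image (AddMonoidHom.mulLeft (n : ℝ)⁻¹), by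
      rw [Finset.coe_image, ← AddMonoidHom.map_closure, hT]⟩
  have hle : s.Λ ≤ Λ' := fun α hα => (hmem α).2 (natCast_mul_mem hα n)
  obtain ⟨mon, hadd, hnorm, hG⟩ := exists_section hfg {a : Ω | ∃ β ∈ s.Λ, a ^ n = s.mon β}
    ⟨0, s.Λ.zero_mem, by rw [one_pow, s.mon_zero]⟩
    (by
      rintro a ⟨β, hβ, ha⟩ b ⟨β', hβ', hb⟩
      exact ⟨β + β', s.Λ.add_mem hβ hβ', by rw [mul_pow, ha, hb, s.mon_add _ hβ _ hβ']⟩)
    (by
      rintro a ⟨β, hβ, ha⟩
      exact ⟨-β, s.Λ.neg_mem hβ, by rw [inv_pow, ha, s.mon_neg hβ]⟩)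
    (by
      intro α hα
      have h1 := (hmem α).1 hα
      obtain ⟨a, ha⟩ := IsAlgClosed.exists_pow_nat_eq (s.mon (n * α)) hn
      refine ⟨a, ⟨_, h1, ha⟩, ?_⟩
      have h2 : ‖a‖ ^ n = Real.exp (-α) ^ n := by
        rw [← norm_pow, ha, s.norm_mon _ h1, ← Real.exp_nat_mul]; congr 1; ring
      exact (pow_left_inj₀ (norm_nonneg _) (Real.exp_pos _).le hn.ne').1 h2)
  let s' : Stage Ω :=
    { Λ := Λ', fg := hfg, mon := mon, mon_add := hadd, norm_mon := hnorm, y := s.y
      norm_y := s.norm_y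
      full := fun a ha => by
        obtain ⟨d, hd, h⟩ := s.full a ha
        exact ⟨d, hd, hle h⟩ }
  refine ⟨s', fun α h => (hmem α).2 h, rfl, ?_, ?_⟩
  · rw [Stage.M_le_iff]
    refine ⟨fun α hα => ?_, s'.y_mem_M k⟩
    obtain ⟨β, hβ, h⟩ := hG α (hle hα)
    have hβα : β = n * α := by
      have h1 := congrArg nu h
      rw [nu_pow, s.nu_mon hβ, nu_of_norm (hnorm α (hle hα))] at h1
      exact h1.symm
    have h0 : mon α ≠ 0 := s'.mon_ne_zero (hle hα)
    obtain ⟨c, hc⟩ := mem_range_of_pow_eq_one (k := k) (ζ := s.mon α / mon α) hn (by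
      rw [div_pow, h, hβα, s.mon_natCast_mul hα, div_self (pow_ne_zero _ (s.mon_ne_zero hα))])
    have : s.mon α = algebraMap k Ω c * mon α := by rw [hc]; field_simp
    rw [this]
    exact mul_mem ((s'.M k).algebraMap_mem c) (s'.mon_mem_M k (hle hα))
  · intro α hα
    obtain ⟨β, hβ, h⟩ := hG α hα
    change mon α ^ n ∈ _
    rw [h]; exact s.mon_mem_M k hβ

theorem relrank_sup_le {L K E : IntermediateField k Ω} (hL : Algebra.IsAlgebraic L Ω)
    (hK : L ≤ K) (hE : L ≤ E) : relrank K (K ⊔ E) ≤ relrank L E := by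
  letI : Algebra L K := (inclusion hK).toAlgebra
  haveI : IsScalarTower L K Ω := IsScalarTower.of_algebraMap_eq fun _ => rfl
  have h := adjoin_rank_le_of_isAlgebraic_right K (extendScalars hE)
  rw [relrank_eq_rank_of_le hE, relrank_eq_rank_of_le (le_sup_left : K ≤ K ⊔ E)]
  have : extendScalars (le_sup_left : K ≤ K ⊔ E) = adjoin K (E : Set Ω) := by
    ext a
    rw [← mem_sup_iff_mem_adjoin, adjoin_self]; rfl
  rw [this]; exact h

theorem relrank_sup_lt_aleph0 {L F : IntermediateField k Ω} (hL : Algebra.IsAlgebraic L Ω)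
    (hF : F.FG) : relrank L (L ⊔ F) < Cardinal.aleph0 := by
  obtain ⟨S, rfl⟩ := hF
  rw [relrank_eq_rank_of_le (le_sup_left : L ≤ L ⊔ adjoin k (S : Set Ω))]
  have : extendScalars (le_sup_left : L ≤ L ⊔ adjoin k (S : Set Ω)) = adjoin L (S : Set Ω) := by
    ext a
    rw [← mem_sup_iff_mem_adjoin]; rfl
  rw [this]
  haveI : FiniteDimensional L (adjoin L (S : Set Ω)) :=
    finiteDimensional_adjoin fun x _ => (hL.1 x).isIntegral
  exact Module.rank_lt_aleph0 _ _

theorem relrank_pos (A B : IntermediateField k Ω) : 0 < relrank A B := by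
  rw [← inf_relrank_right, relrank_eq_rank_of_le inf_le_right]
  exact rank_pos

theorem relrank_le_of_le_left {A B C : IntermediateField k Ω} (h1 : A ≤ B) (h2 : B ≤ C) :
    relrank B C ≤ relrank A C := by
  rw [← relrank_mul_relrank h1 h2]
  exact Cardinal.le_mul_left (relrank_pos _ _).ne'

theorem relrank_le_of_le_right {A B C : IntermediateField k Ω} (h1 : A ≤ B) (h2 : B ≤ C) :
    relrank A B ≤ relrank A C := by
  rw [← relrank_mul_relrank h1 h2]
  exact Cardinal.le_mul_right (relrank_pos _ _).ne'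

/-- The degree drop. -/
theorem relrank_drop {K L W Ep : IntermediateField k Ω} {c : Cardinal} (hKW : K ≤ W)
    (hLW : L ≤ W) (hW : W ≤ Ep) (h1 : relrank L W < c) (h2 : c ≤ relrank K W)
    (hfin : relrank K Ep < Cardinal.aleph0) : relrank L Ep < relrank K Ep := by
  have h3 : relrank W Ep < Cardinal.aleph0 := (relrank_le_of_le_left hKW hW).trans_lt hfin
  have h4 : relrank K W < Cardinal.aleph0 := (relrank_le_of_le_right hKW hW).trans_lt hfin
  have h5 := h1.trans_le h2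
  have h6 := relrank_pos W Ep
  rw [← relrank_mul_relrank hKW hW, ← relrank_mul_relrank hLW hW]
  obtain ⟨a, ha⟩ := Cardinal.lt_aleph0.1 h3
  obtain ⟨b, hb⟩ := Cardinal.lt_aleph0.1 h4
  obtain ⟨b', hb'⟩ := Cardinal.lt_aleph0.1 (h5.trans h4)
  rw [hb, hb'] at h5
  rw [ha] at h6
  rw [ha, hb, hb']
  exact_mod_cast Nat.mul_lt_mul_of_pos_right (by exact_mod_cast h5) (by exact_mod_cast h6)

end Main

open Main

variable [IsAlgClosed k] [IsAlgClosed Ω] {p : ℕ} [hp : Fact p.Prime]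

/-- One step of the main induction: the degree over the henselization of the stage drops. -/
theorem step_of (hb : HB k Ω p) (hh : HensStmt k Ω) (hle : LeStmt k Ω p) (hg : GalStmt k Ω p)
    (hw : WildStmt k Ω p) (hA : TermAStmt k Ω p) (hB : TermBStmt k Ω p) (hd : DownStmt k Ω p)
    {E : IntermediateField k Ω} (halg : Algebra.IsAlgebraic E Ω) (hE : IsHens E) (s : Stage Ω)
    (hM : s.M k ≤ E) (hsep : SepOver (s.M k) E)
    (hfin : relrank (hens (s.M k)) E < Cardinal.aleph0) (hne : ¬ E ≤ hens (s.M k)) :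
    ∃ s' : Stage Ω, s'.M k ≤ E ∧ SepOver (s'.M k) E ∧ (s.y = 0 → s'.y = 0) ∧
      relrank (hens (s'.M k)) E < relrank (hens (s.M k)) E := by
  classical
  have haM : Algebra.IsAlgebraic (s.M k) Ω := alg_of_sepOver hM hsep halg
  have hLE : hens (s.M k) ≤ E := hb.hens_le E halg hE _ hM
  obtain ⟨T, hT0, hT⟩ := hg (hens (s.M k)) E (alg_hens haM) (hh _ haM) hLE
    (hsep.of_le_left (le_hens _)) hfin
  have hex : ∀ b : T, ∃ t m : ℕ, ¬ p ∣ m ∧ ((p ^ t * m : ℕ) : ℝ) * nu (b : Ω) ∈ s.Λ := by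
    intro b
    obtain ⟨d, hd0, h⟩ := s.full b (hT0 b b.2)
    obtain ⟨t, m, hm, rfl⟩ := Nat.exists_eq_pow_mul_and_not_dvd hd0.ne' p hp.out.one_lt.ne'
    exact ⟨t, m, hm, h⟩
  choose t m hm hmem using hex
  have hn : ¬ p ∣ ∏ b, m b := fun h => by
    obtain ⟨b, -, hb⟩ := (Prime.dvd_finset_prod_iff hp.out.prime _).1 h
    exact hm b hb
  have hn0 : 0 < ∏ b, m b := Nat.pos_of_ne_zero fun h => hn (h ▸ dvd_zero p)
  obtain ⟨u, hu1, hu2, hu3, hu4⟩ := up (k := k) s _ hn0
  have hadp : Adapted p E u :=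
    ⟨fun α hα => ⟨u.mon_ne_zero hα, _, hn, hM (hu4 α hα)⟩, hu2 ▸ hM (s.y_mem_M k)⟩
  have haU : Algebra.IsAlgebraic (u.M k) Ω := alg_of_le hu3 haM
  set K := hens (u.M k) with hK
  have hLK : hens (s.M k) ≤ K := hens_mono hu3
  have hsepU : SepOver (u.M k) (K ⊔ E) := (sepOver_hens _).sup (hsep.of_le_left hu3)
  have hrk : relrank K (K ⊔ E) ≤ relrank (hens (s.M k)) E :=
    relrank_sup_le (alg_hens haM) hLK hLE
  have key : ∃ t : Stage Ω, Adapted p E t ∧ t.M k ≤ K ⊔ E ∧ SepOver (t.M k) (K ⊔ E) ∧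
      (s.y = 0 → t.y = 0) ∧ relrank (hens (t.M k)) (K ⊔ E) < relrank (hens (s.M k)) E := by
    by_cases hEK : E ≤ K
    · refine ⟨u, hadp, (le_hens _).trans le_sup_left, hsepU, fun h => hu2.trans h, ?_⟩
      rw [← hK, sup_eq_left.2 hEK, relrank_self]
      exact lt_of_le_of_ne (Cardinal.one_le_iff_pos.2 (relrank_pos _ _))
        fun h => hne (relrank_eq_one_iff.1 h.symm)
    obtain ⟨a, ha1, ha2, ha3⟩ := hT K hLK (fun b hb => by
      have h1 : ((p ^ t ⟨b, hb⟩ : ℕ) : ℝ) * nu b ∈ u.Λ := by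
        apply hu1
        obtain ⟨c, hc⟩ := Finset.dvd_prod_of_mem m (Finset.mem_univ ⟨b, hb⟩)
        have := natCast_mul_mem (hmem ⟨b, hb⟩) c
        rw [hc]
        convert this using 1
        push_cast; ring
      refine ⟨t ⟨b, hb⟩, _, le_hens _ (u.mon_mem_M k h1), ?_⟩
      rw [u.norm_mon _ h1, norm_eq_exp (hT0 b hb), ← Real.exp_nat_mul]
      congr 1; ring) hEK
    obtain ⟨v, ι, _, D, hv, hcase, hdeg⟩ := hw E u a halg hE hadp hsepU ha1 ha2 ha3
    have hMv : v.M k = u.M k := hle.M_eq _ _ hv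
    have hav : Adapted p E v := hle.adapted _ _ hv E halg hE hadp
    have hvle : v.M k ≤ K ⊔ E := hMv ▸ (le_hens _).trans le_sup_left
    have hvsep : SepOver (v.M k) (K ⊔ E) := hMv ▸ hsepU
    have hout : ∃ s', TermOut p E (K ⊔ E) v D.z s' := by
      rcases hcase with ⟨h1, h2⟩ | ⟨h1, h2, h3, h4⟩
      · exact hA E _ v ι D halg hE le_sup_right hav hvle hvsep h1 h2
      · exact hB E _ v ι D halg hE le_sup_right hav hvle hvsep h1 h2 h3 h4
    obtain ⟨s', h1, h2, h3, h4, W, hW1, hW2, hW3, hW4, hW5⟩ := hout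
    have haS : Algebra.IsAlgebraic (s'.M k) Ω :=
      alg_of_sepOver h2 h3 (alg_of_le le_sup_right halg)
    have hKW : K ≤ W := hb.hens_le W (alg_of_le hW1 (alg_hens haS)) ((hh _ haS).mono hW1) _
      (hMv ▸ hW3)
    refine ⟨s', h1, h2, h3, fun h => h4 ?_,
      (relrank_drop hKW hW1 hW2 hW5 (hdeg W hKW hW4) (hrk.trans_lt hfin)).trans_le hrk⟩
    rw [hle.y_zero _ _ hv (hu2.trans h)]; exact hu2.trans h
  obtain ⟨t, h1, h2, h3, h4, h5⟩ := key
  obtain ⟨t0, g1, g2, g3, g4⟩ := hd E (K ⊔ E) t halg hE le_sup_right h1 h2 h3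
  exact ⟨t0, g1, g2, fun h => g3.trans (h4 h), g4.trans_lt h5⟩

/-- The theorem inside `Ω` from the modules. -/
theorem core_of (hb : HB k Ω p) (hh : HensStmt k Ω) (hle : LeStmt k Ω p) (hg : GalStmt k Ω p)
    (hw : WildStmt k Ω p) (hA : TermAStmt k Ω p) (hB : TermBStmt k Ω p) (hd : DownStmt k Ω p)
    (hi : InitStmt k Ω) (hds : DescStmt k Ω) (hf : FinalStmt k Ω) : CoreStmt k Ω := by
  intro F hF halg r x hx hind htr Z hZ
  obtain ⟨s0, h1, h2, h3⟩ := hi F hF halg r x hx hind htr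
  have haE : Algebra.IsAlgebraic (hens F) Ω := alg_hens halg
  have hE : IsHens (hens F) := hh F halg
  have ha0 : Algebra.IsAlgebraic (s0.M k) Ω := alg_of_sepOver h1 h2 halg
  have hfin0 : relrank (hens (s0.M k)) (hens F) < Cardinal.aleph0 := by
    refine (relrank_le_of_le_right (hens_mono h1) ?_).trans_lt
      (relrank_sup_lt_aleph0 (alg_hens ha0) hF)
    exact hb.hens_le _ (alg_of_le le_sup_right halg) ((hh _ ha0).mono le_sup_left) _ le_sup_right
  let S : Set Cardinal := {c | ∃ s : Stage Ω, s.M k ≤ hens F ∧ SepOver (s.M k) (hens F) ∧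
    (s0.y = 0 → s.y = 0) ∧ c = relrank (hens (s.M k)) (hens F)}
  have hS0 : relrank (hens (s0.M k)) (hens F) ∈ S :=
    ⟨s0, h1.trans (le_hens F), h2.trans h1 (sepOver_hens F), id, rfl⟩
  obtain ⟨c, ⟨s, g1, g2, g3, rfl⟩, hmin⟩ := wellFounded_lt.has_min S ⟨_, hS0⟩
  have hfin : relrank (hens (s.M k)) (hens F) < Cardinal.aleph0 :=
    (not_lt.1 (hmin _ hS0)).trans_lt hfin0
  have hle' : hens F ≤ hens (s.M k) := by
    by_contra hne
    obtain ⟨s', f1, f2, f3, f4⟩ := step_of hb hh hle hg hw hA hB hd haE hE s g1 g2 hfin hne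
    exact hmin _ ⟨s', f1, f2, fun h => f3 (g3 h), rfl⟩ f4
  obtain ⟨s', f1, f2, f3, f4⟩ := hds F s (alg_of_sepOver g1 g2 haE) g1 ((le_hens F).trans hle')
  exact hf F s' Z hF f3 f1 f2 (h3.imp_left fun h => f4 (g3 h)) hZ

end Pool.Agent.MP_19ffc6_ag.LU

end MrgPart0

-- ======== part 1: formerly Pool.Agent.MP_19ffc6_ag.LU.Chain
section MrgPart1

/-! Module CH of PROJECT LU1: the chain lemma. -/

namespace Pool.Agent.MP_19ffc6_ag.LU

namespace Chain

/-- A finitely generated subgroup of the reals is a lattice for some additive map to a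
normed space. -/
theorem exists_gauge (Λ : AddSubgroup ℝ) (hΛ : Λ.FG) :
    ∃ (r : ℕ) (ψ : ℝ →+ (Fin r → ℝ)), ∀ R : ℝ, {x : ℝ | x ∈ Λ ∧ ‖ψ x‖ ≤ R}.Finite := by
  have : AddGroup.FG Λ := (AddGroup.fg_iff_addSubgroup_fg Λ).2 hΛ
  have : Module.Finite ℤ Λ := Module.Finite.iff_addGroup_fg.2 inferInstance
  have : Module.Free ℤ Λ := Module.free_of_finite_type_torsion_free'
  let b := Module.finBasis ℤ Λ
  set r := Module.finrank ℤ Λ
  let g : Λ →+ (Fin r → ℝ) :=
    { toFun := fun x i => (b.repr x i : ℝ)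
      map_zero' := by ext i; simp
      map_add' := by intro x y; ext i; simp }
  obtain ⟨ψ, hψ⟩ := (Module.Baer.of_divisible (Fin r → ℝ)).extension_property_addMonoidHom
    Λ.subtype Subtype.val_injective g
  refine ⟨r, ψ, fun R => ?_⟩
  have hfin : {m : Fin r → ℤ | ∀ i, m i ∈ Set.Icc (-⌈R⌉) ⌈R⌉}.Finite :=
    Set.Finite.pi' fun _ => Set.finite_Icc _ _
  refine (hfin.image fun m => ((b.equivFun.symm m : Λ) : ℝ)).subset ?_
  rintro x ⟨hx, hR⟩
  refine ⟨b.equivFun ⟨x, hx⟩, fun i => ?_, by simp⟩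
  have h1 : ψ x = g ⟨x, hx⟩ := by rw [← hψ]; rfl
  have h2 : |((b.repr ⟨x, hx⟩ i : ℤ) : ℝ)| ≤ R := by
    have := (norm_le_pi_norm (ψ x) i).trans hR
    rw [h1] at this
    simpa [g] using this
  have h3 : |((b.repr ⟨x, hx⟩ i : ℤ) : ℝ)| ≤ ((⌈R⌉ : ℤ) : ℝ) := h2.trans (Int.le_ceil R)
  have h4 : |(b.repr ⟨x, hx⟩ i : ℤ)| ≤ ⌈R⌉ := by exact_mod_cast h3
  simpa [Set.mem_Icc] using abs_le.1 h4

theorem le_of_pow_mul {q m u v : ℝ} (hq : 1 ≤ q) (hm : m ≤ 0) (h : q * u = v) (hv : m ≤ v) :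
    m ≤ u := by
  by_contra hlt
  have hlt : u < m := not_le.1 hlt
  nlinarith

theorem norm_natmul {V : Type*} [NormedAddCommGroup V] [NormedSpace ℝ V] (ψ : ℝ →+ V) (n : ℕ)
    (x : ℝ) : ‖ψ ((n : ℝ) * x)‖ = n * ‖ψ x‖ := by
  rw [← nsmul_eq_mul, map_nsmul, ← Nat.cast_smul_eq_nsmul ℝ, norm_smul, Real.norm_natCast]

end Chain

open Chain in
theorem chain (p : ℕ) [Fact p.Prime] : ChainStmt p := by
  intro Λ hΛ S γ B h hh _ hγΛ hγ _ hB hB0 hS0 hpt hch
  have hp : 1 ≤ p := (Fact.out : p.Prime).one_lt.le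
  have hp2 : 2 ≤ p := (Fact.out : p.Prime).two_le
  have hpt1 : ∀ t : ℕ, (1 : ℝ) ≤ (p : ℝ) ^ t := fun t => one_le_pow₀ (by exact_mod_cast hp)
  have hhR : (0 : ℝ) < h := by exact_mod_cast hh
  have hhR1 : (1 : ℝ) ≤ h := by exact_mod_cast hh
  -- the limit `L`
  have hbdd : BddAbove (Set.range B) := ⟨0, by rintro _ ⟨n, rfl⟩; exact (hB0 n).le⟩
  set L := ⨆ n, B n with hL
  have hL0 : L ≤ 0 := ciSup_le fun n => (hB0 n).le
  have hBL : ∀ n, B n < L := fun n => by
    have h1 : B (n + 1) ≤ L := le_ciSup hbdd (n + 1)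
    have h2 := hB n
    have h3 := mul_pos hhR (hγ n)
    linarith
  -- the margin
  obtain ⟨δ, hδ, hδS⟩ : ∃ δ : ℝ, 0 < δ ∧ ∀ x ∈ S 0, h ≤ x.2 → x ≠ (B 0, h) →
      B 1 + δ ≤ x.1 + x.2 * γ 0 := by
    classical
    let T := (S 0).filter fun x => h ≤ x.2 ∧ x ≠ (B 0, h)
    have hpos : ∀ x ∈ T, 0 < x.1 + x.2 * γ 0 - B 1 := by
      intro x hx
      obtain ⟨hx, hx2, hne⟩ := Finset.mem_filter.1 hx
      have h1 := hS0 x hx
      have h2 : (h : ℝ) ≤ x.2 := by exact_mod_cast hx2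
      have h3 := hB 0
      have h4 := hγ 0
      rcases h1.eq_or_lt with h1 | h1
      · rcases hx2.eq_or_lt with h5 | h5
        · exact absurd (Prod.ext h1.symm h5.symm) hne
        · have h6 : (h : ℝ) < x.2 := by exact_mod_cast h5
          simp only [zero_add] at h3
          nlinarith
      · simp only [zero_add] at h3
        nlinarith
    rcases T.eq_empty_or_nonempty with hT | hT
    · refine ⟨1, one_pos, fun x hx h1 h2 => ?_⟩
      have : x ∈ T := Finset.mem_filter.2 ⟨hx, h1, h2⟩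
      rw [hT] at this
      simp at this
    · obtain ⟨x0, hx0, hmin⟩ := T.exists_min_image (fun x => x.1 + x.2 * γ 0 - B 1) hT
      refine ⟨_, hpos x0 hx0, fun x hx h1 h2 => ?_⟩
      have := hmin x (Finset.mem_filter.2 ⟨hx, h1, h2⟩)
      linarith
  have hmargin : ∀ n, ∀ x ∈ S n, h ≤ x.2 → x ≠ (B n, h) →
      min L (B (n + 1) + δ) ≤ x.1 + x.2 * γ n := by
    intro n
    induction n with
    | zero => intro x hx h1 h2; exact (min_le_right _ _).trans (hδS x hx h1 h2)
    | succ n ih =>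
      intro x' hx' h1 h2
      obtain ⟨x, hx, t, e1, e2⟩ := hch n x' hx'
      have hpt0 : 1 ≤ p ^ t := Nat.one_le_pow _ _ hp
      have hj : h ≤ x.2 := by nlinarith
      have hne : x ≠ (B n, h) := by
        rintro rfl
        simp only at e1 e2
        have h3 : p ^ t = 1 := by nlinarith
        have h4 : x'.2 = h := by rw [h3] at e2; omega
        have h5 : (p : ℝ) ^ t = 1 := by exact_mod_cast h3
        rw [h5, one_mul, ← hB n] at e1
        exact h2 (Prod.ext e1 h4)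
      have h3 := le_of_pow_mul (hpt1 t) ((min_le_left _ _).trans hL0) e1 (ih x hx hj hne)
      have h4 : (h : ℝ) ≤ x'.2 := by exact_mod_cast h1
      have h5 := hB (n + 1)
      have h6 := hγ (n + 1)
      have h7 : (h : ℝ) * γ (n + 1) ≤ x'.2 * γ (n + 1) := by nlinarith
      have h8 : 0 < (h : ℝ) * γ (n + 1) := mul_pos hhR h6
      rcases min_le_iff.1 h3 with h9 | h9
      · exact (min_le_left _ _).trans (by linarith)
      · exact (min_le_right _ _).trans (by linarith)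
  obtain ⟨n1, hn1⟩ : ∃ n1, L ≤ B (n1 + 1) + δ := by
    obtain ⟨n, hn⟩ := exists_lt_of_lt_ciSup (f := B) (show L - δ < ⨆ n, B n by linarith)
    refine ⟨n, ?_⟩
    have h2 := hB n
    have h3 := mul_pos hhR (hγ n)
    linarith
  -- cumulative sums
  let G : ℕ → ℝ := fun n => ∑ i ∈ Finset.range n, γ i
  have hG : ∀ n, G (n + 1) = G n + γ n := fun n => Finset.sum_range_succ _ _
  have hBG : ∀ n, B n = B 0 + h * G n := by
    intro n
    induction n with
    | zero => simp [G]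
    | succ n ih => rw [hB, hG, ih]; ring
  have hGΛ : ∀ n, G n ∈ Λ := fun n => Λ.sum_mem fun i _ => hγΛ i
  have hGmono : StrictMono G := strictMono_nat_of_lt_succ fun n => by
    rw [hG]; linarith [hγ n]
  obtain ⟨r, ψ, hψ⟩ := exists_gauge Λ hΛ
  set R : ℝ := ‖ψ (B 0)‖ + ∑ x ∈ S n1, ‖ψ (x.1 - x.2 * G n1 - B 0)‖ with hR
  have hsum0 : 0 ≤ ∑ x ∈ S n1, ‖ψ (x.1 - x.2 * G n1 - B 0)‖ :=
    Finset.sum_nonneg fun _ _ => norm_nonneg _
  have hRa : ‖ψ (B 0)‖ ≤ R := by linarith
  have hR0 : 0 ≤ R := (norm_nonneg _).trans hRa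
  have hRx : ∀ x ∈ S n1, ‖ψ (x.1 - x.2 * G n1 - B 0)‖ ≤ R := by
    intro x hx
    have := Finset.single_le_sum (f := fun x : ℝ × ℕ => ‖ψ (x.1 - x.2 * G n1 - B 0)‖)
      (fun _ _ => norm_nonneg _) hx
    linarith [norm_nonneg (ψ (B 0))]
  -- the invariant
  let Inv : ℕ → Prop := fun n => ∀ x ∈ S n, L ≤ x.1 + x.2 * γ n ∨
    (x.2 ≤ h ∧ ‖ψ (x.1 - x.2 * G n - B 0)‖ ≤ R * (h - x.2))
  have hkey : ∀ n, Inv n → ‖ψ (G (n + 1))‖ ≤ R := by
    intro n hI
    obtain ⟨x, hx, hxh, hxe⟩ := hpt n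
    rcases hI x hx with h1 | ⟨-, h1⟩
    · have := hBL (n + 1)
      rw [hB] at this
      linarith
    · obtain ⟨d, hd⟩ := Nat.exists_eq_add_of_lt hxh
      have hdR : (h : ℝ) - x.2 = ((d + 1 : ℕ) : ℝ) := by rw [hd]; push_cast; ring
      have e : x.1 - x.2 * G n - B 0 = ((d + 1 : ℕ) : ℝ) * G (n + 1) := by
        rw [← hdR, hG]
        have := hBG n
        linear_combination hxe + this
      rw [e, norm_natmul, hdR, mul_comm] at h1
      exact le_of_mul_le_mul_right h1 (by positivity)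
  have hInv : ∀ n, n1 ≤ n → Inv n := by
    intro n hn
    induction n, hn using Nat.le_induction with
    | base =>
      intro x hx
      rcases lt_or_ge x.2 h with h1 | h1
      · right
        refine ⟨h1.le, (hRx x hx).trans ?_⟩
        have h2 : (x.2 : ℝ) + 1 ≤ h := by exact_mod_cast h1
        nlinarith
      · by_cases h2 : x = (B n1, h)
        · right
          subst h2
          have e : B n1 - h * G n1 - B 0 = 0 := by rw [hBG n1]; ring
          simp [e]
        · left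
          have := hmargin n1 x hx h1 h2
          rwa [min_eq_left hn1] at this
    | succ n hn ih =>
      intro x' hx'
      obtain ⟨x, hx, t, e1, e2⟩ := hch n x' hx'
      rcases ih x hx with h1 | ⟨h1, h2⟩
      · left
        have h3 := le_of_pow_mul (hpt1 t) hL0 e1 h1
        have h4 : 0 ≤ (x'.2 : ℝ) * γ (n + 1) := mul_nonneg (Nat.cast_nonneg _) (hγ _).le
        linarith
      · right
        have hpt0 : 1 ≤ p ^ t := Nat.one_le_pow _ _ hp
        refine ⟨by nlinarith, ?_⟩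
        obtain ⟨d, hd⟩ := Nat.exists_eq_add_of_le e2
        obtain ⟨q, hq⟩ := Nat.exists_eq_add_of_le hpt0
        have hdR : (x.2 : ℝ) = (p : ℝ) ^ t * x'.2 + d := by exact_mod_cast hd
        have hqR : (p : ℝ) ^ t = 1 + q := by exact_mod_cast hq
        have e : ((p ^ t : ℕ) : ℝ) * (x'.1 - x'.2 * G (n + 1) - B 0) =
            (x.1 - x.2 * G n - B 0) + (d : ℝ) * G (n + 1) - (q : ℝ) * B 0 := by
          push_cast
          rw [hG]
          linear_combination e1 + (G n + γ n) * hdR - B 0 * hqR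
        have h3 : ‖ψ (((p ^ t : ℕ) : ℝ) * (x'.1 - x'.2 * G (n + 1) - B 0))‖ ≤
            R * (h - x.2) + d * R + q * (R * h) := by
          rw [e, map_sub, map_add]
          refine (norm_sub_le _ _).trans (add_le_add ((norm_add_le _ _).trans
            (add_le_add h2 ?_)) ?_)
          · rw [norm_natmul]
            exact mul_le_mul_of_nonneg_left (hkey n ih) (Nat.cast_nonneg _)
          · rw [norm_natmul]
            exact mul_le_mul_of_nonneg_left (by nlinarith) (Nat.cast_nonneg _)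
        rw [norm_natmul] at h3
        have h4 : R * (h - x.2) + d * R + q * (R * h) = ((p ^ t : ℕ) : ℝ) * (R * (h - x'.2)) := by
          push_cast
          linear_combination (-R) * hdR - R * h * hqR
        rw [h4] at h3
        exact le_of_mul_le_mul_left h3 (by positivity)
  have hinf : (Set.range fun m : ℕ => G (n1 + m + 1)).Infinite :=
    Set.infinite_range_of_injective fun a b hab => by
      have := hGmono.injective hab
      omega
  refine hinf ((hψ R).subset ?_)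
  rintro _ ⟨m, rfl⟩
  exact ⟨hGΛ _, hkey _ (hInv _ (Nat.le_add_right _ _))⟩

end Pool.Agent.MP_19ffc6_ag.LU

end MrgPart1

-- ======== part 2: formerly Pool.Agent.MP_19ffc6_ag.LU.Deg
section MrgPart2

/-! Degree of an Artin-Schreier system. -/

namespace Pool.Agent.MP_19ffc6_ag.LU

open Polynomial IntermediateField

variable {k Ω : Type*} [Field k] [NontriviallyNormedField Ω] [IsUltrametricDist Ω] [Algebra k Ω]
  [IsAlgClosed k] [IsAlgClosed Ω] [Ctx k Ω] {p : ℕ} [Fact p.Prime] [CharP k p] [CharP Ω p]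

namespace Deg

omit [IsUltrametricDist Ω] [IsAlgClosed Ω] [Ctx k Ω] in
theorem mem_range_of_pow {q : ℕ} (hq : 1 < q) {a : Ω} (h : a ^ q = a) :
    ∃ c : k, algebraMap k Ω c = a := by
  have hi : IsIntegral k a := ⟨X ^ q - X, monic_X_pow_sub (by rw [degree_X]; exact_mod_cast hq),
    by simp [h]⟩
  exact minpoly.mem_range_of_degree_eq_one k a
    (IsAlgClosed.degree_eq_one_of_irreducible k (minpoly.irreducible hi))

omit [IsUltrametricDist Ω] [IsAlgClosed Ω] [Ctx k Ω] [CharP k p] in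
theorem shift (K : IntermediateField k Ω) {ι : Type} [Fintype ι] (z : ι → Ω) (nx : ι → ι)
    (hn : Function.Surjective nx) (hz : ∀ i, z i ^ p - z (nx i) ∈ K) (σ : Ω ≃ₐ[K] Ω) :
    ∃ t : ι → k, ∀ i, σ (z i) = z i + algebraMap k Ω (t i) := by
  classical
  have h1 : ∀ i, (σ (z i) - z i) ^ p = σ (z (nx i)) - z (nx i) := by
    intro i
    have := σ.commutes ⟨_, hz i⟩
    simp only [IntermediateField.algebraMap_apply, map_sub, map_pow] at this
    rw [sub_pow_char]
    linear_combination this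
  have h2 : ∀ m i, (σ (z i) - z i) ^ p ^ m = σ (z (nx^[m] i)) - z (nx^[m] i) := by
    intro m
    induction m with
    | zero => simp
    | succ m ih => intro i; rw [pow_succ, pow_mul, ih, h1, Function.iterate_succ_apply']
  let e : Equiv.Perm ι := Equiv.ofBijective nx (Finite.surjective_iff_bijective.1 hn)
  have h3 : ∀ i, nx^[orderOf e] i = i := fun i => by
    have := congrFun (Equiv.Perm.coe_pow e (orderOf e)) i
    rw [pow_orderOf_eq_one] at this
    exact this.symm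
  have h4 : ∀ i, ∃ c : k, algebraMap k Ω c = σ (z i) - z i := fun i =>
    mem_range_of_pow (Nat.one_lt_pow (orderOf_pos e).ne' (Fact.out : p.Prime).one_lt)
      (by rw [h2, h3])
  choose t ht using h4
  exact ⟨t, fun i => by rw [ht]; ring⟩

end Deg

omit [IsUltrametricDist Ω] [IsAlgClosed Ω] [Ctx k Ω] in
theorem deg_bound (hb : HB k Ω p) : DegStmt k Ω p := by
  intro K hK ι _ z nx hn hz hsep hind W hKW hzW
  classical
  have hfix : ∀ (σ : Ω ≃ₐ[K] Ω) (c : k), σ (algebraMap k Ω c) = algebraMap k Ω c := fun σ c =>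
    σ.commutes ⟨_, K.algebraMap_mem c⟩
  let T : AddSubmonoid (ι → k) :=
    { carrier := {t | ∃ σ : Ω ≃ₐ[K] Ω, ∀ i, σ (z i) = z i + algebraMap k Ω (t i)}
      zero_mem' := ⟨1, by simp⟩
      add_mem' := by
        rintro t t' ⟨σ, h⟩ ⟨τ, h'⟩
        exact ⟨σ * τ, fun i => by
          rw [AlgEquiv.mul_apply, h', map_add, h, hfix, Pi.add_apply, map_add, add_assoc]⟩ }
  have hspan : Submodule.span k (T : Set (ι → k)) = ⊤ := by
    by_contra hne
    obtain ⟨φ, hφ, h0⟩ := Submodule.exists_dual_map_eq_bot_of_lt_top (lt_top_iff_ne_top.2 hne)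
      inferInstance
    have h1 : ∀ t ∈ T, ∑ i, t i * φ (Pi.single i 1) = 0 := fun t ht => by
      have : φ t ∈ (Submodule.span k (T : Set (ι → k))).map φ :=
        Submodule.mem_map_of_mem (Submodule.subset_span ht)
      rw [h0, Submodule.mem_bot, pi_eq_sum_univ' t, map_sum] at this
      simpa using this
    have h2 := hind (fun i => φ (Pi.single i 1)) (hb.fix K hK _ ?_ fun σ => ?_)
    · exact hφ ((Pi.basisFun k ι).ext fun i => by simpa using congrFun h2 i)
    · refine mem_separableClosure_iff.1 (sum_mem fun i _ => ?_)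
      rw [Algebra.smul_def]
      exact mul_mem ((separableClosure K Ω).algebraMap_mem ⟨_, K.algebraMap_mem _⟩)
        (mem_separableClosure_iff.2 (hsep i))
    · obtain ⟨t, ht⟩ := Deg.shift K z nx hn hz σ
      have h3 := congrArg (algebraMap k Ω) (h1 t ⟨σ, ht⟩)
      simp only [map_sum, map_mul, map_zero] at h3
      simp only [Algebra.smul_def, map_sum, map_mul, hfix, ht, mul_add, Finset.sum_add_distrib,
        mul_comm _ (algebraMap k Ω (t _)), h3, add_zero]
  obtain ⟨f, hf, -, hli⟩ := Submodule.exists_fun_fin_finrank_span_eq k (T : Set (ι → k))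
  have hm : Module.finrank k (Submodule.span k (T : Set (ι → k))) = Fintype.card ι := by
    rw [hspan, finrank_top, Module.finrank_fintype_fun_eq_card]
  choose σ hσ using fun n : Fin _ → Fin p =>
    T.sum_mem (t := Finset.univ) fun j _ => T.nsmul_mem (hf j) (n j : ℕ)
  rw [relrank_eq_rank_of_le hKW]
  rcases lt_or_ge (Module.rank K (extendScalars hKW)) Cardinal.aleph0 with hfin | hinf
  · have : Module.Finite K (extendScalars hKW) := Module.rank_lt_aleph0_iff.1 hfin
    have hinj : Function.Injective fun n => (σ n : Ω →ₐ[K] Ω).comp (extendScalars hKW).val := by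
      intro n n' h
      have h1 : ∑ j, ((n j : ℕ) : k) • f j = ∑ j, ((n' j : ℕ) : k) • f j := by
        funext i
        have h2 : σ n (z i) = σ n' (z i) := DFunLike.congr_fun h ⟨z i, hzW i⟩
        rw [hσ, hσ, add_right_inj] at h2
        simpa only [Nat.cast_smul_eq_nsmul] using (algebraMap k Ω).injective h2
      funext j
      exact Fin.ext (CharP.natCast_injOn_Iio k p (n j).2 (n' j).2
        (Fintype.linearIndependent_iffₛ.1 hli _ _ h1 j))
    have h1 := (Nat.card_le_card_of_injective _ hinj).trans (card_algHom_le_finrank K _ Ω)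
    rw [Nat.card_fun, Nat.card_fin, Nat.card_fin, hm] at h1
    rw [← Module.finrank_eq_rank]
    exact_mod_cast h1
  · refine le_trans (le_of_lt ?_) hinf
    exact_mod_cast Cardinal.natCast_lt_aleph0 (n := p ^ Fintype.card ι)

end Pool.Agent.MP_19ffc6_ag.LU

end MrgPart2

-- marker of a merged file
example : 731051 + 193447 = 731051 + 193447 := rfl
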