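import Mathlib.Algebra.Module.StablyFree.Basic
import Pool.Agent.MP_19ffc6_ag.LU.Perron

/-! Separability criterion by derivations. -/

namespace Pool.Agent.MP_19ffc6_ag.LU

open Polynomial IntermediateField

variable {k Ω : Type*} [Field k] [NontriviallyNormedField Ω] [Algebra k Ω]

namespace Sep

variable {K : IntermediateField k Ω} {D : Ω → Ω}

theorem d_zero (h : IsDer K D) : D 0 = 0 := by simpa using h.const 0

theorem d_one (h : IsDer K D) : D 1 = 0 := by simpa using h.const 1

theorem d_pow (h : IsDer K D) {a : Ω} (ha : a ∈ K) (n : ℕ) :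
    D (a ^ (n + 1)) = (n + 1 : ℕ) * a ^ n * D a := by
  induction n with
  | zero => simp
  | succ n ih =>
    rw [pow_succ, h.mul _ (pow_mem ha _) _ ha, ih]
    push_cast
    ring

theorem d_adjoin (h : IsDer K D) {S : Set Ω} (hS : S ⊆ K) (h0 : ∀ a ∈ S, D a = 0) :
    ∀ a ∈ adjoin k S, D a = 0 := by
  have hle : adjoin k S ≤ K := adjoin_le_iff.2 hS
  intro a ha
  induction ha using adjoin_induction with
  | mem x hx => exact h0 x hx
  | algebraMap c => exact h.const c
  | add x y hx hy ihx ihy => rw [h.add x (hle hx) y (hle hy), ihx, ihy, add_zero]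
  | inv x hx ih =>
    by_cases hx0 : x = 0
    · rw [hx0, inv_zero]; exact d_zero h
    · have h1 := h.mul x (hle hx) x⁻¹ (inv_mem (hle hx))
      rw [mul_inv_cancel₀ hx0, d_one h, ih, mul_zero, add_zero] at h1
      exact (mul_eq_zero.1 h1.symm).resolve_left hx0
  | mul x y hx hy ihx ihy => rw [h.mul x (hle hx) y (hle hy), ihx, ihy]; ring

theorem aeval_mem {N : IntermediateField k Ω} (hN : N ≤ K) {a : Ω} (ha : a ∈ K) (f : N[X]) :
    aeval a f ∈ K := by
  induction f using Polynomial.induction_on' with
  | add f g hf hg => rw [map_add]; exact add_mem hf hg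
  | monomial n c =>
    rw [aeval_monomial]
    exact mul_mem (hN c.2) (pow_mem ha n)

theorem d_aeval (h : IsDer K D) {N : IntermediateField k Ω} (hN : N ≤ K)
    (h0 : ∀ a ∈ N, D a = 0) {a : Ω} (ha : a ∈ K) (f : N[X]) :
    D (aeval a f) = aeval a (derivative f) * D a := by
  induction f using Polynomial.induction_on' with
  | add f g hf hg =>
    rw [map_add, h.add _ (aeval_mem hN ha f) _ (aeval_mem hN ha g), hf, hg, derivative_add,
      map_add, add_mul]
  | monomial n c =>
    have hc : algebraMap N Ω c ∈ K := hN c.2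
    have hc0 : D (algebraMap N Ω c) = 0 := h0 _ c.2
    rw [aeval_monomial, h.mul _ hc _ (pow_mem ha n), hc0, derivative_monomial, aeval_monomial]
    cases n with
    | zero => simp [d_one h]
    | succ n =>
      rw [d_pow h ha n]
      simp only [map_mul, map_natCast, Nat.add_sub_cancel]
      ring

theorem d_sep (h : IsDer K D) {N : IntermediateField k Ω} (hN : N ≤ K)
    (h0 : ∀ a ∈ N, D a = 0) {a : Ω} (ha : a ∈ K) (hs : IsSeparable N a) : D a = 0 := by
  have h1 := d_aeval h hN h0 ha (minpoly N a)
  rw [minpoly.aeval, d_zero h] at h1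
  exact (mul_eq_zero.1 h1.symm).resolve_left
    (Separable.aeval_derivative_ne_zero hs (minpoly.aeval N a))

end Sep

theorem sep_crit : SepStmt k Ω := by
  classical
  intro K hK S S' hS hS' hsep hD
  have hle : adjoin k S' ≤ K := adjoin_le_iff.2 hS'
  let K' : IntermediateField (adjoin k S') Ω := extendScalars hle
  have hfg : K'.FG := by
    obtain ⟨T, hT⟩ := hK
    refine ⟨T, ?_⟩
    subst hT
    exact (extendScalars_adjoin hle).symm
  have : Algebra.EssFiniteType (adjoin k S') K' := essFiniteType_iff.2 hfg
  have : Algebra.FormallyUnramified (adjoin k S') K' := by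
    constructor
    refine ⟨fun w w' => ?_⟩
    suffices hall : ∀ w : KaehlerDifferential (adjoin k S') K', w = 0 by rw [hall w, hall w']
    intro w
    rw [← Module.forall_dual_apply_eq_zero_iff K' w]
    intro φ
    let D : Ω → Ω := fun a =>
      if h : a ∈ K' then (φ (KaehlerDifferential.D (adjoin k S') K' ⟨a, h⟩) : K') else 0
    have hDa : ∀ a : K', D a = (φ (KaehlerDifferential.D (adjoin k S') K' a) : K') := by
      intro a
      simp only [D, dif_pos a.2]
    have hM : ∀ a ∈ adjoin k S', D a = 0 := by
      intro a ha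
      have h1 := hDa (algebraMap (adjoin k S') K' ⟨a, ha⟩)
      rw [Derivation.map_algebraMap, map_zero] at h1
      exact h1
    have hder : IsDer K D := by
      refine ⟨fun a ha b hb => ?_, fun a ha b hb => ?_, fun c => hM _ (IntermediateField.algebraMap_mem _ c)⟩
      · have h1 := hDa (⟨a, ha⟩ + ⟨b, hb⟩)
        rw [map_add, map_add] at h1
        rw [hDa ⟨a, ha⟩, hDa ⟨b, hb⟩]
        exact h1
      · have h1 := hDa (⟨a, ha⟩ * ⟨b, hb⟩)
        rw [Derivation.leibniz, map_add, map_smul, map_smul] at h1
        rw [hDa ⟨a, ha⟩, hDa ⟨b, hb⟩]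
        exact h1
    have hS0 := hD D hder fun a ha => hM a (subset_adjoin k S' ha)
    have hN := Sep.d_adjoin hder hS hS0
    have hK0 : ∀ a : K', φ (KaehlerDifferential.D (adjoin k S') K' a) = 0 := by
      intro a
      have h1 := Sep.d_sep hder (adjoin_le_iff.2 hS) hN a.2 (hsep a a.2)
      rw [hDa] at h1
      exact Subtype.ext h1
    have hφ : φ = 0 := by
      apply LinearMap.ext_on (KaehlerDifferential.span_range_derivation (adjoin k S') K')
      rintro _ ⟨a, rfl⟩
      exact hK0 a
    rw [hφ, LinearMap.zero_apply]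
  have hs : Algebra.IsSeparable (adjoin k S') K' :=
    (Algebra.FormallyUnramified.iff_isSeparable _ _).1 inferInstance
  intro a ha
  exact IntermediateField.isSeparable_of_mem_isSeparable (adjoin k S') Ω (L := K') ha

end Pool.Agent.MP_19ffc6_ag.LU
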