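import Mathlib.RingTheory.Etale.StandardEtale
import Pool.Agent.MP_19ffc6_ag.LU.Perron

-- ======== part 0: formerly Pool.Agent.MP_19ffc6_ag.LU.Final
section MrgPart0

/-! PROJECT LU1, module FI: the smooth model of a field inside the henselization of a stage. -/

namespace Pool.Agent.MP_19ffc6_ag.LU

open Polynomial

namespace Final

section

variable {k Ω : Type*} [Field k] [NontriviallyNormedField Ω] [Algebra k Ω]

theorem mon_ne (s : Stage Ω) {α : ℝ} (h : α ∈ s.Λ) : s.mon α ≠ 0 := by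
  rw [← norm_ne_zero_iff, s.norm_mon α h]
  exact (Real.exp_pos _).ne'

theorem mon_zero (s : Stage Ω) : s.mon 0 = 1 := by
  have h := s.mon_add 0 s.Λ.zero_mem 0 s.Λ.zero_mem
  rw [add_zero] at h
  exact mul_left_cancel₀ (mon_ne s s.Λ.zero_mem) (h.symm.trans (mul_one _).symm)

theorem mon_neg (s : Stage Ω) {α : ℝ} (h : α ∈ s.Λ) : s.mon (-α) = (s.mon α)⁻¹ := by
  have h1 := s.mon_add α h (-α) (s.Λ.neg_mem h)
  rw [add_neg_cancel, mon_zero] at h1
  exact eq_inv_of_mul_eq_one_right h1.symm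

theorem nat_mul_mem (s : Stage Ω) {α : ℝ} (h : α ∈ s.Λ) (n : ℕ) : (n : ℝ) * α ∈ s.Λ := by
  rw [← nsmul_eq_mul]
  exact s.Λ.nsmul_mem h n

theorem mon_nat (s : Stage Ω) {α : ℝ} (h : α ∈ s.Λ) (n : ℕ) :
    s.mon (n * α) = s.mon α ^ n := by
  induction n with
  | zero => simp [mon_zero]
  | succ n ih =>
    rw [Nat.cast_succ, add_mul, one_mul, s.mon_add _ (nat_mul_mem s h n) _ h, ih, pow_succ]

theorem mon_sum_mem (s : Stage Ω) {ι : Type} (b : ι → ℝ) (hb : ∀ i, b i ∈ s.Λ) (m : ι → ℕ)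
    (A : Subalgebra k Ω) (hA : ∀ i, s.mon (b i) ∈ A) (I : Finset ι) :
    s.mon (∑ i ∈ I, m i * b i) ∈ A := by
  classical
  induction I using Finset.induction_on with
  | empty => rw [Finset.sum_empty, mon_zero]; exact A.one_mem
  | insert i I hi ih =>
    rw [Finset.sum_insert hi, s.mon_add _ (nat_mul_mem s (hb i) _) _
      (s.Λ.sum_mem fun j _ => nat_mul_mem s (hb j) _), mon_nat s (hb i)]
    exact A.mul_mem (A.pow_mem (hA i) _) ih

theorem adjoin_mon (s : Stage Ω) {ι : Type} (b : ι → ℝ)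
    (hb : AddSubgroup.closure (Set.range b) = s.Λ) :
    IntermediateField.adjoin k (s.mon '' s.Λ) =
      IntermediateField.adjoin k (Set.range fun i => s.mon (b i)) := by
  have hmem : ∀ i, b i ∈ s.Λ := fun i => hb ▸ AddSubgroup.subset_closure ⟨i, rfl⟩
  refine le_antisymm (IntermediateField.adjoin_le_iff.2 ?_) (IntermediateField.adjoin.mono _ _ _ ?_)
  · rintro _ ⟨α, hα, rfl⟩
    have h1 : α ∈ AddSubgroup.closure (Set.range b) := hb ▸ hα
    clear hα
    induction h1 using AddSubgroup.closure_induction with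
    | mem x hx =>
      obtain ⟨i, rfl⟩ := hx
      exact IntermediateField.subset_adjoin _ _ ⟨i, rfl⟩
    | zero => rw [mon_zero]; exact one_mem _
    | add x y hx hy h1 h2 => rw [s.mon_add x (hb ▸ hx) y (hb ▸ hy)]; exact mul_mem h1 h2
    | neg x hx h1 => rw [mon_neg s (hb ▸ hx)]; exact inv_mem h1
  · rintro _ ⟨i, rfl⟩
    exact ⟨b i, hmem i, rfl⟩

theorem exists_T (s : Stage Ω) {r : Ω} (hr : r ∈ s.R0 k) : ∃ T : Finset ℝ,
    (∀ t ∈ T, t ∈ s.Λ ∧ 0 ≤ t) ∧ r ∈ Algebra.adjoin k (s.mon '' T ∪ {s.y}) := by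
  classical
  have mono : ∀ T T' : Finset ℝ, T ⊆ T' → Algebra.adjoin k (s.mon '' T ∪ {s.y}) ≤
      Algebra.adjoin k (s.mon '' T' ∪ {s.y}) := fun T T' h =>
    Algebra.adjoin_mono (Set.union_subset_union_left _ (Set.image_mono h))
  induction hr using Algebra.adjoin_induction with
  | mem x hx =>
    rcases hx with ⟨α, hα, rfl⟩ | hx
    · exact ⟨{α}, by simpa using hα, Algebra.subset_adjoin (Or.inl ⟨α, by simp, rfl⟩)⟩
    · exact ⟨∅, by simp, Algebra.subset_adjoin (Or.inr hx)⟩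
  | algebraMap c => exact ⟨∅, by simp, Subalgebra.algebraMap_mem _ c⟩
  | add x y _ _ h1 h2 =>
    obtain ⟨T, a1, a2⟩ := h1
    obtain ⟨T', b1, b2⟩ := h2
    exact ⟨T ∪ T', fun t ht => (Finset.mem_union.1 ht).elim (a1 t) (b1 t),
      add_mem (mono _ _ Finset.subset_union_left a2) (mono _ _ Finset.subset_union_right b2)⟩
  | mul x y _ _ h1 h2 =>
    obtain ⟨T, a1, a2⟩ := h1
    obtain ⟨T', b1, b2⟩ := h2
    exact ⟨T ∪ T', fun t ht => (Finset.mem_union.1 ht).elim (a1 t) (b1 t),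
      mul_mem (mono _ _ Finset.subset_union_left a2) (mono _ _ Finset.subset_union_right b2)⟩

theorem good_mem (s : Stage Ω) {b : Ω} (h : s.Good k b) (hb : ‖b‖ ≤ 1) : b ∈ s.R k := by
  obtain ⟨α, hα, w, hw, h1, rfl⟩ := h
  rw [norm_mul, h1, mul_one, s.norm_mon α hα, Real.exp_le_one_iff] at hb
  refine mul_mem ⟨s.mon α, Algebra.subset_adjoin (Or.inl ⟨α, ⟨hα, by linarith⟩, rfl⟩), 1,
    one_mem _, norm_one, (div_one _).symm⟩ hw

theorem exists_T_coeffs (s : Stage Ω) (C : Finset Ω) (hC : ∀ b ∈ C, b ∈ s.R k) :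
    ∃ T : Finset ℝ, (∀ t ∈ T, t ∈ s.Λ ∧ 0 ≤ t) ∧ ∀ b ∈ C,
      ∃ a ∈ Algebra.adjoin k (s.mon '' T ∪ {s.y}), ∃ c ∈ Algebra.adjoin k (s.mon '' T ∪ {s.y}),
        ‖c‖ = 1 ∧ b = a / c := by
  classical
  have mono : ∀ T T' : Finset ℝ, T ⊆ T' → Algebra.adjoin k (s.mon '' T ∪ {s.y}) ≤
      Algebra.adjoin k (s.mon '' T' ∪ {s.y}) := fun T T' h =>
    Algebra.adjoin_mono (Set.union_subset_union_left _ (Set.image_mono h))
  induction C using Finset.induction_on with
  | empty => exact ⟨∅, by simp, by simp⟩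
  | insert b C _ ih =>
    obtain ⟨T, h1, h2⟩ := ih fun x hx => hC x (Finset.mem_insert_of_mem hx)
    obtain ⟨a, ha, c, hc, h3, h4⟩ := hC b (Finset.mem_insert_self _ _)
    obtain ⟨Ta, a1, a2⟩ := exists_T s ha
    obtain ⟨Tc, c1, c2⟩ := exists_T s hc
    refine ⟨T ∪ (Ta ∪ Tc), fun t ht => (Finset.mem_union.1 ht).elim (h1 t)
      fun ht => (Finset.mem_union.1 ht).elim (a1 t) (c1 t), fun x hx => ?_⟩
    rcases Finset.mem_insert.1 hx with rfl | hx
    · exact ⟨a, mono _ _ (Finset.subset_union_left.trans Finset.subset_union_right) a2, c,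
        mono _ _ (Finset.subset_union_right.trans Finset.subset_union_right) c2, h3, h4⟩
    · obtain ⟨a', ha', c', hc', h5⟩ := h2 x hx
      exact ⟨a', mono _ _ Finset.subset_union_left ha', c', mono _ _ Finset.subset_union_left hc',
        h5⟩

theorem eval_mem (A : Subalgebra k Ω) (P : Polynomial Ω) (hP : ∀ i, P.coeff i ∈ A) {η : Ω}
    (hη : η ∈ A) : P.eval η ∈ A := by
  rw [eval_eq_sum_range]
  exact A.sum_mem fun i _ => A.mul_mem (hP i) (A.pow_mem hη i)

theorem deriv_mem (A : Subalgebra k Ω) (P : Polynomial Ω) (hP : ∀ i, P.coeff i ∈ A) (i : ℕ) :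
    P.derivative.coeff i ∈ A := by
  rw [coeff_derivative]
  exact A.mul_mem (hP _) (A.add_mem (A.natCast_mem i) A.one_mem)

theorem common_den (A : Subalgebra k Ω) (C : Finset Ω)
    (hC : ∀ b ∈ C, ∃ a ∈ A, ∃ c ∈ A, ‖c‖ = 1 ∧ b = a / c) :
    ∃ c ∈ A, ‖c‖ = 1 ∧ ∀ b ∈ C, b * c ∈ A := by
  classical
  induction C using Finset.induction_on with
  | empty => exact ⟨1, A.one_mem, norm_one, by simp⟩
  | insert b C _ ih =>
    obtain ⟨c, h1, h2, h3⟩ := ih fun x hx => hC x (Finset.mem_insert_of_mem hx)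
    obtain ⟨a, ha, c', hc', h4, h5⟩ := hC b (Finset.mem_insert_self _ _)
    have h0 : c' ≠ 0 := by
      rintro rfl
      simp at h4
    refine ⟨c' * c, A.mul_mem hc' h1, by rw [norm_mul, h2, h4, one_mul], fun x hx => ?_⟩
    rcases Finset.mem_insert.1 hx with rfl | hx
    · rw [h5, ← mul_assoc, div_mul_cancel₀ _ h0]
      exact A.mul_mem ha h1
    · rw [mul_left_comm]
      exact A.mul_mem hc' (h3 x hx)

variable [IsUltrametricDist Ω] [Ctx k Ω]

variable (k Ω) in
/-- the valuation ring -/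
def OO : Subalgebra k Ω where
  carrier := {a | ‖a‖ ≤ 1}
  mul_mem' := fun {a b} ha hb => by
    show ‖a * b‖ ≤ 1
    rw [norm_mul]
    exact mul_le_one₀ ha (norm_nonneg _) hb
  add_mem' := fun {a b} ha hb => (IsUltrametricDist.norm_add_le_max a b).trans (max_le ha hb)
  algebraMap_mem' c := by
    show ‖algebraMap k Ω c‖ ≤ 1
    by_cases hc : c = 0
    · simp [hc]
    · exact (Ctx.norm_alg c hc).le

theorem finish (hsm : SmoothStmt k Ω) (F : IntermediateField k Ω) (Z Z' : Finset Ω)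
    (hZZ : Z ⊆ Z') (hF : F ≤ IntermediateField.adjoin k (Z' : Set Ω)) {ι : Type} [Fintype ι]
    (x : ι → Ω) (hx : AlgebraicIndependent k x) (hx1 : ∀ i, ‖x i‖ ≤ 1) (hxF : ∀ i, x i ∈ F)
    (η : Ω) (P : Polynomial Ω) (G : Ω → Polynomial Ω) (N : Ω → ℕ) (hηF : η ∈ F) (hη : ‖η‖ = 1)
    (hP : P.Monic) (h0 : P.eval η = 0) (h1 : ‖P.derivative.eval η‖ = 1)
    (hmin : ∀ Q : Polynomial Ω, (∀ i, Q.coeff i ∈ IntermediateField.adjoin k (Set.range x)) →
      Q.eval η = 0 → Q.degree < P.degree → Q = 0)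
    (hG : ∀ z ∈ Z', z * (η ^ N z * P.derivative.eval η) = (G z).eval η) (C : Finset Ω)
    (hPC : P.coeffs ⊆ C) (hGC : ∀ z ∈ Z', (G z).coeffs ⊆ C)
    (hC : ∀ b ∈ C, ∃ a ∈ Algebra.adjoin k (Set.range x), ∃ c ∈ Algebra.adjoin k (Set.range x),
      ‖c‖ = 1 ∧ b = a / c) : ∃ A, Model F Z A := by
  obtain ⟨c, hc, hc1, hc2⟩ := common_den _ C hC
  have ne1 : ∀ a : Ω, ‖a‖ = 1 → a ≠ 0 := by
    rintro a ha rfl
    simp at ha
  have hc0 := ne1 c hc1
  have hη0 := ne1 η hη
  have hd0 := ne1 _ h1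
  have coef : ∀ Q : Polynomial Ω, Q.coeffs ⊆ C → ∀ i,
      Q.coeff i ∈ Algebra.adjoin k (Set.range x ∪ {c⁻¹}) := by
    intro Q hQ i
    by_cases h : Q.coeff i = 0
    · rw [h]; exact zero_mem _
    · rw [← mul_inv_cancel_right₀ hc0 (Q.coeff i)]
      exact mul_mem (Algebra.adjoin_mono Set.subset_union_left (hc2 _ (hQ (coeff_mem_coeffs h))))
        (Algebra.subset_adjoin (Or.inr rfl))
  set A := Algebra.adjoin k (Set.range x ∪ {c⁻¹, η, (η * P.derivative.eval η)⁻¹}) with hA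
  have le0 : Algebra.adjoin k (Set.range x ∪ {c⁻¹}) ≤ A :=
    Algebra.adjoin_mono (Set.union_subset_union_right _ (by simp))
  have hηA : η ∈ A := Algebra.subset_adjoin (Or.inr (by simp))
  have hiA : (η * P.derivative.eval η)⁻¹ ∈ A := Algebra.subset_adjoin (Or.inr (by simp))
  have hdA : P.derivative.eval η ∈ A :=
    eval_mem A _ (deriv_mem A P fun i => le0 (coef P hPC i)) hηA
  have hZA : ∀ z ∈ Z', z ∈ A := by
    intro z hz
    have e : z = (G z).eval η * ((P.derivative.eval η * (η * P.derivative.eval η)⁻¹) ^ N z *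
        (η * (η * P.derivative.eval η)⁻¹)) := by
      rw [← hG z hz]
      have e1 : P.derivative.eval η * (η * P.derivative.eval η)⁻¹ = η⁻¹ := by field_simp
      rw [e1, inv_pow]
      field_simp
    rw [e]
    exact mul_mem (eval_mem A _ (fun i => le0 (coef _ (hGC z hz) i)) hηA)
      (mul_mem (pow_mem (mul_mem hdA hiA) _) (mul_mem hηA hiA))
  have hxF' : Algebra.adjoin k (Set.range x) ≤ F.toSubalgebra :=
    Algebra.adjoin_le (Set.range_subset_iff.2 hxF)
  have hcF : c⁻¹ ∈ F := F.inv_mem (hxF' hc)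
  have le1 : Algebra.adjoin k (Set.range x ∪ {c⁻¹}) ≤ F.toSubalgebra :=
    Algebra.adjoin_le (Set.union_subset (Set.range_subset_iff.2 hxF)
      (Set.singleton_subset_iff.2 hcF))
  have hdF : P.derivative.eval η ∈ F :=
    eval_mem F.toSubalgebra _ (deriv_mem _ P fun i => le1 (coef P hPC i)) hηF
  refine ⟨A, ?_, ?_, ?_, fun z hz => hZA z (hZZ hz), ?_,
    hsm ι x hx c hc hc0 η P hP (coef P hPC) h0 hη0 hd0 hmin⟩
  · exact Subalgebra.fg_def.2 ⟨_, (Set.finite_range x).union (Set.toFinite _), rfl⟩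
  · refine Algebra.adjoin_le (Set.union_subset (Set.range_subset_iff.2 hxF) ?_)
    rintro a (rfl | rfl | rfl)
    · exact hcF
    · exact hηF
    · exact F.inv_mem (F.mul_mem hηF hdF)
  · have : A ≤ OO k Ω := by
      refine Algebra.adjoin_le (Set.union_subset (Set.range_subset_iff.2 hx1) ?_)
      rintro a (rfl | rfl | rfl)
      · show ‖c⁻¹‖ ≤ 1
        rw [norm_inv, hc1, inv_one]
      · exact hη.le
      · show ‖(η * P.derivative.eval η)⁻¹‖ ≤ 1
        rw [norm_inv, norm_mul, hη, h1, one_mul, inv_one]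
    exact fun a ha => this ha
  · intro f hf
    obtain ⟨a, ha, b, hb, rfl⟩ := IntermediateField.mem_adjoin_iff_div.1 (hF hf)
    have le2 : Algebra.adjoin k (Z' : Set Ω) ≤ A := Algebra.adjoin_le hZA
    by_cases hb0 : b = 0
    · exact ⟨0, zero_mem _, 1, one_mem _, one_ne_zero, by simp [hb0]⟩
    · exact ⟨a, le2 ha, b, le2 hb, hb0, rfl⟩

end

end Final

open Final

variable {k Ω : Type*} [Field k] [NontriviallyNormedField Ω] [IsUltrametricDist Ω] [Algebra k Ω]
  [Ctx k Ω] {p : ℕ}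

theorem final (hle : LeStmt k Ω p) (hmon : MonStmt k Ω) (heta : EtaStmt k Ω) (hper : PerronStmt)
    (hind : IndStmt k Ω) (hsm : SmoothStmt k Ω) : FinalStmt k Ω := by
  classical
  rintro F s Z ⟨S, hS⟩ halg hMF hFh hy hZ
  set Z' := Z ∪ S.image fun f => if ‖f‖ ≤ 1 then f else f⁻¹ with hZ'
  have hSF : ∀ f ∈ S, f ∈ F := fun f hf => hS ▸ IntermediateField.subset_adjoin _ _ hf
  have hZ'F : ∀ z ∈ Z', z ∈ F ∧ ‖z‖ ≤ 1 := by
    intro z hz
    rcases Finset.mem_union.1 hz with h | h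
    · exact hZ z h
    · obtain ⟨f, hf, rfl⟩ := Finset.mem_image.1 h
      split_ifs with h1
      · exact ⟨hSF f hf, h1⟩
      · refine ⟨F.inv_mem (hSF f hf), ?_⟩
        rw [norm_inv]
        exact inv_le_one_of_one_le₀ (not_le.1 h1).le
  have hFZ : F ≤ IntermediateField.adjoin k (Z' : Set Ω) := by
    rw [← hS]
    refine IntermediateField.adjoin_le_iff.2 fun f hf => ?_
    have h1 := IntermediateField.subset_adjoin k (Z' : Set Ω)
      (Finset.mem_union_right Z (Finset.mem_image_of_mem (fun f => if ‖f‖ ≤ 1 then f else f⁻¹) hf))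
    split_ifs at h1
    · exact h1
    · simpa using inv_mem h1
  obtain ⟨η, P, hηm, hη, hP, hPc, h0, h1, hmin, hG⟩ :=
    heta (s.M k) Z' fun z hz => ⟨hFh (hZ'F z hz).1, (hZ'F z hz).2⟩
  choose! G N hGc hG using hG
  have hηF : η ∈ F :=
    sup_le hMF (IntermediateField.adjoin_le_iff.2 fun z hz => (hZ'F z hz).1) hηm
  set C := P.coeffs ∪ Z'.biUnion fun z => (G z).coeffs with hC
  have hCm : ∀ b ∈ C, (b ∈ s.M k ∧ b ≠ 0) ∧ ‖b‖ ≤ 1 := by
    intro b hb
    rcases Finset.mem_union.1 hb with h | h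
    · obtain ⟨n, hn, rfl⟩ := mem_coeffs_iff.1 h
      exact ⟨⟨(hPc n).1, mem_support_iff.1 hn⟩, (hPc n).2⟩
    · obtain ⟨z, hz, h⟩ := Finset.mem_biUnion.1 h
      obtain ⟨n, hn, rfl⟩ := mem_coeffs_iff.1 h
      exact ⟨⟨(hGc z hz n).1, mem_support_iff.1 hn⟩, (hGc z hz n).2⟩
  obtain ⟨s', hle', hgood⟩ := hmon.mon s C fun b hb => (hCm b hb).1
  obtain ⟨T, hT, hTC⟩ := exists_T_coeffs (k := k) s' C
    fun b hb => good_mem s' (hgood b hb) (hCm b hb).2
  obtain ⟨r, b, hb0, hbi, hbc, hbT⟩ := hper s'.Λ s'.fg T hT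
  have hbm : ∀ i, b i ∈ s'.Λ := fun i => hbc ▸ AddSubgroup.subset_closure ⟨i, rfl⟩
  have hM := hle.M_eq s s' hle'
  have hxi : AlgebraicIndependent k fun i => s'.mon (b i) := by
    refine hind (Fin r) _ (fun i => mon_ne s' (hbm i)) ?_
    have : (fun i => nu (s'.mon (b i))) = b := by
      funext i
      rw [nu, s'.norm_mon _ (hbm i), Real.log_exp, neg_neg]
    rwa [this]
  have hx1 : ∀ i, ‖s'.mon (b i)‖ ≤ 1 := fun i => by
    rw [s'.norm_mon _ (hbm i), Real.exp_le_one_iff]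
    linarith [hb0 i]
  have hadj := adjoin_mon (k := k) s' b hbc
  have main : ∀ (ι : Type) [Fintype ι] (x : ι → Ω), AlgebraicIndependent k x → (∀ i, ‖x i‖ ≤ 1) →
      (∀ i, x i ∈ s'.M k) → (∀ i, s'.mon (b i) ∈ Algebra.adjoin k (Set.range x)) →
      s'.y ∈ Algebra.adjoin k (Set.range x) → ∃ A, Model F Z A := by
    intro ι _ x hx h2 h3 h4 h5
    have hle1 : Algebra.adjoin k (s'.mon '' T ∪ {s'.y}) ≤ Algebra.adjoin k (Set.range x) := by
      refine Algebra.adjoin_le (Set.union_subset ?_ (Set.singleton_subset_iff.2 h5))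
      rintro _ ⟨t, ht, rfl⟩
      obtain ⟨m, rfl⟩ := hbT t ht
      exact mon_sum_mem s' b hbm m _ h4 _
    refine finish hsm F Z Z' Finset.subset_union_left hFZ x hx h2 (fun i => hMF (hM ▸ h3 i))
      η P G N hηF hη hP h0 h1 (fun Q hQ => hmin Q fun i => ?_) hG C Finset.subset_union_left
      (fun z hz => (Finset.subset_biUnion_of_mem (fun z => (G z).coeffs) hz).trans
        Finset.subset_union_right) fun c hc => ?_
    · rw [← hM]
      exact IntermediateField.adjoin_le_iff.2 (Set.range_subset_iff.2 h3) (hQ i)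
    · obtain ⟨a, ha, c', hc', h6⟩ := hTC c hc
      exact ⟨a, hle1 ha, c', hle1 hc', h6⟩
  have hmM : ∀ i, s'.mon (b i) ∈ s'.M k := fun i =>
    IntermediateField.subset_adjoin _ _ (Or.inl ⟨b i, hbm i, rfl⟩)
  rcases hy with hy | hy
  · have hy' : s'.y = 0 := by rw [hle.y_zero s s' hle' hy, hy]
    exact main (Fin r) _ hxi hx1 hmM (fun i => Algebra.subset_adjoin ⟨i, rfl⟩)
      (hy' ▸ zero_mem _)
  · have h2 := hy s' (hM ▸ halg)
    rw [hadj, IntermediateField.transcendental_adjoin_iff] at h2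
    refine main (Option (Fin r)) (fun o => o.elim s'.y fun i => s'.mon (b i))
      (AlgebraicIndependent.option_iff.2 ⟨hxi, h2⟩) ?_ ?_
      (fun i => Algebra.subset_adjoin ⟨some i, rfl⟩) (Algebra.subset_adjoin ⟨none, rfl⟩)
    · rintro (_ | i)
      · exact s'.norm_y.le
      · exact hx1 i
    · rintro (_ | i)
      · exact IntermediateField.subset_adjoin _ _ (Or.inr rfl)
      · exact hmM i

end Pool.Agent.MP_19ffc6_ag.LU

end MrgPart0

-- ======== part 1: formerly Pool.Agent.MP_19ffc6_ag.LU.Smooth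
section MrgPart1

/-! Module SM of PROJECT LU1: a standard etale algebra over a localized polynomial ring. -/

namespace Pool.Agent.MP_19ffc6_ag.LU

open Polynomial

namespace Smooth

variable {k Ω : Type*} [Field k] [Field Ω] [Algebra k Ω]

/-- Every element of `k[S, 1/c]` becomes an element of `k[S]` after multiplication by a power
of `c`. -/
lemma exists_mul_pow_mem (S : Set Ω) (c : Ω) (hc : c ∈ Algebra.adjoin k S) (hc0 : c ≠ 0)
    (b : Ω) (hb : b ∈ Algebra.adjoin k (S ∪ {c⁻¹})) :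
    ∃ n : ℕ, b * c ^ n ∈ Algebra.adjoin k S := by
  induction hb using Algebra.adjoin_induction with
  | mem x hx =>
    rcases hx with hx | hx
    · exact ⟨0, by simpa using Algebra.subset_adjoin hx⟩
    · rw [Set.mem_singleton_iff] at hx
      subst hx
      exact ⟨1, by rw [pow_one, inv_mul_cancel₀ hc0]; exact Subalgebra.one_mem _⟩
  | algebraMap r => exact ⟨0, by simp⟩
  | add x y _ _ hx hy =>
    obtain ⟨n, hn⟩ := hx
    obtain ⟨m, hm⟩ := hy
    refine ⟨n + m, ?_⟩
    have : (x + y) * c ^ (n + m) = x * c ^ n * c ^ m + y * c ^ m * c ^ n := by ring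
    rw [this]
    exact add_mem (mul_mem hn (pow_mem hc _)) (mul_mem hm (pow_mem hc _))
  | mul x y _ _ hx hy =>
    obtain ⟨n, hn⟩ := hx
    obtain ⟨m, hm⟩ := hy
    refine ⟨n + m, ?_⟩
    have : (x * y) * c ^ (n + m) = (x * c ^ n) * (y * c ^ m) := by ring
    rw [this]
    exact mul_mem hn hm

/-- Inverting one element preserves smoothness. -/
lemma smooth_away (S : Set Ω) (c : Ω) (hc : c ∈ Algebra.adjoin k S) (hc0 : c ≠ 0)
    (hS : Algebra.Smooth k (Algebra.adjoin k S)) :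
    Algebra.Smooth k (Algebra.adjoin k (S ∪ {c⁻¹})) := by
  have hle : Algebra.adjoin k S ≤ Algebra.adjoin k (S ∪ {c⁻¹}) :=
    Algebra.adjoin_mono Set.subset_union_left
  let : Algebra (Algebra.adjoin k S) (Algebra.adjoin k (S ∪ {c⁻¹})) :=
    (Subalgebra.inclusion hle).toRingHom.toAlgebra
  have : IsScalarTower k (Algebra.adjoin k S) (Algebra.adjoin k (S ∪ {c⁻¹})) :=
    IsScalarTower.of_algebraMap_eq fun r => Subtype.ext rfl
  have hval : ∀ a : Algebra.adjoin k S,
      ((algebraMap (Algebra.adjoin k S) (Algebra.adjoin k (S ∪ {c⁻¹})) a : _) : Ω) = a :=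
    fun a => rfl
  have : IsLocalization.Away (⟨c, hc⟩ : Algebra.adjoin k S) (Algebra.adjoin k (S ∪ {c⁻¹})) := by
    refine IsLocalization.Away.mk _ ?_ ?_ ?_
    · refine IsUnit.of_mul_eq_one
        (⟨c⁻¹, Algebra.subset_adjoin (Or.inr rfl)⟩ : Algebra.adjoin k (S ∪ {c⁻¹})) ?_
      apply Subtype.ext
      change c * c⁻¹ = 1
      exact mul_inv_cancel₀ hc0
    · intro b
      obtain ⟨n, hn⟩ := exists_mul_pow_mem S c hc hc0 b.1 b.2
      refine ⟨n, ⟨_, hn⟩, Subtype.ext ?_⟩
      rw [hval]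
      simp only [MulMemClass.coe_mul, SubmonoidClass.coe_pow, hval]
    · intro a b hab
      refine ⟨0, ?_⟩
      have : (a : Ω) = b := by rw [← hval a, ← hval b, hab]
      rw [Subtype.ext this]
  have := Algebra.Smooth.of_isLocalization_Away
    (A := Algebra.adjoin k (S ∪ {c⁻¹})) (⟨c, hc⟩ : Algebra.adjoin k S)
  exact Algebra.Smooth.comp k (Algebra.adjoin k S) _

/-- A polynomial ring in finitely many variables is smooth. -/
lemma smooth_poly {ι : Type} [Finite ι] (x : ι → Ω) (hx : AlgebraicIndependent k x) :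
    Algebra.Smooth k (Algebra.adjoin k (Set.range x)) := by
  have : Algebra.Smooth k (MvPolynomial ι k) := {}
  exact Algebra.Smooth.of_equiv hx.aevalEquiv

/-- The standard etale step. -/
lemma smooth_etale (S : Set Ω) (hS : Algebra.Smooth k (Algebra.adjoin k S)) (η : Ω)
    (P : Polynomial Ω) (hP : P.Monic) (hco : ∀ i, P.coeff i ∈ Algebra.adjoin k S)
    (h0 : P.eval η = 0) (hη : η ≠ 0) (hd : P.derivative.eval η ≠ 0)
    (hmin : ∀ Q : Polynomial Ω, (∀ i, Q.coeff i ∈ Algebra.adjoin k S) → Q.eval η = 0 →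
      Q.degree < P.degree → Q = 0) :
    Algebra.Smooth k (Algebra.adjoin k (S ∪ {η, (η * P.derivative.eval η)⁻¹})) := by
  set A := Algebra.adjoin k S with hA
  set B := Algebra.adjoin k (S ∪ {η, (η * P.derivative.eval η)⁻¹}) with hB
  have hle : A ≤ B := Algebra.adjoin_mono Set.subset_union_left
  have hinj : Function.Injective (algebraMap A Ω) := Subtype.val_injective
  have hl : P ∈ Polynomial.lifts (algebraMap A Ω) := by
    rw [Polynomial.lifts_iff_coeff_lifts]
    exact fun i => ⟨⟨_, hco i⟩, rfl⟩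
  obtain ⟨P0, hP0, hdeg, hm⟩ := Polynomial.lifts_and_degree_eq_and_monic hl hP
  let E : StandardEtalePair A :=
    ⟨P0, hm, X * derivative P0, X, 0, 1, by ring⟩
  have hev : ∀ q : Polynomial A, aeval η q = (q.map (algebraMap A Ω)).eval η := fun q => by
    rw [Polynomial.eval_map_algebraMap]
  have hg : aeval η E.g = η * P.derivative.eval η := by
    change aeval η (X * derivative P0) = _
    rw [map_mul, aeval_X, hev, ← Polynomial.derivative_map, hP0]
  have hne : η * P.derivative.eval η ≠ 0 := mul_ne_zero hη hd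
  have hmap : E.HasMap η := ⟨by rw [hev]; change (P0.map _).eval η = 0; rw [hP0, h0],
    by rw [hg]; exact hne.isUnit⟩
  let φ := E.lift η hmap
  let T : StandardEtalePresentation A E.Ring :=
    ⟨E, E.X, E.hasMap_X, by simpa [StandardEtalePair.lift_X_left] using Function.bijective_id⟩
  have hφ : ∀ q : Polynomial A, φ (aeval E.X q) = aeval η q := fun q => by
    rw [← aeval_algHom_apply, StandardEtalePair.lift_X]
  have hsurj : ∀ z : E.Ring, ∃ (q : Polynomial A) (n : ℕ),
      z * aeval E.X E.g ^ n = aeval E.X q := T.exists_mul_aeval_x_g_pow_eq_aeval_x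
  have hφinj : Function.Injective φ := by
    rw [injective_iff_map_eq_zero]
    intro z hz
    obtain ⟨q, n, hq⟩ := hsurj z
    have h1 : aeval η q = 0 := by
      rw [← hφ, ← hq, map_mul, hz, zero_mul]
    have h2 : aeval η (q %ₘ P0) = 0 := by
      have := Polynomial.aeval_modByMonic_eq_self_of_root (p := q) hmap.1
      exact this.trans h1
    have h3 : (q %ₘ P0).map (algebraMap A Ω) = 0 := by
      refine hmin _ (fun i => ?_) (by rw [← hev]; exact h2) ?_
      · rw [Polynomial.coeff_map]; exact ((q %ₘ P0).coeff i).2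
      · rw [Polynomial.degree_map_eq_of_injective hinj, ← hdeg]
        exact Polynomial.degree_modByMonic_lt q hm
    have h4 : q %ₘ P0 = 0 := (Polynomial.map_eq_zero_iff hinj).1 h3
    have h5 : aeval E.X q = 0 := by
      have := Polynomial.aeval_modByMonic_eq_self_of_root (p := q) (E.hasMap_X).1
      rw [← this]
      change aeval E.X (q %ₘ P0) = 0
      rw [h4, map_zero]
    rw [h5] at hq
    exact (IsUnit.mul_left_eq_zero (E.hasMap_X.2.pow n)).1 hq
  have hηB : η ∈ B := Algebra.subset_adjoin (Or.inr (Or.inl rfl))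
  have hiB : (η * P.derivative.eval η)⁻¹ ∈ B := Algebra.subset_adjoin (Or.inr (Or.inr rfl))
  have haB : ∀ q : Polynomial A, aeval η q ∈ B := fun q => by
    rw [Polynomial.aeval_eq_sum_range]
    refine Subalgebra.sum_mem _ fun i _ => ?_
    rw [Algebra.smul_def]
    exact mul_mem (hle (q.coeff i).2) (pow_mem hηB _)
  let _ : Algebra k E.Ring := ((algebraMap A E.Ring).comp (algebraMap k A)).toAlgebra
  have : IsScalarTower k A E.Ring := IsScalarTower.of_algebraMap_eq fun r => rfl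
  let ψ : E.Ring →ₐ[k] Ω := φ.restrictScalars k
  have hrange : ψ.range = B := by
    apply le_antisymm
    · rintro _ ⟨z, rfl⟩
      obtain ⟨q, n, hq⟩ := hsurj z
      have h1 : φ z * (η * P.derivative.eval η) ^ n = aeval η q := by
        rw [← hφ, ← hq, map_mul, map_pow, hφ, hg]
      have h2 : φ z = aeval η q * ((η * P.derivative.eval η)⁻¹) ^ n := by
        rw [← h1, inv_pow, mul_inv_cancel_right₀ (pow_ne_zero _ hne)]
      change φ z ∈ B
      rw [h2]
      exact mul_mem (haB q) (pow_mem hiB _)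
    · refine Algebra.adjoin_le ?_
      rintro y (hy | hy | hy)
      · exact ⟨algebraMap A _ ⟨y, Algebra.subset_adjoin hy⟩, φ.commutes _⟩
      · exact ⟨E.X, (E.lift_X η hmap).trans hy.symm⟩
      · obtain ⟨u, hu⟩ := E.hasMap_X.2.exists_right_inv
        refine ⟨u, ?_⟩
        have h1 : η * P.derivative.eval η * φ u = 1 := by
          rw [← hg, ← hφ, ← map_mul, hu, map_one]
        rw [Set.mem_singleton_iff] at hy
        rw [hy]
        exact (eq_inv_of_mul_eq_one_right h1)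
  have : Algebra.Smooth k E.Ring := Algebra.Smooth.comp k A _
  exact Algebra.Smooth.of_equiv
    ((AlgEquiv.ofInjective ψ hφinj).trans (Subalgebra.equivOfEq _ _ hrange))

end Smooth

variable {k Ω : Type*} [Field k] [NontriviallyNormedField Ω] [Algebra k Ω]

theorem smooth_model : SmoothStmt k Ω := by
  intro ι _ x hx c hc hc0 η P hP hco h0 hη hd hmin
  have h1 := Smooth.smooth_away _ c hc hc0 (Smooth.smooth_poly x hx)
  have h2 := Smooth.smooth_etale _ h1 η P hP hco h0 hη hd (fun Q hQ => hmin Q fun i => ?_)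
  · have : Set.range x ∪ {c⁻¹, η, (η * P.derivative.eval η)⁻¹} =
        Set.range x ∪ {c⁻¹} ∪ {η, (η * P.derivative.eval η)⁻¹} := by
      rw [Set.union_assoc, Set.singleton_union]
    rw [this]
    exact h2
  · have hle : Algebra.adjoin k (Set.range x ∪ {c⁻¹}) ≤
        (IntermediateField.adjoin k (Set.range x)).toSubalgebra := by
      refine Algebra.adjoin_le ?_
      rintro y (hy | hy)
      · exact IntermediateField.subset_adjoin _ _ hy
      · rw [Set.mem_singleton_iff] at hy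
        rw [hy]
        exact IntermediateField.inv_mem _ (IntermediateField.algebra_adjoin_le_adjoin _ _ hc)
    exact hle (hQ i)

end Pool.Agent.MP_19ffc6_ag.LU

end MrgPart1

-- marker of a merged file
example : 731051 + 179957 = 731051 + 179957 := rfl
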