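import Pool.Agent.MP_19ffc6_ag.LU.Perron

-- ======== part 0: formerly Pool.Agent.MP_19ffc6_ag.LU.TermB
section MrgPart0

/-! Terminal case B of PROJECT LU1: the new last coordinate is a root of the system. -/

namespace Pool.Agent.MP_19ffc6_ag.LU

open Polynomial IntermediateField

variable {k Ω : Type*} [Field k] [NontriviallyNormedField Ω] [IsUltrametricDist Ω] [Algebra k Ω]
  [IsAlgClosed k] [IsAlgClosed Ω] [Ctx k Ω] {p : ℕ} [Fact p.Prime] [CharP k p] [CharP Ω p]

set_option linter.unusedSectionVars false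

namespace TermB

lemma mon_ne (s : Stage Ω) {α : ℝ} (h : α ∈ s.Λ) : s.mon α ≠ 0 := by
  intro h0
  have := s.norm_mon α h
  rw [h0, norm_zero] at this
  exact (Real.exp_pos _).ne this

lemma mon_zero (s : Stage Ω) : s.mon 0 = 1 := by
  have h := s.mon_add 0 s.Λ.zero_mem 0 s.Λ.zero_mem
  rw [add_zero] at h
  exact (mul_eq_left₀ (mon_ne s s.Λ.zero_mem)).1 h.symm

lemma mon_sub (s : Stage Ω) {α β : ℝ} (h : α ∈ s.Λ) (h' : β ∈ s.Λ) :
    s.mon (α - β) = s.mon α / s.mon β := by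
  rw [eq_div_iff (mon_ne s h'), ← s.mon_add _ (s.Λ.sub_mem h h') _ h', sub_add_cancel]

lemma mon_nat (s : Stage Ω) {α : ℝ} (h : α ∈ s.Λ) (n : ℕ) :
    s.mon (n * α) = s.mon α ^ n := by
  induction n with
  | zero => simp [mon_zero]
  | succ n ih =>
    have hn : (n : ℝ) * α ∈ s.Λ := by simpa using s.Λ.nsmul_mem h n
    rw [Nat.cast_succ, add_mul, one_mul, s.mon_add _ hn _ h, ih, pow_succ]

lemma mon_mem (s : Stage Ω) {α : ℝ} (h : α ∈ s.Λ) : s.mon α ∈ s.M k :=
  subset_adjoin _ _ (Or.inl ⟨α, h, rfl⟩)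

lemma y_mem (s : Stage Ω) : s.y ∈ s.M k := subset_adjoin _ _ (Or.inr rfl)

lemma M_fg (s : Stage Ω) : (s.M k).FG := by
  obtain ⟨S, hS⟩ := s.fg
  refine fg_def.2 ⟨s.mon '' S ∪ {s.y}, (S.finite_toSet.image _).union (Set.finite_singleton _),
    le_antisymm (adjoin.mono _ _ _ (Set.union_subset_union_left _ (Set.image_mono fun x hx =>
      hS ▸ AddSubgroup.subset_closure hx))) (adjoin_le_iff.2 ?_)⟩
  rintro _ (⟨α, hα, rfl⟩ | rfl)
  · have hα' : α ∈ AddSubgroup.closure (S : Set ℝ) := hS ▸ hα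
    clear hα
    induction hα' using AddSubgroup.closure_induction with
    | mem x hx => exact subset_adjoin _ _ (Or.inl ⟨x, hx, rfl⟩)
    | zero => rw [mon_zero]; exact one_mem _
    | add x y hx hy ihx ihy =>
      rw [s.mon_add x (hS ▸ hx) y (hS ▸ hy)]; exact mul_mem ihx ihy
    | neg x hx ih =>
      rw [← zero_sub, mon_sub s s.Λ.zero_mem (hS ▸ hx), mon_zero]
      exact div_mem (one_mem _) ih
  · exact subset_adjoin _ _ (Or.inr rfl)

lemma le_hens (M : IntermediateField k Ω) : M ≤ hens M := fun a ha =>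
  ⟨(separableClosure M Ω).algebraMap_mem ⟨a, ha⟩, subset_closure ha⟩

lemma hens_mono {K K' : IntermediateField k Ω} (h : K ≤ K') (hK : IsHens K) : IsHens K' :=
  fun σ a => hK { σ with commutes' := fun x => σ.commutes ⟨x, h x.2⟩ } a

lemma alg_mono {K K' : IntermediateField k Ω} (h : K ≤ K') (hK : Algebra.IsAlgebraic K Ω) :
    Algebra.IsAlgebraic K' Ω := by
  let : Algebra K K' := (inclusion h).toAlgebra
  have : IsScalarTower K K' Ω := IsScalarTower.of_algebraMap_eq fun _ => rfl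
  exact Algebra.IsAlgebraic.tower_top (K := K) K'

lemma sep_trans {M K : IntermediateField k Ω} (h : M ≤ K) (hs : SepOver M K) {a : Ω}
    (ha : IsSeparable K a) : IsSeparable M a := by
  let : Algebra M K := (inclusion h).toAlgebra
  have : IsScalarTower M K Ω := IsScalarTower.of_algebraMap_eq fun _ => rfl
  have : Algebra.IsSeparable M K := ⟨fun x =>
    (isSeparable_map_iff (IsScalarTower.toAlgHom M K Ω) Subtype.val_injective).1 (hs x x.2)⟩
  exact IsSeparable.of_algebra_isSeparable_of_isSeparable M (E := K) ha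

lemma sep_top {M K : IntermediateField k Ω} (h : M ≤ K) {a : Ω}
    (ha : IsSeparable M a) : IsSeparable K a := by
  let : Algebra M K := (inclusion h).toAlgebra
  have : IsScalarTower M K Ω := IsScalarTower.of_algebraMap_eq fun _ => rfl
  exact IsSeparable.tower_top K ha

lemma alg_of_sep {M K : IntermediateField k Ω} (h : M ≤ K) (hs : SepOver M K)
    (hK : Algebra.IsAlgebraic K Ω) : Algebra.IsAlgebraic M Ω := by
  let : Algebra M K := (inclusion h).toAlgebra
  have : IsScalarTower M K Ω := IsScalarTower.of_algebraMap_eq fun _ => rfl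
  have : Algebra.IsAlgebraic M K := ⟨fun x =>
    (isAlgebraic_algebraMap_iff (R := M) (S := K) (A := Ω)
      Subtype.val_injective).1 (hs x x.2).isIntegral.isAlgebraic⟩
  exact Algebra.IsAlgebraic.trans M K Ω

lemma norm_alg_le (c : k) : ‖algebraMap k Ω c‖ ≤ 1 := by
  rcases eq_or_ne c 0 with rfl | h
  · simp
  · exact (Ctx.norm_alg c h).le

lemma norm_sum_lt {α : Type*} (S : Finset α) (f : α → Ω) (h : ∀ x ∈ S, ‖f x‖ < 1) :
    ‖∑ x ∈ S, f x‖ < 1 := by
  classical
  induction S using Finset.induction_on with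
  | empty => simp
  | insert a S ha ih =>
    rw [Finset.sum_insert ha]
    exact (IsUltrametricDist.norm_add_le_max _ _).trans_lt
      (max_lt (h a (by simp)) (ih fun x hx => h x (by simp [hx])))

section small

variable {L : IntermediateField k Ω} {G : Set Ω}

lemma O_mem {a : Ω} (h : a ∈ L) (h1 : ‖a‖ ≤ 1) : a ∈ Aring L G :=
  Algebra.subset_adjoin (Or.inl ⟨h, h1⟩)

lemma small_of {a : Ω} (h : a ∈ L) (h1 : ‖a‖ < 1) : Small L (Aring L G) a :=
  ⟨a, h, h1, 1, one_mem _, (mul_one a).symm⟩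

lemma small_zero : Small L (Aring L G) 0 := small_of (zero_mem _) (by simp)

lemma small_mem {a : Ω} (h : Small L (Aring L G) a) : a ∈ Aring L G := by
  obtain ⟨m, hm, h1, b, hb, rfl⟩ := h
  exact mul_mem (O_mem hm h1.le) hb

lemma small_mul {a b : Ω} (h : Small L (Aring L G) a) (hb : b ∈ Aring L G) :
    Small L (Aring L G) (a * b) := by
  obtain ⟨m, hm, h1, c, hc, rfl⟩ := h
  exact ⟨m, hm, h1, c * b, mul_mem hc hb, mul_assoc _ _ _⟩

lemma small_add {a b : Ω} (h : Small L (Aring L G) a) (h' : Small L (Aring L G) b) :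
    Small L (Aring L G) (a + b) := by
  obtain ⟨m, hm, h1, c, hc, rfl⟩ := h
  obtain ⟨m', hm', h1', c', hc', rfl⟩ := h'
  wlog hle : ‖m'‖ ≤ ‖m‖ generalizing m m' c c'
  · rw [add_comm]
    exact this m' hm' h1' c' hc' m hm h1 c hc (not_le.1 hle).le
  rcases eq_or_ne m 0 with rfl | h0
  · have : m' = 0 := by simpa using hle
    simpa [this] using small_zero
  refine ⟨m, hm, h1, c + m' / m * c', add_mem hc (mul_mem (O_mem (div_mem hm' hm) ?_) hc'), ?_⟩
  · rw [norm_div]; exact div_le_one_of_le₀ hle (norm_nonneg _)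
  · field_simp

lemma small_neg {a : Ω} (h : Small L (Aring L G) a) : Small L (Aring L G) (-a) := by
  simpa using small_mul h (neg_mem (one_mem (Aring L G)))

lemma small_sub {a b : Ω} (h : Small L (Aring L G) a) (h' : Small L (Aring L G) b) :
    Small L (Aring L G) (a - b) := by
  rw [sub_eq_add_neg]; exact small_add h (small_neg h')

lemma small_sum {α : Type*} (S : Finset α) (f : α → Ω)
    (h : ∀ x ∈ S, Small L (Aring L G) (f x)) : Small L (Aring L G) (∑ x ∈ S, f x) := by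
  classical
  induction S using Finset.induction_on with
  | empty => simpa using small_zero
  | insert a S ha ih =>
    rw [Finset.sum_insert ha]
    exact small_add (h a (by simp)) (ih fun x hx => h x (by simp [hx]))

end small

section der

variable {K : IntermediateField k Ω} {D : Ω → Ω}

lemma der_zero (h : IsDer K D) : D 0 = 0 := by simpa using h.const 0

lemma der_one (h : IsDer K D) : D 1 = 0 := by simpa using h.const 1

lemma der_pow (h : IsDer K D) {a : Ω} (ha : a ∈ K) (n : ℕ) :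
    D (a ^ n) = n * a ^ (n - 1) * D a := by
  induction n with
  | zero => simpa using der_one h
  | succ n ih =>
    rw [pow_succ, h.mul _ (pow_mem ha n) _ ha, ih]
    rcases n with _ | n
    · simp
    · simp only [Nat.add_sub_cancel, pow_succ]; push_cast; ring

lemma der_sum (h : IsDer K D) {α : Type*} (S : Finset α) (f : α → Ω) (hf : ∀ x ∈ S, f x ∈ K) :
    D (∑ x ∈ S, f x) = ∑ x ∈ S, D (f x) := by
  classical
  induction S using Finset.induction_on with
  | empty => simpa using der_zero h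
  | insert a S ha ih =>
    rw [Finset.sum_insert ha, Finset.sum_insert ha,
      h.add _ (hf a (by simp)) _ (sum_mem fun x hx => hf x (by simp [hx])),
      ih fun x hx => hf x (by simp [hx])]

end der

lemma ev_eq (s : Stage Ω) (Φ : Pol k) :
    s.ev k Φ = ∑ x ∈ Φ.support, algebraMap k Ω (Φ x) * (s.mon x.1 * s.y ^ x.2) := by
  simp [Stage.ev, Finsupp.linearCombination_apply, Finsupp.sum, Algebra.smul_def]

lemma ev_mem (s : Stage Ω) {Φ : Pol k} (h : s.Supp Φ) : s.ev k Φ ∈ s.M k := by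
  rw [ev_eq]
  exact sum_mem fun x hx => mul_mem (_root_.algebraMap_mem _ _)
    (mul_mem (mon_mem s (h x hx)) (pow_mem (y_mem s) _))

lemma ev_div (s : Stage Ω) {Φ : Pol k} (h : s.Supp Φ) {B : ℝ} (hB : B ∈ s.Λ) :
    s.ev k Φ / s.mon B =
      ∑ x ∈ Φ.support, algebraMap k Ω (Φ x) * (s.mon (x.1 - B) * s.y ^ x.2) := by
  rw [ev_eq, Finset.sum_div]
  refine Finset.sum_congr rfl fun x hx => ?_
  rw [mon_sub s (h x hx) hB]; ring

lemma der_ev (s : Stage Ω) {Φ : Pol k} (h : s.Supp Φ) : ∃ κ : Ω,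
    ∀ (K : IntermediateField k Ω) (D : Ω → Ω), s.M k ≤ K → IsDer K D →
      (∀ α ∈ s.Λ, D (s.mon α) = 0) → D (s.ev k Φ) = κ * D s.y := by
  refine ⟨∑ x ∈ Φ.support, algebraMap k Ω (Φ x) * (s.mon x.1 * (x.2 * s.y ^ (x.2 - 1))),
    fun K D hK hD h0 => ?_⟩
  have hy := hK (y_mem s)
  rw [ev_eq, der_sum hD _ _ fun x hx => mul_mem (_root_.algebraMap_mem _ _)
    (mul_mem (hK (mon_mem s (h x hx))) (pow_mem hy _)), Finset.sum_mul]
  refine Finset.sum_congr rfl fun x hx => ?_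
  have hm := hK (mon_mem s (h x hx))
  rw [hD.mul _ (_root_.algebraMap_mem _ _) _ (mul_mem hm (pow_mem hy _)), hD.const,
    hD.mul _ hm _ (pow_mem hy _), h0 _ (h x hx), der_pow hD hy]
  ring

end TermB

open TermB in
theorem termB (hb : HB k Ω p) (hh : HensStmt k Ω) (hd : DStmt k Ω) (hs : SepStmt k Ω) :
    TermBStmt k Ω p := by
  classical
  intro E Ep s ι _ T hE hEh hEp had hM hsep hy0 hμ hμp ⟨β, hβ, hB⟩
  have hp : (1 : ℝ) < p := by exact_mod_cast (Fact.out : p.Prime).one_lt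
  have hp0 : p ≠ 0 := (Fact.out : p.Prime).ne_zero
  have hBn := T.B_neg
  have hβn : β < 0 := by rw [hB] at hBn; nlinarith
  have hBΛ : T.B ∈ s.Λ := T.supp T.i0 _ T.lead.2.1
  have hmB : s.mon T.B = s.mon β ^ p := by rw [hB, mon_nat s hβ]
  have hβ0 := mon_ne s hβ
  have hzn : ∀ i, ‖T.z i / s.mon β‖ ≤ 1 := fun i => by
    rw [norm_div, s.norm_mon β hβ, div_le_one (Real.exp_pos _)]
    have := T.z_norm i
    rwa [hB, mul_div_cancel_left₀ _ (by positivity)] at this
  have hδ : 0 < β - T.B := by rw [hB]; nlinarith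
  have hδΛ : β - T.B ∈ s.Λ := s.Λ.sub_mem hβ hBΛ
  have hlt : ∀ α ∈ s.Λ, 0 < α → ‖s.mon α‖ < 1 := fun α h h' => by
    rw [s.norm_mon α h]; exact Real.exp_lt_one_iff.2 (by linarith)
  have hle : ∀ α ∈ s.Λ, 0 ≤ α → ‖s.mon α‖ ≤ 1 := fun α h h' => by
    rw [s.norm_mon α h]; exact Real.exp_le_one_iff.2 (by linarith)
  have heq : ∀ i, (T.z i / s.mon β) ^ p = T.z (T.nx i) / s.mon β * s.mon (β - T.B) +
      ∑ x ∈ (T.Φ i).support,
        algebraMap k Ω (T.Φ i x) * (s.mon (x.1 - T.B) * s.y ^ x.2) := fun i => by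
    rw [← ev_div s (T.supp i) hBΛ, div_pow, ← hmB, T.eqn, mon_sub s hβ hBΛ]
    field_simp
  have hyn : ∀ j, ‖s.y ^ j‖ ≤ 1 := fun j => by
    rw [norm_pow]; exact pow_le_one₀ (norm_nonneg _) s.norm_y.le
  have hyl : ∀ j, 0 < j → ‖s.y ^ j‖ < 1 := fun j hj => by
    rw [norm_pow]; exact pow_lt_one₀ (norm_nonneg _) s.norm_y hj.ne'
  have hord : ∀ x ∈ (T.Φ T.i0).support, x.1 = T.B → T.μ ≤ x.2 := fun x hx h =>
    not_lt.1 fun h' => T.lead.2.2 _ h' (by rwa [← h])
  have hyt : ‖T.z T.i0 / s.mon β‖ < 1 := by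
    rw [← pow_lt_one_iff_of_nonneg (norm_nonneg _) hp0, ← norm_pow, heq]
    refine (IsUltrametricDist.norm_add_le_max _ _).trans_lt (max_lt ?_ (norm_sum_lt _ _ ?_))
    · rw [norm_mul]
      exact mul_lt_one_of_nonneg_of_lt_one_right (hzn _) (norm_nonneg _) (hlt _ hδΛ hδ)
    · intro x hx
      have hx1 := s.Λ.sub_mem (T.supp _ x hx) hBΛ
      rw [norm_mul, norm_mul]
      refine mul_lt_one_of_nonneg_of_lt_one_right (norm_alg_le _) (by positivity) ?_
      rcases (T.lead.1 x hx).eq_or_lt with h | h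
      · exact mul_lt_one_of_nonneg_of_lt_one_right (hle _ hx1 (by linarith)) (norm_nonneg _)
          (hyl _ (hμ.trans_le (hord x hx h.symm)))
      · exact mul_lt_one_of_nonneg_of_lt_one_left (norm_nonneg _) (hlt _ hx1 (by linarith))
          (hyn _)
  obtain ⟨i1, hi1⟩ := T.nx_surj T.i0
  obtain ⟨κ, hκ⟩ := der_ev s (T.supp i1)
  obtain ⟨t, htE, htκ, ht⟩ : ∃ t ∈ E, t ≠ κ / s.mon β ∧
      (t = 0 ∨ ∃ α ∈ s.Λ, 0 < α ∧ t = s.mon α) := by
    rcases eq_or_ne (κ / s.mon β) 0 with h | h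
    · obtain ⟨-, n, hn, hnE⟩ := had.1 _ hδΛ
      have hn0 : 0 < n := Nat.pos_of_ne_zero fun h0 => hn (h0 ▸ dvd_zero p)
      refine ⟨_, hnE, h ▸ pow_ne_zero _ (mon_ne s hδΛ), Or.inr ⟨n * (β - T.B), ?_,
        by positivity, (mon_nat s hδΛ n).symm⟩⟩
      simpa only [nsmul_eq_mul] using s.Λ.nsmul_mem hδΛ n
    · exact ⟨0, zero_mem _, h.symm, Or.inl rfl⟩
  have htn : ‖t‖ < 1 := by
    rcases ht with rfl | ⟨α, h1, h2, rfl⟩
    · simp
    · exact hlt α h1 h2
  have hy' : ‖T.z T.i0 / s.mon β + t * s.y‖ < 1 := by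
    refine (IsUltrametricDist.norm_add_le_max _ _).trans_lt (max_lt hyt ?_)
    rw [norm_mul]
    exact mul_lt_one_of_nonneg_of_lt_one_left (norm_nonneg _) htn s.norm_y.le
  set s' := s.withY _ hy' with hs'
  have hy'E : s'.y ∈ E := add_mem (T.line β hβ hB) (mul_mem htE had.2)
  have hmon' : ∀ α ∈ s.Λ, s.mon α ∈ s'.M k := fun α h => mon_mem s' h
  have ht' : t ∈ s'.M k ∧ t ∈ s.M k := by
    rcases ht with rfl | ⟨α, h1, h2, rfl⟩
    · exact ⟨zero_mem _, zero_mem _⟩
    · exact ⟨hmon' α h1, mon_mem s h1⟩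
  have hM' : s'.M k ≤ Ep := adjoin_le_iff.2 (by
    rintro _ (⟨α, hα, rfl⟩ | rfl)
    · exact hM (mon_mem s hα)
    · exact hEp hy'E)
  have hsep' : SepOver (s'.M k) Ep := by
    set K := s.M k ⊔ adjoin k (Set.range T.z) with hK
    have hzK : ∀ i, T.z i ∈ K := fun i => le_sup_right (α := IntermediateField k Ω)
      (subset_adjoin _ _ ⟨i, rfl⟩)
    have hMK : s.M k ≤ K := le_sup_left
    have hKE : K ≤ Ep := sup_le hM (adjoin_le_iff.2 (by rintro _ ⟨i, rfl⟩; exact T.z_mem i))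
    have hq : T.z T.i0 / s.mon β ∈ K := div_mem (hzK _) (hMK (mon_mem s hβ))
    have hg' : s'.gens ⊆ K := by
      rintro _ (⟨α, hα, rfl⟩ | rfl)
      · exact hMK (mon_mem s hα)
      · exact add_mem hq (mul_mem (hMK ht'.2) (hMK (y_mem s)))
    have h1 : SepOver (s'.M k) K := by
      refine hs K (fg_sup (M_fg s) (fg_adjoin_of_finite (Set.finite_range _))) s.gens s'.gens
        ((subset_adjoin _ _).trans hMK) hg' (fun a ha => hsep a (hKE ha)) fun D hD h0 => ?_
      have hm0 : ∀ α ∈ s.Λ, D (s.mon α) = 0 := fun α h => h0 _ (Or.inl ⟨α, h, rfl⟩)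
      have ht0 : D t = 0 := by
        rcases ht with rfl | ⟨α, h1, h2, rfl⟩
        · exact der_zero hD
        · exact hm0 α h1
      have e1 : D (T.z T.i0) + κ * D s.y = 0 := by
        rw [← hκ K D hMK hD hm0, ← hD.add _ (hzK _) _ (hMK (ev_mem s (T.supp i1))), ← hi1,
          ← T.eqn, der_pow hD (hzK _), CharP.cast_eq_zero, zero_mul, zero_mul]
      have e2 : D (T.z T.i0) = s.mon β * D (T.z T.i0 / s.mon β) := by
        have := hD.mul _ (hMK (mon_mem s hβ)) _ hq
        rwa [mul_div_cancel₀ _ hβ0, hm0 β hβ, mul_zero, add_zero] at this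
      have e3 : D (T.z T.i0 / s.mon β) + t * D s.y = 0 := by
        have := h0 s'.y (Or.inr rfl)
        change D (T.z T.i0 / s.mon β + t * s.y) = 0 at this
        rwa [hD.add _ hq _ (mul_mem (hMK ht'.2) (hMK (y_mem s))),
          hD.mul _ (hMK ht'.2) _ (hMK (y_mem s)), ht0, mul_zero, add_zero] at this
      have e4 : D s.y = 0 := by
        by_contra h
        refine htκ ((eq_div_iff hβ0).2 (mul_right_cancel₀ h ?_))
        linear_combination s.mon β * e3 - e1 + e2
      rintro _ (⟨α, hα, rfl⟩ | rfl)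
      · exact hm0 α hα
      · exact e4
    exact fun a ha => sep_trans (adjoin_le_iff.2 hg') h1 (sep_top hMK (hsep a ha))
  have hEpa := alg_mono hEp hE
  have hM'a := alg_of_sep hM' hsep' hEpa
  set L := hens (s'.M k) with hL
  have hML : s'.M k ≤ L := le_hens _
  have hLE : L ≤ Ep := hb.hens_le Ep hEpa (hens_mono hEp hEh) _ hM'
  let g : ι → Ω := fun i => if i = T.i0 then s.y else T.z i / s.mon β
  let n : ι → ℕ := fun i => if i = T.i0 then T.μ else p
  have hg0 : g T.i0 = s.y := if_pos rfl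
  have hg1 : ∀ i, i ≠ T.i0 → g i = T.z i / s.mon β := fun i h => if_neg h
  have hgn : ∀ i, ‖g i‖ ≤ 1 := fun i => by
    by_cases h : i = T.i0
    · rw [h, hg0]; exact s.norm_y.le
    · rw [hg1 i h]; exact hzn i
  have hyt' : T.z T.i0 / s.mon β = s'.y - t * s.y := (add_sub_cancel_right _ _).symm
  refine ⟨s', ⟨had.1, hy'E⟩, hM', hsep', fun h => absurd h hy0,
    L ⊔ adjoin k (Set.range g), le_sup_left, sup_le hLE (adjoin_le_iff.2 ?_), ?_, ?_, ?_⟩
  · rintro _ ⟨i, rfl⟩
    by_cases h : i = T.i0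
    · rw [h, hg0]; exact hM (y_mem s)
    · rw [hg1 i h]; exact div_mem (T.z_mem i) (hM (mon_mem s hβ))
  · refine adjoin_le_iff.2 ?_
    rintro _ (⟨α, hα, rfl⟩ | rfl)
    · exact le_sup_left (α := IntermediateField k Ω) (hML (hmon' α hα))
    · exact le_sup_right (α := IntermediateField k Ω) (subset_adjoin _ _ ⟨_, hg0⟩)
  · intro i
    have hl : ∀ a ∈ s'.M k, a ∈ L ⊔ adjoin k (Set.range g) := fun a h =>
      le_sup_left (α := IntermediateField k Ω) (hML h)
    have hr : ∀ i, g i ∈ L ⊔ adjoin k (Set.range g) := fun i =>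
      le_sup_right (α := IntermediateField k Ω) (subset_adjoin _ _ ⟨i, rfl⟩)
    rw [← div_mul_cancel₀ (T.z i) hβ0]
    refine mul_mem ?_ (hl _ (hmon' β hβ))
    by_cases h : i = T.i0
    · rw [h, hyt']
      exact sub_mem (hl _ (y_mem s')) (mul_mem (hl _ ht'.1) (hg0 ▸ hr _))
    · exact hg1 i h ▸ hr i
  have hLa := alg_mono hML hM'a
  have hLh := hh _ hM'a
  have hgA : ∀ i, g i ∈ Aring L (Set.range g) := fun i =>
    Algebra.subset_adjoin (Or.inr ⟨i, rfl⟩)
  have hyA : s.y ∈ Aring L (Set.range g) := hg0 ▸ hgA _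
  have hsm : Small L (Aring L (Set.range g)) (T.z T.i0 / s.mon β) := by
    rw [hyt']
    exact small_sub (small_of (hML (y_mem s')) hy') (small_mul (small_of (hML ht'.1) htn) hyA)
  have hzA : ∀ i, T.z i / s.mon β ∈ Aring L (Set.range g) := fun i => by
    by_cases h : i = T.i0
    · rw [h]; exact small_mem hsm
    · exact hg1 i h ▸ hgA i
  have hs1 : ∀ i, Small L (Aring L (Set.range g)) (T.z i / s.mon β * s.mon (β - T.B)) :=
    fun i => mul_comm (s.mon (β - T.B)) _ ▸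
      small_mul (small_of (hML (hmon' _ hδΛ)) (hlt _ hδΛ hδ)) (hzA i)
  have hs2 : ∀ (c : k) (x : ℝ × ℕ), x.1 ∈ s.Λ → T.B < x.1 → Small L (Aring L (Set.range g))
      (algebraMap k Ω c * (s.mon (x.1 - T.B) * s.y ^ x.2)) := fun c x h1 h2 => by
    have h3 := s.Λ.sub_mem h1 hBΛ
    rw [mul_comm]
    exact small_mul (small_mul (small_of (hML (hmon' _ h3)) (hlt _ h3 (by linarith)))
      (pow_mem hyA _)) (Subalgebra.algebraMap_mem _ c)
  refine (hd.deg L hLa hLh ι g n hgn (fun i => ?_) fun i => ⟨0, zero_mem _, by simp, ?_⟩).trans_lt ?_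
  · simp only [n]; split_ifs
    exacts [hμ, Nat.pos_of_ne_zero hp0]
  · rw [sub_zero]
    by_cases h : i = T.i0
    · subst h
      rw [hg0, show n T.i0 = T.μ from if_pos rfl]
      set S := (T.Φ T.i0).support.filter fun x => x.1 = T.B with hS
      set Q := ∑ x ∈ S, algebraMap k Ω (T.Φ T.i0 x) * s.y ^ (x.2 - T.μ) with hQ
      have hQA : Q ∈ Aring L (Set.range g) := sum_mem fun x _ =>
        mul_mem (Subalgebra.algebraMap_mem _ _) (pow_mem hyA _)
      have hQn : ‖Q‖ = 1 := by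
        have hx0 : (T.B, T.μ) ∈ S := Finset.mem_filter.2 ⟨T.lead.2.1, rfl⟩
        have hc : ‖algebraMap k Ω (T.Φ T.i0 (T.B, T.μ))‖ = 1 :=
          Ctx.norm_alg _ (Finsupp.mem_support_iff.1 T.lead.2.1)
        have hr : ‖∑ x ∈ S.erase (T.B, T.μ),
            algebraMap k Ω (T.Φ T.i0 x) * s.y ^ (x.2 - T.μ)‖ < 1 := norm_sum_lt _ _ fun x hx => by
          obtain ⟨h1, h2⟩ := Finset.mem_erase.1 hx
          obtain ⟨h2, h3⟩ := Finset.mem_filter.1 h2
          have h4 : T.μ < x.2 := (hord x h2 h3).lt_of_ne fun e => h1 (Prod.ext h3 e.symm)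
          rw [norm_mul]
          exact mul_lt_one_of_nonneg_of_lt_one_right (norm_alg_le _) (norm_nonneg _)
            (hyl _ (Nat.sub_pos_of_lt h4))
        rw [hQ, ← Finset.add_sum_erase _ _ hx0, Nat.sub_self, pow_zero, mul_one,
          IsUltrametricDist.norm_add_eq_max_of_norm_ne_norm (by rw [hc]; exact hr.ne'), hc,
          max_eq_left hr.le]
      have hQ0 : Q ≠ 0 := by rintro h0; simp [h0] at hQn
      have hQi := hd.inv L hLa hLh _ (by rintro _ ⟨i, rfl⟩; exact hgn i) Q hQA hQn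
      have e := heq T.i0
      rw [← Finset.sum_filter_add_sum_filter_not _ fun x => x.1 = T.B, ← hS] at e
      have e' : ∑ x ∈ S, algebraMap k Ω (T.Φ T.i0 x) * (s.mon (x.1 - T.B) * s.y ^ x.2) =
          s.y ^ T.μ * Q := by
        rw [hQ, Finset.mul_sum]
        refine Finset.sum_congr rfl fun x hx => ?_
        obtain ⟨h2, h3⟩ := Finset.mem_filter.1 hx
        rw [h3, sub_self, mon_zero, ← pow_mul_pow_sub s.y (hord x h2 h3)]; ring
      rw [e'] at e
      have h3 := small_sum ((T.Φ T.i0).support.filter fun x => ¬ x.1 = T.B) _ fun x hx =>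
        hs2 (T.Φ T.i0 x) x (T.supp _ x (Finset.mem_filter.1 hx).1)
          ((T.lead.1 x (Finset.mem_filter.1 hx).1).lt_of_ne' (Finset.mem_filter.1 hx).2)
      have h4 : Small L (Aring L (Set.range g)) ((T.z T.i0 / s.mon β) ^ p) := by
        rw [← pow_sub_one_mul hp0, mul_comm]
        exact small_mul hsm (pow_mem (hzA _) _)
      have h5 := small_mul (small_sub (small_sub h4 (hs1 (T.nx T.i0))) h3) hQi
      convert h5 using 1
      rw [e]; field_simp; ring
    · rw [hg1 i h, show n i = p from if_neg h, heq]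
      exact small_add (hs1 _) (small_sum _ _ fun x hx =>
        hs2 _ x (T.supp _ x hx) (T.other i h x hx))
  · have : ∏ i, n i < p ^ Fintype.card ι := by
      rw [← Finset.card_univ, ← Finset.prod_const]
      refine Finset.prod_lt_prod (fun i _ => ?_) (fun i _ => ?_) ⟨T.i0, Finset.mem_univ _, ?_⟩
      · simp only [n]; split_ifs
        exacts [hμ, Nat.pos_of_ne_zero hp0]
      · simp only [n]; split_ifs
        exacts [hμp.le, le_rfl]
      · simpa [n] using hμp
    exact_mod_cast this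

end Pool.Agent.MP_19ffc6_ag.LU

end MrgPart0

-- ======== part 1: formerly Pool.Agent.MP_19ffc6_ag.LU.WildA
section MrgPart1

/-! Auxiliary lemmas for the module WI of PROJECT LU1. -/

namespace Pool.Agent.MP_19ffc6_ag.LU

namespace Wild

open Polynomial IntermediateField

variable {k Ω : Type*} [Field k] [NontriviallyNormedField Ω] [Algebra k Ω]

section Fields

lemma le_hens (M : IntermediateField k Ω) : M ≤ hens M := by
  intro x hx
  refine ⟨?_, subset_closure hx⟩
  exact isSeparable_algebraMap (⟨x, hx⟩ : M)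

lemma mem_closure_of_hens {M : IntermediateField k Ω} {x : Ω} (hx : x ∈ hens M) :
    x ∈ closure (M : Set Ω) := hx.2

lemma sep_mono {M K : IntermediateField k Ω} (h : M ≤ K) {x : Ω} (hx : IsSeparable M x) :
    IsSeparable K x := by
  let : Algebra M K := (IntermediateField.inclusion h).toAlgebra
  have : IsScalarTower M K Ω := IsScalarTower.of_algebraMap_eq fun _ => rfl
  exact IsSeparable.tower_top K hx

lemma alg_mono {M K : IntermediateField k Ω} (h : M ≤ K) (hM : Algebra.IsAlgebraic M Ω) :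
    Algebra.IsAlgebraic K Ω := by
  let : Algebra M K := (IntermediateField.inclusion h).toAlgebra
  have : IsScalarTower M K Ω := IsScalarTower.of_algebraMap_eq fun _ => rfl
  exact Algebra.IsAlgebraic.tower_top (K := M) K

lemma alg_of_sep {M K : IntermediateField k Ω} (h : M ≤ K) (hs : SepOver M K)
    (hK : Algebra.IsAlgebraic K Ω) : Algebra.IsAlgebraic M Ω := by
  let : Algebra M K := (IntermediateField.inclusion h).toAlgebra
  have : IsScalarTower M K Ω := IsScalarTower.of_algebraMap_eq fun _ => rfl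
  have : Algebra.IsAlgebraic M K := ⟨fun x => by
    have h1 : IsIntegral M (algebraMap K Ω x) := (hs x.1 x.2).isIntegral
    exact ((isIntegral_algebraMap_iff (algebraMap K Ω).injective).1 h1).isAlgebraic⟩
  exact Algebra.IsAlgebraic.trans M K Ω

lemma mem_of_pow_mem {p : ℕ} [Fact p.Prime] [CharP Ω p] (hb : HB k Ω p)
    {K : IntermediateField k Ω} (hK : Algebra.IsAlgebraic K Ω) {x : Ω} (hx : IsSeparable K x)
    (hp : x ^ p ∈ K) : x ∈ K := by
  refine hb.fix K hK x hx fun σ => ?_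
  have h1 : σ (x ^ p) = x ^ p := σ.commutes (⟨x ^ p, hp⟩ : K)
  rw [map_pow] at h1
  exact frobenius_inj Ω p h1

lemma mem_of_pow_eq {p : ℕ} [Fact p.Prime] [IsAlgClosed k] (K : IntermediateField k Ω) {b : Ω}
    (h : b ^ p = b) : b ∈ K := by
  have hp : 1 < p := (Fact.out : p.Prime).one_lt
  have hint : IsIntegral k b := by
    refine ⟨X ^ p - X, ?_, by simp [h]⟩
    refine (monic_X_pow p).sub_of_left ?_
    rw [degree_X_pow, degree_X]
    exact_mod_cast hp
  obtain ⟨c, rfl⟩ := minpoly.mem_range_of_degree_eq_one k b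
    (IsAlgClosed.degree_eq_one_of_irreducible k (minpoly.irreducible hint))
  exact K.algebraMap_mem c

end Fields

section Stages

lemma mon_ne (s : Stage Ω) {α : ℝ} (h : α ∈ s.Λ) : s.mon α ≠ 0 := by
  intro h0
  have := s.norm_mon α h
  rw [h0, norm_zero] at this
  exact (Real.exp_pos _).ne this

lemma nu_mon (s : Stage Ω) {α : ℝ} (h : α ∈ s.Λ) : nu (s.mon α) = α := by
  rw [nu, s.norm_mon α h, Real.log_exp, neg_neg]

lemma mon_zero (s : Stage Ω) : s.mon 0 = 1 := by
  have h := s.mon_add 0 s.Λ.zero_mem 0 s.Λ.zero_mem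
  rw [add_zero] at h
  exact (mul_eq_left₀ (mon_ne s s.Λ.zero_mem)).1 h.symm

lemma mon_nat_mul (s : Stage Ω) {α : ℝ} (h : α ∈ s.Λ) (n : ℕ) :
    s.mon ((n : ℝ) * α) = s.mon α ^ n := by
  induction n with
  | zero => simp [mon_zero]
  | succ n ih =>
    have hn : (n : ℝ) * α ∈ s.Λ := by
      have := s.Λ.nsmul_mem h n
      rwa [nsmul_eq_mul] at this
    rw [Nat.cast_succ, add_mul, one_mul, s.mon_add _ hn _ h, ih, pow_succ]

lemma ev_eq (s : Stage Ω) (Φ : Pol k) :
    s.ev k Φ = ∑ x ∈ Φ.support, Φ x • (s.mon x.1 * s.y ^ x.2) := by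
  rw [Stage.ev, Finsupp.linearCombination_apply, Finsupp.sum]

lemma ev_single (s : Stage Ω) (x : ℝ × ℕ) (c : k) :
    s.ev k (Finsupp.single x c) = c • (s.mon x.1 * s.y ^ x.2) := by
  rw [Stage.ev, Finsupp.linearCombination_single]

lemma term_mem_M (s : Stage Ω) {α : ℝ} (h : α ∈ s.Λ) (j : ℕ) (c : k) :
    c • (s.mon α * s.y ^ j) ∈ s.M k := by
  refine (s.M k).toSubalgebra.smul_mem ((s.M k).mul_mem ?_ (pow_mem ?_ j)) c
  · exact subset_adjoin k _ (Or.inl ⟨α, h, rfl⟩)
  · exact subset_adjoin k _ (Or.inr rfl)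

lemma ev_mem_M (s : Stage Ω) {Φ : Pol k} (h : s.Supp Φ) : s.ev k Φ ∈ s.M k := by
  rw [ev_eq]
  exact (s.M k).sum_mem fun x hx => term_mem_M s (h x hx) _ _

lemma norm_smul_le [Ctx k Ω] (c : k) (a : Ω) : ‖c • a‖ ≤ ‖a‖ := by
  rw [Algebra.smul_def, norm_mul]
  by_cases hc : c = 0
  · simp [hc]
  · rw [Ctx.norm_alg c hc, one_mul]

lemma norm_ev_le [IsUltrametricDist Ω] [Ctx k Ω] (s : Stage Ω) {Φ : Pol k} (h : s.Supp Φ) {B : ℝ}
    (hB : ∀ x ∈ Φ.support, B ≤ x.1) : ‖s.ev k Φ‖ ≤ Real.exp (-B) := by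
  rw [ev_eq]
  refine IsUltrametricDist.norm_sum_le_of_forall_le_of_nonneg (Real.exp_pos _).le fun x hx => ?_
  refine (norm_smul_le _ _).trans ?_
  rw [norm_mul, s.norm_mon _ (h x hx), norm_pow]
  have h1 : ‖s.y‖ ^ x.2 ≤ 1 := pow_le_one₀ (norm_nonneg _) s.norm_y.le
  have h2 : Real.exp (-x.1) ≤ Real.exp (-B) := Real.exp_le_exp.2 (neg_le_neg (hB x hx))
  calc Real.exp (-x.1) * ‖s.y‖ ^ x.2 ≤ Real.exp (-x.1) * 1 :=
        mul_le_mul_of_nonneg_left h1 (Real.exp_pos _).le
    _ ≤ Real.exp (-B) := by rw [mul_one]; exact h2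

omit [Algebra k Ω] in
lemma supp_filter {s : Stage Ω} {Φ : Pol k} (h : s.Supp Φ) (P : ℝ × ℕ → Prop) [DecidablePred P] :
    s.Supp (Φ.filter P) := fun x hx => by
  rw [Finsupp.support_filter, Finset.mem_filter] at hx
  exact h x hx.1

end Stages

section Norms

variable [IsUltrametricDist Ω]

lemma norm_add_lt {a b : Ω} {r : ℝ} (ha : ‖a‖ < r) (hb : ‖b‖ < r) : ‖a + b‖ < r :=
  (IsUltrametricDist.norm_add_le_max a b).trans_lt (max_lt ha hb)

lemma norm_add_le' {a b : Ω} {r : ℝ} (ha : ‖a‖ ≤ r) (hb : ‖b‖ ≤ r) : ‖a + b‖ ≤ r :=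
  (IsUltrametricDist.norm_add_le_max a b).trans (max_le ha hb)

lemma norm_root_le {p : ℕ} (hp : 1 < p) {a : Ω} {B : ℝ} (hB : B < 0)
    (h : ‖a ^ p - a‖ ≤ Real.exp (-B)) : ‖a‖ ≤ Real.exp (-(B / p)) := by
  have hp0 : (0 : ℝ) < p := by exact_mod_cast (zero_lt_one.trans hp)
  by_cases h1 : ‖a‖ ≤ 1
  · refine h1.trans (Real.one_le_exp ?_)
    have := div_neg_of_neg_of_pos hB hp0
    linarith
  · push Not at h1
    have h2 : ‖a‖ < ‖a ^ p‖ := by
      rw [norm_pow]
      calc ‖a‖ = ‖a‖ ^ 1 := (pow_one _).symm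
        _ < ‖a‖ ^ p := pow_lt_pow_right₀ h1 hp
    have h3 : ‖a ^ p - a‖ = ‖a‖ ^ p := by
      rw [sub_eq_add_neg, IsUltrametricDist.norm_add_eq_max_of_norm_ne_norm
        (by rw [norm_neg]; exact h2.ne'), norm_neg, max_eq_left h2.le, norm_pow]
    have h4 : Real.exp (-(B / p)) ^ p = Real.exp (-B) := by
      rw [← Real.exp_nat_mul]
      congr 1
      field_simp
    rw [h3, ← h4] at h
    exact (pow_le_pow_iff_left₀ (norm_nonneg _) (Real.exp_pos _).le (by omega)).1 h

end Norms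

section Lines

variable {p : ℕ} {E : IntermediateField k Ω}

lemma cl_add (α β : ℝ) : cl E (α + β) = cl E α + cl E β := rfl

lemma cl_nat_mul (n : ℕ) (α : ℝ) : cl E ((n : ℝ) * α) = n • cl E α := by
  rw [← nsmul_eq_mul]; rfl

lemma cl_shift {y : Ω} (hy : y ∈ E) (α : ℝ) (j : ℕ) : cl E (α + j * nu y) = cl E α := by
  have h : nu y ∈ vg E := by
    by_cases h0 : y = 0
    · have : nu y = 0 := by simp [nu, h0]
      rw [this]; exact (vg E).zero_mem
    · exact ⟨y, hy, h0, rfl⟩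
  have h1 : cl E (nu y) = 0 := (QuotientAddGroup.eq_zero_iff _).2 h
  rw [cl_add, cl_nat_mul, h1, smul_zero, add_zero]

/-- The class of a radical element. -/
def RadCl (p : ℕ) (E : IntermediateField k Ω) (c : ℝ ⧸ vg E) : Prop :=
  ∃ b, Rad p E b ∧ cl E (nu b) = c

lemma radCl_of_ne {c : ℝ ⧸ vg E} {a : Ω} (h : InLine p E c a) (ha : a ≠ 0) : RadCl p E c :=
  ⟨a, h.resolve_left ha⟩

lemma radCl_inj (L : LineProps p E) {c c' : ℝ ⧸ vg E} (h : RadCl p E c) (h' : RadCl p E c')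
    (e : p • c = p • c') : c = c' := by
  obtain ⟨a, ha, rfl⟩ := h
  obtain ⟨b, hb, rfl⟩ := h'
  exact L.inj a b ha hb e

lemma inLine_pow [Fact p.Prime] (L : LineProps p E) {c : ℝ ⧸ vg E} {a : Ω} (h : InLine p E c a)
    (n : ℕ) : InLine p E (n • c) (a ^ n) := by
  induction n with
  | zero =>
    refine Or.inr ⟨⟨by simp, 1, (Fact.out : p.Prime).not_dvd_one, by simp⟩, ?_⟩
    have : nu (a ^ 0) = 0 := by simp [nu]
    rw [this, zero_nsmul]; rfl
  | succ n ih => rw [succ_nsmul, pow_succ]; exact L.mul _ _ _ _ ih h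

lemma dec_sum (L : LineProps p E) {ι : Type*} (T : Finset ι) (c : ι → ℝ ⧸ vg E) (a : ι → Ω)
    (h : ∀ i ∈ T, InLine p E (c i) (a i)) :
    IsDec p E (∑ i ∈ T, a i) (∑ i ∈ T, Finsupp.single (c i) (a i)) := by
  classical
  induction T using Finset.induction_on with
  | empty => exact ⟨fun _ => Or.inl rfl, by simp⟩
  | insert i T hi ih =>
    rw [Finset.sum_insert hi, Finset.sum_insert hi]
    exact L.dec_add _ _ _ _ (L.dec_single _ _ (h i (Finset.mem_insert_self _ _)))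
      (ih fun j hj => h j (Finset.mem_insert_of_mem hj))

lemma dec_filter {a : Ω} {f : (ℝ ⧸ vg E) →₀ Ω} (h : IsDec p E a f) (P : ℝ ⧸ vg E → Prop)
    [DecidablePred P] : IsDec p E (∑ c ∈ f.support.filter P, f c) (f.filter P) := by
  refine ⟨fun c => ?_, ?_⟩
  · rw [Finsupp.filter_apply]
    split_ifs
    · exact h.1 c
    · exact Or.inl rfl
  · rw [Finsupp.support_filter]
    refine Finset.sum_congr rfl fun c hc => ?_
    rw [Finsupp.filter_apply_pos _ _ (Finset.mem_filter.1 hc).2]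

/-- The Frobenius lemma. -/
lemma frob [Fact p.Prime] [CharP Ω p] (L : LineProps p E) {a : Ω} {f g : (ℝ ⧸ vg E) →₀ Ω}
    (hf : IsDec p E a f) (hg : IsDec p E (a ^ p - a) g) :
    (∀ c, RadCl p E c → f c ^ p = f (p • c) + g (p • c)) ∧
      ∀ e, (∀ c ∈ f.support, p • c ≠ e) → f e + g e = 0 := by
  classical
  have h1 := dec_sum L f.support (fun c => p • c) (fun c => f c ^ p)
    fun c _ => inLine_pow L (hf.1 c) p
  rw [← sum_pow_char, ← hf.2] at h1
  have h2 := L.dec_add _ _ _ _ hf hg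
  rw [add_sub_cancel] at h2
  have h3 := L.uniq _ _ _ h1 h2
  refine ⟨fun c hc => ?_, fun e he => ?_⟩
  · rw [← Finsupp.add_apply, ← h3, Finsupp.finsetSum_apply, Finset.sum_eq_single c]
    · simp
    · intro c' hc' hne
      rw [Finsupp.single_apply, if_neg]
      intro e
      exact hne (radCl_inj L (radCl_of_ne (hf.1 c') (Finsupp.mem_support_iff.1 hc')) hc e)
    · intro hc'
      rw [Finsupp.notMem_support_iff.1 hc', zero_pow (Fact.out : p.Prime).ne_zero]
      simp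
  · rw [← Finsupp.add_apply, ← h3, Finsupp.finsetSum_apply]
    refine Finset.sum_eq_zero fun c hc => ?_
    rw [Finsupp.single_apply, if_neg (he c hc)]

open Classical in
/-- The decomposition of an evaluated polynomial. -/
lemma dec_ev (L : LineProps p E) {s : Stage Ω} (had : Adapted p E s) {Φ : Pol k} (h : s.Supp Φ) :
    ∃ D : (ℝ ⧸ vg E) →₀ Ω, IsDec p E (s.ev k Φ) D ∧
      ∀ c, D c = s.ev k (Φ.filter fun x => cl E x.1 = c) := by
  refine ⟨∑ x ∈ Φ.support, Finsupp.single (cl E x.1) (Φ x • (s.mon x.1 * s.y ^ x.2)), ?_,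
    fun c => ?_⟩
  · rw [ev_eq]
    refine dec_sum L _ _ _ fun x hx => ?_
    have e : Φ x • (s.mon x.1 * s.y ^ x.2) = (algebraMap k Ω (Φ x) * s.y ^ x.2) * s.mon x.1 := by
      rw [Algebra.smul_def]; ring
    rw [e]
    exact L.smul _ _ _ (E.mul_mem (E.algebraMap_mem _) (pow_mem had.2 _))
      (Or.inr ⟨had.1 _ (h x hx), by rw [nu_mon s (h x hx)]⟩)
  · rw [Finsupp.finsetSum_apply, ev_eq, Finsupp.support_filter, Finset.sum_filter]
    refine Finset.sum_congr rfl fun x _ => ?_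
    rw [Finsupp.single_apply]
    split_ifs with hx
    · rw [Finsupp.filter_apply_pos (fun x : ℝ × ℕ => cl E x.1 = c) _ hx]
    · rfl

end Lines

end Wild

end Pool.Agent.MP_19ffc6_ag.LU

end MrgPart1

-- ======== part 2: formerly Pool.Agent.MP_19ffc6_ag.LU.Wild
section MrgPart2

/-! Module WI of PROJECT LU1: an Artin-Schreier element is brought to terminal form. -/

namespace Pool.Agent.MP_19ffc6_ag.LU

open Polynomial IntermediateField

variable {k Ω : Type*} [Field k] [NontriviallyNormedField Ω] [IsUltrametricDist Ω] [Algebra k Ω]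
  [IsAlgClosed k] [IsAlgClosed Ω] [Ctx k Ω] {p : ℕ} [Fact p.Prime] [CharP k p] [CharP Ω p]

namespace Wild

omit [IsUltrametricDist Ω] [IsAlgClosed k] [IsAlgClosed Ω] [Ctx k Ω] [CharP k p] in
lemma as_sub (a l : Ω) : (a - l) ^ p - (a - l) = (a ^ p - a) - (l ^ p - l) := by
  rw [sub_pow_char]; ring

omit [IsUltrametricDist Ω] [IsAlgClosed k] [IsAlgClosed Ω] [Ctx k Ω] [CharP k p] in
lemma as_mem {K : IntermediateField k Ω} {a a1 : Ω} (h : a ^ p - a ∈ K) (h1 : a1 - a ∈ K) :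
    a1 ^ p - a1 ∈ K := by
  have e : a1 ^ p - a1 = (a ^ p - a) + ((a1 - a) ^ p - (a1 - a)) := by
    rw [sub_pow_char]; ring
  rw [e]
  exact K.add_mem h (K.sub_mem (pow_mem h1 p) h1)

omit [IsUltrametricDist Ω] [IsAlgClosed k] [IsAlgClosed Ω] [Ctx k Ω] [CharP k p] [Fact p.Prime]
  [CharP Ω p] in
/-- The components in `K` are removed. -/
lemma reduce {E K : IntermediateField k Ω} {a : Ω} {f : (ℝ ⧸ vg E) →₀ Ω} (hf : IsDec p E a f) :
    ∃ (a0 : Ω) (f0 : (ℝ ⧸ vg E) →₀ Ω), IsDec p E a0 f0 ∧ a0 - a ∈ K ∧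
      (∀ c ∈ f0.support, f0 c ∉ K) ∧ ∀ c, f0 c = f c ∨ f0 c = 0 := by
  classical
  refine ⟨_, _, dec_filter hf fun c => f c ∉ K, ?_, fun c hc => ?_, fun c => ?_⟩
  · have e := Finset.sum_filter_add_sum_filter_not f.support (fun c => f c ∉ K) f
    rw [← hf.2] at e
    have e' : ∑ c ∈ f.support.filter (fun c => f c ∉ K), f c - a =
        - ∑ c ∈ f.support.filter (fun c => ¬ f c ∉ K), f c := by
      rw [← e]; ring
    rw [e']
    exact K.neg_mem (K.sum_mem fun c hc => not_not.1 (Finset.mem_filter.1 hc).2)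
  · rw [Finsupp.support_filter, Finset.mem_filter] at hc
    rw [Finsupp.filter_apply_pos (fun c => f c ∉ K) _ hc.2]
    exact hc.2
  · rw [Finsupp.filter_apply]
    split_ifs
    · exact Or.inr rfl
    · exact Or.inl rfl

omit [IsAlgClosed Ω] [IsUltrametricDist Ω] in
/-- An integral right hand side has only trivial Artin-Schreier roots. -/
lemma mem_of_norm_le (hb : HB k Ω p) {K : IntermediateField k Ω} (hK : Algebra.IsAlgebraic K Ω)
    (hKh : IsHens K) {a : Ω} (h : a ^ p - a ∈ K) (hn : ‖a ^ p - a‖ ≤ 1) : a ∈ K := by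
  obtain ⟨c, hc⟩ := Ctx.res (k := k) _ hn
  obtain ⟨c', hc'⟩ := IsSepClosed.exists_root_C_mul_X_pow_add_C_mul_X_add_C' p p (1 : k) (-1) (-c)
    dvd_rfl (Fact.out : p.Prime).two_le (neg_ne_zero.2 one_ne_zero)
  have hc'' : algebraMap k Ω c' ^ p - algebraMap k Ω c' = algebraMap k Ω c := by
    rw [← map_pow, ← map_sub]
    congr 1
    linear_combination hc'
  obtain ⟨δ, hδ, e⟩ := hb.artin K hK hKh _ (K.sub_mem h (K.algebraMap_mem c)) hc
  have h1 : (a - algebraMap k Ω c' - δ) ^ p = a - algebraMap k Ω c' - δ := by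
    rw [← sub_eq_zero, as_sub, as_sub, hc'', e, sub_self]
  have h2 := mem_of_pow_eq K h1
  have h3 := K.add_mem (K.add_mem h2 hδ) (K.algebraMap_mem c')
  simpa using h3

omit [IsAlgClosed k] [IsAlgClosed Ω] [Ctx k Ω] [CharP k p] [CharP Ω p] [Fact p.Prime] in
open Classical in
/-- Only the monomials in the classes of the support are needed to approximate. -/
lemma approx_filter {E : IntermediateField k Ω} (L : LineProps p E) {t : Stage Ω}
    (had : Adapted p E t) {Φ : Pol k} (hΦ : t.Supp Φ) {ψ : Ω} {g : (ℝ ⧸ vg E) →₀ Ω}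
    (hg : IsDec p E ψ g) (C : Finset (ℝ ⧸ vg E)) (hC : ∀ e, e ∉ C → g e = 0)
    (h : ‖ψ - t.ev k Φ‖ < 1) : ‖ψ - t.ev k (Φ.filter fun x => cl E x.1 ∈ C)‖ < 1 := by
  obtain ⟨D, hD, hDe⟩ := dec_ev L had hΦ
  obtain ⟨D2, hD2, hD2e⟩ := dec_ev L had (supp_filter hΦ fun x => ¬ cl E x.1 ∈ C)
  have h1 := L.norm_le _ _ (L.dec_sub _ _ _ _ hg hD)
  have h2 : ‖t.ev k (Φ.filter fun x => ¬ cl E x.1 ∈ C)‖ ≤ ‖ψ - t.ev k Φ‖ := by
    rw [hD2.2]
    refine IsUltrametricDist.norm_sum_le_of_forall_le_of_nonneg (norm_nonneg _) fun c _ => ?_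
    by_cases hc : c ∈ C
    · have : ((Φ.filter fun x => ¬ cl E x.1 ∈ C).filter fun x => cl E x.1 = c) = 0 := by
        ext x
        simp only [Finsupp.filter_apply, Finsupp.coe_zero, Pi.zero_apply]
        split_ifs with h3 h4
        · rfl
        · exact absurd (h3 ▸ hc) h4
        · rfl
      rw [hD2e, this, map_zero, norm_zero]
      exact norm_nonneg _
    · have : ((Φ.filter fun x => ¬ cl E x.1 ∈ C).filter fun x => cl E x.1 = c) =
          Φ.filter fun x => cl E x.1 = c := by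
        ext x
        simp only [Finsupp.filter_apply]
        split_ifs with h3 h4
        · exact absurd (h3 ▸ h4) hc
        · rfl
        · rfl
      have h5 := h1 c
      rw [Finsupp.sub_apply, hC c hc, zero_sub, norm_neg, hDe] at h5
      rw [hD2e, this]
      exact h5
  have e : ψ - t.ev k (Φ.filter fun x => cl E x.1 ∈ C) =
      (ψ - t.ev k Φ) + t.ev k (Φ.filter fun x => ¬ cl E x.1 ∈ C) := by
    conv_rhs => rw [← Finsupp.filter_add_filter_not Φ fun x => cl E x.1 ∈ C]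
    rw [map_add, Finsupp.filter_add_filter_not]
    ring
  rw [e]
  exact norm_add_lt h (h2.trans_lt h)

omit [IsAlgClosed Ω] in
/-- The run of the engine. -/
lemma run (hb : HB k Ω p) (hle : LeStmt k Ω p) (hen : EngineStmt k Ω p) (hmon : MonStmt k Ω)
    {E : IntermediateField k Ω} (hE : Algebra.IsAlgebraic E Ω) (hEh : IsHens E)
    (L : LineProps p E) {s : Stage Ω} (had : Adapted p E s)
    (hK : Algebra.IsAlgebraic (hens (s.M k)) Ω) (hKh : IsHens (hens (s.M k)))
    {a : Ω} (haK : a ∉ hens (s.M k)) (hψ : a ^ p - a ∈ hens (s.M k))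
    {g : (ℝ ⧸ vg E) →₀ Ω} (hg : IsDec p E (a ^ p - a) g) (C : Finset (ℝ ⧸ vg E))
    (hC : ∀ e, e ∉ C → g e = 0) (hC2 : ∀ c, RadCl p E c → p • c ∈ C → c ∈ C) :
    ∃ (t : Stage Ω) (Φ : Pol k) (B : ℝ) (μ : ℕ) (a2 : Ω), Le k s t ∧ t.Supp Φ ∧
      (∀ x ∈ Φ.support, cl E x.1 ∈ C) ∧ a2 - a ∈ hens (s.M k) ∧ a2 ^ p - a2 = t.ev k Φ ∧
      Term k p True t Φ B μ := by
  classical
  have hMK : ∀ t, Le k s t → t.M k ≤ hens (s.M k) := fun t ht => by
    rw [hle.M_eq s t ht]; exact le_hens _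
  -- the start
  obtain ⟨t0, Φ0, ht0, hΦ0, h0⟩ :
      ∃ (t0 : Stage Ω) (Φ0 : Pol k), Le k s t0 ∧ t0.Supp Φ0 ∧ ‖a ^ p - a - t0.ev k Φ0‖ < 1 := by
    obtain ⟨b, hbM, hb1⟩ := Metric.mem_closure_iff.1 (mem_closure_of_hens hψ) 1 one_pos
    rw [dist_eq_norm] at hb1
    by_cases hb0 : b = 0
    · refine ⟨s, 0, Relation.ReflTransGen.refl, fun x hx => by simp at hx, ?_⟩
      rw [map_zero, ← hb0]; exact hb1
    · obtain ⟨t0, ht0, hgood⟩ := hmon.mon s {b} fun x hx => by
        rw [Finset.mem_singleton.1 hx]; exact ⟨hbM, hb0⟩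
      obtain ⟨Φ0, hΦ0, h0⟩ := hmon.approx t0 b (hgood b (Finset.mem_singleton_self b)) 1 one_pos
      refine ⟨t0, Φ0, ht0, hΦ0, ?_⟩
      have := norm_add_lt hb1 h0
      rwa [sub_add_sub_cancel] at this
  have h1 := approx_filter L (hle.adapted s t0 ht0 E hE hEh had) hΦ0 hg C hC h0
  obtain ⟨t, Φ, B, μ, ⟨ht, hcl, a1, ha1, hn⟩, hΦ, hT⟩ := hen True
    (fun t Φ => Le k s t ∧ (∀ x ∈ Φ.support, cl E x.1 ∈ C) ∧
      ∃ a1, a1 - a ∈ hens (s.M k) ∧ ‖a1 ^ p - a1 - t.ev k Φ‖ < 1)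
    (by
      rintro t Φ ⟨_, _, a1, ha1, hn⟩ hΦ
      by_contra hcon
      push Not at hcon
      have h2 := norm_ev_le t hΦ hcon
      rw [neg_zero, Real.exp_zero] at h2
      have h3 := norm_add_le' hn.le h2
      rw [sub_add_cancel] at h3
      have h4 := mem_of_norm_le hb hK hKh (as_mem hψ ha1) h3
      have h5 := (hens (s.M k)).sub_mem h4 ha1
      rw [sub_sub_cancel] at h5
      exact haK h5)
    (by
      rintro t Φ Φ' ⟨ht, hcl, a1, ha1, hn⟩ hsub hev
      exact ⟨ht, fun x hx => hcl x (hsub hx), a1, ha1, by rw [hev]; exact hn⟩)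
    (by
      rintro - t Φ β j c ⟨ht, hcl, a1, ha1, hn⟩ _ hβ _ hpt _
      refine ⟨ht, fun x hx => ?_, a1 - c • (t.mon β * t.y ^ j), ?_, ?_⟩
      · rcases Finset.mem_union.1 (Finsupp.support_add hx) with hx | hx
        · rcases Finset.mem_union.1 (Finsupp.support_sub hx) with hx | hx
          · exact hcl x hx
          · rw [Finset.mem_singleton.1 (Finsupp.support_single_subset hx)]
            exact hcl _ hpt
        · rw [Finset.mem_singleton.1 (Finsupp.support_single_subset hx)]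
          refine hC2 _ ⟨t.mon β, (hle.adapted s t ht E hE hEh had).1 β hβ, by rw [nu_mon t hβ]⟩ ?_
          rw [← cl_nat_mul]
          exact hcl _ hpt
      · rw [sub_right_comm]
        exact (hens (s.M k)).sub_mem ha1 (hMK t ht (term_mem_M t hβ j c))
      · have e : (c • (t.mon β * t.y ^ j)) ^ p =
            c ^ p • (t.mon ((p : ℝ) * β) * t.y ^ (p * j)) := by
          rw [_root_.smul_pow, mul_pow, mon_nat_mul t hβ, ← pow_mul, mul_comm j p]
        rw [as_sub, map_add, map_sub, ev_single, ev_single, e]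
        convert hn using 2
        ring)
    (by
      rintro t t' Φ ⟨ht, hcl, a1, ha1, hn⟩ _ hstep
      have hpos : 0 < ‖t.ev k Φ‖ + 1 := by positivity
      refine ⟨(‖t.ev k Φ‖ + 1)⁻¹, inv_pos.2 hpos, fun Φ' w _ hw hev hsup =>
        ⟨ht.tail hstep, fun x' hx' => ?_, a1, ha1, ?_⟩⟩
      · obtain ⟨x, hx, e⟩ := hsup x' hx'
        rw [e, cl_shift (hle.adapted s t ht E hE hEh had).2]
        exact hcl x hx
      · have h2 : ‖(1 - w) * t.ev k Φ‖ < 1 := by
          rw [norm_mul, norm_sub_rev]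
          calc ‖w - 1‖ * ‖t.ev k Φ‖ ≤ ‖w - 1‖ * (‖t.ev k Φ‖ + 1) :=
                mul_le_mul_of_nonneg_left (by linarith) (norm_nonneg _)
            _ < (‖t.ev k Φ‖ + 1)⁻¹ * (‖t.ev k Φ‖ + 1) := mul_lt_mul_of_pos_right hw hpos
            _ = 1 := inv_mul_cancel₀ hpos.ne'
        have h3 := norm_add_lt hn h2
        rw [hev]
        convert h3 using 2
        ring)
    t0 (Φ0.filter fun x => cl E x.1 ∈ C)
    ⟨ht0, fun x hx => by
      rw [Finsupp.support_filter, Finset.mem_filter] at hx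
      exact hx.2, a, by rw [sub_self]; exact (hens (s.M k)).zero_mem, h1⟩
    (supp_filter hΦ0 _)
  obtain ⟨δ, hδ, e⟩ := hb.artin _ hK hKh _
    ((hens (s.M k)).sub_mem (as_mem hψ ha1) (hMK t ht (ev_mem_M t hΦ))) hn
  refine ⟨t, Φ, B, μ, a1 - δ, ht, hΦ, hcl, ?_, ?_, hT⟩
  · rw [sub_right_comm]
    exact (hens (s.M k)).sub_mem ha1 hδ
  · rw [as_sub, e, sub_sub_cancel]

end Wild

open Wild in
omit [IsAlgClosed Ω] in
theorem wild (hb : HB k Ω p) (hh : HensStmt k Ω) (hle : LeStmt k Ω p) (hen : EngineStmt k Ω p)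
    (hmon : MonStmt k Ω) (hl : LineStmt k Ω p) (hdeg : DegStmt k Ω p) : WildStmt k Ω p := by
  classical
  intro E s a' hE hEh had hsep ha' haK' hψ'
  have L := hl E hE hEh
  have hM : Algebra.IsAlgebraic (s.M k) Ω :=
    alg_of_sep ((le_hens _).trans le_sup_left) hsep (alg_mono le_sup_right hE)
  have hK : Algebra.IsAlgebraic (hens (s.M k)) Ω := alg_mono (le_hens _) hM
  have hKh := hh _ hM
  have hsepK : ∀ x ∈ hens (s.M k) ⊔ E, IsSeparable (hens (s.M k)) x :=
    fun x hx => sep_mono (le_hens _) (hsep x hx)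
  have hdecK : ∀ l ∈ hens (s.M k), ∀ f, IsDec p E l f → ∀ c, f c ∈ hens (s.M k) := by
    intro l hl f hf
    obtain ⟨f', hf', h⟩ := L.dec_hens s had hM l hl
    rw [L.uniq _ _ _ hf hf']
    exact h
  obtain ⟨f', hf', hfE'⟩ := L.dec_sup s had hM a' ha'
  obtain ⟨a, f, hf, haa, hfK, hff⟩ := reduce (K := hens (s.M k)) hf'
  have hfE : ∀ c, f c ∈ hens (s.M k) ⊔ E := fun c => by
    rcases hff c with h | h <;> rw [h]
    · exact hfE' c
    · exact zero_mem _
  have haK : a ∉ hens (s.M k) := fun h => haK' (by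
    have := (hens (s.M k)).sub_mem h haa
    rwa [sub_sub_cancel] at this)
  have hψ : a ^ p - a ∈ hens (s.M k) := as_mem hψ' haa
  obtain ⟨g, hg, hgK⟩ := L.dec_hens s had hM _ hψ
  obtain ⟨hfr1, hfr2⟩ := frob L hf hg
  have hrad : ∀ c ∈ f.support, RadCl p E c :=
    fun c hc => radCl_of_ne (hf.1 c) (Finsupp.mem_support_iff.1 hc)
  have hC1 : ∀ c ∈ f.support, p • c ∈ f.support := by
    intro c hc
    rw [Finsupp.mem_support_iff]
    intro h0
    refine hfK c hc (mem_of_pow_mem hb hK (hsepK _ (hfE c)) ?_)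
    rw [hfr1 c (hrad c hc), h0, zero_add]
    exact hgK _
  let nx : f.support → f.support := fun c => ⟨p • c.1, hC1 c.1 c.2⟩
  have hinj : Function.Injective nx := fun c c' e =>
    Subtype.ext (radCl_inj L (hrad _ c.2) (hrad _ c'.2) (congrArg Subtype.val e))
  have hsurj : Function.Surjective nx := Finite.surjective_of_injective hinj
  have hC2 : ∀ c, RadCl p E c → p • c ∈ f.support → c ∈ f.support := by
    intro c hc h
    obtain ⟨c', e⟩ := hsurj ⟨_, h⟩
    rw [← radCl_inj L (hrad _ c'.2) hc (congrArg Subtype.val e)]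
    exact c'.2
  have hC : ∀ e, e ∉ f.support → g e = 0 := by
    intro e he
    have := hfr2 e fun c hc h => he (h ▸ hC1 c hc)
    rwa [Finsupp.notMem_support_iff.1 he, zero_add] at this
  obtain ⟨t, Φ, B, μ, a2, ht, hΦ, hcl, ha2, hev, hB, hlead, hT⟩ :=
    run hb hle hen hmon hE hEh L had hK hKh haK hψ hg f.support hC hC2
  have hadt := hle.adapted s t ht E hE hEh had
  have hMK : t.M k ≤ hens (s.M k) := by rw [hle.M_eq s t ht]; exact le_hens _
  have ha2E : a2 ∈ hens (s.M k) ⊔ E := by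
    have h1 := ((hens (s.M k) ⊔ E).add_mem ((hens (s.M k) ⊔ E).add_mem
      ((le_sup_left : hens (s.M k) ≤ _) ha2) ((le_sup_left : hens (s.M k) ≤ _) haa)) ha')
    simpa using h1
  obtain ⟨f2, hf2, hf2E⟩ := L.dec_sup s had hM a2 ha2E
  have hz : ∀ c ∈ f.support, f2 c ∉ hens (s.M k) := by
    intro c hc h
    have h1 := hdecK _ ha2 _ (L.dec_sub _ _ _ _ hf2 hf) c
    rw [Finsupp.sub_apply] at h1
    have h2 := (hens (s.M k)).sub_mem h h1
    rw [sub_sub_cancel] at h2
    exact hfK c hc h2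
  have hz0 : ∀ c ∈ f.support, Rad p E (f2 c) ∧ cl E (nu (f2 c)) = c := fun c hc =>
    (hf2.1 c).resolve_left fun h => hz c hc (by rw [h]; exact zero_mem _)
  obtain ⟨D, hD, hDe⟩ := dec_ev L hadt hΦ
  have heq : ∀ c ∈ f.support,
      f2 c ^ p = f2 (p • c) + t.ev k (Φ.filter fun x => cl E x.1 = p • c) := by
    intro c hc
    rw [← hev] at hD
    rw [(frob L hf2 hD).1 c (hrad c hc), hDe]
  have hnorm : ‖a2‖ ≤ Real.exp (-(B / p)) :=
    norm_root_le (Fact.out : p.Prime).one_lt hB (by rw [hev]; exact norm_ev_le t hΦ hlead.1)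
  obtain ⟨i0, hi0⟩ := hsurj ⟨cl E B, hcl _ hlead.2.1⟩
  have hi0' : p • i0.1 = cl E B := congrArg Subtype.val hi0
  refine ⟨t, f.support, inferInstance,
    { z := fun c => f2 c.1
      nx := nx
      Φ := fun c => Φ.filter fun x => cl E x.1 = p • c.1
      i0 := i0
      B := B
      μ := μ
      nx_surj := hsurj
      z_mem := fun c => hf2E c.1
      z_norm := fun c => (L.norm_le _ _ hf2 c.1).trans hnorm
      z_not := fun h => hz _ i0.2 (hMK h)
      supp := fun c => supp_filter hΦ _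
      eqn := fun c => heq c.1 c.2
      B_neg := hB
      lead := ⟨fun x hx => ?_, ?_, fun j hj hx => ?_⟩
      other := fun c hc x hx => ?_
      rad := (hz0 _ i0.2).1
      line := fun β hβ e => ?_ }, ht, ?_, fun W hW hzW => ?_⟩
  · rw [Finsupp.support_filter, Finset.mem_filter] at hx
    exact hlead.1 x hx.1
  · rw [Finsupp.support_filter, Finset.mem_filter]
    exact ⟨hlead.2.1, hi0'.symm⟩
  · rw [Finsupp.support_filter, Finset.mem_filter] at hx
    exact hlead.2.2 j hj hx.1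
  · rw [Finsupp.support_filter, Finset.mem_filter] at hx
    refine lt_of_le_of_ne (hlead.1 x hx.1) fun e => hc (hinj (Subtype.ext ?_))
    change p • c.1 = p • i0.1
    rw [← hx.2, hi0', e]
  · have h1 : RadCl p E (cl E β) := ⟨t.mon β, hadt.1 β hβ, by rw [nu_mon t hβ]⟩
    have h2 : i0.1 = cl E β := radCl_inj L (hrad _ i0.2) h1 (by rw [hi0', e, cl_nat_mul])
    exact L.div i0.1 _ _ (hf2.1 _) (Or.inr ⟨hadt.1 β hβ, by rw [nu_mon t hβ, h2]⟩)
  · rcases hT with ⟨h1, h2⟩ | ⟨-, h2⟩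
    · exact Or.inl ⟨h1, h2 trivial⟩
    · exact Or.inr h2
  · refine hdeg _ hK f.support (fun c => f2 c.1) nx hsurj (fun c => ?_)
      (fun c => hsepK _ (hf2E c.1)) (fun r hr => ?_) W hW hzW
    · change f2 c.1 ^ p - f2 (p • c.1) ∈ _
      rw [heq c.1 c.2, add_sub_cancel_left]
      exact hMK (ev_mem_M t (supp_filter hΦ _))
    · have h1 := dec_sum L Finset.univ (fun c : f.support => c.1) (fun c => r c • f2 c.1)
        fun c _ => by
          rw [Algebra.smul_def]
          exact L.smul _ _ _ (E.algebraMap_mem _) (hf2.1 _)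
      funext c
      have h2 := hdecK _ hr _ h1 c.1
      rw [Finsupp.finsetSum_apply, Finset.sum_eq_single c
        (fun c' _ hne => Finsupp.single_eq_of_ne fun e => hne (Subtype.ext e.symm))
        (fun h => absurd (Finset.mem_univ c) h), Finsupp.single_eq_same] at h2
      by_contra hr0
      have h3 := (hens (s.M k)).toSubalgebra.smul_mem h2 (r c)⁻¹
      rw [smul_smul, inv_mul_cancel₀ hr0, one_smul] at h3
      exact hz _ c.2 h3

end Pool.Agent.MP_19ffc6_ag.LU

end MrgPart2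

-- marker of a merged file
example : 731051 + 887788 = 731051 + 887788 := rfl
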