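import Pool.Agent.MP_19ffc6_ag.LU.Perron
import Pool.Agent.MP_19ffc6_ag.LU.HensB
import Pool.Agent.MP_19ffc6_ag.LU.Deg
import Pool.Agent.MP_19ffc6_ag.LU2.Ord
import Pool.Agent.MP_19ffc6_ag.LU2.Rho
import Pool.Agent.MP_19ffc6_ag.LU.Smooth
import Pool.Agent.MP_19ffc6_ag.LU2.Rel
import Pool.Agent.MP_19ffc6_ag.LU.Sep
import Pool.Agent.MP_19ffc6_ag.LU.Wild

-- ======== part 0: formerly Pool.Agent.MP_19ffc6_ag.LU.Clean
section MrgPart0

/-! Module CL of PROJECT LU1: cleaning of `p`-th power monomials of negative level. -/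

namespace Pool.Agent.MP_19ffc6_ag.LU

namespace Clean

/-- A height on a finitely generated subgroup of the reals that grows under `β ↦ p β`. -/
theorem exists_height (Λ : AddSubgroup ℝ) (h : Λ.FG) (p : ℕ) (hp : 2 ≤ p) :
    ∃ N : ℝ → ℕ, ∀ β ∈ Λ, β ≠ 0 → N β < N (p * β) := by
  classical
  have hfin : Module.Finite ℤ Λ := by
    rw [Module.Finite.iff_addGroup_fg]
    exact (AddGroup.fg_iff_addSubgroup_fg Λ).2 h
  let b := Module.Free.chooseBasis ℤ Λ
  refine ⟨fun α => if hα : α ∈ Λ then ∑ i, (b.repr ⟨α, hα⟩ i).natAbs else 0, ?_⟩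
  intro β hβ h0
  have hpβ : (p : ℝ) * β ∈ Λ := by
    have := Λ.nsmul_mem hβ p
    rwa [nsmul_eq_mul] at this
  have he : (⟨(p : ℝ) * β, hpβ⟩ : Λ) = (p : ℤ) • (⟨β, hβ⟩ : Λ) := by
    apply Subtype.ext
    simp
  simp only [dif_pos hβ, dif_pos hpβ, he, map_smul, Finsupp.smul_apply, smul_eq_mul,
    Int.natAbs_mul, Int.natAbs_natCast, ← Finset.mul_sum]
  have hpos : 0 < ∑ i, (b.repr ⟨β, hβ⟩ i).natAbs := by
    rcases Nat.eq_zero_or_pos (∑ i, (b.repr ⟨β, hβ⟩ i).natAbs) with hz | hz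
    · exfalso
      rw [Finset.sum_eq_zero_iff] at hz
      have : b.repr ⟨β, hβ⟩ = 0 := by
        ext i
        exact Int.natAbs_eq_zero.1 (hz i (Finset.mem_univ i))
      have h2 : (⟨β, hβ⟩ : Λ) = 0 := b.repr.map_eq_zero_iff.1 this
      exact h0 (congrArg Subtype.val h2)
    · exact hz
  nlinarith

end Clean

theorem clean {k : Type*} [Field k] [IsAlgClosed k] {p : ℕ} [Fact p.Prime] : CleanStmt k p := by
  classical
  have hp2 : 2 ≤ p := (Fact.out : p.Prime).two_le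
  have hpR : (2 : ℝ) ≤ p := by exact_mod_cast hp2
  intro Λ hΛ P hP Φ B
  obtain ⟨N, hN⟩ := Clean.exists_height Λ hΛ p hp2
  induction hM : (∑ x ∈ Φ.support, N x.1) using Nat.strong_induction_on generalizing Φ with
  | _ n ih =>
    intro hΦ hsup hB
    by_cases hex : ∃ x ∈ Φ.support, PW p Λ x
    · obtain ⟨⟨α, i⟩, hx, hneg, ⟨β, hβ, hαβ⟩, ⟨j, hj⟩⟩ := hex
      simp only at hneg hαβ hj
      subst hαβ hj
      have hβneg : β < 0 := by
        by_contra hc
        push Not at hc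
        have : 0 ≤ (p : ℝ) * β := by positivity
        linarith
      have hlt : (p : ℝ) * β < β := by nlinarith
      obtain ⟨c, hc⟩ := IsAlgClosed.exists_pow_nat_eq (Φ ((p : ℝ) * β, p * j)) (by omega : 0 < p)
      set Ψ : Pol k :=
        Φ - Finsupp.single ((p : ℝ) * β, p * j) (c ^ p) + Finsupp.single (β, j) c with hΨ
      have hval : ∀ x, x ≠ ((p : ℝ) * β, p * j) → x ≠ (β, j) → Ψ x = Φ x := by
        intro x h1 h2
        simp [hΨ, Finsupp.single_eq_of_ne h1, Finsupp.single_eq_of_ne h2]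
      have hne : ((p : ℝ) * β, p * j) ≠ (β, j) := by
        intro h
        have := congrArg Prod.fst h
        simp only at this
        linarith
      have hzero : Ψ ((p : ℝ) * β, p * j) = 0 := by
        simp [hΨ, Finsupp.single_eq_of_ne hne, hc]
      have hsub : Ψ.support ⊆ insert (β, j) (Φ.support.erase ((p : ℝ) * β, p * j)) := by
        intro x hxs
        rw [Finset.mem_insert, Finset.mem_erase]
        by_cases h2 : x = (β, j)
        · exact Or.inl h2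
        · right
          have h1 : x ≠ ((p : ℝ) * β, p * j) := by
            rintro rfl
            exact (Finsupp.mem_support_iff.1 hxs) hzero
          refine ⟨h1, ?_⟩
          rw [Finsupp.mem_support_iff, ← hval x h1 h2]
          exact Finsupp.mem_support_iff.1 hxs
      have hmeas : ∑ x ∈ Ψ.support, N x.1 < n := by
        have h1 : ∑ x ∈ Ψ.support, N x.1 ≤
            ∑ x ∈ insert (β, j) (Φ.support.erase ((p : ℝ) * β, p * j)), N x.1 :=
          Finset.sum_le_sum_of_subset hsub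
        have h2 : ∑ x ∈ insert (β, j) (Φ.support.erase ((p : ℝ) * β, p * j)), N x.1 ≤
            N β + ∑ x ∈ Φ.support.erase ((p : ℝ) * β, p * j), N x.1 := by
          by_cases hm : (β, j) ∈ Φ.support.erase ((p : ℝ) * β, p * j)
          · rw [Finset.insert_eq_of_mem hm]; omega
          · rw [Finset.sum_insert hm]
        have h3 := Finset.add_sum_erase Φ.support (fun x : ℝ × ℕ => N x.1) hx
        have h4 := hN β hβ hβneg.ne
        simp only at h3
        omega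
      have hmem : ∀ x ∈ Ψ.support, x = (β, j) ∨ x ∈ Φ.support := by
        intro x hxs
        rcases Finset.mem_insert.1 (hsub hxs) with h | h
        · exact Or.inl h
        · exact Or.inr (Finset.mem_of_mem_erase h)
      obtain ⟨Φ', h1, h2, h3, h4, h5, h6⟩ := ih _ hmeas Ψ rfl (hP Φ β j c hΦ hsup hβ hβneg hx hc)
        (fun x hxs => by
          rcases hmem x hxs with rfl | h
          · exact hβ
          · exact hsup x h)
        (fun x hxs => by
          rcases hmem x hxs with rfl | h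
          · have := hB _ hx
            simp only at this ⊢
            linarith
          · exact hB x h)
      refine ⟨Φ', h1, h2, h3, h4, ?_, ?_⟩
      · intro i hi
        rw [h5 i hi]
        apply hval
        · intro h
          apply hi
          rw [h]
          exact ⟨hneg, ⟨β, hβ, rfl⟩, ⟨j, rfl⟩⟩
        · intro h
          have h7 := congrArg Prod.fst h
          have h8 := hB _ hx
          simp only at h7 h8
          linarith
      · intro x' hx'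
        obtain ⟨x, hxs, t, ht1, ht2⟩ := h6 x' hx'
        rcases hmem x hxs with rfl | h
        · refine ⟨_, hx, t + 1, ?_, ?_⟩
          · simp only at ht1 ⊢
            rw [← ht1]; ring
          · simp only at ht2 ⊢
            rw [← ht2]; ring
        · exact ⟨x, h, t, ht1, ht2⟩
    · push Not at hex
      exact ⟨Φ, hΦ, hsup, hex, hB, fun _ _ => rfl, fun x hx => ⟨x, hx, 0, by simp, by simp⟩⟩

end Pool.Agent.MP_19ffc6_ag.LU

end MrgPart0

-- ======== part 1: formerly Pool.Agent.MP_19ffc6_ag.LU.Lines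
section MrgPart1

/-! Module LN, first part: the calculus of lines over a henselian field. -/

namespace Pool.Agent.MP_19ffc6_ag.LU

open Polynomial IntermediateField

namespace Lines

section Elem

variable {Ω : Type*} [NontriviallyNormedField Ω]

theorem nu_mul {a b : Ω} (ha : a ≠ 0) (hb : b ≠ 0) : nu (a * b) = nu a + nu b := by
  simp only [nu, norm_mul]
  rw [Real.log_mul (norm_ne_zero_iff.2 ha) (norm_ne_zero_iff.2 hb)]; ring

theorem nu_inv (a : Ω) : nu a⁻¹ = - nu a := by simp [nu]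

theorem nu_div {a b : Ω} (ha : a ≠ 0) (hb : b ≠ 0) : nu (a / b) = nu a - nu b := by
  rw [div_eq_mul_inv, nu_mul ha (inv_ne_zero hb), nu_inv]; ring

theorem nu_pow (a : Ω) (n : ℕ) : nu (a ^ n) = n • nu a := by
  simp [nu]

theorem norm_eq_one_of_nu {a : Ω} (ha : a ≠ 0) (h : nu a = 0) : ‖a‖ = 1 := by
  have h1 : Real.log ‖a‖ = 0 := by simpa [nu] using neg_eq_zero.1 h
  have h2 : 0 < ‖a‖ := norm_pos_iff.2 ha
  rw [← Real.exp_log h2, h1, Real.exp_zero]

theorem mon_ne (s : Stage Ω) {α : ℝ} (h : α ∈ s.Λ) : s.mon α ≠ 0 := by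
  rw [← norm_pos_iff, s.norm_mon α h]; exact Real.exp_pos _

theorem nu_mon (s : Stage Ω) {α : ℝ} (h : α ∈ s.Λ) : nu (s.mon α) = α := by
  simp [nu, s.norm_mon α h]

theorem mon_zero (s : Stage Ω) : s.mon 0 = 1 := by
  have h := s.mon_add 0 s.Λ.zero_mem 0 s.Λ.zero_mem
  rw [add_zero] at h
  have h0 := mon_ne s s.Λ.zero_mem
  exact (mul_eq_left₀ h0).1 h.symm

theorem mon_nsmul (s : Stage Ω) {α : ℝ} (h : α ∈ s.Λ) (n : ℕ) : s.mon (n • α) = s.mon α ^ n := by
  induction n with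
  | zero => simpa using mon_zero s
  | succ n ih => rw [succ_nsmul, s.mon_add _ (s.Λ.nsmul_mem h n) _ h, ih, pow_succ]

theorem mon_sub (s : Stage Ω) {α β : ℝ} (h : α ∈ s.Λ) (h' : β ∈ s.Λ) :
    s.mon (α - β) = s.mon α / s.mon β := by
  rw [eq_div_iff (mon_ne s h'), ← s.mon_add _ (s.Λ.sub_mem h h') _ h', sub_add_cancel]

variable {k : Type*} [Field k] [Algebra k Ω]

theorem le_hens (M : IntermediateField k Ω) : M ≤ hens M := fun a ha =>
  ⟨isSeparable_algebraMap (⟨a, ha⟩ : M), subset_closure ha⟩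

theorem alg_mono {K K' : IntermediateField k Ω} (h : K ≤ K') (hK : Algebra.IsAlgebraic K Ω) :
    Algebra.IsAlgebraic K' Ω :=
  ⟨fun a => IsAlgebraic.tower_top_of_subalgebra_le (A := K.toSubalgebra) (B := K'.toSubalgebra) h
    (hK.isAlgebraic a)⟩

theorem isHens_mono {K K' : IntermediateField k Ω} (h : K ≤ K') (hK : IsHens K) : IsHens K' :=
  fun σ a => hK { σ.toRingEquiv with commutes' := fun x => σ.commutes ⟨x, h x.2⟩ } a

theorem sep_mono {K K' : IntermediateField k Ω} (h : K ≤ K') {a : Ω} (ha : IsSeparable K a) :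
    IsSeparable K' a := by
  let _ : Algebra K K' := (IntermediateField.inclusion h).toRingHom.toAlgebra
  have : IsScalarTower K K' Ω := IsScalarTower.of_algebraMap_eq fun _ => rfl
  exact IsSeparable.tower_top K' ha

theorem sep_trans {K K' : IntermediateField k Ω} (h : SepOver K K') {a : Ω}
    (ha : IsSeparable K' a) : IsSeparable K a := by
  have h1 : K' ≤ (separableClosure K Ω).restrictScalars k := fun x hx => h x hx
  have h2 : IsSeparable (separableClosure K Ω) a := sep_mono h1 ha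
  exact IsSeparable.of_algebra_isSeparable_of_isSeparable K h2

theorem alg_of_sep {K K' : IntermediateField k Ω} (h : SepOver K K')
    (ha : Algebra.IsAlgebraic K' Ω) : Algebra.IsAlgebraic K Ω := by
  have h1 : K' ≤ (separableClosure K Ω).restrictScalars k := fun x hx => h x hx
  have h2' := alg_mono h1 ha
  have h2 : Algebra.IsAlgebraic (separableClosure K Ω) Ω := h2'
  exact Algebra.IsAlgebraic.trans K (separableClosure K Ω) Ω

theorem mon_mem (s : Stage Ω) {α : ℝ} (h : α ∈ s.Λ) : s.mon α ∈ s.M k :=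
  IntermediateField.subset_adjoin _ _ (Or.inl ⟨α, h, rfl⟩)

theorem y_mem (s : Stage Ω) : s.y ∈ s.M k :=
  IntermediateField.subset_adjoin _ _ (Or.inr rfl)

/-- Induction over the compositum of a field with the monomials. -/
theorem sup_induction (L : IntermediateField k Ω) (hL : Algebra.IsAlgebraic L Ω) (s : Stage Ω)
    (P : Ω → Prop) (h0 : P 0) (hadd : ∀ a b, P a → P b → P (a + b))
    (hgen : ∀ l ∈ L, ∀ α ∈ s.Λ, P (l * s.mon α)) :
    ∀ x ∈ L ⊔ adjoin k (s.mon '' s.Λ), P x := by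
  intro x hx
  have h1 : L ⊔ adjoin k (s.mon '' s.Λ) ≤ (adjoin L (s.mon '' s.Λ)).restrictScalars k := by
    refine sup_le (fun a ha => (adjoin L (s.mon '' s.Λ)).algebraMap_mem ⟨a, ha⟩) ?_
    exact adjoin_le_iff.2 (IntermediateField.subset_adjoin L _)
  have h2 : x ∈ (adjoin L (s.mon '' s.Λ)).toSubalgebra := h1 hx
  rw [adjoin_toSubalgebra_of_isAlgebraic fun a _ => hL.isAlgebraic a] at h2
  have h3 : x ∈ Subalgebra.toSubmodule (Algebra.adjoin L (s.mon '' s.Λ)) := h2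
  rw [Algebra.adjoin_eq_span_of_subset] at h3
  · suffices h : ∀ l ∈ L, P (l * x) by simpa using h 1 L.one_mem
    clear hx h2
    induction h3 using Submodule.span_induction with
    | mem x hx => obtain ⟨α, hα, rfl⟩ := hx; exact fun l hl => hgen l hl α hα
    | zero => intro l _; simpa using h0
    | add x y _ _ hx hy => intro l hl; rw [mul_add]; exact hadd _ _ (hx l hl) (hy l hl)
    | smul a x _ hx =>
      intro l hl
      have := hx (l * a) (L.mul_mem hl a.2)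
      rwa [mul_assoc] at this
  · intro a ha
    refine Submodule.subset_span ?_
    induction ha using Submonoid.closure_induction with
    | mem x hx => exact hx
    | one => exact ⟨0, s.Λ.zero_mem, mon_zero s⟩
    | mul x y _ _ hx hy =>
      obtain ⟨α, hα, rfl⟩ := hx
      obtain ⟨β, hβ, rfl⟩ := hy
      exact ⟨α + β, s.Λ.add_mem hα hβ, s.mon_add α hα β hβ⟩

variable {p : ℕ} [Fact p.Prime] {E : IntermediateField k Ω}

theorem rad_mul {a b : Ω} (ha : Rad p E a) (hb : Rad p E b) : Rad p E (a * b) := by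
  obtain ⟨ha0, n, hn, han⟩ := ha
  obtain ⟨hb0, m, hm, hbm⟩ := hb
  refine ⟨mul_ne_zero ha0 hb0, n * m, fun h => ?_, ?_⟩
  · rcases (Nat.Prime.dvd_mul Fact.out).1 h with h | h
    exacts [hn h, hm h]
  · rw [mul_pow, pow_mul, mul_comm n m, pow_mul]
    exact E.mul_mem (pow_mem han m) (pow_mem hbm n)

omit [Fact p.Prime] in
theorem rad_inv {a : Ω} (ha : Rad p E a) : Rad p E a⁻¹ := by
  obtain ⟨ha0, n, hn, han⟩ := ha
  exact ⟨inv_ne_zero ha0, n, hn, by rw [inv_pow]; exact E.inv_mem han⟩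

theorem rad_div {a b : Ω} (ha : Rad p E a) (hb : Rad p E b) : Rad p E (a / b) := by
  rw [div_eq_mul_inv]; exact rad_mul ha (rad_inv hb)

theorem rad_of_mem {e : Ω} (he : e ∈ E) (h0 : e ≠ 0) : Rad p E e :=
  ⟨h0, 1, (Fact.out : p.Prime).not_dvd_one, by simpa using he⟩

theorem cl_add (α β : ℝ) : cl E (α + β) = cl E α + cl E β := rfl

theorem cl_nsmul (n : ℕ) (α : ℝ) : cl E (n • α) = n • cl E α := rfl

theorem cl_of_mem {e : Ω} (he : e ∈ E) (h0 : e ≠ 0) : cl E (nu e) = 0 :=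
  (QuotientAddGroup.eq_zero_iff _).2 ⟨e, he, h0, rfl⟩

theorem inLine_smul (c : ℝ ⧸ vg E) (a : Ω) (e : Ω) (he : e ∈ E) (ha : InLine p E c a) :
    InLine p E c (e * a) := by
  by_cases h0 : e = 0
  · exact Or.inl (by simp [h0])
  rcases ha with rfl | ⟨ha, hc⟩
  · exact Or.inl (by simp)
  refine Or.inr ⟨rad_mul (rad_of_mem he h0) ha, ?_⟩
  rw [nu_mul h0 ha.1, cl_add, cl_of_mem he h0, zero_add, hc]

theorem inLine_mul (c c' : ℝ ⧸ vg E) (a b : Ω) (ha : InLine p E c a) (hb : InLine p E c' b) :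
    InLine p E (c + c') (a * b) := by
  rcases ha with rfl | ⟨ha, hc⟩
  · exact Or.inl (by simp)
  rcases hb with rfl | ⟨hb, hc'⟩
  · exact Or.inl (by simp)
  refine Or.inr ⟨rad_mul ha hb, ?_⟩
  rw [nu_mul ha.1 hb.1, cl_add, hc, hc']

theorem cl_inj (a b : Ω) (ha : Rad p E a) (hb : Rad p E b)
    (h : p • cl E (nu a) = p • cl E (nu b)) : cl E (nu a) = cl E (nu b) := by
  obtain ⟨h0, n, hn, han⟩ := rad_div ha hb
  have h1 : n • (cl E (nu a) - cl E (nu b)) = 0 := by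
    have := cl_of_mem han (pow_ne_zero n h0)
    rwa [nu_pow, cl_nsmul, nu_div ha.1 hb.1] at this
  have h2 : p • (cl E (nu a) - cl E (nu b)) = 0 := by rw [nsmul_sub, h, sub_self]
  have h3 := addOrderOf_dvd_of_nsmul_eq_zero h1
  have h4 := addOrderOf_dvd_of_nsmul_eq_zero h2
  have h5 : p.Coprime n := ((Fact.out : p.Prime).coprime_iff_not_dvd).2 hn
  have h6 := Nat.eq_one_of_dvd_coprimes h5 h4 h3
  exact sub_eq_zero.1 (AddMonoid.addOrderOf_eq_one_iff.1 h6)

omit [Fact p.Prime] in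
theorem dec_iff {a : Ω} {f : (ℝ ⧸ vg E) →₀ Ω} :
    IsDec p E a f ↔ (∀ c, InLine p E c (f c)) ∧ a = Finsupp.degree f := Iff.rfl

omit [Fact p.Prime] in
theorem dec_zero : IsDec p E (0 : Ω) 0 := ⟨fun _ => Or.inl rfl, by simp⟩

omit [Fact p.Prime] in
theorem dec_single (c : ℝ ⧸ vg E) (a : Ω) (ha : InLine p E c a) :
    IsDec p E a (Finsupp.single c a) := by
  classical
  refine dec_iff.2 ⟨fun c' => ?_, by simp⟩
  rw [Finsupp.single_apply]
  split_ifs with h
  · exact h ▸ ha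
  · exact Or.inl rfl

theorem dec_smul {a : Ω} {f : (ℝ ⧸ vg E) →₀ Ω} (hf : IsDec p E a f) {e : Ω} (he : e ∈ E) :
    IsDec p E (e * a) (e • f) := by
  refine ⟨fun c => inLine_smul c _ e he (hf.1 c), ?_⟩
  rw [hf.2, Finset.mul_sum]
  exact (Finset.sum_subset (Finsupp.support_smul (b := e) (g := f))
    fun c _ hc => Finsupp.notMem_support_iff.1 hc).symm

omit [Fact p.Prime] in
theorem dec_norm_le [IsUltrametricDist Ω] (a : Ω) (f : (ℝ ⧸ vg E) →₀ Ω) (hf : IsDec p E a f)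
    (c : ℝ ⧸ vg E) : ‖f c‖ ≤ ‖a‖ := by
  by_cases hc : c ∈ f.support
  swap
  · rw [Finsupp.notMem_support_iff.1 hc, norm_zero]; exact norm_nonneg _
  rw [hf.2, IsUltrametricDist.norm_sum_eq_sup'_of_pairwise_ne ⟨c, hc⟩]
  · exact Finset.le_sup' (fun i => ‖f i‖) hc
  · intro i hi j hj hij h
    have hi' := (hf.1 i).resolve_left (Finsupp.mem_support_iff.1 hi)
    have hj' := (hf.1 j).resolve_left (Finsupp.mem_support_iff.1 hj)
    apply hij
    rw [← hi'.2, ← hj'.2, nu, nu, h]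

/-- The sublattice of monomials that lie in `E`. -/
def sub (s : Stage Ω) (hs : Adapted p E s) : Stage Ω where
  Λ :=
    { carrier := {α | α ∈ s.Λ ∧ s.mon α ∈ E}
      zero_mem' := ⟨s.Λ.zero_mem, by rw [mon_zero]; exact E.one_mem⟩
      add_mem' := fun {a b} ha hb =>
        ⟨s.Λ.add_mem ha.1 hb.1, by rw [s.mon_add a ha.1 b hb.1]; exact E.mul_mem ha.2 hb.2⟩
      neg_mem' := fun {a} ha => ⟨s.Λ.neg_mem ha.1, by
        rw [← zero_sub, mon_sub s s.Λ.zero_mem ha.1, mon_zero]; exact E.div_mem E.one_mem ha.2⟩ }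
  fg := by
    have h := s.fg
    rw [← AddSubgroup.toIntSubmodule_toAddSubgroup s.Λ, ← Submodule.fg_iff_addSubgroup_fg] at h
    rw [← AddSubgroup.toIntSubmodule_toAddSubgroup (AddSubgroup.mk _ _),
      ← Submodule.fg_iff_addSubgroup_fg]
    exact h.of_le fun a ha => ha.1
  full := fun a ha => by
    obtain ⟨d, hd, hda⟩ := s.full a ha
    obtain ⟨_, n, hn, hmem⟩ := hs.1 _ hda
    have hn0 : 0 < n := Nat.pos_of_ne_zero fun h => hn (h ▸ dvd_zero p)
    refine ⟨n * d, Nat.mul_pos hn0 hd, ?_⟩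
    have h1 : ((n * d : ℕ) : ℝ) * nu a = n • ((d : ℝ) * nu a) := by
      rw [nsmul_eq_mul]; push_cast; ring
    rw [h1]
    exact ⟨s.Λ.nsmul_mem hda n, by rw [mon_nsmul s hda]; exact hmem⟩
  mon := s.mon
  mon_add := fun α hα β hβ => s.mon_add α hα.1 β hβ.1
  norm_mon := fun α hα => s.norm_mon α hα.1
  y := s.y
  norm_y := s.norm_y

omit [Fact p.Prime] in
theorem sub_le (s : Stage Ω) (hs : Adapted p E s) : (sub s hs).M k ≤ E := by
  refine adjoin_le_iff.2 ?_
  rintro _ (⟨α, hα, rfl⟩ | rfl)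
  exacts [hα.2, hs.2]

omit [Fact p.Prime] in
theorem sub_le' (s : Stage Ω) (hs : Adapted p E s) : (sub s hs).M k ≤ s.M k := by
  refine adjoin_le_iff.2 ?_
  rintro _ (⟨α, hα, rfl⟩ | rfl)
  exacts [mon_mem s hα.1, y_mem s]

omit [Fact p.Prime] in
theorem sub_sep [CharP Ω p] (s : Stage Ω) (hs : Adapted p E s) :
    SepOver ((sub s hs).M k) (s.M k) := by
  suffices h : s.M k ≤ (separableClosure ((sub s hs).M k) Ω).restrictScalars k from
    fun a ha => h ha
  refine adjoin_le_iff.2 ?_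
  rintro _ (⟨α, hα, rfl⟩ | rfl)
  · obtain ⟨h0, n, hn, hmem⟩ := hs.1 α hα
    have h1 : s.mon α ^ n ∈ (sub s hs).M k := by
      rw [← mon_nsmul s hα]
      exact mon_mem (sub s hs) ⟨s.Λ.nsmul_mem hα n, by rw [mon_nsmul s hα]; exact hmem⟩
    have h2 : (n : (sub s hs).M k) ≠ 0 := fun h => hn <| by
      have := congrArg (algebraMap ((sub s hs).M k) Ω) h
      rw [map_natCast, map_zero] at this
      exact (CharP.cast_eq_zero_iff Ω p n).1 this
    have h3 := separable_X_pow_sub_C (⟨_, h1⟩ : (sub s hs).M k) h2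
      (fun h => pow_ne_zero n h0 (congrArg Subtype.val h))
    exact h3.of_dvd (minpoly.dvd _ _ (by simp))
  · exact isSeparable_algebraMap (⟨s.y, y_mem (sub s hs)⟩ : (sub s hs).M k)

end Elem

variable {k Ω : Type*} [Field k] [NontriviallyNormedField Ω] [Algebra k Ω] {p : ℕ}
  [Fact p.Prime] {E : IntermediateField k Ω}

theorem inLine_div (hb : HB k Ω p) (hE : Algebra.IsAlgebraic E Ω) (hH : IsHens E)
    (c : ℝ ⧸ vg E) (a b : Ω) (ha : InLine p E c a) (hb' : InLine p E c b) : a / b ∈ E := by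
  rcases ha with rfl | ⟨ha, hc⟩
  · simp
  rcases hb' with rfl | ⟨hb', hc'⟩
  · simp
  have h1 : cl E (nu b) = cl E (nu a) := hc'.trans hc.symm
  obtain ⟨e, he, he0, hnu⟩ := QuotientAddGroup.eq.1 h1
  have h2 := rad_div (rad_div ha hb') (rad_of_mem he he0)
  have h3 := hb.rad E hE hH _ h2 (norm_eq_one_of_nu h2.1 (by
    rw [nu_div (rad_div ha hb').1 he0, nu_div ha.1 hb'.1, hnu]; ring))
  have h4 := E.mul_mem h3 he
  rwa [div_mul_cancel₀ _ he0] at h4

theorem inLine_add (hb : HB k Ω p) (hE : Algebra.IsAlgebraic E Ω) (hH : IsHens E)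
    (c : ℝ ⧸ vg E) (a b : Ω) (ha : InLine p E c a) (hb' : InLine p E c b) :
    InLine p E c (a + b) := by
  by_cases h0 : a = 0
  · simpa [h0] using hb'
  have h1 := inLine_smul c a _ (E.add_mem E.one_mem (inLine_div hb hE hH c b a hb' ha)) ha
  rwa [add_mul, one_mul, div_mul_cancel₀ _ h0] at h1

theorem dec_add (hb : HB k Ω p) (hE : Algebra.IsAlgebraic E Ω) (hH : IsHens E)
    (a b : Ω) (f g : (ℝ ⧸ vg E) →₀ Ω) (hf : IsDec p E a f) (hg : IsDec p E b g) :
    IsDec p E (a + b) (f + g) :=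
  dec_iff.2 ⟨fun c => inLine_add hb hE hH c _ _ (hf.1 c) (hg.1 c), by
    rw [map_add, (dec_iff.1 hf).2, (dec_iff.1 hg).2]⟩

theorem dec_sub (hb : HB k Ω p) (hE : Algebra.IsAlgebraic E Ω) (hH : IsHens E)
    (a b : Ω) (f g : (ℝ ⧸ vg E) →₀ Ω) (hf : IsDec p E a f) (hg : IsDec p E b g) :
    IsDec p E (a - b) (f - g) := by
  have h := dec_add hb hE hH _ _ _ _ hf (dec_smul hg (E.neg_mem E.one_mem))
  rwa [neg_one_mul, neg_one_smul, ← sub_eq_add_neg, ← sub_eq_add_neg] at h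

/-- The henselization of a stage lies in the compositum of the monomials with a henselian field
that contains the last coordinate. -/
theorem hens_le_sup (hb : HB k Ω p) (L : IntermediateField k Ω) (hL : Algebra.IsAlgebraic L Ω)
    (hH : IsHens L) (s : Stage Ω) (hy : s.y ∈ L) :
    hens (s.M k) ≤ L ⊔ adjoin k (s.mon '' s.Λ) := by
  refine hb.hens_le _ (alg_mono le_sup_left hL) (isHens_mono le_sup_left hH) _ ?_
  refine adjoin_le_iff.2 ?_
  rintro x (hx | rfl)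
  · exact (le_sup_right : adjoin k (s.mon '' s.Λ) ≤ _) (IntermediateField.subset_adjoin _ _ hx)
  · exact (le_sup_left : L ≤ _) hy

theorem dec_of (hb : HB k Ω p) (hE : Algebra.IsAlgebraic E Ω) (hH : IsHens E)
    (s : Stage Ω) (hs : Adapted p E s) (L Q : IntermediateField k Ω)
    (hL : Algebra.IsAlgebraic L Ω) (hLE : L ≤ E) (hLQ : L ≤ Q) (hMQ : s.M k ≤ Q) :
    ∀ x ∈ L ⊔ adjoin k (s.mon '' s.Λ), ∃ f, IsDec p E x f ∧ ∀ c, f c ∈ Q := by
  classical
  refine sup_induction L hL s _ ⟨0, dec_zero, fun _ => Q.zero_mem⟩ ?_ ?_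
  · rintro a b ⟨f, hf, hf'⟩ ⟨g, hg, hg'⟩
    exact ⟨f + g, dec_add hb hE hH _ _ _ _ hf hg, fun c => Q.add_mem (hf' c) (hg' c)⟩
  · intro l hl α hα
    refine ⟨_, dec_single (cl E (nu (s.mon α))) _
      (inLine_smul _ _ l (hLE hl) (Or.inr ⟨hs.1 α hα, rfl⟩)), fun c => ?_⟩
    rw [Finsupp.single_apply]
    split_ifs
    · exact Q.mul_mem (hLQ hl) (hMQ (mon_mem s hα))
    · exact Q.zero_mem

end Lines

variable {k Ω : Type*} [Field k] [NontriviallyNormedField Ω] [IsUltrametricDist Ω] [Algebra k Ω]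
  [IsAlgClosed k] [IsAlgClosed Ω] [Ctx k Ω] {p : ℕ} [Fact p.Prime] [CharP k p] [CharP Ω p]

open Lines in
omit [IsAlgClosed k] [IsAlgClosed Ω] [Ctx k Ω] [CharP k p] in
theorem lines (hb : HB k Ω p) (hh : HensStmt k Ω) : LineStmt k Ω p := by
  intro E hE hH
  refine
    { add := inLine_add hb hE hH
      smul := inLine_smul
      mul := inLine_mul
      div := inLine_div hb hE hH
      inj := cl_inj
      norm_le := dec_norm_le
      uniq := fun a f g hf hg => ?_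
      dec_add := dec_add hb hE hH
      dec_sub := dec_sub hb hE hH
      dec_single := dec_single
      dec_hens := fun s hs halg l hl => ?_
      dec_sup := fun s hs halg a ha => ?_ }
  · have h := dec_sub hb hE hH _ _ _ _ hf hg
    rw [sub_self] at h
    ext c
    have h1 := dec_norm_le _ _ h c
    rw [norm_zero, norm_le_zero_iff, Finsupp.sub_apply, sub_eq_zero] at h1
    exact h1
  · have h0 : Algebra.IsAlgebraic ((sub s hs).M k) Ω := alg_of_sep (sub_sep s hs) halg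
    have h1 : Algebra.IsAlgebraic (hens ((sub s hs).M k)) Ω := alg_mono (le_hens _) h0
    refine dec_of hb hE hH s hs (hens ((sub s hs).M k)) _ h1
      (hb.hens_le E hE hH _ (sub_le s hs))
      (hb.hens_le _ (alg_mono (le_hens _) halg) (hh _ halg) _
        ((sub_le' s hs).trans (le_hens _))) (le_hens _) l ?_
    exact hens_le_sup hb _ h1 (hh _ h0) s (le_hens _ (y_mem (sub s hs))) hl
  · refine dec_of hb hE hH s hs E _ hE le_rfl le_sup_right
      ((le_hens _).trans le_sup_left) a ?_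
    exact sup_le (hens_le_sup hb E hE hH s hs.2) le_sup_left ha

end Pool.Agent.MP_19ffc6_ag.LU

end MrgPart1

-- ======== part 2: formerly Pool.Agent.MP_19ffc6_ag.LU.Down
section MrgPart2

/-! Module LN, second part: descent of an adapted stage. -/

namespace Pool.Agent.MP_19ffc6_ag.LU

open Polynomial IntermediateField Lines

namespace Down

variable {k Ω : Type*} [Field k] [NontriviallyNormedField Ω] [Algebra k Ω] {p : ℕ}
  [Fact p.Prime] {E : IntermediateField k Ω}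

open Classical in
/-- A lattice point of class `c`, if there is one. -/
noncomputable def rep (E : IntermediateField k Ω) (s : Stage Ω) (c : ℝ ⧸ vg E) : ℝ :=
  if h : ∃ α ∈ s.Λ, cl E α = c then h.choose else 0

theorem rep_mem (s : Stage Ω) (c : ℝ ⧸ vg E) : rep E s c ∈ s.Λ := by
  unfold rep
  split_ifs with h
  exacts [h.choose_spec.1, s.Λ.zero_mem]

theorem cl_rep (s : Stage Ω) {α : ℝ} (hα : α ∈ s.Λ) : cl E (rep E s (cl E α)) = cl E α := by
  have h : ∃ β ∈ s.Λ, cl E β = cl E α := ⟨α, hα, rfl⟩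
  unfold rep
  rw [dif_pos h]
  exact h.choose_spec.2

/-- Decomposition with components in `L * mon (rep c)`. -/
theorem dec_rep (hl : LineProps p E) (s : Stage Ω) (hs : Adapted p E s)
    (L : IntermediateField k Ω) (hL : Algebra.IsAlgebraic L Ω) (hLE : L ≤ E)
    (hML : (sub s hs).M k ≤ L) :
    ∀ x ∈ L ⊔ adjoin k (s.mon '' s.Λ),
      ∃ f, IsDec p E x f ∧ ∀ c, ∃ l ∈ L, f c = l * s.mon (rep E s c) := by
  classical
  refine sup_induction L hL s _ ⟨0, dec_zero, fun _ => ⟨0, L.zero_mem, by simp⟩⟩ ?_ ?_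
  · rintro a b ⟨f, hf, hf'⟩ ⟨g, hg, hg'⟩
    refine ⟨f + g, hl.dec_add _ _ _ _ hf hg, fun c => ?_⟩
    obtain ⟨l, hl1, e1⟩ := hf' c
    obtain ⟨l', hl2, e2⟩ := hg' c
    exact ⟨l + l', L.add_mem hl1 hl2, by rw [Finsupp.add_apply, e1, e2, add_mul]⟩
  · intro l hlL α hα
    have h1 : InLine p E (cl E α) (s.mon α) := Or.inr ⟨hs.1 α hα, by rw [nu_mon s hα]⟩
    refine ⟨_, dec_single (cl E α) _ (inLine_smul _ _ l (hLE hlL) h1), fun c => ?_⟩
    rw [Finsupp.single_apply]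
    split_ifs with hc
    · subst hc
      have hr := rep_mem (E := E) s (cl E α)
      have h2 : InLine p E (cl E α) (s.mon (rep E s (cl E α))) :=
        Or.inr ⟨hs.1 _ hr, by rw [nu_mon s hr, cl_rep s hα]⟩
      have h3 := hl.div _ _ _ h1 h2
      rw [← mon_sub s hα hr] at h3
      have h4 := hML (mon_mem (sub s hs) (α := α - rep E s (cl E α)) ⟨s.Λ.sub_mem hα hr, h3⟩)
      refine ⟨l * s.mon (α - rep E s (cl E α)), L.mul_mem hlL h4, ?_⟩
      rw [mon_sub s hα hr, mul_assoc, div_mul_cancel₀ _ (mon_ne s hr)]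
    · exact ⟨0, L.zero_mem, by simp⟩

theorem dec_sum (hl : LineProps p E) {ι : Type*} (T : Finset ι) (a : ι → Ω)
    (f : ι → (ℝ ⧸ vg E) →₀ Ω) (h : ∀ i, IsDec p E (a i) (f i)) :
    IsDec p E (∑ i ∈ T, a i) (∑ i ∈ T, f i) := by
  classical
  induction T using Finset.induction_on with
  | empty => simpa using dec_zero
  | insert i T hi ih =>
    rw [Finset.sum_insert hi, Finset.sum_insert hi]
    exact hl.dec_add _ _ _ _ (h i) ih

/-- Linear disjointness in the form of a rank inequality. -/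
theorem rank_le (hl : LineProps p E) (L K Ep : IntermediateField k Ω) (hLE : L ≤ E)
    (hE : E ≤ Ep) (hK : K ≤ Ep) (m : ℝ ⧸ vg E → Ω) (hm : ∀ c, m c ≠ 0)
    (hdec : ∀ x ∈ K, ∃ f, IsDec p E x f ∧ ∀ c, ∃ l ∈ L, f c = l * m c) :
    relrank L E ≤ relrank K Ep := by
  rw [relrank_eq_rank_of_le hLE, relrank_eq_rank_of_le hK]
  let b := Module.Free.chooseBasis L (extendScalars hLE)
  rw [← b.mk_eq_rank'']
  let e : Module.Free.ChooseBasisIndex L (extendScalars hLE) → extendScalars hK :=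
    fun i => ⟨(b i : Ω), hE (b i).2⟩
  refine LinearIndependent.cardinal_le_rank (v := e) (linearIndependent_iff'.2 fun T g hg => ?_)
  choose f hf l hlL hfl using fun i => hdec (g i) (g i).2
  have h0 : ∑ i ∈ T, (b i : Ω) * (g i : Ω) = 0 := by
    have := congrArg (fun x : extendScalars hK => (x : Ω)) hg
    simp only [AddSubmonoidClass.coe_finsetSum, ZeroMemClass.coe_zero] at this
    rw [← this]
    exact Finset.sum_congr rfl fun i _ => mul_comm _ _
  have h1 := dec_sum hl T _ _ fun i => dec_smul (hf i) (e := (b i : Ω)) (b i).2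
  rw [h0] at h1
  have h2 := hl.uniq _ _ _ h1 dec_zero
  intro i hi
  have h3 : ∀ c, l i c = 0 := fun c => by
    have h4 := DFunLike.congr_fun h2 c
    rw [Finsupp.finsetSum_apply, Finsupp.zero_apply] at h4
    have h5 : ∑ j ∈ T, (⟨l j c, hlL j c⟩ : L) • b j = 0 := by
      apply Subtype.ext
      simp only [AddSubmonoidClass.coe_finsetSum, ZeroMemClass.coe_zero]
      apply mul_right_cancel₀ (hm c)
      rw [zero_mul, ← h4, Finset.sum_mul]
      refine Finset.sum_congr rfl fun j _ => ?_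
      rw [Finsupp.smul_apply, hfl, smul_eq_mul, ← mul_assoc, mul_comm (b j : Ω)]
      rfl
    exact congrArg Subtype.val
      (linearIndependent_iff'.1 b.linearIndependent T (fun j => ⟨l j c, hlL j c⟩) h5 i hi)
  apply Subtype.ext
  rw [(hf i).2]
  exact Finset.sum_eq_zero fun c _ => by rw [hfl, h3, zero_mul]

end Down

variable {k Ω : Type*} [Field k] [NontriviallyNormedField Ω] [IsUltrametricDist Ω] [Algebra k Ω]
  [IsAlgClosed k] [IsAlgClosed Ω] [Ctx k Ω] {p : ℕ} [Fact p.Prime] [CharP k p] [CharP Ω p]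

omit [IsUltrametricDist Ω] [IsAlgClosed k] [IsAlgClosed Ω] [Ctx k Ω] [CharP k p] in
theorem down (hb : HB k Ω p) (hh : HensStmt k Ω) (hl : LineStmt k Ω p) : DownStmt k Ω p := by
  intro E Ep t hE hH hEp ht hM hsep
  have hEp' : Algebra.IsAlgebraic Ep Ω := alg_mono hEp hE
  have halg : Algebra.IsAlgebraic (t.M k) Ω := alg_of_sep hsep hEp'
  have h0 : Algebra.IsAlgebraic ((sub t ht).M k) Ω := alg_of_sep (sub_sep t ht) halg
  have h1 : Algebra.IsAlgebraic (hens ((sub t ht).M k)) Ω := alg_mono (le_hens _) h0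
  have h2 : hens ((sub t ht).M k) ≤ E := hb.hens_le E hE hH _ (sub_le t ht)
  refine ⟨sub t ht, sub_le t ht, fun a ha => sep_trans (sub_sep t ht) (hsep a (hEp ha)), rfl, ?_⟩
  refine Down.rank_le (hl E hE hH) _ _ _ h2 hEp
    (hb.hens_le Ep hEp' (isHens_mono hEp hH) _ hM) (fun c => t.mon (Down.rep E t c))
    (fun c => mon_ne t (Down.rep_mem t c)) fun x hx => ?_
  refine Down.dec_rep (hl E hE hH) t ht _ h1 h2 (le_hens _) x ?_
  exact hens_le_sup hb _ h1 (hh _ h0) t (le_hens _ (y_mem (sub t ht))) hx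

end Pool.Agent.MP_19ffc6_ag.LU

end MrgPart2

-- ======== part 3: formerly Pool.Agent.MP_19ffc6_ag.LU.Engine
section MrgPart3

/-! The engine: transitions and cleaning lead to a terminal state. -/

namespace Pool.Agent.MP_19ffc6_ag.LU

open Polynomial IntermediateField

variable {k Ω : Type*} [Field k] [NontriviallyNormedField Ω] [Algebra k Ω] {p : ℕ}

namespace Engine

theorem lead_of {Φ : Pol k} {B : ℝ} (hB : ∀ x ∈ Φ.support, B ≤ x.1) {i : ℕ}
    (hi : (B, i) ∈ Φ.support) : ∃ μ, μ ≤ i ∧ Lead Φ B μ := by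
  classical
  have hex : ∃ j, (B, j) ∈ Φ.support := ⟨i, hi⟩
  exact ⟨Nat.find hex, Nat.find_min' hex hi, hB, Nat.find_spec hex,
    fun j hj => Nat.find_min hex hj⟩

theorem lead_exists {Φ : Pol k} (h : ∃ x ∈ Φ.support, x.1 < 0) :
    ∃ B μ, B < 0 ∧ Lead Φ B μ := by
  obtain ⟨x, hx, hx0⟩ := h
  obtain ⟨z, hz, hmin⟩ := Φ.support.exists_min_image (fun x => x.1) ⟨x, hx⟩
  obtain ⟨μ, -, hμ⟩ := lead_of (Φ := Φ) (B := z.1) hmin (i := z.2) hz
  exact ⟨z.1, μ, (hmin x hx).trans_lt hx0, hμ⟩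

variable (p) in
/-- The hypotheses of the engine together with the absence of terminal states. -/
structure Hyp (flag : Prop) (Inv : Stage Ω → Pol k → Prop) : Prop where
  neg : ∀ s Φ, Inv s Φ → s.Supp Φ → ∃ x ∈ Φ.support, x.1 < 0
  zer : ∀ s Φ Φ', Inv s Φ → Φ'.support ⊆ Φ.support → s.ev k Φ' = s.ev k Φ → Inv s Φ'
  cle : flag → ∀ (s : Stage Ω) (Φ : Pol k) (β : ℝ) (j : ℕ) (c : k), Inv s Φ → s.Supp Φ →
      β ∈ s.Λ → β < 0 →
      ((p : ℝ) * β, p * j) ∈ Φ.support → c ^ p = Φ ((p : ℝ) * β, p * j) →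
      Inv s (Φ - Finsupp.single ((p : ℝ) * β, p * j) (c ^ p) + Finsupp.single (β, j) c)
  tra : ∀ s s' Φ, Inv s Φ → s.Supp Φ → Step k s s' → ∃ ε : ℝ, 0 < ε ∧
      ∀ (Φ' : Pol k) (w : Ω), w ∈ s'.R k → ‖w - 1‖ < ε → s'.ev k Φ' = w * s.ev k Φ →
        (∀ x' ∈ Φ'.support, ∃ x ∈ Φ.support, x'.1 = x.1 + x.2 * nu s.y) → Inv s' Φ'
  no : ∀ s Φ B μ, Inv s Φ → s.Supp Φ → ¬ Term k p flag s Φ B μ

variable (p) in
/-- A clean state. -/
structure CS (flag : Prop) (Inv : Stage Ω → Pol k → Prop) (s : Stage Ω) (Φ : Pol k) (B : ℝ)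
    (μ : ℕ) : Prop where
  inv : Inv s Φ
  supp : s.Supp Φ
  clean : flag → ∀ x ∈ Φ.support, ¬ PW p s.Λ x
  lead : Lead Φ B μ
  neg : B < 0

variable {flag : Prop} {Inv : Stage Ω → Pol k → Prop}

theorem clean_exists (hcl : CleanStmt k p) (H : Hyp p flag Inv) {s : Stage Ω} {Φ : Pol k} {B : ℝ}
    (hI : Inv s Φ) (hS : s.Supp Φ) (hB : ∀ x ∈ Φ.support, B ≤ x.1) :
    ∃ Φ' : Pol k, Inv s Φ' ∧ s.Supp Φ' ∧ (flag → ∀ x ∈ Φ'.support, ¬ PW p s.Λ x) ∧
      (∀ x ∈ Φ'.support, B ≤ x.1) ∧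
      (∀ j, (flag → ¬ PW p s.Λ (B, j)) → (B, j) ∈ Φ.support → (B, j) ∈ Φ'.support) ∧
      ∀ x' ∈ Φ'.support, ∃ x ∈ Φ.support, ∃ t : ℕ,
        (p : ℝ) ^ t * x'.1 = x.1 ∧ p ^ t * x'.2 = x.2 := by
  by_cases hf : flag
  · obtain ⟨Φ', h1, h2, h3, h4, h5, h6⟩ := hcl s.Λ s.fg (Inv s)
      (fun Φ β j c hI hS hβ hβ0 hx hc => H.cle hf s Φ β j c hI hS hβ hβ0 hx hc) Φ B hI hS hB
    refine ⟨Φ', h1, h2, fun _ => h3, h4, fun j hj hm => ?_, h6⟩
    rw [Finsupp.mem_support_iff] at hm ⊢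
    rwa [h5 j (hj hf)]
  · exact ⟨Φ, hI, hS, fun h => absurd h hf, hB, fun _ _ h => h,
      fun x hx => ⟨x, hx, 0, by simp, by simp⟩⟩

theorem CS.mu_pos (H : Hyp p flag Inv) {s : Stage Ω} {Φ : Pol k} {B : ℝ} {μ : ℕ}
    (h : CS p flag Inv s Φ B μ) : 0 < μ := by
  rcases Nat.eq_zero_or_pos μ with rfl | h0
  · exact absurd ⟨h.neg, h.lead, Or.inl ⟨rfl, fun hf hm =>
      h.clean hf _ h.lead.2.1 ⟨h.neg, hm, dvd_zero _⟩⟩⟩ (H.no s Φ B 0 h.inv h.supp)
  · exact h0

theorem CS.y_ne (H : Hyp p flag Inv) {s : Stage Ω} {Φ : Pol k} {B : ℝ} {μ : ℕ}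
    (h : CS p flag Inv s Φ B μ) : s.y ≠ 0 := by
  classical
  intro hy
  have hsub : (Φ.filter fun x => x.2 = 0).support ⊆ Φ.support := by
    rw [Finsupp.support_filter]; exact Finset.filter_subset _ _
  have hev : s.ev k (Φ.filter fun x => x.2 = 0) = s.ev k Φ := by
    have h1 : s.ev k (Φ.filter fun x => ¬ x.2 = 0) = 0 := by
      rw [s.ev_eq_sum]
      refine Finset.sum_eq_zero fun x hx => ?_
      rw [Finsupp.support_filter, Finset.mem_filter] at hx
      rw [hy, zero_pow hx.2, mul_zero, mul_zero]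
    conv_rhs => rw [← Finsupp.filter_add_filter_not Φ fun x => x.2 = 0]
    rw [map_add, h1, add_zero]
  have hI := H.zer s Φ _ h.inv hsub hev
  have hS := h.supp.mono hsub
  obtain ⟨B', μ', hB', hl⟩ := lead_exists (H.neg s _ hI hS)
  have h' : CS p flag Inv s (Φ.filter fun x => x.2 = 0) B' μ' :=
    ⟨hI, hS, fun hf x hx => h.clean hf x (hsub hx), hl, hB'⟩
  have h2 := hl.2.1
  rw [Finsupp.support_filter, Finset.mem_filter] at h2
  exact (h'.mu_pos H).ne' h2.2

theorem CS.mu_gt (H : Hyp p flag Inv) {s : Stage Ω} {Φ : Pol k} {B : ℝ} {μ : ℕ}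
    (h : CS p flag Inv s Φ B μ) (hf : flag) (hm : PMul p s.Λ B) : p < μ := by
  have h1 : ¬ μ < p := fun hlt => H.no s Φ B μ h.inv h.supp
    ⟨h.neg, h.lead, Or.inr ⟨hf, h.y_ne H, h.mu_pos H, hlt, hm⟩⟩
  have h2 : μ ≠ p := fun he => h.clean hf _ h.lead.2.1 ⟨h.neg, hm, he ▸ dvd_rfl⟩
  omega

/-- One stationary transition between clean states of minimal order. -/
theorem step [Fact p.Prime] (hcl : CleanStmt k p) (hle : LeStmt k Ω p) (htr : TransStmt k Ω p)
    (H : Hyp p flag Inv) {h : ℕ}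
    (hmin : ∀ (s : Stage Ω) (Φ : Pol k) (B : ℝ) (μ : ℕ), CS p flag Inv s Φ B μ → h ≤ μ)
    {s : Stage Ω} {Φ : Pol k} {B : ℝ} (hc : CS p flag Inv s Φ B h) :
    ∃ (s' : Stage Ω) (Φ' : Pol k), CS p flag Inv s' Φ' (B + h * nu s.y) h ∧ s'.Λ = s.Λ ∧
      nu s.y ∈ s.Λ ∧ (∃ x ∈ Φ.support, x.2 < h ∧ x.1 + x.2 * nu s.y = B + h * nu s.y) ∧
      ∀ x' ∈ Φ'.support, ∃ x ∈ Φ.support, ∃ t : ℕ,
        (p : ℝ) ^ t * x'.1 = x.1 + x.2 * nu s.y ∧ p ^ t * x'.2 ≤ x.2 := by
  classical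
  have hp : 2 ≤ p := (Fact.out : p.Prime).two_le
  have hy := hc.y_ne H
  have hh := hc.mu_pos H
  have hγ : 0 < nu s.y := (nu_pos_iff hy).2 s.norm_y
  obtain ⟨s', d, σ, c, hst⟩ := hle.step s hy
  obtain ⟨ε, hε, hT⟩ := H.tra s s' Φ hc.inv hc.supp ⟨d, σ, c, hst⟩
  obtain ⟨Φ1, w, hS1, hw, hw1, hev, hgen, hord⟩ := htr s s' d σ c hst Φ hc.supp ε hε
  have hI1 : Inv s' Φ1 := hT Φ1 w hw hw1 hev fun x' hx' => by
    obtain ⟨x, hx, h1, -⟩ := hgen x' hx'
    exact ⟨x, hx, h1⟩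
  obtain ⟨z, hz, hzmin⟩ := Φ.support.exists_min_image (fun x => x.1 + x.2 * nu s.y)
    ⟨_, hc.lead.2.1⟩
  obtain ⟨B2, hB2⟩ : ∃ B2, B2 = z.1 + z.2 * nu s.y := ⟨_, rfl⟩
  rw [← hB2] at hzmin
  have hne : (Φ.support.filter fun x => x.1 + x.2 * nu s.y = B2).Nonempty :=
    ⟨z, Finset.mem_filter.2 ⟨hz, hB2.symm⟩⟩
  obtain ⟨xl, hxl, hlo⟩ := Finset.exists_min_image _ (fun x : ℝ × ℕ => x.2) hne
  obtain ⟨xh, hxh, hhi⟩ := Finset.exists_max_image _ (fun x : ℝ × ℕ => x.2) hne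
  rw [Finset.mem_filter] at hxl hxh
  obtain ⟨hord1, hord2⟩ := hord B2 xl.2 xh.2 ⟨z, hz, hB2.symm⟩ fun x hx he =>
    ⟨hlo x (Finset.mem_filter.2 ⟨hx, he⟩), hhi x (Finset.mem_filter.2 ⟨hx, he⟩)⟩
  have hlow : ∀ x' ∈ Φ1.support, B2 ≤ x'.1 := fun x' hx' => by
    obtain ⟨x, hx, h1, -⟩ := hgen x' hx'
    rw [h1]; exact hzmin x hx
  have hB2neg : B2 < 0 := by
    obtain ⟨x', hx', h0⟩ := H.neg s' Φ1 hI1 hS1
    exact (hlow x' hx').trans_lt h0
  have hB2le : B2 ≤ B + h * nu s.y := hzmin _ hc.lead.2.1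
  have hxhB : B ≤ xh.1 := hc.lead.1 xh hxh.1
  have hhih : xh.2 ≤ h := by
    have h1 : (xh.2 : ℝ) * nu s.y ≤ h * nu s.y := by linarith [hxh.2]
    exact_mod_cast le_of_mul_le_mul_right h1 hγ
  obtain ⟨Φ2, hI2, hS2, hcl2, hlow2, hkeep, hgen2⟩ := clean_exists hcl H hI1 hS1 hlow
  have hdpos := hst.d_pos
  have hΛ : d = 1 → nu s.y ∈ s.Λ ∧ s'.Λ = s.Λ := fun hd => by
    have h1 : nu s.y ∈ s.Λ := by simpa [hd] using hst.toIsExt.d_mul_mem
    refine ⟨h1, ?_⟩
    rw [hst.lat]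
    exact sup_eq_left.2 ((AddSubgroup.zmultiples_le).2 h1)
  have key : d = 1 ∧ xl.2 < h ∧ xh.2 = h ∧ Lead Φ2 B2 h := by
    by_cases hcase : flag ∧ PMul p s'.Λ B2
    · obtain ⟨hf, hm⟩ := hcase
      have hneg : ∀ x ∈ Φ.support, x.1 + x.2 * nu s.y = B2 → x.1 < 0 := fun x _ he => by
        have : 0 ≤ (x.2 : ℝ) * nu s.y := by positivity
        linarith
      obtain ⟨i, hi, hpi, hdi⟩ := hord2 hm fun x hx he hh' =>
        hc.clean hf x hx ⟨hneg x hx he, hh'.1, hh'.2⟩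
      obtain ⟨μ2, hμi, hl2⟩ := lead_of hlow2 (hkeep (i + 1) (fun _ hw => hpi hw.2.2) hi)
      have hc2 : CS p flag Inv s' Φ2 B2 μ2 := ⟨hI2, hS2, hcl2, hl2, hB2neg⟩
      have h1 := hc2.mu_gt H hf hm
      have h2 := hmin _ _ _ _ hc2
      have hd : d = 1 := by
        by_contra hd
        have : 2 * i ≤ d * i := Nat.mul_le_mul_right i (by omega)
        omega
      have hl0 : xl.2 ≠ 0 := fun h0 => by
        have he : xl.1 = B2 := by simpa [h0] using hxl.2
        refine hc.clean hf xl hxl.1 ⟨hneg xl hxl.1 hxl.2, ?_, h0 ▸ dvd_zero _⟩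
        rw [he, ← (hΛ hd).2]; exact hm
      rw [hd, one_mul] at hdi
      have h3 : μ2 = h := by omega
      exact ⟨hd, by omega, by omega, h3 ▸ hl2⟩
    · obtain ⟨i, hi, hdi⟩ := hord1
      obtain ⟨μ2, hμi, hl2⟩ := lead_of hlow2
        (hkeep i (fun hf hw => hcase ⟨hf, hw.2.1⟩) hi)
      have h2 := hmin _ _ _ _ (⟨hI2, hS2, hcl2, hl2, hB2neg⟩ : CS p flag Inv s' Φ2 B2 μ2)
      have hd : d = 1 := by
        by_contra hd
        have : 2 * i ≤ d * i := Nat.mul_le_mul_right i (by omega)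
        omega
      rw [hd, one_mul] at hdi
      have h3 : μ2 = h := by omega
      exact ⟨hd, by omega, by omega, h3 ▸ hl2⟩
  obtain ⟨hd, hl, hh', hlead⟩ := key
  have hBeq : B2 = B + h * nu s.y := by
    have h1 := hxh.2
    rw [hh'] at h1
    linarith
  refine ⟨s', Φ2, hBeq ▸ ⟨hI2, hS2, hcl2, hlead, hB2neg⟩, (hΛ hd).2, (hΛ hd).1,
    ⟨xl, hxl.1, hl, hBeq ▸ hxl.2⟩, fun x'' hx'' => ?_⟩
  obtain ⟨x', hx', t, h1, h2⟩ := hgen2 x'' hx''
  obtain ⟨x, hx, h3, h4⟩ := hgen x' hx'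
  exact ⟨x, hx, t, h1.trans h3, h2 ▸ h4 hd⟩

theorem absurd_of [Fact p.Prime] (hch : ChainStmt p) (hcl : CleanStmt k p) (hle : LeStmt k Ω p)
    (htr : TransStmt k Ω p) (H : Hyp p flag Inv) {s : Stage Ω} {Φ : Pol k} (hI : Inv s Φ)
    (hS : s.Supp Φ) : False := by
  classical
  have hex : ∃ μ, ∃ (s : Stage Ω) (Φ : Pol k) (B : ℝ), CS p flag Inv s Φ B μ := by
    obtain ⟨B, μ, -, hl⟩ := lead_exists (H.neg s Φ hI hS)
    obtain ⟨Φ', h1, h2, h3, -⟩ := clean_exists hcl H hI hS hl.1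
    obtain ⟨B', μ', hB', hl'⟩ := lead_exists (H.neg s Φ' h1 h2)
    exact ⟨μ', s, Φ', B', h1, h2, h3, hl', hB'⟩
  obtain ⟨h, ⟨s0, Φ0, B0, hc0⟩, hmin⟩ : ∃ h, (∃ (s : Stage Ω) (Φ : Pol k) (B : ℝ),
      CS p flag Inv s Φ B h) ∧
      ∀ (s : Stage Ω) (Φ : Pol k) (B : ℝ) (μ : ℕ), CS p flag Inv s Φ B μ → h ≤ μ :=
    ⟨Nat.find hex, Nat.find_spec hex, fun s Φ B μ hc => Nat.find_min' hex ⟨s, Φ, B, hc⟩⟩
  let St := {q : Stage Ω × Pol k × ℝ // CS p flag Inv q.1 q.2.1 q.2.2 h ∧ q.1.Λ = s0.Λ}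
  have hnext : ∀ q : St, ∃ q' : St, q'.1.2.2 = q.1.2.2 + h * nu q.1.1.y ∧ nu q.1.1.y ∈ s0.Λ ∧
      (∃ x ∈ q.1.2.1.support, x.2 < h ∧ x.1 + x.2 * nu q.1.1.y = q.1.2.2 + h * nu q.1.1.y) ∧
      ∀ x' ∈ q'.1.2.1.support, ∃ x ∈ q.1.2.1.support, ∃ t : ℕ,
        (p : ℝ) ^ t * x'.1 = x.1 + x.2 * nu q.1.1.y ∧ p ^ t * x'.2 ≤ x.2 := by
    rintro ⟨⟨s1, Φ1, B1⟩, hc, hΛ⟩
    obtain ⟨s', Φ', h1, h2, h3, h4, h5⟩ := step hcl hle htr H hmin hc
    exact ⟨⟨(s', Φ', B1 + h * nu s1.y), h1, h2.trans hΛ⟩, rfl, SetLike.le_def.1 hΛ.le h3, h4, h5⟩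
  choose nx hnx using hnext
  let q : ℕ → St := fun n => nx^[n] ⟨(s0, Φ0, B0), hc0, rfl⟩
  have hq : ∀ n, q (n + 1) = nx (q n) := fun n => Function.iterate_succ_apply' _ _ _
  refine hch s0.Λ s0.fg (fun n => (q n).1.2.1.support) (fun n => nu (q n).1.1.y)
    (fun n => (q n).1.2.2) h (hc0.mu_pos H) 
    (fun n x hx => SetLike.le_def.1 (q n).2.2.le ((q n).2.1.supp x hx))
    (fun n => (hnx (q n)).2.1) (fun n => (nu_pos_iff ((q n).2.1.y_ne H)).2 (q n).1.1.norm_y)
    (fun n => SetLike.le_def.1 (q n).2.2.le ((q n).2.1.supp _ (q n).2.1.lead.2.1)) (fun n => ?_)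
    (fun n => (q n).2.1.neg) (q 0).2.1.lead.1 (fun n => (hnx (q n)).2.2.1) fun n => ?_
  · simp only [hq]; exact (hnx (q n)).1
  · simp only [hq]; exact (hnx (q n)).2.2.2

end Engine

theorem engine [Fact p.Prime] (hch : ChainStmt p) (hcl : CleanStmt k p) (hle : LeStmt k Ω p)
    (htr : TransStmt k Ω p) : EngineStmt k Ω p := by
  intro flag Inv h1 h2 h3 h4 s Φ hI hS
  by_contra hno
  exact Engine.absurd_of hch hcl hle htr
    ⟨h1, h2, h3, h4, fun s Φ B μ a b c => hno ⟨s, Φ, B, μ, a, b, c⟩⟩ hI hS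

end Pool.Agent.MP_19ffc6_ag.LU

end MrgPart3

-- ======== part 4: formerly Pool.Agent.MP_19ffc6_ag.LU.LemD
section MrgPart4

/-! Module DD of PROJECT LU1: inverses of norm one elements and the degree bound by Nakayama. -/

namespace Pool.Agent.MP_19ffc6_ag.LU

open Polynomial IntermediateField

variable {k Ω : Type*} [Field k] [NontriviallyNormedField Ω] [IsUltrametricDist Ω] [Algebra k Ω]

namespace LemD

/-- The valuation ring of `L` as a subring of `Ω`. -/
def Oring (L : IntermediateField k Ω) : Subring Ω where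
  carrier := {a | a ∈ L ∧ ‖a‖ ≤ 1}
  mul_mem' := by
    rintro a b ⟨ha, ha'⟩ ⟨hb, hb'⟩
    refine ⟨L.mul_mem ha hb, ?_⟩
    rw [norm_mul]
    exact mul_le_one₀ ha' (norm_nonneg _) hb'
  one_mem' := ⟨L.one_mem, by simp⟩
  add_mem' := by
    rintro a b ⟨ha, ha'⟩ ⟨hb, hb'⟩
    exact ⟨L.add_mem ha hb, (IsUltrametricDist.norm_add_le_max a b).trans (max_le ha' hb')⟩
  zero_mem' := ⟨L.zero_mem, by simp⟩
  neg_mem' := by
    rintro a ⟨ha, ha'⟩
    exact ⟨L.neg_mem ha, by simpa using ha'⟩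

theorem mem_Oring {L : IntermediateField k Ω} {a : Ω} : a ∈ Oring L ↔ a ∈ L ∧ ‖a‖ ≤ 1 := Iff.rfl

/-- The maximal ideal of the valuation ring. -/
def mIdeal (L : IntermediateField k Ω) : Ideal (Oring L) where
  carrier := {a | ‖(a : Ω)‖ < 1}
  add_mem' := by
    intro a b ha hb
    exact (IsUltrametricDist.norm_add_le_max (a : Ω) b).trans_lt (max_lt ha hb)
  zero_mem' := by simp
  smul_mem' := by
    intro c a ha
    change ‖(c : Ω) * a‖ < 1
    rw [norm_mul]
    exact mul_lt_one_of_nonneg_of_lt_one_right c.2.2 (norm_nonneg _) ha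

theorem mem_mIdeal {L : IntermediateField k Ω} {a : Oring L} : a ∈ mIdeal L ↔ ‖(a : Ω)‖ < 1 :=
  Iff.rfl

theorem mIdeal_le (L : IntermediateField k Ω) : mIdeal L ≤ Ideal.jacobson ⊥ := by
  intro x hx
  rw [Ideal.mem_jacobson_bot]
  intro y
  have h1 : ‖((x * y : Oring L) : Ω)‖ < 1 := (mIdeal L).mul_mem_right y hx
  have h2 : ‖((x * y + 1 : Oring L) : Ω)‖ = 1 := by
    have h3 : ‖((x * y : Oring L) : Ω)‖ ≠ ‖(1 : Ω)‖ := by rw [norm_one]; exact h1.ne
    have := IsUltrametricDist.norm_add_eq_max_of_norm_ne_norm h3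
    rw [norm_one, max_eq_right h1.le] at this
    simpa using this
  have h0 : ((x * y + 1 : Oring L) : Ω) ≠ 0 := by
    intro h; rw [h, norm_zero] at h2; exact zero_ne_one h2
  refine isUnit_iff_exists_inv.2 ⟨⟨((x * y + 1 : Oring L) : Ω)⁻¹, L.inv_mem (x * y + 1).2.1, ?_⟩,
    Subtype.ext (mul_inv_cancel₀ h0)⟩
  rw [norm_inv, h2, inv_one]

omit [IsUltrametricDist Ω] in
theorem O_le_Aring {L : IntermediateField k Ω} {G : Set Ω} {a : Ω} (ha : a ∈ L) (h1 : ‖a‖ ≤ 1) :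
    a ∈ Aring L G := Algebra.subset_adjoin (Or.inl ⟨ha, h1⟩)

theorem mem_adjoin_of_mem_Aring [Ctx k Ω] {L : IntermediateField k Ω} {G : Set Ω} {a : Ω}
    (ha : a ∈ Aring L G) : a ∈ Algebra.adjoin (Oring L) G := by
  induction ha using Algebra.adjoin_induction with
  | mem x hx =>
    rcases hx with hx | hx
    · exact (Algebra.adjoin (Oring L) G).algebraMap_mem ⟨x, hx⟩
    · exact Algebra.subset_adjoin hx
  | algebraMap r =>
    refine (Algebra.adjoin (Oring L) G).algebraMap_mem ⟨algebraMap k Ω r, L.algebraMap_mem r, ?_⟩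
    by_cases hr : r = 0
    · simp [hr]
    · exact (Ctx.norm_alg r hr).le
  | add x y _ _ hx hy => exact add_mem hx hy
  | mul x y _ _ hx hy => exact mul_mem hx hy

theorem isIntegral_O {L : IntermediateField k Ω} {a : Ω} (hi : IsIntegral L a)
    (h : ∀ i, ‖((minpoly L a).coeff i : Ω)‖ ≤ 1) : IsIntegral (Oring L) a := by
  have hc : (↑((minpoly L a).map (algebraMap L Ω)).coeffs : Set Ω) ⊆ Oring L := by
    intro c hc
    obtain ⟨i, -, rfl⟩ := mem_coeffs_iff.1 hc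
    rw [coeff_map]
    exact ⟨((minpoly L a).coeff i).2, h i⟩
  refine ⟨((minpoly L a).map (algebraMap L Ω)).toSubring _ hc,
    (monic_toSubring _ _ _).2 ((minpoly.monic hi).map _), ?_⟩
  have h1 : eval₂ (algebraMap (Oring L) Ω) a
      (((minpoly L a).map (algebraMap L Ω)).toSubring _ hc) =
      eval a ((((minpoly L a).map (algebraMap L Ω)).toSubring _ hc).map (Oring L).subtype) := by
    rw [eval_map]; rfl
  rw [h1, map_toSubring, eval_map, ← aeval_def, minpoly.aeval]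

omit [IsUltrametricDist Ω] in
/-- A submodule containing one and stable under the generators contains the algebra. -/
theorem adjoin_le_of_stable {R : Type*} [CommRing R] [Algebra R Ω] (G : Set Ω)
    (N : Submodule R Ω) (h1 : (1 : Ω) ∈ N) (hG : ∀ g ∈ G, ∀ x ∈ N, g * x ∈ N) :
    ∀ a ∈ Algebra.adjoin R G, a ∈ N := by
  have key : ∀ a ∈ Algebra.adjoin R G, ∀ x ∈ N, a * x ∈ N := by
    intro a ha
    induction ha using Algebra.adjoin_induction with
    | mem g hg => exact hG g hg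
    | algebraMap r =>
      intro x hx
      rw [← Algebra.smul_def]
      exact N.smul_mem r hx
    | add a b _ _ ha hb =>
      intro x hx
      rw [add_mul]
      exact N.add_mem (ha x hx) (hb x hx)
    | mul a b _ _ ha hb =>
      intro x hx
      rw [mul_assoc]
      exact ha _ (hb x hx)
  intro a ha
  simpa using key a ha 1 h1

section mono

variable {ι : Type} [Fintype ι] [DecidableEq ι]

/-- The reduced monomials. -/
noncomputable def mono (g : ι → Ω) (n : ι → ℕ) (e : (i : ι) → Fin (n i)) : Ω :=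
  ∏ i, g i ^ (e i : ℕ)

omit [IsUltrametricDist Ω] in
theorem mono_update (g : ι → Ω) (n : ι → ℕ) (e : (i : ι) → Fin (n i)) (i : ι) (v : Fin (n i)) :
    mono g n (Function.update e i v) = g i ^ (v : ℕ) * ∏ j ∈ Finset.univ.erase i, g j ^ (e j : ℕ) := by
  unfold mono
  rw [← Finset.mul_prod_erase Finset.univ _ (Finset.mem_univ i), Function.update_self]
  congr 1
  refine Finset.prod_congr rfl fun j hj => ?_
  rw [Function.update_of_ne (Finset.ne_of_mem_erase hj)]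

omit [IsUltrametricDist Ω] in
theorem mul_mono (g : ι → Ω) (n : ι → ℕ) (hn : ∀ i, 0 < n i) (e : (i : ι) → Fin (n i)) (i : ι) :
    (∃ e', g i * mono g n e = mono g n e') ∨ ∃ e', g i * mono g n e = g i ^ n i * mono g n e' := by
  have h0 : mono g n e = g i ^ (e i : ℕ) * ∏ j ∈ Finset.univ.erase i, g j ^ (e j : ℕ) := by
    rw [← mono_update, Function.update_eq_self]
  by_cases h : (e i : ℕ) + 1 < n i
  · refine Or.inl ⟨Function.update e i ⟨e i + 1, h⟩, ?_⟩
    rw [mono_update, h0, pow_succ]; ring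
  · refine Or.inr ⟨Function.update e i ⟨0, hn i⟩, ?_⟩
    have h2 : n i = (e i : ℕ) + 1 := by have := (e i).2; omega
    have h3 : g i ^ n i = g i * g i ^ (e i : ℕ) := by rw [← pow_succ']; exact congrArg _ h2
    rw [mono_update, h0, h3, pow_zero]; ring

omit [IsUltrametricDist Ω] [DecidableEq ι] in
theorem mono_mem {R : Type*} [CommRing R] [Algebra R Ω] (g : ι → Ω) (n : ι → ℕ)
    (e : (i : ι) → Fin (n i)) : mono g n e ∈ Algebra.adjoin R (Set.range g) :=
  prod_mem fun i _ => pow_mem (Algebra.subset_adjoin (Set.mem_range_self i)) _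

theorem adjoin_le_span [Ctx k Ω] (L : IntermediateField k Ω) (g : ι → Ω) (n : ι → ℕ)
    (hint : ∀ i, IsIntegral (Oring L) (g i)) (hn : ∀ i, 0 < n i)
    (hs : ∀ i, ∃ o ∈ L, ‖o‖ ≤ 1 ∧ Small L (Aring L (Set.range g)) (g i ^ n i - o)) :
    (Algebra.adjoin (Oring L) (Set.range g)).toSubmodule ≤
      Submodule.span (Oring L) (Set.range (mono g n)) := by
  set A := (Algebra.adjoin (Oring L) (Set.range g)).toSubmodule with hA
  set B := Submodule.span (Oring L) (Set.range (mono g n)) with hB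
  have hfg : A.FG := fg_adjoin_of_finite (Set.finite_range g) (by rintro _ ⟨i, rfl⟩; exact hint i)
  refine Submodule.le_of_le_smul_of_le_jacobson_bot hfg (mIdeal_le L) ?_
  have hone : (1 : Ω) ∈ B := by
    refine Submodule.subset_span ⟨fun i => ⟨0, hn i⟩, ?_⟩
    simp [mono]
  refine adjoin_le_of_stable (Set.range g) _ (Submodule.mem_sup_left hone) ?_
  rintro _ ⟨i, rfl⟩ x hx
  obtain ⟨b, hb, c, hc, rfl⟩ := Submodule.mem_sup.1 hx
  rw [mul_add]
  refine add_mem ?_ (Submodule.mem_sup_right ?_)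
  · clear hx
    induction hb using Submodule.span_induction with
    | mem x hx =>
      obtain ⟨e, rfl⟩ := hx
      rcases mul_mono g n hn e i with ⟨e', he'⟩ | ⟨e', he'⟩
      · rw [he']
        exact Submodule.mem_sup_left (Submodule.subset_span ⟨e', rfl⟩)
      · obtain ⟨o, hoL, ho, m, hmL, hm, a, ha, hx⟩ := hs i
        have h1 : g i ^ n i * mono g n e' =
            (⟨o, hoL, ho⟩ : Oring L) • mono g n e' +
              (⟨m, hmL, hm.le⟩ : Oring L) • (a * mono g n e') := by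
          change _ = o * mono g n e' + m * (a * mono g n e')
          rw [← mul_assoc, ← hx]; ring
        rw [he', h1]
        refine add_mem (Submodule.mem_sup_left
          (Submodule.smul_mem _ _ (Submodule.subset_span ⟨e', rfl⟩))) (Submodule.mem_sup_right ?_)
        refine Submodule.smul_mem_smul (mem_mIdeal.2 hm) ?_
        exact (Algebra.adjoin (Oring L) (Set.range g)).mul_mem (mem_adjoin_of_mem_Aring ha)
          (mono_mem g n e')
    | zero => rw [mul_zero]; exact zero_mem _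
    | add x y _ _ hx hy => rw [mul_add]; exact add_mem hx hy
    | smul r x _ hx => rw [mul_smul_comm]; exact Submodule.smul_mem _ _ hx
  · refine Submodule.smul_induction_on hc (fun r hr a ha => ?_) (fun x y hx hy => ?_)
    · rw [mul_smul_comm]
      exact Submodule.smul_mem_smul hr ((Algebra.adjoin (Oring L) (Set.range g)).mul_mem
        (Algebra.subset_adjoin (Set.mem_range_self i)) ha)
    · rw [mul_add]; exact add_mem hx hy

theorem relrank_le (L : IntermediateField k Ω) (hL : Algebra.IsAlgebraic L Ω) (g : ι → Ω)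
    (n : ι → ℕ)
    (h : (Algebra.adjoin (Oring L) (Set.range g)).toSubmodule ≤
      Submodule.span (Oring L) (Set.range (mono g n))) :
    relrank L (L ⊔ adjoin k (Set.range g)) ≤ ((∏ i, n i : ℕ) : Cardinal) := by
  set V := Submodule.span L (Set.range (mono g n)) with hV
  have hBV : ∀ x ∈ Submodule.span (Oring L) (Set.range (mono g n)), x ∈ V := by
    intro x hx
    induction hx using Submodule.span_induction with
    | mem x hx => exact Submodule.subset_span hx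
    | zero => exact zero_mem _
    | add x y _ _ hx hy => exact add_mem hx hy
    | smul r x _ hx => exact V.smul_mem (⟨r, r.2.1⟩ : L) hx
  have hAV : ∀ a ∈ Algebra.adjoin L (Set.range g), a ∈ V := by
    refine adjoin_le_of_stable (Set.range g) V
      (hBV _ (h (Algebra.adjoin (Oring L) (Set.range g)).one_mem)) ?_
    rintro _ ⟨i, rfl⟩ x hx
    induction hx using Submodule.span_induction with
    | mem x hx =>
      obtain ⟨e, rfl⟩ := hx
      exact hBV _ (h ((Algebra.adjoin (Oring L) (Set.range g)).mul_mem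
        (Algebra.subset_adjoin (Set.mem_range_self i)) (mono_mem g n e)))
    | zero => rw [mul_zero]; exact zero_mem _
    | add x y _ _ hx hy => rw [mul_add]; exact add_mem hx hy
    | smul r x _ hx => rw [mul_smul_comm]; exact Submodule.smul_mem _ _ hx
  have hle : L ≤ L ⊔ adjoin k (Set.range g) := le_sup_left
  rw [relrank_eq_rank_of_le hle]
  have hsub : (extendScalars hle).toSubalgebra.toSubmodule ≤ V := by
    intro x hx
    have hx' : x ∈ L ⊔ adjoin k (Set.range g) := hx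
    rw [← restrictScalars_adjoin_eq_sup, mem_restrictScalars, ← mem_toSubalgebra,
      adjoin_toSubalgebra_of_isAlgebraic fun y _ => hL.isAlgebraic y] at hx'
    exact hAV x hx'
  refine (Submodule.rank_mono hsub).trans ((rank_span_le _).trans ?_)
  have h2 := Cardinal.mk_range_le_lift (f := mono g n)
  rw [Cardinal.mk_fintype ((i : ι) → Fin (n i)), Fintype.card_pi, Cardinal.lift_natCast,
    Cardinal.lift_uzero] at h2
  simpa only [Fintype.card_fin] using h2

end mono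

end LemD

open LemD in
theorem lemD [Ctx k Ω] {p : ℕ} (hb : HB k Ω p) : DStmt k Ω where
  inv L hL hH G _ u hu h1 := by
    obtain ⟨hc, hc0⟩ := hb.int L hL hH u h1.le
    have hc1 := hc0 h1
    have hu0 : u ≠ 0 := by rintro rfl; simp at h1
    set f := minpoly L u with hf
    have ha0 : ((f.coeff 0 : L) : Ω) ≠ 0 := by intro h; rw [h] at hc1; simp at hc1
    have h2 : u * aeval u f.divX + ((f.coeff 0 : L) : Ω) = 0 := by
      have h3 : aeval u (X * f.divX + C (f.coeff 0)) = 0 := by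
        rw [X_mul_divX_add]; exact minpoly.aeval L u
      rw [map_add, map_mul, aeval_X, aeval_C] at h3
      exact h3
    have h4 : u⁻¹ = -((f.coeff 0 : L) : Ω)⁻¹ * aeval u f.divX := by
      field_simp
      linear_combination h2
    rw [h4]
    refine mul_mem (neg_mem (O_le_Aring (L.inv_mem (f.coeff 0).2) ?_)) ?_
    · rw [norm_inv, hc1, inv_one]
    · rw [aeval_eq_sum_range]
      refine sum_mem fun i _ => ?_
      rw [Algebra.smul_def, coeff_divX]
      exact mul_mem (O_le_Aring (f.coeff (i + 1)).2 (hc _)) (pow_mem hu _)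
  deg L hL hH ι _ g n hg hn hs := by
    classical
    refine relrank_le L hL g n (adjoin_le_span L g n (fun i => ?_) hn hs)
    exact isIntegral_O (hL.isAlgebraic _).isIntegral (hb.int L hL hH (g i) (hg i)).1

end Pool.Agent.MP_19ffc6_ag.LU

end MrgPart4

-- ======== part 5: formerly Pool.Agent.MP_19ffc6_ag.LU.Mon
section MrgPart5

/-! Monomialization of finitely many elements of the field of a stage (module MO). -/

namespace Pool.Agent.MP_19ffc6_ag.LU

namespace Mon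

variable {k Ω : Type*} [Field k] [NontriviallyNormedField Ω] [Algebra k Ω]

theorem mon_ne (s : Stage Ω) {α : ℝ} (h : α ∈ s.Λ) : s.mon α ≠ 0 := by
  intro h0
  have := s.norm_mon α h
  rw [h0, norm_zero] at this
  exact (Real.exp_pos _).ne this

theorem mon_zero (s : Stage Ω) : s.mon 0 = 1 := by
  have h := s.mon_add 0 s.Λ.zero_mem 0 s.Λ.zero_mem
  rw [add_zero] at h
  exact (mul_right_eq_self₀.1 h.symm).resolve_right (mon_ne s s.Λ.zero_mem)

theorem mon_neg (s : Stage Ω) {α : ℝ} (h : α ∈ s.Λ) : s.mon (-α) = (s.mon α)⁻¹ := by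
  have h1 := s.mon_add α h (-α) (s.Λ.neg_mem h)
  rw [add_neg_cancel, mon_zero] at h1
  exact (eq_inv_of_mul_eq_one_right h1.symm)

theorem mon_sub (s : Stage Ω) {α β : ℝ} (h : α ∈ s.Λ) (h' : β ∈ s.Λ) :
    s.mon (α - β) = s.mon α / s.mon β := by
  rw [sub_eq_add_neg, s.mon_add α h (-β) (s.Λ.neg_mem h'), mon_neg s h', div_eq_mul_inv]

theorem ev_eq (s : Stage Ω) (Φ : Pol k) :
    s.ev k Φ = ∑ x ∈ Φ.support, algebraMap k Ω (Φ x) * (s.mon x.1 * s.y ^ x.2) := by
  simp only [Stage.ev, Finsupp.linearCombination_apply, Finsupp.sum, Algebra.smul_def]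

/-- Every polynomial in the generators is the value of a lattice polynomial. -/
theorem exists_ev (s : Stage Ω) {g : Ω} (hg : g ∈ Algebra.adjoin k s.gens) :
    ∃ Φ : Pol k, s.Supp Φ ∧ s.ev k Φ = g := by
  set v : ℝ × ℕ → Ω := fun x => s.mon x.1 * s.y ^ x.2 with hv
  set V : Submodule k Ω := Submodule.span k (v '' {x | x.1 ∈ s.Λ}) with hV
  have hmul : ∀ a ∈ V, ∀ b ∈ V, a * b ∈ V := by
    intro a ha b hb
    have h1 : a * b ∈ V * V := Submodule.mul_mem_mul ha hb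
    rw [hV, Submodule.span_mul_span] at h1
    refine Submodule.span_mono ?_ h1
    rintro _ ⟨_, ⟨x, hx, rfl⟩, _, ⟨x', hx', rfl⟩, rfl⟩
    refine ⟨(x.1 + x'.1, x.2 + x'.2), s.Λ.add_mem hx hx', ?_⟩
    simp only [hv]
    rw [s.mon_add _ hx _ hx', pow_add]
    ring
  have hone : (1 : Ω) ∈ V :=
    Submodule.subset_span ⟨(0, 0), s.Λ.zero_mem, by simp [hv, mon_zero]⟩
  have hgV : g ∈ V := by
    induction hg using Algebra.adjoin_induction with
    | mem x hx =>
      rcases hx with ⟨α, hα, rfl⟩ | rfl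
      · exact Submodule.subset_span ⟨(α, 0), hα, by simp [hv]⟩
      · exact Submodule.subset_span ⟨(0, 1), s.Λ.zero_mem, by simp [hv, mon_zero]⟩
    | algebraMap c =>
      rw [Algebra.algebraMap_eq_smul_one]
      exact V.smul_mem c hone
    | add x y _ _ hx hy => exact V.add_mem hx hy
    | mul x y _ _ hx hy => exact hmul x hx y hy
  rw [hV, Finsupp.mem_span_image_iff_linearCombination] at hgV
  obtain ⟨l, hl, rfl⟩ := hgV
  exact ⟨l, fun x hx => (Finsupp.mem_supported k l).1 hl hx, rfl⟩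

theorem R0_le_adjoin (s : Stage Ω) : s.R0 k ≤ Algebra.adjoin k s.gens := by
  refine Algebra.adjoin_mono ?_
  rintro _ (⟨α, hα, rfl⟩ | rfl)
  · exact Or.inl ⟨α, hα.1, rfl⟩
  · exact Or.inr rfl

theorem mon_mem_adjoin (s : Stage Ω) {α : ℝ} (h : α ∈ s.Λ) :
    s.mon α ∈ Algebra.adjoin k s.gens :=
  Algebra.subset_adjoin (Or.inl ⟨α, h, rfl⟩)

theorem y_mem_R0 (s : Stage Ω) : s.y ∈ s.R0 k := Algebra.subset_adjoin (Or.inr rfl)

theorem R0_le_R (s : Stage Ω) : s.R0 k ≤ s.R k := fun a ha =>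
  ⟨a, ha, 1, (s.R0 k).one_mem, norm_one, (div_one a).symm⟩

theorem inv_mem_R (s : Stage Ω) {w : Ω} (hw : w ∈ s.R k) (h1 : ‖w‖ = 1) : w⁻¹ ∈ s.R k := by
  obtain ⟨a, ha, b, hb, hb1, rfl⟩ := hw
  rw [norm_div, hb1, div_one] at h1
  exact ⟨b, hb, a, ha, h1, inv_div a b⟩

theorem good_mul (s : Stage Ω) {a b : Ω} (ha : s.Good k a) (hb : s.Good k b) :
    s.Good k (a * b) := by
  obtain ⟨α, hα, w, hw, hw1, rfl⟩ := ha
  obtain ⟨β, hβ, w', hw', hw1', rfl⟩ := hb
  refine ⟨α + β, s.Λ.add_mem hα hβ, w * w', (s.R k).mul_mem hw hw', by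
    rw [norm_mul, hw1, hw1', one_mul], ?_⟩
  rw [s.mon_add _ hα _ hβ]
  ring

theorem good_inv (s : Stage Ω) {a : Ω} (ha : s.Good k a) : s.Good k a⁻¹ := by
  obtain ⟨α, hα, w, hw, hw1, rfl⟩ := ha
  refine ⟨-α, s.Λ.neg_mem hα, w⁻¹, inv_mem_R s hw hw1, by rw [norm_inv, hw1, inv_one], ?_⟩
  rw [mon_neg s hα, mul_inv]

theorem good_unit (s : Stage Ω) {w : Ω} (hw : w ∈ s.R k) (h1 : ‖w‖ = 1) : s.Good k w :=
  ⟨0, s.Λ.zero_mem, w, hw, h1, by rw [mon_zero, one_mul]⟩

theorem exists_large (s : Stage Ω) (r : ℝ) : ∃ l ∈ s.Λ, r < l := by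
  obtain ⟨a, ha0, ha1⟩ := NormedField.exists_norm_lt_one Ω
  obtain ⟨d, hd, hmem⟩ := s.full a (norm_pos_iff.1 ha0)
  have hpos : 0 < (d : ℝ) * nu a := by
    have h1 : Real.log ‖a‖ < 0 := Real.log_neg ha0 ha1
    have h2 : (0 : ℝ) < d := Nat.cast_pos.2 hd
    have h3 : 0 < nu a := by unfold nu; linarith
    exact mul_pos h2 h3
  obtain ⟨n, hn⟩ := exists_lt_nsmul hpos r
  exact ⟨_, s.Λ.nsmul_mem hmem n, hn⟩

variable [IsUltrametricDist Ω]

theorem norm_sum_lt {ι : Type*} (T : Finset ι) (f : ι → Ω) (h : ∀ x ∈ T, ‖f x‖ < 1) :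
    ‖∑ x ∈ T, f x‖ < 1 :=
  Finset.sum_induction f (fun a => ‖a‖ < 1)
    (fun a b ha hb => (IsUltrametricDist.norm_add_le_max a b).trans_lt (max_lt ha hb))
    (by simp) h

theorem norm_sum_le {ι : Type*} (T : Finset ι) (f : ι → Ω) (h : ∀ x ∈ T, ‖f x‖ ≤ 1) :
    ‖∑ x ∈ T, f x‖ ≤ 1 :=
  Finset.sum_induction f (fun a => ‖a‖ ≤ 1)
    (fun a b ha hb => (IsUltrametricDist.norm_add_le_max a b).trans (max_le ha hb))
    (by simp) h

theorem norm_eq_one_of_sub {a b : Ω} (hb : ‖b‖ = 1) (h : ‖a - b‖ < 1) : ‖a‖ = 1 := by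
  have h1 : a = b + (a - b) := by ring
  rw [h1, IsUltrametricDist.norm_add_eq_max_of_norm_ne_norm (by rw [hb]; exact h.ne'), hb]
  exact max_eq_left h.le

variable [Ctx k Ω]

omit [IsUltrametricDist Ω] in
theorem norm_alg_le (c : k) : ‖algebraMap k Ω c‖ ≤ 1 := by
  by_cases hc : c = 0
  · simp [hc]
  · exact (Ctx.norm_alg c hc).le

omit [IsUltrametricDist Ω] in
theorem norm_term_le (s : Stage Ω) (c : k) {α : ℝ} (hα : α ∈ s.Λ) (j : ℕ) :
    ‖algebraMap k Ω c * (s.mon α * s.y ^ j)‖ ≤ Real.exp (-α) * ‖s.y‖ ^ j := by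
  rw [norm_mul, norm_mul, norm_pow, s.norm_mon α hα]
  exact mul_le_of_le_one_left (by positivity) (norm_alg_le c)

theorem norm_ev_le (s : Stage Ω) (Φ : Pol k) (hΦ : s.Supp Φ) (h : ∀ x ∈ Φ.support, 0 ≤ x.1) :
    ‖s.ev k Φ‖ ≤ 1 := by
  rw [ev_eq]
  refine norm_sum_le _ _ fun x hx => (norm_term_le s _ (hΦ x hx) _).trans ?_
  exact mul_le_one₀ (Real.exp_le_one_iff.2 (neg_nonpos.2 (h x hx))) (by positivity)
    (pow_le_one₀ (norm_nonneg _) s.norm_y.le)

/-- A polynomial of order zero is a monomial times a unit. -/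
theorem good_of_lead (s : Stage Ω) (Φ : Pol k) (hΦ : s.Supp Φ) {B : ℝ} (hl : Lead Φ B 0) :
    s.Good k (s.ev k Φ) := by
  classical
  have hB : B ∈ s.Λ := hΦ _ hl.2.1
  set f : ℝ × ℕ → Ω := fun x => algebraMap k Ω (Φ x) * (s.mon (x.1 - B) * s.y ^ x.2) with hf
  refine ⟨B, hB, ∑ x ∈ Φ.support, f x, R0_le_R s ?_, ?_, ?_⟩
  · refine Subalgebra.sum_mem _ fun x hx => ?_
    refine Subalgebra.mul_mem _ (Subalgebra.algebraMap_mem _ _) (Subalgebra.mul_mem _ ?_
      (Subalgebra.pow_mem _ (y_mem_R0 s) _))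
    exact Algebra.subset_adjoin (Or.inl ⟨x.1 - B, ⟨s.Λ.sub_mem (hΦ x hx) hB,
      sub_nonneg.2 (hl.1 x hx)⟩, rfl⟩)
  · have h0 : Φ (B, 0) ≠ 0 := Finsupp.mem_support_iff.1 hl.2.1
    have h1 : f (B, 0) = algebraMap k Ω (Φ (B, 0)) := by simp [hf, mon_zero]
    refine norm_eq_one_of_sub (Ctx.norm_alg _ h0) ?_
    rw [← Finset.add_sum_erase _ _ hl.2.1, h1, add_sub_cancel_left]
    refine norm_sum_lt _ _ fun x hx => ?_
    obtain ⟨hne, hx⟩ := Finset.mem_erase.1 hx
    refine (norm_term_le s _ (s.Λ.sub_mem (hΦ x hx) hB) _).trans_lt ?_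
    rcases (hl.1 x hx).lt_or_eq with h2 | h2
    · exact mul_lt_one_of_nonneg_of_lt_one_left (Real.exp_pos _).le
        (Real.exp_lt_one_iff.2 (by linarith)) (pow_le_one₀ (norm_nonneg _) s.norm_y.le)
    · have h3 : x.2 ≠ 0 := fun h3 => hne (Prod.ext h2.symm h3)
      rw [← h2, sub_self, neg_zero, Real.exp_zero, one_mul]
      exact pow_lt_one₀ (norm_nonneg _) s.norm_y h3
  · rw [ev_eq, Finset.mul_sum]
    refine Finset.sum_congr rfl fun x hx => ?_
    simp only [hf]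
    rw [mon_sub s (hΦ x hx) hB]
    field_simp [mon_ne s hB]

variable {p : ℕ}

/-- One nonzero polynomial in the generators is monomialized. -/
theorem mon_one (hle : LeStmt k Ω p) (hen : EngineStmt k Ω p) (s : Stage Ω) {g : Ω}
    (hg : g ∈ Algebra.adjoin k s.gens) (hg0 : g ≠ 0) : ∃ s', Le k s s' ∧ s'.Good k g := by
  obtain ⟨l, hl, hlt⟩ := exists_large s (nu g)
  set g1 : Ω := s.mon (-l) * g with hg1
  have hn : 1 < ‖g1‖ := by
    have h0 : 0 < ‖g‖ := norm_pos_iff.2 hg0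
    rw [hg1, norm_mul, s.norm_mon _ (s.Λ.neg_mem hl), neg_neg, ← Real.exp_log h0, ← Real.exp_add]
    refine Real.one_lt_exp_iff.2 ?_
    unfold nu at hlt
    linarith
  obtain ⟨Φ1, hΦ1, he1⟩ := exists_ev s
    (Subalgebra.mul_mem _ (mon_mem_adjoin s (s.Λ.neg_mem hl)) hg : g1 ∈ Algebra.adjoin k s.gens)
  obtain ⟨s', Φ', B, μ, ⟨hs', w, hw, hw1, hev⟩, hsupp, -, hlead, hterm⟩ := hen False
    (fun t Φ => Le k s t ∧ ∃ w ∈ t.R k, ‖w‖ = 1 ∧ t.ev k Φ = w * g1)
    (by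
      rintro t Φ ⟨-, w, -, hw1, hev⟩ hΦ
      by_contra hcon
      push Not at hcon
      have h1 := norm_ev_le t Φ hΦ hcon
      rw [hev, norm_mul, hw1, one_mul] at h1
      exact absurd hn (not_lt.2 h1))
    (by
      rintro t Φ Φ' ⟨ht, w, hw, hw1, hev⟩ - he
      exact ⟨ht, w, hw, hw1, he.trans hev⟩)
    (fun h => h.elim)
    (by
      rintro t t' Φ ⟨ht, w, hw, hw1, hev⟩ - hst
      refine ⟨1, one_pos, fun Φ' w' hw' hw1' hev' _ => ⟨ht.tail hst, w' * w,
        (t'.R k).mul_mem hw' (hle.R_le t t' (Relation.ReflTransGen.single hst) hw), ?_, ?_⟩⟩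
      · rw [norm_mul, hw1, norm_eq_one_of_sub norm_one hw1', one_mul]
      · rw [hev', hev, mul_assoc])
    s Φ1 ⟨Relation.ReflTransGen.refl, 1, (s.R k).one_mem, norm_one, by rw [he1, one_mul]⟩ hΦ1
  have hμ : μ = 0 := by
    rcases hterm with h | h
    · exact h.1
    · exact h.1.elim
  subst hμ
  have h1 := good_of_lead s' Φ' hsupp hlead
  have hw0 : w ≠ 0 := by rintro rfl; simp at hw1
  have h2 : g = s.mon l * ((w⁻¹) * s'.ev k Φ') := by
    rw [hev, hg1, mon_neg s hl]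
    field_simp [mon_ne s hl]
  refine ⟨s', hs', ?_⟩
  rw [h2]
  exact good_mul s' (hle.good_mon s s' hs' l hl)
    (good_mul s' (good_inv s' (good_unit s' hw hw1)) h1)

omit [IsUltrametricDist Ω] [Ctx k Ω] in
/-- Polynomials in old generators are polynomials in new generators up to unit denominators. -/
theorem transport (hle : LeStmt k Ω p) {s t : Stage Ω} (hst : Le k s t) {g : Ω}
    (hg : g ∈ Algebra.adjoin k s.gens) :
    ∃ a ∈ Algebra.adjoin k t.gens, ∃ b ∈ t.R0 k, ‖b‖ = 1 ∧ g = a / b := by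
  induction hg using Algebra.adjoin_induction with
  | mem x hx =>
    rcases hx with ⟨α, hα, rfl⟩ | rfl
    · obtain ⟨β, hβ, w, ⟨a, ha, b, hb, hb1, rfl⟩, -, he⟩ := hle.good_mon s t hst α hα
      exact ⟨t.mon β * a, Subalgebra.mul_mem _ (mon_mem_adjoin t hβ) (R0_le_adjoin t ha), b, hb,
        hb1, by rw [he, mul_div_assoc]⟩
    · obtain ⟨a, ha, b, hb, hb1, he⟩ := hle.R_le s t hst (R0_le_R s (y_mem_R0 s))
      exact ⟨a, R0_le_adjoin t ha, b, hb, hb1, he⟩
  | algebraMap c =>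
    exact ⟨_, Subalgebra.algebraMap_mem _ c, 1, Subalgebra.one_mem _, norm_one, (div_one _).symm⟩
  | add x y _ _ hx hy =>
    obtain ⟨a, ha, b, hb, h, rfl⟩ := hx
    obtain ⟨a', ha', b', hb', h', rfl⟩ := hy
    have hb0 : b ≠ 0 := by rintro rfl; simp at h
    have hb0' : b' ≠ 0 := by rintro rfl; simp at h'
    exact ⟨a * b' + b * a', Subalgebra.add_mem _ (Subalgebra.mul_mem _ ha (R0_le_adjoin t hb'))
      (Subalgebra.mul_mem _ (R0_le_adjoin t hb) ha'), b * b', Subalgebra.mul_mem _ hb hb',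
      by rw [norm_mul, h, h', one_mul], div_add_div _ _ hb0 hb0'⟩
  | mul x y _ _ hx hy =>
    obtain ⟨a, ha, b, hb, h, rfl⟩ := hx
    obtain ⟨a', ha', b', hb', h', rfl⟩ := hy
    exact ⟨a * a', Subalgebra.mul_mem _ ha ha', b * b', Subalgebra.mul_mem _ hb hb',
      by rw [norm_mul, h, h', one_mul], div_mul_div_comm _ _ _ _⟩

/-- One nonzero element of the field of a stage is monomialized. -/
theorem mon_two (hle : LeStmt k Ω p) (hen : EngineStmt k Ω p) (s : Stage Ω) {b : Ω}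
    (hb : b ∈ s.M k) (hb0 : b ≠ 0) : ∃ s', Le k s s' ∧ s'.Good k b := by
  obtain ⟨g1, hg1, g2, hg2, rfl⟩ := IntermediateField.mem_adjoin_iff_div.1 hb
  obtain ⟨h1, h2⟩ := div_ne_zero_iff.1 hb0
  obtain ⟨s1, hs1, hgood1⟩ := mon_one hle hen s hg1 h1
  obtain ⟨a, ha, c, hc, hc1, rfl⟩ := transport hle hs1 hg2
  obtain ⟨s2, hs2, hgood2⟩ := mon_one hle hen s1 ha (div_ne_zero_iff.1 h2).1
  refine ⟨s2, hs1.trans hs2, ?_⟩
  rw [div_div_eq_mul_div, div_eq_mul_inv]
  exact good_mul s2 (good_mul s2 (hle.good s1 s2 hs2 _ hgood1)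
    (good_unit s2 (hle.R_le s1 s2 hs2 (R0_le_R s1 hc)) hc1)) (good_inv s2 hgood2)

omit [IsUltrametricDist Ω] in
/-- Polynomial approximation by a geometric sum. -/
theorem approx (s : Stage Ω) (b : Ω) (hb : s.Good k b) (ε : ℝ) (hε : 0 < ε) :
    ∃ Φ : Pol k, s.Supp Φ ∧ ‖b - s.ev k Φ‖ < ε := by
  obtain ⟨α, hα, w, ⟨a, ha, e, he, he1, rfl⟩, -, rfl⟩ := hb
  obtain ⟨c, hc⟩ := Ctx.res (k := k) e he1.le
  have hc0 : c ≠ 0 := by
    rintro rfl
    rw [map_zero, sub_zero, he1] at hc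
    exact lt_irrefl _ hc
  have hcn : ‖algebraMap k Ω c‖ = 1 := Ctx.norm_alg c hc0
  have hc1 : algebraMap k Ω c ≠ 0 := by
    intro h; rw [h, norm_zero] at hcn; exact zero_ne_one hcn
  have he0 : e ≠ 0 := by rintro rfl; simp at he1
  set τ : Ω := 1 - algebraMap k Ω c⁻¹ * e with hτ
  have hτn : ‖τ‖ < 1 := by
    have : τ = -(e - algebraMap k Ω c) / algebraMap k Ω c := by
      rw [hτ, map_inv₀]; field_simp; ring
    rw [this, norm_div, hcn, div_one, norm_neg]
    exact hc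
  have hτm : τ ∈ s.R0 k :=
    Subalgebra.sub_mem _ (Subalgebra.one_mem _)
      (Subalgebra.mul_mem _ (Subalgebra.algebraMap_mem _ _) he)
  set C : ℝ := ‖s.mon α * (a / e)‖ + 1 with hC
  have hC0 : 0 < C := by positivity
  obtain ⟨N, hN⟩ := exists_pow_lt_of_lt_one (div_pos hε hC0) hτn
  obtain ⟨Φ, hΦ, hev⟩ := exists_ev s (g := s.mon α * (a * (algebraMap k Ω c⁻¹ *
      ∑ i ∈ Finset.range N, τ ^ i)))
    (Subalgebra.mul_mem _ (mon_mem_adjoin s hα) (R0_le_adjoin s (Subalgebra.mul_mem _ ha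
      (Subalgebra.mul_mem _ (Subalgebra.algebraMap_mem _ _)
        (Subalgebra.sum_mem _ fun i _ => Subalgebra.pow_mem _ hτm i)))))
  refine ⟨Φ, hΦ, ?_⟩
  have hgeo : (1 - τ) * ∑ i ∈ Finset.range N, τ ^ i = 1 - τ ^ N := mul_neg_geom_sum τ N
  have h1 : 1 - τ = algebraMap k Ω c⁻¹ * e := by rw [hτ]; ring
  have h2 : s.mon α * (a / e) - s.ev k Φ = s.mon α * (a / e) * τ ^ N := by
    have h3 : τ ^ N = 1 - algebraMap k Ω c⁻¹ * e * ∑ i ∈ Finset.range N, τ ^ i := by
      rw [← h1, hgeo]; ring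
    rw [hev, h3]
    field_simp
  rw [h2, norm_mul, norm_pow]
  calc ‖s.mon α * (a / e)‖ * ‖τ‖ ^ N ≤ C * ‖τ‖ ^ N :=
        mul_le_mul_of_nonneg_right (by rw [hC]; linarith) (by positivity)
    _ < C * (ε / C) := mul_lt_mul_of_pos_left hN hC0
    _ = ε := by field_simp

end Mon

/-- Module MO: monomialization and approximation. -/
theorem mon_props {k Ω : Type*} [Field k] [NontriviallyNormedField Ω] [IsUltrametricDist Ω]
    [Algebra k Ω] [Ctx k Ω] (p : ℕ) (hle : LeStmt k Ω p) (hen : EngineStmt k Ω p) :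
    MonStmt k Ω where
  mon s Z hZ := by
    classical
    induction Z using Finset.induction_on with
    | empty => exact ⟨s, Relation.ReflTransGen.refl, by simp⟩
    | insert b Z _ ih =>
      obtain ⟨s1, hs1, h1⟩ := ih fun z hz => hZ z (Finset.mem_insert_of_mem hz)
      obtain ⟨hbM, hb0⟩ := hZ b (Finset.mem_insert_self b Z)
      rw [← hle.M_eq s s1 hs1] at hbM
      obtain ⟨s2, hs2, h2⟩ := Mon.mon_two hle hen s1 hbM hb0
      refine ⟨s2, hs1.trans hs2, fun z hz => ?_⟩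
      rcases Finset.mem_insert.1 hz with rfl | hz
      · exact h2
      · exact hle.good s1 s2 hs2 z (h1 z hz)
  approx := Mon.approx

end Pool.Agent.MP_19ffc6_ag.LU

end MrgPart5

-- ======== part 6: formerly Pool.Agent.MP_19ffc6_ag.LU.TermA0
section MrgPart6

/-! Small lemmas for the terminal case A. -/

namespace Pool.Agent.MP_19ffc6_ag.LU.TermA

open IntermediateField

variable {k Ω : Type*} [Field k] [NontriviallyNormedField Ω] [Algebra k Ω]

section mon

variable (s : Stage Ω)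

lemma mon_ne {α : ℝ} (h : α ∈ s.Λ) : s.mon α ≠ 0 := by
  intro h0
  have := s.norm_mon α h
  rw [h0, norm_zero] at this
  exact (Real.exp_pos _).ne this

lemma mon_zero : s.mon 0 = 1 := by
  have h := s.mon_add 0 s.Λ.zero_mem 0 s.Λ.zero_mem
  rw [add_zero] at h
  exact (mul_eq_left₀ (mon_ne s s.Λ.zero_mem)).1 h.symm

lemma mon_neg {α : ℝ} (h : α ∈ s.Λ) : s.mon (-α) = (s.mon α)⁻¹ := by
  have := s.mon_add α h (-α) (s.Λ.neg_mem h)
  rw [add_neg_cancel, mon_zero] at this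
  exact eq_inv_of_mul_eq_one_right this.symm

lemma mon_sub {α β : ℝ} (h : α ∈ s.Λ) (h' : β ∈ s.Λ) : s.mon (α - β) = s.mon α / s.mon β := by
  rw [sub_eq_add_neg, s.mon_add _ h _ (s.Λ.neg_mem h'), mon_neg s h', div_eq_mul_inv]

lemma zmul_mem {α : ℝ} (h : α ∈ s.Λ) (e : ℤ) : (e : ℝ) * α ∈ s.Λ := by
  rw [← zsmul_eq_mul]; exact s.Λ.zsmul_mem h e

lemma mon_zmul {α : ℝ} (h : α ∈ s.Λ) (e : ℤ) : s.mon (e * α) = s.mon α ^ e := by
  induction e using Int.induction_on with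
  | zero => simp [mon_zero]
  | succ n ih =>
    have : (((n : ℤ) + 1 : ℤ) : ℝ) * α = ((n : ℤ) : ℝ) * α + α := by push_cast; ring
    rw [this, s.mon_add _ (zmul_mem s h _) _ h, ih, zpow_add_one₀ (mon_ne s h)]
  | pred n ih =>
    have : ((-(n : ℤ) - 1 : ℤ) : ℝ) * α = ((-(n : ℤ) : ℤ) : ℝ) * α - α := by push_cast; ring
    rw [this, mon_sub s (zmul_mem s h _) h, ih, zpow_sub_one₀ (mon_ne s h), div_eq_mul_inv]

lemma mon_mem {α : ℝ} (h : α ∈ s.Λ) : s.mon α ∈ s.M k :=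
  subset_adjoin k _ (Or.inl ⟨α, h, rfl⟩)

lemma y_mem : s.y ∈ s.M k := subset_adjoin k _ (Or.inr rfl)

lemma M_le {K : IntermediateField k Ω} (h1 : ∀ α ∈ s.Λ, s.mon α ∈ K) (h2 : s.y ∈ K) :
    s.M k ≤ K := by
  refine adjoin_le_iff.2 ?_
  rintro _ (⟨α, h, rfl⟩ | rfl)
  exacts [h1 α h, h2]

lemma M_fg : (s.M k).FG := by
  obtain ⟨T, hT⟩ := s.fg
  have h : s.M k = adjoin k (s.mon '' (T : Set ℝ) ∪ {s.y}) := by
    refine le_antisymm (M_le s ?_ (subset_adjoin k _ (Or.inr rfl))) (adjoin_le_iff.2 ?_)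
    · intro α hα
      have key : α ∈ s.Λ ∧ s.mon α ∈ adjoin k (s.mon '' (T : Set ℝ) ∪ {s.y}) := by
        rw [← hT] at hα
        induction hα using AddSubgroup.closure_induction with
        | mem x hx =>
          exact ⟨hT ▸ AddSubgroup.subset_closure hx, subset_adjoin k _ (Or.inl ⟨x, hx, rfl⟩)⟩
        | zero => exact ⟨s.Λ.zero_mem, by rw [mon_zero]; exact one_mem _⟩
        | add x y _ _ hx hy =>
          exact ⟨s.Λ.add_mem hx.1 hy.1, by rw [s.mon_add _ hx.1 _ hy.1]; exact mul_mem hx.2 hy.2⟩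
        | neg x _ hx => exact ⟨s.Λ.neg_mem hx.1, by rw [mon_neg s hx.1]; exact inv_mem hx.2⟩
      exact key.2
    · rintro _ (⟨α, h, rfl⟩ | rfl)
      · exact mon_mem s (hT ▸ AddSubgroup.subset_closure h)
      · exact y_mem s
  rw [h]
  exact fg_adjoin_of_finite ((T.finite_toSet.image _).union (Set.finite_singleton _))

lemma ev_eq (Φ : Pol k) :
    s.ev k Φ = ∑ x ∈ Φ.support, algebraMap k Ω (Φ x) * (s.mon x.1 * s.y ^ x.2) := by
  simp only [Stage.ev, Finsupp.linearCombination_apply, Finsupp.sum, Algebra.smul_def]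

lemma ev_mem {Φ : Pol k} (h : s.Supp Φ) : s.ev k Φ ∈ s.M k := by
  rw [ev_eq]
  exact sum_mem fun x hx => mul_mem (IntermediateField.algebraMap_mem _ _)
    (mul_mem (mon_mem s (h x hx)) (pow_mem (y_mem s) _))

lemma ev_div {Φ : Pol k} (h : s.Supp Φ) {B : ℝ} (hB : B ∈ s.Λ) :
    s.ev k Φ / s.mon B =
      ∑ x ∈ Φ.support, algebraMap k Ω (Φ x) * (s.mon (x.1 - B) * s.y ^ x.2) := by
  rw [ev_eq, Finset.sum_div]
  refine Finset.sum_congr rfl fun x hx => ?_
  rw [mon_sub s (h x hx) hB]; ring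

open Classical in
lemma ev_div_sub {Φ : Pol k} (h : s.Supp Φ) {B : ℝ} (hB : (B, 0) ∈ Φ.support) :
    s.ev k Φ / s.mon B - algebraMap k Ω (Φ (B, 0)) =
      ∑ x ∈ Φ.support.erase (B, 0), algebraMap k Ω (Φ x) * (s.mon (x.1 - B) * s.y ^ x.2) := by
  rw [ev_div s h (h _ hB), ← Finset.add_sum_erase _ _ hB]
  simp [mon_zero]

end mon

lemma exists_e {s s' : Stage Ω} {w : Ω} {d : ℕ} {σ : ℝ → ℤ} (h : IsExt s w d σ s')
    {α : ℝ} (hα : α ∈ s.Λ) (j : ℤ) : α + j * nu w ∈ s'.Λ ∧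
    ∃ e : ℤ, j = σ (α + j * nu w) + d * e ∧
      s.mon α * w ^ j = s'.mon (α + j * nu w) * s.u w d ^ e := by
  have hβ : α + j * nu w ∈ s'.Λ := by
    rw [h.lat]
    refine AddSubgroup.add_mem_sup hα ?_
    rw [← zsmul_eq_mul]
    exact AddSubgroup.zsmul_mem_zmultiples _ _
  refine ⟨hβ, ?_⟩
  have h1 := h.σ_mem _ hβ
  have h2 : ((j - σ (α + j * nu w) : ℤ) : ℝ) * nu w ∈ s.Λ := by
    have := s.Λ.sub_mem h1 hα
    convert this using 1
    push_cast; ring
  obtain ⟨e, he⟩ := (h.dvd_iff _).1 h2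
  have hd : (d : ℝ) * nu w ∈ s.Λ := by
    have := (h.dvd_iff d).2 dvd_rfl
    simpa using this
  refine ⟨e, by linarith, ?_⟩
  have e1 : α + j * nu w - σ (α + j * nu w) * nu w = α + e * (d * nu w) := by
    have : ((j - σ (α + j * nu w) : ℤ) : ℝ) = ((d * e : ℤ) : ℝ) := by rw [he]
    push_cast at this
    linear_combination nu w * this
  have e2 : w ^ j = w ^ σ (α + j * nu w) * (w ^ d) ^ e := by
    rw [← zpow_natCast, ← zpow_mul, ← zpow_add₀ h.w_ne]
    congr 1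
    linarith
  rw [h.mon_eq _ hβ, e1, s.mon_add _ hα _ (zmul_mem s hd e), mon_zmul s hd, Stage.u, div_zpow]
  have := zpow_ne_zero e (mon_ne s hd)
  conv_lhs => rw [e2]
  generalize s.mon (d * nu w) ^ e = q at this ⊢
  field_simp

section rad

variable {p : ℕ} [Fact p.Prime] {E : IntermediateField k Ω}

lemma rad_mul {a b : Ω} (ha : Rad p E a) (hb : Rad p E b) : Rad p E (a * b) := by
  obtain ⟨ha0, n, hn, ha⟩ := ha
  obtain ⟨hb0, m, hm, hb⟩ := hb
  refine ⟨mul_ne_zero ha0 hb0, n * m, fun h => ?_, ?_⟩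
  · rcases (Nat.Prime.dvd_mul Fact.out).1 h with h | h
    exacts [hn h, hm h]
  · rw [mul_pow, pow_mul, mul_comm n m, pow_mul]
    exact mul_mem (pow_mem ha _) (pow_mem hb _)

omit [Fact p.Prime] in
lemma rad_zpow {a : Ω} (ha : Rad p E a) (e : ℤ) : Rad p E (a ^ e) := by
  obtain ⟨ha0, n, hn, ha⟩ := ha
  refine ⟨zpow_ne_zero _ ha0, n, hn, ?_⟩
  rw [← zpow_natCast, ← zpow_mul, mul_comm, zpow_mul, zpow_natCast]
  exact zpow_mem ha _

end rad

section der

variable {K : IntermediateField k Ω} {D : Ω → Ω} (hD : IsDer K D)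
include hD

lemma der_one : D 1 = 0 := by simpa using hD.const 1

lemma der_pow {a : Ω} (ha : a ∈ K) (n : ℕ) : D (a ^ (n + 1)) = (n + 1 : ℕ) * a ^ n * D a := by
  induction n with
  | zero => simp
  | succ n ih =>
    rw [pow_succ, hD.mul _ (pow_mem ha _) _ ha, ih]
    push_cast; ring

lemma der_inv {a : Ω} (ha : a ∈ K) : D a⁻¹ = -(a⁻¹ * a⁻¹ * D a) := by
  by_cases h0 : a = 0
  · subst h0
    simpa using hD.const 0
  have := hD.mul _ ha _ (inv_mem ha)
  rw [mul_inv_cancel₀ h0, der_one hD] at this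
  have h2 : D a⁻¹ = a⁻¹ * (a * D a⁻¹) := by field_simp
  rw [h2]
  linear_combination (-a⁻¹) * this

lemma der_zpow {a : Ω} (ha : a ∈ K) (h0 : a ≠ 0) (e : ℤ) :
    D (a ^ e) = e * a ^ e * (D a / a) := by
  induction e using Int.induction_on with
  | zero => simp [der_one hD]
  | succ n ih =>
    rw [zpow_add_one₀ h0, hD.mul _ (zpow_mem ha _) _ ha, ih]
    push_cast; field_simp; ring
  | pred n ih =>
    rw [zpow_sub_one₀ h0, hD.mul _ (zpow_mem ha _) _ (inv_mem ha), ih, der_inv hD ha]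
    push_cast; field_simp; ring

lemma der_span {S : Set Ω} (hS : adjoin k S ≤ K) (ρ : Ω)
    (h : ∀ a ∈ S, ∃ m ∈ adjoin k S, D a = m * ρ) :
    ∀ a ∈ adjoin k S, ∃ m ∈ adjoin k S, D a = m * ρ := by
  intro a ha
  induction ha using adjoin_induction with
  | mem x hx => exact h x hx
  | algebraMap c => exact ⟨0, zero_mem _, by rw [hD.const, zero_mul]⟩
  | add x y hx hy ix iy =>
    obtain ⟨m, hm, e⟩ := ix
    obtain ⟨m', hm', e'⟩ := iy
    exact ⟨m + m', add_mem hm hm', by rw [hD.add _ (hS hx) _ (hS hy), e, e']; ring⟩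
  | inv x hx ix =>
    obtain ⟨m, hm, e⟩ := ix
    exact ⟨-(x⁻¹ * x⁻¹ * m), neg_mem (mul_mem (mul_mem (inv_mem hx) (inv_mem hx)) hm),
      by rw [der_inv hD (hS hx), e]; ring⟩
  | mul x y hx hy ix iy =>
    obtain ⟨m, hm, e⟩ := ix
    obtain ⟨m', hm', e'⟩ := iy
    exact ⟨x * m' + y * m, add_mem (mul_mem hx hm') (mul_mem hy hm),
      by rw [hD.mul _ (hS hx) _ (hS hy), e, e']; ring⟩

end der

section small

variable {L : IntermediateField k Ω} {G : Set Ω}

lemma mem_A {a : Ω} (h : a ∈ L) (h1 : ‖a‖ ≤ 1) : a ∈ Aring L G :=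
  Algebra.subset_adjoin (Or.inl ⟨h, h1⟩)

lemma small_zero {A : Subalgebra k Ω} : Small L A 0 :=
  ⟨0, zero_mem _, by simp, 0, zero_mem _, by simp⟩

lemma small_mul {A : Subalgebra k Ω} {x a : Ω} (h : Small L A x) (ha : a ∈ A) :
    Small L A (x * a) := by
  obtain ⟨m, hm, h1, b, hb, rfl⟩ := h
  exact ⟨m, hm, h1, b * a, mul_mem hb ha, mul_assoc _ _ _⟩

lemma small_add {x y : Ω} (hx : Small L (Aring L G) x) (hy : Small L (Aring L G) y) :
    Small L (Aring L G) (x + y) := by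
  obtain ⟨m, hm, h1, a, ha, rfl⟩ := hx
  obtain ⟨m', hm', h1', a', ha', rfl⟩ := hy
  wlog hle : ‖m'‖ ≤ ‖m‖ generalizing m m' a a'
  · rw [add_comm]
    exact this m' hm' h1' a' ha' m hm h1 a ha (le_of_not_ge hle)
  by_cases h0 : m = 0
  · subst h0
    have : m' = 0 := by simpa using hle
    subst this
    simpa using small_zero
  refine ⟨m, hm, h1, a + m' / m * a', add_mem ha (mul_mem (mem_A (div_mem hm' hm) ?_) ha'), ?_⟩
  · rw [norm_div]
    exact div_le_one_of_le₀ hle (norm_nonneg _)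
  · field_simp

lemma small_sum {ι : Type*} (t : Finset ι) (f : ι → Ω) (h : ∀ i ∈ t, Small L (Aring L G) (f i)) :
    Small L (Aring L G) (∑ i ∈ t, f i) :=
  Finset.sum_induction f _ (fun _ _ => small_add) small_zero h

end small

lemma le_hens (M : IntermediateField k Ω) : M ≤ hens M := fun a ha =>
  ⟨(mem_separableClosure_iff (F := M) (x := a)).2 (isSeparable_algebraMap (⟨a, ha⟩ : M)),
    subset_closure ha⟩

lemma isHens_mono {E K : IntermediateField k Ω} (h : IsHens E) (hle : E ≤ K) : IsHens K := by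
  intro σ a
  exact h (AlgEquiv.ofRingEquiv (f := σ.toRingEquiv) fun x => σ.commutes ⟨x, hle x.2⟩) a

lemma alg_mono {E K : IntermediateField k Ω} (h : Algebra.IsAlgebraic E Ω) (hle : E ≤ K) :
    Algebra.IsAlgebraic K Ω := by
  let _ : Algebra E K := (inclusion hle).toRingHom.toAlgebra
  have : IsScalarTower E K Ω := IsScalarTower.of_algebraMap_eq fun _ => rfl
  exact Algebra.IsAlgebraic.tower_top (K := E) K

lemma sep_alg {M K : IntermediateField k Ω} (hle : M ≤ K) (h : SepOver M K) :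
    (∀ a : Ω, IsSeparable K a → IsSeparable M a) ∧
      (Algebra.IsAlgebraic K Ω → Algebra.IsAlgebraic M Ω) := by
  let _ : Algebra M K := (inclusion hle).toRingHom.toAlgebra
  have : IsScalarTower M K Ω := IsScalarTower.of_algebraMap_eq fun _ => rfl
  have : Algebra.IsSeparable M K :=
    ⟨fun x => IsSeparable.tower_bot (E := Ω) (h (algebraMap K Ω x) x.2)⟩
  exact ⟨fun a ha => IsSeparable.of_algebra_isSeparable_of_isSeparable M ha,
    fun _ => Algebra.IsAlgebraic.trans M K Ω⟩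

lemma sep_top {M K : IntermediateField k Ω} (hle : M ≤ K) {a : Ω} (ha : IsSeparable M a) :
    IsSeparable K a := by
  let _ : Algebra M K := (inclusion hle).toRingHom.toAlgebra
  have : IsScalarTower M K Ω := IsScalarTower.of_algebraMap_eq fun _ => rfl
  exact IsSeparable.tower_top K ha

end Pool.Agent.MP_19ffc6_ag.LU.TermA

end MrgPart6

-- ======== part 7: formerly Pool.Agent.MP_19ffc6_ag.LU.TermA
section MrgPart7

/-! Terminal case A. -/

namespace Pool.Agent.MP_19ffc6_ag.LU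

open IntermediateField

variable {k Ω : Type*} [Field k] [NontriviallyNormedField Ω] [IsUltrametricDist Ω] [Algebra k Ω]
  [IsAlgClosed k] [IsAlgClosed Ω] [Ctx k Ω] {p : ℕ} [Fact p.Prime] [CharP k p] [CharP Ω p]

namespace TermA

omit [IsAlgClosed k] [IsAlgClosed Ω] [IsUltrametricDist Ω] in
lemma norm_const (c : k) : ‖algebraMap k Ω c‖ ≤ 1 := by
  by_cases h : c = 0
  · simp [h]
  · exact (Ctx.norm_alg c h).le

omit [IsAlgClosed k] [IsAlgClosed Ω] in
lemma norm_ev_sub (s : Stage Ω) {Φ : Pol k} (h : s.Supp Φ) {B : ℝ} (hl : Lead Φ B 0) :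
    ‖s.ev k Φ / s.mon B - algebraMap k Ω (Φ (B, 0))‖ < 1 := by
  rw [ev_div_sub s h hl.2.1]
  refine Finset.sum_induction _ (fun a : Ω => ‖a‖ < 1)
    (fun a b ha hb => (IsUltrametricDist.norm_add_le_max a b).trans_lt (max_lt ha hb))
    (by simp) fun x hx => ?_
  obtain ⟨hne, hx⟩ := Finset.mem_erase.1 hx
  have hB := hl.1 x hx
  have hy := s.norm_y
  rw [norm_mul, norm_mul, s.norm_mon _ (s.Λ.sub_mem (h x hx) (h _ hl.2.1)), norm_pow]
  refine (mul_le_of_le_one_left (by positivity) (norm_const _)).trans_lt ?_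
  rcases hB.eq_or_lt with hB | hB
  · have h2 : x.2 ≠ 0 := fun h0 => hne (Prod.ext hB.symm h0)
    rw [← hB]
    simpa using pow_lt_one₀ (norm_nonneg _) hy h2
  · refine mul_lt_one_of_nonneg_of_lt_one_left (by positivity) ?_
      (pow_le_one₀ (norm_nonneg _) hy.le)
    rw [Real.exp_lt_one_iff]; linarith

variable {E Ep : IntermediateField k Ω} {s : Stage Ω} {ι : Type} (T : TermData p E Ep s ι)

omit [IsAlgClosed k] [IsAlgClosed Ω] [CharP k p] [CharP Ω p] [IsUltrametricDist Ω] [Ctx k Ω]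
  [Fact p.Prime] in
lemma B_mem : T.B ∈ s.Λ := T.supp _ _ T.lead.2.1

omit [IsAlgClosed k] [IsAlgClosed Ω] [CharP k p] [CharP Ω p] in
lemma norm_U (hμ : T.μ = 0) : ‖T.z T.i0 ^ p / s.mon T.B‖ = 1 := by
  have hl := T.lead
  rw [hμ] at hl
  have h1 := norm_ev_sub s (T.supp T.i0) hl
  have hc : ‖algebraMap k Ω (T.Φ T.i0 (T.B, 0))‖ = 1 :=
    Ctx.norm_alg _ (Finsupp.mem_support_iff.1 hl.2.1)
  have hp : (1 : ℝ) < p := by exact_mod_cast (Fact.out : p.Prime).one_lt
  have h2 : ‖T.z (T.nx T.i0) / s.mon T.B‖ < 1 := by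
    rw [norm_div, s.norm_mon _ (B_mem T), div_lt_one (Real.exp_pos _)]
    refine (T.z_norm _).trans_lt (Real.exp_lt_exp.2 ?_)
    have := T.B_neg
    rw [neg_lt_neg_iff, lt_div_iff₀ (by linarith)]
    nlinarith
  have h3 := (IsUltrametricDist.norm_add_le_max _ _).trans_lt (max_lt h2 h1)
  have e : T.z T.i0 ^ p / s.mon T.B = algebraMap k Ω (T.Φ T.i0 (T.B, 0)) +
      (T.z (T.nx T.i0) / s.mon T.B +
        (s.ev k (T.Φ T.i0) / s.mon T.B - algebraMap k Ω (T.Φ T.i0 (T.B, 0)))) := by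
    rw [T.eqn]; ring
  rw [e, IsUltrametricDist.norm_add_eq_max_of_norm_ne_norm (by rw [hc]; exact h3.ne'), hc]
  exact max_eq_left h3.le

omit [IsAlgClosed k] [IsAlgClosed Ω] [CharP k p] [CharP Ω p] in
lemma nu_z (hμ : T.μ = 0) : p * nu (T.z T.i0) = T.B := by
  have h := norm_U T hμ
  rw [norm_div, s.norm_mon _ (B_mem T), div_eq_one_iff_eq (Real.exp_pos _).ne', norm_pow] at h
  have := congrArg Real.log h
  rw [Real.log_pow, Real.log_exp] at this
  simp only [nu]; linarith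

omit [IsAlgClosed k] [IsAlgClosed Ω] [CharP k p] [IsUltrametricDist Ω] [Ctx k Ω] in
lemma sep (hs : SepStmt k Ω) [Fintype ι] (hM : s.M k ≤ Ep) (hsep : SepOver (s.M k) Ep)
    {s' : Stage Ω} {U : Ω} (hU0 : U ≠ 0) (hU : U = T.z T.i0 ^ p / s.mon T.B)
    (hy : s'.y = s.y)
    (hmon' : ∀ β ∈ s'.Λ, ∃ α ∈ s.Λ, ∃ e : ℤ, s'.mon β = s.mon α * T.z T.i0 ^ e)
    (hmon : ∀ α ∈ s.Λ, α ∈ s'.Λ ∧ ∃ e : ℤ, s.mon α = s'.mon α * U ^ e)
    (hz : ∃ γ ∈ s'.Λ, ∃ e : ℤ, ¬ (p : ℤ) ∣ e ∧ T.z T.i0 = s'.mon γ * U ^ e) :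
    SepOver (s'.M k) Ep := by
  set K := s.M k ⊔ adjoin k (Set.range T.z) with hK
  have hMK : s.M k ≤ K := le_sup_left
  have hzK : ∀ i, T.z i ∈ K := fun i =>
    (le_sup_right : adjoin k (Set.range T.z) ≤ K) (subset_adjoin k _ ⟨i, rfl⟩)
  have hKE : K ≤ Ep := sup_le hM (adjoin_le_iff.2 (by rintro _ ⟨i, rfl⟩; exact T.z_mem i))
  have hM' : s'.M k ≤ K := by
    refine M_le s' (fun β hβ => ?_) (hy ▸ hMK (y_mem s))
    obtain ⟨α, hα, e, h⟩ := hmon' β hβ
    rw [h]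
    exact mul_mem (hMK (mon_mem s hα)) (zpow_mem (hzK _) _)
  have hUK : U ∈ K := hU ▸ div_mem (pow_mem (hzK _) _) (hMK (mon_mem s (B_mem T)))
  have key : SepOver (s'.M k) K := by
    refine hs K (fg_sup (M_fg s) (fg_adjoin_of_finite (Set.finite_range _))) s.gens s'.gens
      ((subset_adjoin k _).trans hMK) ((subset_adjoin k _).trans hM')
      (fun a ha => hsep a (hKE ha)) fun D hD h0 => ?_
    have hD1 : ∀ β ∈ s'.Λ, ∀ e : ℤ,
        D (s'.mon β * U ^ e) = e * (s'.mon β * U ^ e) * (D U / U) := by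
      intro β hβ e
      rw [hD.mul _ (hM' (mon_mem s' hβ)) _ (zpow_mem hUK _), der_zpow hD hUK hU0,
        h0 _ (Or.inl ⟨β, hβ, rfl⟩)]
      ring
    have hDy : D s.y = 0 := h0 _ (Or.inr hy.symm)
    have hDm : ∀ α ∈ s.Λ, ∃ e : ℤ, D (s.mon α) = e * s.mon α * (D U / U) := by
      intro α hα
      obtain ⟨h1, e, h⟩ := hmon α hα
      exact ⟨e, by rw [h]; exact hD1 α h1 e⟩
    have hρ : D U / U = 0 := by
      by_contra hρ
      obtain ⟨i, hi⟩ := T.nx_surj T.i0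
      obtain ⟨m, hm, hDe⟩ := der_span hD hMK (D U / U) (S := s.gens) (by
        rintro _ (⟨α, hα, rfl⟩ | rfl)
        · obtain ⟨e, h⟩ := hDm α hα
          exact ⟨_, mul_mem (intCast_mem _ e) (mon_mem s hα), h⟩
        · exact ⟨0, zero_mem _, by rw [hDy, zero_mul]⟩) _ (ev_mem s (T.supp i))
      have h1 : D (T.z i ^ p) = 0 := by
        have := der_pow hD (hzK i) (p - 1)
        rw [Nat.sub_add_cancel (Fact.out : p.Prime).one_le, CharP.cast_eq_zero] at this
        simpa using this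
      obtain ⟨γ, hγ, e, he, hz⟩ := hz
      have h2 := hD1 γ hγ e
      rw [← hz] at h2
      rw [T.eqn, hi, hD.add _ (hzK _) _ (hMK (ev_mem s (T.supp i))), hDe, h2, ← add_mul,
        mul_eq_zero, or_iff_left hρ] at h1
      have he0 : (e : Ω) ≠ 0 := fun h => he ((CharP.intCast_eq_zero_iff Ω p e).1 h)
      refine T.z_not ?_
      have : T.z T.i0 = -m / e := by field_simp; linear_combination h1
      rw [this]
      exact div_mem (neg_mem hm) (intCast_mem _ e)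
    rintro _ (⟨α, hα, rfl⟩ | rfl)
    · obtain ⟨e, h⟩ := hDm α hα
      rw [h, hρ, mul_zero]
    · exact hDy
  exact fun a ha => (sep_alg hM' key).1 a (sep_top hMK (hsep a ha))

omit [IsAlgClosed k] [IsAlgClosed Ω] [CharP k p] [CharP Ω p] in
lemma deg (hd : DStmt k Ω) [Fintype ι] (hμ : T.μ = 0) {L : IntermediateField k Ω}
    (hLa : Algebra.IsAlgebraic L Ω) (hLh : IsHens L) (hLE : L ≤ Ep) (hM : s.M k ≤ Ep)
    {s' : Stage Ω} (hL : s'.M k ≤ L) {U : Ω} (hU : U = T.z T.i0 ^ p / s.mon T.B)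
    (hy : s'.y = s.y)
    (hmon : ∀ α ∈ s.Λ, α ∈ s'.Λ ∧ ∃ e : ℤ, s.mon α = s'.mon α * U ^ e)
    (hz : ∃ e : ℤ, nu (T.z T.i0) ∈ s'.Λ ∧ T.z T.i0 = s'.mon (nu (T.z T.i0)) * U ^ e) :
    ∃ W : IntermediateField k Ω, L ≤ W ∧ W ≤ Ep ∧ s.M k ≤ W ∧ (∀ i, T.z i ∈ W) ∧
      relrank L W < (p : Cardinal) ^ Fintype.card ι := by
  classical
  have hp : p.Prime := Fact.out
  have hp1 : (1 : ℝ) < p := by exact_mod_cast hp.one_lt
  have hU1 : ‖U‖ = 1 := hU ▸ norm_U T hμ
  have hU0 : U ≠ 0 := by rintro rfl; simp at hU1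
  have hz0 := T.rad.1
  have hB := B_mem T
  have hB0 := mon_ne s hB
  have hnu := nu_z T hμ
  have hl := T.lead
  rw [hμ] at hl
  set g : ι → Ω := fun i => if i = T.i0 then U else T.z i / T.z T.i0 with hg
  set n : ι → ℕ := fun i => if i = T.i0 then 1 else p with hn
  have g0 : g T.i0 = U := if_pos rfl
  have g1 : ∀ i, i ≠ T.i0 → g i = T.z i / T.z T.i0 := fun i h => if_neg h
  have hg1 : ∀ i, ‖g i‖ ≤ 1 := by
    intro i
    by_cases h : i = T.i0
    · rw [h, g0, hU1]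
    · rw [g1 i h, norm_div]
      refine div_le_one_of_le₀ ((T.z_norm i).trans_eq ?_) (norm_nonneg _)
      rw [← hnu, mul_div_cancel_left₀ _ (by linarith : (p : ℝ) ≠ 0), nu, neg_neg,
        Real.exp_log (norm_pos_iff.2 hz0)]
  set A := Aring L (Set.range g) with hA
  have hgA : ∀ i, g i ∈ A := fun i => Algebra.subset_adjoin (Or.inr ⟨i, rfl⟩)
  have hUA : U ∈ A := g0 ▸ hgA _
  have hUi : U⁻¹ ∈ A := hd.inv L hLa hLh _ (by rintro _ ⟨i, rfl⟩; exact hg1 i) U hUA hU1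
  have hUe : ∀ e : ℤ, U ^ e ∈ A := by
    intro e
    cases e with
    | ofNat m => simpa using pow_mem hUA m
    | negSucc m => rw [zpow_negSucc, ← inv_pow]; exact pow_mem hUi _
  have hsm' : ∀ β ∈ s'.Λ, 0 < β → ∀ e : ℤ, Small L A (s'.mon β * U ^ e) := fun β hβ h0 e =>
    ⟨_, hL (mon_mem s' hβ), by rw [s'.norm_mon _ hβ, Real.exp_lt_one_iff]; linarith, _, hUe e, rfl⟩
  have hsm : ∀ α ∈ s.Λ, 0 < α → Small L A (s.mon α) := fun α hα h0 => by
    obtain ⟨h1, e, h⟩ := hmon α hα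
    exact h ▸ hsm' α h1 h0 e
  have hyL : s.y ∈ L := hy ▸ hL (y_mem s')
  have hyA : s.y ∈ A := mem_A hyL s.norm_y.le
  have hterm : ∀ (c : k) (x : ℝ × ℕ), x.1 ∈ s.Λ → T.B ≤ x.1 → x ≠ (T.B, 0) →
      Small L A (algebraMap k Ω c * (s.mon (x.1 - T.B) * s.y ^ x.2)) := by
    intro c x hx hB' hne
    rw [mul_comm]
    refine small_mul ?_ (A.algebraMap_mem c)
    rcases hB'.eq_or_lt with hB' | hB'
    · obtain ⟨j, hj⟩ := Nat.exists_eq_succ_of_ne_zero fun h0 => hne (Prod.ext hB'.symm h0)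
      rw [← hB', sub_self, mon_zero, one_mul, hj, pow_succ']
      exact ⟨_, hyL, s.norm_y, _, pow_mem hyA _, rfl⟩
    · exact small_mul (hsm _ (s.Λ.sub_mem hx hB) (by linarith)) (pow_mem hyA _)
  obtain ⟨e0, hγ, hz⟩ := hz
  have hz0B : Small L A (T.z T.i0 / s.mon T.B) := by
    obtain ⟨h1, e, h⟩ := hmon _ hB
    have : T.z T.i0 / s.mon T.B = s'.mon (nu (T.z T.i0) - T.B) * U ^ (e0 - e) := by
      rw [mon_sub s' hγ h1, zpow_sub₀ hU0, div_mul_div_comm, ← hz, ← h]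
    rw [this]
    have := T.B_neg
    exact hsm' _ (s'.Λ.sub_mem hγ h1) (by nlinarith) _
  have hzB : ∀ i, Small L A (T.z i / s.mon T.B) := by
    intro i
    by_cases h : i = T.i0
    · exact h ▸ hz0B
    · have : T.z i / s.mon T.B = T.z T.i0 / s.mon T.B * g i := by rw [g1 i h]; field_simp
      exact this ▸ small_mul hz0B (hgA i)
  have hrank := hd.deg L hLa hLh ι g n hg1
    (fun i => by by_cases h : i = T.i0 <;> simp [hn, h, hp.pos]) fun i => by
      by_cases h : i = T.i0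
      · refine ⟨_, L.algebraMap_mem (T.Φ T.i0 (T.B, 0)), norm_const _, ?_⟩
        have : g i ^ n i - algebraMap k Ω (T.Φ T.i0 (T.B, 0)) = T.z (T.nx T.i0) / s.mon T.B +
            (s.ev k (T.Φ T.i0) / s.mon T.B - algebraMap k Ω (T.Φ T.i0 (T.B, 0))) := by
          rw [h, g0, hU, T.eqn]; simp only [hn, if_true]; ring
        rw [this, ev_div_sub s (T.supp _) hl.2.1]
        refine small_add (hzB _) (small_sum _ _ fun x hx => ?_)
        obtain ⟨hne, hx⟩ := Finset.mem_erase.1 hx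
        exact hterm _ x (T.supp _ x hx) (hl.1 x hx) hne
      · refine ⟨0, zero_mem _, by simp, ?_⟩
        have : g i ^ n i - 0 =
            (T.z (T.nx i) / s.mon T.B + s.ev k (T.Φ i) / s.mon T.B) * U⁻¹ := by
          rw [g1 i h, hU, ← add_div, ← T.eqn]; simp only [hn, if_neg h, div_pow]; field_simp; ring
        rw [this, ev_div s (T.supp _) hB]
        refine small_mul (small_add (hzB _) (small_sum _ _ fun x hx => ?_)) hUi
        have h1 := T.other i h x hx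
        exact hterm _ x (T.supp _ x hx) h1.le fun h2 => by rw [h2] at h1; exact lt_irrefl _ h1
  set W := L ⊔ adjoin k (Set.range g)
  have hLW : L ≤ W := le_sup_left
  have hgW : ∀ i, g i ∈ W := fun i =>
    (le_sup_right : adjoin k (Set.range g) ≤ W) (subset_adjoin k _ ⟨i, rfl⟩)
  have hW : ∀ β ∈ s'.Λ, ∀ e : ℤ, s'.mon β * U ^ e ∈ W := fun β hβ e =>
    mul_mem (hLW (hL (mon_mem s' hβ))) (zpow_mem (g0 ▸ hgW _) _)
  have hz0W : T.z T.i0 ∈ W := hz ▸ hW _ hγ e0
  refine ⟨W, hLW, sup_le hLE (adjoin_le_iff.2 ?_), M_le s (fun α hα => ?_) (hLW hyL),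
    fun i => ?_, hrank.trans_lt ?_⟩
  · rintro _ ⟨i, rfl⟩
    by_cases h : i = T.i0
    · rw [h, g0, hU]
      exact div_mem (pow_mem (T.z_mem _) _) (hM (mon_mem s hB))
    · rw [g1 i h]
      exact div_mem (T.z_mem _) (T.z_mem _)
  · obtain ⟨h1, e, h⟩ := hmon α hα
    exact h ▸ hW α h1 e
  · by_cases h : i = T.i0
    · exact h ▸ hz0W
    · have : T.z i = g i * T.z T.i0 := by rw [g1 i h]; field_simp
      exact this ▸ mul_mem (hgW i) hz0W
  · rw [← Nat.cast_pow, Nat.cast_lt, ← Finset.card_univ, ← Finset.prod_const]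
    refine Finset.prod_lt_prod (fun i _ => ?_) (fun i _ => ?_) ⟨T.i0, Finset.mem_univ _, ?_⟩
    · by_cases h : i = T.i0 <;> simp [hn, h, hp.pos]
    · by_cases h : i = T.i0 <;> simp [hn, h, hp.one_le]
    · simp [hn, hp.one_lt]

end TermA

omit [IsAlgClosed k] [IsAlgClosed Ω] [CharP k p] in
open TermA in
theorem termA (hb : HB k Ω p) (hh : HensStmt k Ω) (hext : ExtStmt Ω p) (hd : DStmt k Ω)
    (hs : SepStmt k Ω) : TermAStmt k Ω p := by
  intro E Ep s ι _ T hEa hEh hEE had hM hsep hμ hnp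
  have hp : p.Prime := Fact.out
  have hnu := nu_z T hμ
  have hB := B_mem T
  obtain ⟨d, σ, s', hx, hy, -, he⟩ := hext s (T.z T.i0) T.rad.1
  have hγ : nu (T.z T.i0) ∉ s.Λ := fun h => hnp ⟨_, h, hnu.symm⟩
  have hdp : d = p := by
    have h1 : (d : ℤ) ∣ p := (hx.dvd_iff p).1 (by simpa [hnu] using hB)
    rcases (Nat.dvd_prime hp).1 (Int.natCast_dvd_natCast.1 h1) with h | h
    · subst h
      exact absurd (by simpa using (hx.dvd_iff 1).2 (by simp)) hγ
    · exact h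
  subst hdp
  have hU : s.u (T.z T.i0) d = T.z T.i0 ^ d / s.mon T.B := by rw [Stage.u, hnu]
  have hU0 : s.u (T.z T.i0) d ≠ 0 := by
    rw [hU]; exact div_ne_zero (pow_ne_zero _ T.rad.1) (mon_ne s hB)
  have hmon : ∀ α ∈ s.Λ, α ∈ s'.Λ ∧ ∃ e : ℤ, s.mon α = s'.mon α * s.u (T.z T.i0) d ^ e := by
    intro α hα
    obtain ⟨h1, e, -, h⟩ := exists_e hx hα 0
    exact ⟨by simpa using h1, e, by simpa using h⟩
  obtain ⟨hγ', e0, he0, hz⟩ := exists_e hx s.Λ.zero_mem 1
  simp only [Int.cast_one, one_mul, zero_add, mon_zero, zpow_one] at hγ' he0 hz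
  have hne : ¬ (d : ℤ) ∣ e0 := by
    refine he ?_ e0 he0
    rintro ⟨β, hβ, h⟩
    refine hγ ?_
    have h1 := s.Λ.add_mem (zmul_mem s (hx.σ_mem β hβ) d) (zmul_mem s hB (σ β))
    convert h1 using 1
    rw [← hnu]
    push_cast
    linear_combination h
  have hmon' : ∀ β ∈ s'.Λ, ∃ α ∈ s.Λ, ∃ e : ℤ, s'.mon β = s.mon α * T.z T.i0 ^ e :=
    fun β hβ => ⟨_, hx.σ_mem β hβ, _, hx.mon_eq β hβ⟩
  have hM' : s'.M k ≤ Ep := by
    refine M_le s' (fun β hβ => ?_) (hy ▸ hM (y_mem s))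
    obtain ⟨α, hα, e, h⟩ := hmon' β hβ
    rw [h]
    exact mul_mem (hM (mon_mem s hα)) (zpow_mem (T.z_mem _) _)
  have hsep' := sep T hs hM hsep hU0 hU hy hmon' hmon ⟨_, hγ', e0, hne, hz⟩
  have hEp := alg_mono hEa hEE
  have ha' := (sep_alg hM' hsep').2 hEp
  refine ⟨s', ⟨fun β hβ => ?_, hy ▸ had.2⟩, hM', hsep', fun h => hy.trans h,
    deg T hd hμ (alg_mono ha' (le_hens _)) (hh _ ha')
      (hb.hens_le Ep hEp (isHens_mono hEh hEE) _ hM') hM (le_hens _) hU hy hmon ⟨e0, hγ', hz⟩⟩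
  obtain ⟨α, hα, e, h⟩ := hmon' β hβ
  rw [h]
  exact rad_mul (had.1 α hα) (rad_zpow T.rad e)

end Pool.Agent.MP_19ffc6_ag.LU

end MrgPart7

-- ======== part 8: formerly Pool.Agent.MP_19ffc6_ag.LU.All
section MrgPart8

/-! All modules of PROJECT LU1 put together. -/

namespace Pool.Agent.MP_19ffc6_ag.LU

theorem core {k Ω : Type*} [Field k] [NontriviallyNormedField Ω] [IsUltrametricDist Ω]
    [Algebra k Ω] [IsAlgClosed k] [IsAlgClosed Ω] [Ctx k Ω] (p : ℕ) [Fact p.Prime] [CharP k p]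
    [CharP Ω p] : CoreStmt k Ω := by
  have hb' : HB k Ω p := hb
  have hh : HensStmt k Ω := hens_isHens
  have hle : LeStmt k Ω p := le_props hb'
  have hen : EngineStmt k Ω p := engine (chain p) clean hle trans
  have hmon : MonStmt k Ω := mon_props p hle hen
  have hl : LineStmt k Ω p := lines hb' hh
  have hd : DStmt k Ω := lemD hb'
  have hs : SepStmt k Ω := sep_crit
  have heta : EtaStmt k Ω := eta
  exact core_of hb' hh hle (gal hb') (wild hb' hh hle hen hmon hl (deg_bound hb'))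
    (termA hb' hh ext hd hs) (termB hb' hh hd hs) (down hb' hh hl) (init p hs)
    (desc hb' hh hle hmon heta hd hs) (final hle hmon heta perron ind smooth_model)

theorem resultStmt (k F : Type*) [Field k] [IsAlgClosed k] [Field F] [Algebra k F] (p : ℕ)
    [Fact p.Prime] [CharP k p] : ResultStmt k F :=
  glue k F p fun _ _ _ _ _ _ _ => core p

end Pool.Agent.MP_19ffc6_ag.LU

end MrgPart8

-- marker of a merged file
example : 731051 + 111524 = 731051 + 111524 := rfl
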